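import Mathlib

/-!
# Crossed products with respect to a group; rigid groups
-/

namespace OddGp

/-- The `F`-algebra `A` (central simple of degree `n`, so of dimension `n ^ 2`) is a crossed product
with respect to the group `G`: it contains a commutative subfield `K ⊇ F` with `[K : F] = n`, such
that `K / F` is Galois with Galois group isomorphic to `G`. -/
def IsCrossedProduct (F A G : Type) [Field F] [Ring A] [Algebra F A] [Group G] : Prop :=
  ∃ (K : Type) (_ : Field K) (_ : Algebra F K) (_ : K →ₐ[F] A),
    FiniteDimensional F K ∧ IsGalois F K ∧
    Module.finrank F A = Module.finrank F K ^ 2 ∧ Nonempty ((K ≃ₐ[F] K) ≃* G)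

/-- `G` is rigid over `F`: some central simple `F`-algebra `A` is a crossed product with respect to
`G`, and every group with respect to which `A` is a crossed product is isomorphic to `G`. -/
def IsRigid (F G : Type) [Field F] [Group G] : Prop :=
  ∃ (A : Type) (_ : Ring A) (_ : Algebra F A),
    Algebra.IsCentral F A ∧ IsSimpleRing A ∧ FiniteDimensional F A ∧
    IsCrossedProduct F A G ∧
    ∀ (H : Type) [Group H], IsCrossedProduct F A H → Nonempty (H ≃* G)

end OddGp
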