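import Mathlib
import Pool.Agent.W_bec7e1.Central
import Pool.Agent.W_bec7e1.Cross
import Pool.Agent.W_bec7e1.Concrete
import Pool.Agent.W_bec7e1.GroupGp
import Pool.Agent.W_MP_bec7e1_h80.RigidDef

/-!
# `G_2 = C_4 ⋊ C_2` is rigid over a field containing a primitive fourth root of unity
-/

namespace OddGp

open W_bec7e1

/-- The abstract statement. -/
theorem rigid_of_datum {M : Type} [Field M] [CharZero M] (d : CData M) (hNR : d.NR) :
    IsRigid d.F (Gp 2) := by
  obtain ⟨e⟩ := Gp_two
  refine ⟨d.D, inferInstance, inferInstance, d.isCentral, d.isSimple, d.finite_D.1, ?_, ?_⟩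
  · obtain ⟨K, iK, aK, h1, h2, f, h3, ⟨h4⟩⟩ := d.exists_dihedral
    refine ⟨K, iK, aK, f, h1, h2, ?_, ⟨h4.trans e.symm⟩⟩
    rw [h3, d.finite_D.2]
    norm_num
  · rintro H _ ⟨K, iK, aK, f, h1, h2, h3, ⟨h4⟩⟩
    have h5 : Module.finrank d.F K = 8 := by
      rw [d.finite_D.2] at h3
      have h6 : Module.finrank d.F K ≤ 8 := by nlinarith
      interval_cases Module.finrank d.F K <;> omega
    obtain ⟨h7⟩ := d.main hNR K h5 f
    exact ⟨(h4.symm.trans h7).trans e.symm⟩

/-- The map from the constants to the fixed field `k`. -/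
noncomputable def constHom {C₀ : Type} [Field C₀] [CharZero C₀] {i : C₀} (hi : i * i = -1) :
    letI := fieldM4 hi
    C₀ →+* (datum hi).k :=
  letI := fieldM4 hi
  ((QExt.of SM).comp ((c14 (C₀ := C₀)).comp (RatFunc.C (K := C₀)))).codRestrict (datum hi).k
    (fun a => by
      constructor
      · change r4 hi (QExt.of SM (c14 (RatFunc.C a))) = _
        rw [r4, QExt.ext'_of, τ4_c14, τ1_C]
        rfl
      · change s4 i (QExt.of SM (c14 (RatFunc.C a))) = _
        rw [s4, QExt.ext'_of, ς4_c14, ς1_C]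
        rfl)

/-- For every field `C₀` of characteristic zero containing a primitive fourth root of unity `ζ`
there is an extension field `F` of `C₀` over which
`G_2 = ⟨x, y | x^4 = y^2 = 1, y x y⁻¹ = x^3⟩` is rigid. -/
theorem rigid_two (C₀ : Type) [Field C₀] [CharZero C₀] (ζ : C₀) (hζ : IsPrimitiveRoot ζ (2 ^ 2)) :
    ∃ (F : Type) (_ : Field F) (_ : Algebra C₀ F),
      IsPrimitiveRoot (algebraMap C₀ F ζ) (2 ^ 2) ∧ IsRigid F (Gp 2) := by
  have hi : ζ * ζ = -1 := by
    have h4 : ζ ^ 4 = 1 := hζ.pow_eq_one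
    have h2 : ζ ^ 2 ≠ 1 := fun h => by
      have := hζ.dvd_of_pow_eq_one 2 h
      omega
    have h : (ζ ^ 2 - 1) * (ζ ^ 2 + 1) = 0 := by linear_combination h4
    have h' := (mul_eq_zero.1 h).resolve_left (sub_ne_zero.2 h2)
    linear_combination h'
  letI := fieldM4 hi
  haveI := charZero_M4 hi
  let a : Algebra C₀ (datum hi).F :=
    (((HahnSeries.C : (datum hi).F₁ →+* LaurentSeries (datum hi).F₁).comp
      (HahnSeries.C : (datum hi).k →+* LaurentSeries (datum hi).k)).comp (constHom hi)).toAlgebra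
  refine ⟨(datum hi).F, inferInstance, a, ?_, rigid_of_datum (datum hi) (datum_NR hi)⟩
  exact hζ.map_of_injective (RingHom.injective _)

end OddGp
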