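import Mathlib

/-!
# Crossed products
-/

namespace OddGp

open Finset

/-- normalized 2-cocycles -/
structure Coc (G K : Type) [Group G] [Field K] [MulSemiringAction G K] where
  /-- the cocycle -/
  c : G → G → K
  ne : ∀ g h, c g h ≠ 0
  one_left : ∀ g, c 1 g = 1
  one_right : ∀ g, c g 1 = 1
  coc : ∀ g h l, c g h * c (g * h) l = (g • c h l) * c g (h * l)

/-- The crossed product: a function `f` stands for `∑ g, f g * u g`, with
`u g * a = (g • a) * u g` and `u g * u h = c g h * u (g * h)`. -/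
structure CP {G K : Type} [Group G] [Field K] [MulSemiringAction G K] (c : Coc G K) where
  /-- the coefficients -/
  f : G → K

namespace CP

variable {G K : Type} [Group G] [Field K] [MulSemiringAction G K] {c : Coc G K}

@[ext] theorem ext {a b : CP c} (h : ∀ g, a.f g = b.f g) : a = b := by
  cases a; cases b; congr; funext g; exact h g

instance : Zero (CP c) := ⟨⟨fun _ => 0⟩⟩
instance : Add (CP c) := ⟨fun a b => ⟨fun g => a.f g + b.f g⟩⟩
instance : Neg (CP c) := ⟨fun a => ⟨fun g => -a.f g⟩⟩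
instance : Sub (CP c) := ⟨fun a b => ⟨fun g => a.f g - b.f g⟩⟩

@[simp] theorem zero_f (g : G) : (0 : CP c).f g = 0 := rfl
@[simp] theorem add_f (a b : CP c) (g : G) : (a + b).f g = a.f g + b.f g := rfl
@[simp] theorem neg_f (a : CP c) (g : G) : (-a).f g = -a.f g := rfl
@[simp] theorem sub_f (a b : CP c) (g : G) : (a - b).f g = a.f g - b.f g := rfl

instance : AddCommGroup (CP c) where
  add_assoc a b d := by ext g; simp [add_assoc]
  zero_add a := by ext g; simp
  add_zero a := by ext g; simp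
  add_comm a b := by ext g; simp [add_comm]
  neg_add_cancel a := by ext g; simp
  sub_eq_add_neg a b := by ext g; simp [sub_eq_add_neg]
  nsmul := nsmulRec
  zsmul := zsmulRec

theorem sum_f {ι : Type} (s : Finset ι) (F : ι → CP c) (g : G) :
    (∑ i ∈ s, F i).f g = ∑ i ∈ s, (F i).f g := by
  classical
  induction s using Finset.induction_on with
  | empty => simp
  | insert a s ha ih => rw [Finset.sum_insert ha, Finset.sum_insert ha, add_f, ih]

variable [DecidableEq G]

/-- the monomial `a u_g` -/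
def sg (c : Coc G K) (g : G) (a : K) : CP c := ⟨fun h => if h = g then a else 0⟩

theorem sg_f (g h : G) (a : K) : (sg c g a).f h = if h = g then a else 0 := rfl

@[simp] theorem sg_f_self (g : G) (a : K) : (sg c g a).f g = a := by rw [sg_f, if_pos rfl]

theorem sg_f_ne {g h : G} (hh : h ≠ g) (a : K) : (sg c g a).f h = 0 := by rw [sg_f, if_neg hh]

theorem sg_add (g : G) (a b : K) : sg c g (a + b) = sg c g a + sg c g b := by
  ext h; rw [add_f, sg_f, sg_f, sg_f]; split_ifs <;> simp

theorem sg_zero (g : G) : sg c g 0 = 0 := by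
  ext h; rw [sg_f, zero_f]; split_ifs <;> rfl

theorem sg_injective (g : G) : Function.Injective (sg c g) := fun a b h => by
  have := congrArg (fun s => s.f g) h
  simpa using this

instance : One (CP c) := ⟨sg c 1 1⟩

theorem one_def : (1 : CP c) = sg c 1 1 := rfl

variable [Fintype G]

instance : Mul (CP c) :=
  ⟨fun a b => ⟨fun l => ∑ g, a.f g * (g • b.f (g⁻¹ * l)) * c.c g (g⁻¹ * l)⟩⟩

theorem mul_f (a b : CP c) (l : G) :
    (a * b).f l = ∑ g, a.f g * (g • b.f (g⁻¹ * l)) * c.c g (g⁻¹ * l) := rfl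

theorem sg_mul_f (g : G) (a : K) (b : CP c) (l : G) :
    (sg c g a * b).f l = a * (g • b.f (g⁻¹ * l)) * c.c g (g⁻¹ * l) := by
  rw [mul_f, Finset.sum_eq_single g]
  · rw [sg_f_self]
  · intro h _ hh
    rw [sg_f_ne hh]; simp
  · intro h; exact absurd (Finset.mem_univ _) h

theorem mul_sg_f (g : G) (a : K) (b : CP c) (l : G) :
    (b * sg c g a).f l = b.f (l * g⁻¹) * ((l * g⁻¹) • a) * c.c (l * g⁻¹) g := by
  rw [mul_f, Finset.sum_eq_single (l * g⁻¹)]
  · have h : (l * g⁻¹)⁻¹ * l = g := by group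
    rw [h, sg_f_self]
  · intro h _ hh
    have h2 : h⁻¹ * l ≠ g := by
      intro h3
      apply hh
      rw [← h3]; group
    rw [sg_f_ne h2]; simp
  · intro h; exact absurd (Finset.mem_univ _) h

theorem sg_mul_sg (g h : G) (a b : K) :
    sg c g a * sg c h b = sg c (g * h) (a * (g • b) * c.c g h) := by
  ext l
  rw [sg_mul_f, sg_f, sg_f]
  by_cases hl : l = g * h
  · have h1 : g⁻¹ * l = h := by rw [hl]; group
    rw [if_pos h1, if_pos hl, h1]
  · have h1 : g⁻¹ * l ≠ h := by
      intro h2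
      apply hl
      rw [← h2]; group
    rw [if_neg h1, if_neg hl]; simp

theorem mul_assoc' (a b d : CP c) : a * b * d = a * (b * d) := by
  ext l
  rw [mul_f, mul_f]
  have h1 : ∀ h, (a * b).f h * (h • d.f (h⁻¹ * l)) * c.c h (h⁻¹ * l) =
      ∑ g, a.f g * (g • (b.f (g⁻¹ * h) * ((g⁻¹ * h) • d.f (h⁻¹ * l)) *
        c.c (g⁻¹ * h) (h⁻¹ * l))) * c.c g (g⁻¹ * l) := by
    intro h
    rw [mul_f, Finset.sum_mul, Finset.sum_mul]
    apply Finset.sum_congr rfl
    intro g _
    have h2 := c.coc g (g⁻¹ * h) (h⁻¹ * l)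
    have e1 : g * (g⁻¹ * h) = h := by group
    have e2 : g⁻¹ * h * (h⁻¹ * l) = g⁻¹ * l := by group
    rw [e1, e2] at h2
    rw [smul_mul', smul_mul', smul_smul, e1]
    linear_combination (a.f g * (g • b.f (g⁻¹ * h)) * (h • d.f (h⁻¹ * l))) * h2
  rw [Finset.sum_congr rfl (fun h _ => h1 h), Finset.sum_comm]
  apply Finset.sum_congr rfl
  intro g _
  rw [mul_f, Finset.smul_sum, Finset.mul_sum, Finset.sum_mul]
  apply Fintype.sum_equiv (Equiv.mulLeft g⁻¹)
  intro h
  have e1 : (Equiv.mulLeft g⁻¹) h = g⁻¹ * h := rfl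
  have e2 : (g⁻¹ * h)⁻¹ * (g⁻¹ * l) = h⁻¹ * l := by group
  rw [e1, e2]

instance : Ring (CP c) where
  __ := (inferInstance : AddCommGroup (CP c))
  mul_assoc := mul_assoc'
  one_mul a := by
    ext l
    rw [one_def, sg_mul_f, one_smul, inv_one, one_mul, one_mul, c.one_left, mul_one]
  mul_one a := by
    ext l
    rw [one_def, mul_sg_f, inv_one, mul_one, smul_one, mul_one, c.one_right, mul_one]
  left_distrib a b d := by
    ext l
    rw [add_f, mul_f, mul_f, mul_f, ← Finset.sum_add_distrib]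
    apply Finset.sum_congr rfl
    intro g _
    rw [add_f, smul_add]; ring
  right_distrib a b d := by
    ext l
    rw [add_f, mul_f, mul_f, mul_f, ← Finset.sum_add_distrib]
    apply Finset.sum_congr rfl
    intro g _
    rw [add_f]; ring
  zero_mul a := by
    ext l
    rw [mul_f, zero_f]
    apply Finset.sum_eq_zero
    intro g _
    simp
  mul_zero a := by
    ext l
    rw [mul_f, zero_f]
    apply Finset.sum_eq_zero
    intro g _
    simp

/-- `K → CP c` -/
def of (c : Coc G K) : K →+* CP c where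
  toFun a := sg c 1 a
  map_one' := rfl
  map_mul' a b := by
    rw [sg_mul_sg, one_smul, c.one_right, mul_one, mul_one]
  map_zero' := sg_zero 1
  map_add' a b := sg_add 1 a b

theorem of_apply (a : K) : of c a = sg c 1 a := rfl

theorem of_injective : Function.Injective (of c) := sg_injective 1

/-- the basis element `u g` -/
def u (c : Coc G K) (g : G) : CP c := sg c g 1

theorem u_def (g : G) : u c g = sg c g 1 := rfl

theorem u_one : u c 1 = 1 := rfl

theorem of_mul_sg (g : G) (a b : K) : of c a * sg c g b = sg c g (a * b) := by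
  rw [of_apply, sg_mul_sg, one_smul, c.one_left, mul_one, one_mul]

theorem of_mul_u (g : G) (a : K) : of c a * u c g = sg c g a := by
  rw [u_def, of_mul_sg, mul_one]

theorem sg_mul_of (g : G) (a b : K) : sg c g a * of c b = sg c g (a * (g • b)) := by
  rw [of_apply, sg_mul_sg, mul_one, c.one_right, mul_one]

theorem u_mul_of (g : G) (a : K) : u c g * of c a = of c (g • a) * u c g := by
  rw [of_mul_u, u_def, sg_mul_of, one_mul]

theorem u_mul_u (g h : G) : u c g * u c h = of c (c.c g h) * u c (g * h) := by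
  rw [of_mul_u, u_def, u_def, sg_mul_sg, smul_one, one_mul, one_mul]

theorem of_mul_f (a : K) (b : CP c) (g : G) : (of c a * b).f g = a * b.f g := by
  rw [of_apply, sg_mul_f, inv_one, one_mul, one_smul, c.one_left, mul_one]

theorem mul_of_f (a : K) (b : CP c) (g : G) : (b * of c a).f g = b.f g * (g • a) := by
  rw [of_apply, mul_sg_f, inv_one, mul_one, c.one_right, mul_one]

theorem eq_sum (a : CP c) : a = ∑ g, of c (a.f g) * u c g := by
  ext l
  rw [sum_f, Finset.sum_eq_single l]
  · rw [of_mul_u, sg_f_self]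
  · intro h _ hh
    rw [of_mul_u, sg_f_ne (Ne.symm hh)]
  · intro h; exact absurd (Finset.mem_univ _) h

theorem u_unit (g : G) : IsUnit (u c g) := by
  have h1 : ∀ h : G, ∃ v, v * u c h = 1 := by
    intro h
    refine ⟨of c (c.c h⁻¹ h)⁻¹ * u c h⁻¹, ?_⟩
    rw [mul_assoc, u_mul_u, ← mul_assoc, ← map_mul, inv_mul_cancel₀ (c.ne _ _), map_one, one_mul,
      inv_mul_cancel, u_one]
  obtain ⟨v, hv⟩ := h1 g
  have h2 : ∃ w, u c g * w = 1 := by
    refine ⟨of c (g⁻¹ • (c.c g g⁻¹)⁻¹) * u c g⁻¹, ?_⟩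
    rw [← mul_assoc, u_mul_of, smul_smul, mul_inv_cancel, one_smul, mul_assoc, u_mul_u,
      ← mul_assoc, ← map_mul, inv_mul_cancel₀ (c.ne _ _), map_one, one_mul, mul_inv_cancel, u_one]
  obtain ⟨w, hw⟩ := h2
  have h3 : v = w := by
    calc v = v * (u c g * w) := by rw [hw, mul_one]
      _ = w := by rw [← mul_assoc, hv, one_mul]
  rw [← h3] at hw
  exact ⟨⟨u c g, v, hw, hv⟩, rfl⟩

instance : Nontrivial (CP c) := ⟨⟨0, 1, fun h => zero_ne_one (α := K) (by
  have := congrArg (fun s : CP c => s.f 1) h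
  simpa [one_def] using this)⟩⟩

theorem nsmul_f (n : ℕ) (a : CP c) (g : G) : (n • a).f g = n • a.f g := by
  induction n with
  | zero => simp
  | succ n ih => rw [succ_nsmul, succ_nsmul, add_f, ih]

end CP

end OddGp
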