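import Mathlib

/-!
# The groups `GG p ≅ C_{p²} ⋊ C_p` and `GA p = (Z/p)²`
-/

namespace OddGp

/-- the carry of `a + b` in base `p` -/
def cy {p : ℕ} (a b : ZMod p) : ℕ := (a.val + b.val) / p

section cy

variable {p : ℕ} [NeZero p]

theorem cy_add_val (a b : ZMod p) : p * cy a b + (a + b).val = a.val + b.val := by
  rw [ZMod.val_add, cy]
  exact Nat.div_add_mod _ _

omit [NeZero p] in
theorem cy_comm (a b : ZMod p) : cy a b = cy b a := by
  rw [cy, cy, add_comm]

@[simp] theorem cy_zero_right (a : ZMod p) : cy a 0 = 0 := by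
  rw [cy, ZMod.val_zero, add_zero]
  exact Nat.div_eq_of_lt (ZMod.val_lt a)

@[simp] theorem cy_zero_left (a : ZMod p) : cy 0 a = 0 := by
  rw [cy_comm, cy_zero_right]

theorem cy_assoc (a b c : ZMod p) : cy a b + cy (a + b) c = cy b c + cy a (b + c) := by
  have h1 := cy_add_val a b
  have h2 := cy_add_val (a + b) c
  have h3 := cy_add_val b c
  have h4 := cy_add_val a (b + c)
  rw [add_assoc] at h2
  have hp : 0 < p := Nat.pos_of_ne_zero (NeZero.ne p)
  have h5 : p * (cy a b + cy (a + b) c) = p * (cy b c + cy a (b + c)) := by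
    rw [mul_add, mul_add]
    omega
  exact Nat.eq_of_mul_eq_mul_left hp h5

end cy

/-- The group `GG p`: triples `(k, i, j)`, standing for `z ^ k * x ^ i * y ^ j`. -/
@[ext] structure GG (p : ℕ) where
  /-- exponent of `z = x ^ p` -/
  k : ZMod p
  /-- exponent of `x` -/
  i : ZMod p
  /-- exponent of `y` -/
  j : ZMod p
  deriving DecidableEq

/-- The group `GA p = GG p / ⟨z⟩`: pairs `(i, j)`. -/
@[ext] structure GA (p : ℕ) where
  /-- exponent of `x` -/
  i : ZMod p
  /-- exponent of `y` -/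
  j : ZMod p
  deriving DecidableEq

namespace GA

variable {p : ℕ}

instance : Mul (GA p) := ⟨fun a b => ⟨a.i + b.i, a.j + b.j⟩⟩
instance : One (GA p) := ⟨⟨0, 0⟩⟩
instance : Inv (GA p) := ⟨fun a => ⟨-a.i, -a.j⟩⟩

@[simp] theorem mul_i (a b : GA p) : (a * b).i = a.i + b.i := rfl
@[simp] theorem mul_j (a b : GA p) : (a * b).j = a.j + b.j := rfl
@[simp] theorem one_i : (1 : GA p).i = 0 := rfl
@[simp] theorem one_j : (1 : GA p).j = 0 := rfl
@[simp] theorem inv_i (a : GA p) : (a⁻¹).i = -a.i := rfl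
@[simp] theorem inv_j (a : GA p) : (a⁻¹).j = -a.j := rfl

instance : CommGroup (GA p) where
  mul_assoc a b c := by ext <;> simp [add_assoc]
  one_mul a := by ext <;> simp
  mul_one a := by ext <;> simp
  inv_mul_cancel a := by ext <;> simp
  mul_comm a b := by ext <;> simp [add_comm]

/-- `GA p` as a product -/
def equivProd (p : ℕ) : GA p ≃ ZMod p × ZMod p where
  toFun a := (a.i, a.j)
  invFun a := ⟨a.1, a.2⟩
  left_inv _ := rfl
  right_inv _ := rfl

instance [NeZero p] : Fintype (GA p) := Fintype.ofEquiv _ (equivProd p).symm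

theorem card (p : ℕ) [NeZero p] : Fintype.card (GA p) = p ^ 2 := by
  rw [Fintype.card_congr (equivProd p), Fintype.card_prod, ZMod.card, sq]

/-- the image of `x` -/
def x : GA p := ⟨1, 0⟩
/-- the image of `y` -/
def y : GA p := ⟨0, 1⟩

@[simp] theorem x_i : (x : GA p).i = 1 := rfl
@[simp] theorem x_j : (x : GA p).j = 0 := rfl
@[simp] theorem y_i : (y : GA p).i = 0 := rfl
@[simp] theorem y_j : (y : GA p).j = 1 := rfl

theorem pow_i (a : GA p) (n : ℕ) : (a ^ n).i = n * a.i := by
  induction n with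
  | zero => simp
  | succ n ih => rw [pow_succ, mul_i, ih]; push_cast; ring

theorem pow_j (a : GA p) (n : ℕ) : (a ^ n).j = n * a.j := by
  induction n with
  | zero => simp
  | succ n ih => rw [pow_succ, mul_j, ih]; push_cast; ring

theorem pow_p (a : GA p) : a ^ p = 1 := by
  ext
  · rw [pow_i, one_i, ZMod.natCast_self, zero_mul]
  · rw [pow_j, one_j, ZMod.natCast_self, zero_mul]

end GA

/-- the 2-cocycle `f((i,j),(i',j')) = j i' + cy(i,i')` -/
def ff {p : ℕ} (a b : GA p) : ZMod p := a.j * b.i + (cy a.i b.i : ℕ)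

theorem ff_assoc {p : ℕ} [NeZero p] (a b c : GA p) :
    ff a b + ff (a * b) c = ff b c + ff a (b * c) := by
  have h := congrArg (Nat.cast : ℕ → ZMod p) (cy_assoc a.i b.i c.i)
  push_cast at h
  simp only [ff, GA.mul_i, GA.mul_j]
  linear_combination h

namespace GG

variable {p : ℕ}

/-- `GG p → GA p` -/
def bar (a : GG p) : GA p := ⟨a.i, a.j⟩

@[simp] theorem bar_i (a : GG p) : (bar a).i = a.i := rfl
@[simp] theorem bar_j (a : GG p) : (bar a).j = a.j := rfl

instance : Mul (GG p) := ⟨fun a b => ⟨a.k + b.k + ff (bar a) (bar b), a.i + b.i, a.j + b.j⟩⟩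
instance : One (GG p) := ⟨⟨0, 0, 0⟩⟩
instance : Inv (GG p) := ⟨fun a => ⟨-a.k - ff (bar a)⁻¹ (bar a), -a.i, -a.j⟩⟩

@[simp] theorem mul_k (a b : GG p) : (a * b).k = a.k + b.k + ff (bar a) (bar b) := rfl
@[simp] theorem mul_i (a b : GG p) : (a * b).i = a.i + b.i := rfl
@[simp] theorem mul_j (a b : GG p) : (a * b).j = a.j + b.j := rfl
@[simp] theorem one_k : (1 : GG p).k = 0 := rfl
@[simp] theorem one_i : (1 : GG p).i = 0 := rfl
@[simp] theorem one_j : (1 : GG p).j = 0 := rfl
@[simp] theorem inv_k (a : GG p) : (a⁻¹).k = -a.k - ff (bar a)⁻¹ (bar a) := rfl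
@[simp] theorem inv_i (a : GG p) : (a⁻¹).i = -a.i := rfl
@[simp] theorem inv_j (a : GG p) : (a⁻¹).j = -a.j := rfl

theorem bar_mul' (a b : GG p) : bar (a * b) = bar a * bar b := rfl

@[simp] theorem ff_one_left [NeZero p] (a : GA p) : ff 1 a = 0 := by simp [ff]
@[simp] theorem ff_one_right [NeZero p] (a : GA p) : ff a 1 = 0 := by simp [ff]
@[simp] theorem bar_inv (a : GG p) : bar a⁻¹ = (bar a)⁻¹ := rfl
@[simp] theorem bar_one : bar (1 : GG p) = 1 := rfl

instance [NeZero p] : Group (GG p) where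
  mul_assoc a b c := by
    ext
    · have h := ff_assoc (bar a) (bar b) (bar c)
      simp only [mul_k, bar_mul']
      linear_combination h
    · simp [add_assoc]
    · simp [add_assoc]
  one_mul a := by
    ext
    · simp
    · simp
    · simp
  mul_one a := by
    ext
    · simp
    · simp
    · simp
  inv_mul_cancel a := by
    ext
    · simp only [mul_k, inv_k, bar_inv, one_k]
      ring
    · simp
    · simp

/-- `GG p` as a product -/
def equivProd (p : ℕ) : GG p ≃ ZMod p × ZMod p × ZMod p where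
  toFun a := (a.k, a.i, a.j)
  invFun a := ⟨a.1, a.2.1, a.2.2⟩
  left_inv _ := rfl
  right_inv _ := rfl

instance [NeZero p] : Fintype (GG p) := Fintype.ofEquiv _ (equivProd p).symm

theorem card (p : ℕ) [NeZero p] : Fintype.card (GG p) = p ^ 3 := by
  rw [Fintype.card_congr (equivProd p), Fintype.card_prod, Fintype.card_prod, ZMod.card]
  ring

/-- the projection `GG p → GA p` -/
def barHom (p : ℕ) [NeZero p] : GG p →* GA p where
  toFun := bar
  map_one' := rfl
  map_mul' _ _ := rfl

@[simp] theorem barHom_apply [NeZero p] (a : GG p) : barHom p a = bar a := rfl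

/-- `x` -/
def x : GG p := ⟨0, 1, 0⟩
/-- `y` -/
def y : GG p := ⟨0, 0, 1⟩
/-- `z = x ^ p` -/
def z : GG p := ⟨1, 0, 0⟩

@[simp] theorem x_k : (x : GG p).k = 0 := rfl
@[simp] theorem x_i : (x : GG p).i = 1 := rfl
@[simp] theorem x_j : (x : GG p).j = 0 := rfl
@[simp] theorem y_k : (y : GG p).k = 0 := rfl
@[simp] theorem y_i : (y : GG p).i = 0 := rfl
@[simp] theorem y_j : (y : GG p).j = 1 := rfl
@[simp] theorem z_k : (z : GG p).k = 1 := rfl
@[simp] theorem z_i : (z : GG p).i = 0 := rfl
@[simp] theorem z_j : (z : GG p).j = 0 := rfl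

@[simp] theorem bar_x : bar (x : GG p) = GA.x := rfl
@[simp] theorem bar_y : bar (y : GG p) = GA.y := rfl
@[simp] theorem bar_z : bar (z : GG p) = 1 := rfl

variable [NeZero p]

theorem z_mul (a : GG p) : z * a = ⟨a.k + 1, a.i, a.j⟩ := by
  ext
  · simp [add_comm]
  · simp
  · simp

theorem mul_z (a : GG p) : a * z = ⟨a.k + 1, a.i, a.j⟩ := by
  ext
  · simp
  · simp
  · simp

theorem z_comm (a : GG p) : z * a = a * z := by rw [z_mul, mul_z]

theorem z_pow (n : ℕ) : (z : GG p) ^ n = ⟨n, 0, 0⟩ := by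
  induction n with
  | zero => ext <;> simp
  | succ n ih => rw [pow_succ, mul_z, ih]; ext <;> simp

theorem z_pow_p : (z : GG p) ^ p = 1 := by
  rw [z_pow]
  ext <;> simp

theorem y_mul_x : (y : GG p) * x = z * (x * y) := by
  rw [z_mul]
  ext
  · simp [ff]
  · simp
  · simp

/-- every element is `z ^ k x ^ i y ^ j` -/
theorem ext_bar {a b : GG p} (h : bar a = bar b) : ∃ n : ℕ, a = z ^ n * b := by
  refine ⟨(a.k - b.k).val, ?_⟩
  rw [z_pow]
  have h1 : a.i = b.i := congrArg GA.i h
  have h2 : a.j = b.j := congrArg GA.j h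
  have h3 : ff (bar (⟨((a.k - b.k).val : ℕ), 0, 0⟩ : GG p)) (bar b) = 0 := ff_one_left (bar b)
  ext
  · rw [mul_k, h3]
    simp
  · simp [h1]
  · simp [h2]

theorem y_pow (n : ℕ) : (y : GG p) ^ n = ⟨0, 0, n⟩ := by
  induction n with
  | zero => ext <;> simp
  | succ n ih => rw [pow_succ, ih]; ext <;> simp [ff]

theorem y_pow_p : (y : GG p) ^ p = 1 := by
  rw [y_pow]
  ext <;> simp

end GG

namespace GG

variable {p : ℕ} [Fact p.Prime]

theorem x_pow (n : ℕ) : (x : GG p) ^ n = ⟨(n / p : ℕ), n, 0⟩ := by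
  induction n with
  | zero => ext <;> simp
  | succ n ih =>
    rw [pow_succ, ih]
    ext
    · have h1 : ((n : ZMod p)).val = n % p := ZMod.val_natCast _ _
      have h2 : (1 : ZMod p).val = 1 % p := by
        have := ZMod.val_natCast p 1
        simpa using this
      have h3 : (n + 1) / p = n / p + (n % p + 1 % p) / p := by
        have hp : 0 < p := Nat.pos_of_ne_zero (NeZero.ne p)
        rcases Nat.lt_or_ge 1 p with h | h
        · rw [Nat.mod_eq_of_lt h]
          conv_lhs => rw [← Nat.div_add_mod n p, add_assoc, Nat.mul_add_div hp]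
        · exact absurd (Fact.out : p.Prime).one_lt (by omega)
      simp only [mul_k, x_k, bar, ff, x_i, x_j, cy, h1, h2]
      rw [h3]
      push_cast
      ring
    · simp
    · simp

theorem x_pow_p : (x : GG p) ^ p = z := by
  rw [x_pow]
  have hp : 0 < p := Nat.pos_of_ne_zero (NeZero.ne p)
  ext
  · simp [Nat.div_self hp]
  · simp
  · simp

end GG

end OddGp
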