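import Mathlib

/-!
# Homogeneous Hahn series
-/

namespace OddGp

open HahnSeries

/-- A family of additive subgroups of `R` indexed by a group, compatible with products. -/
structure Grad (Δ R : Type) [Group Δ] [Ring R] where
  /-- the homogeneous components -/
  comp : Δ → AddSubgroup R
  one_mem : (1 : R) ∈ comp 1
  mul_mem : ∀ {i j a b}, a ∈ comp i → b ∈ comp j → a * b ∈ comp (i * j)

/-- products of nonzero homogeneous elements are nonzero -/
def Grad.NZ {Δ R : Type} [Group Δ] [Ring R] (gr : Grad Δ R) : Prop :=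
  ∀ ⦃i j a b⦄, a ∈ gr.comp i → b ∈ gr.comp j → a ≠ 0 → b ≠ 0 → a * b ≠ 0

variable {V : Type} [AddCommGroup V] [LinearOrder V] [IsOrderedAddMonoid V]

/-- The ring of homogeneous Hahn series: the coefficient at `v` has degree `dg v`. -/
def HH {Δ R : Type} [Group Δ] [Ring R] (gr : Grad Δ R) (dg : Multiplicative V →* Δ) :
    Subring (HahnSeries V R) where
  carrier := {f | ∀ v, f.coeff v ∈ gr.comp (dg (Multiplicative.ofAdd v))}
  mul_mem' := by
    intro a b ha hb v
    rw [coeff_mul]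
    apply AddSubgroup.sum_mem
    rintro ⟨i, j⟩ hij
    rw [Finset.mem_antidiagonal] at hij
    obtain ⟨_, _, h3⟩ := hij
    simp only at h3
    have h := gr.mul_mem (ha i) (hb j)
    rw [← map_mul, ← ofAdd_add, h3] at h
    exact h
  one_mem' := by
    intro v
    rw [coeff_one]
    split_ifs with h
    · rw [h, ofAdd_zero, map_one]
      exact gr.one_mem
    · exact AddSubgroup.zero_mem _
  add_mem' := by
    intro a b ha hb v
    rw [coeff_add]
    exact AddSubgroup.add_mem _ (ha v) (hb v)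
  zero_mem' := by
    intro v
    rw [coeff_zero]
    exact AddSubgroup.zero_mem _
  neg_mem' := by
    intro a ha v
    rw [coeff_neg]
    exact AddSubgroup.neg_mem _ (ha v)

theorem mem_HH {Δ R : Type} [Group Δ] [Ring R] {gr : Grad Δ R} {dg : Multiplicative V →* Δ}
    {f : HahnSeries V R} :
    f ∈ HH gr dg ↔ ∀ v, f.coeff v ∈ gr.comp (dg (Multiplicative.ofAdd v)) := Iff.rfl

/-- A subring of a Hahn series ring in which leading coefficients multiply. -/
def LCM {R : Type} [Ring R] (H : Subring (HahnSeries V R)) : Prop :=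
  ∀ ⦃a b⦄, a ∈ H → b ∈ H → a ≠ 0 → b ≠ 0 → a.leadingCoeff * b.leadingCoeff ≠ 0

theorem lc_mem {Δ R : Type} [Group Δ] [Ring R] {gr : Grad Δ R} {dg : Multiplicative V →* Δ}
    {f : HahnSeries V R} (hf : f ∈ HH gr dg) :
    f.leadingCoeff ∈ gr.comp (dg (Multiplicative.ofAdd f.order)) := by
  rw [leadingCoeff_eq]
  exact hf _

theorem HH_LCM {Δ R : Type} [Group Δ] [Ring R] {gr : Grad Δ R} {dg : Multiplicative V →* Δ}
    (h : gr.NZ) : LCM (HH gr dg) := fun _ _ ha hb ha0 hb0 =>
  h (lc_mem ha) (lc_mem hb) (leadingCoeff_ne_zero.2 ha0) (leadingCoeff_ne_zero.2 hb0)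

section LCM

variable {R : Type} [Ring R] {H : Subring (HahnSeries V R)}

theorem LCM.mul_ne_zero (h : LCM H) {a b : HahnSeries V R} (ha : a ∈ H) (hb : b ∈ H)
    (ha0 : a ≠ 0) (hb0 : b ≠ 0) : a * b ≠ 0 := by
  have h1 := h ha hb ha0 hb0
  intro h2
  have h3 := leadingCoeff_mul_of_ne_zero h1
  rw [h2, leadingCoeff_zero] at h3
  exact h1 h3.symm

theorem LCM.leadingCoeff_mul (h : LCM H) {a b : HahnSeries V R} (ha : a ∈ H) (hb : b ∈ H) :
    (a * b).leadingCoeff = a.leadingCoeff * b.leadingCoeff := by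
  by_cases ha0 : a = 0
  · simp [ha0]
  by_cases hb0 : b = 0
  · simp [hb0]
  exact leadingCoeff_mul_of_ne_zero (h ha hb ha0 hb0)

theorem LCM.order_mul (h : LCM H) {a b : HahnSeries V R} (ha : a ∈ H) (hb : b ∈ H)
    (ha0 : a ≠ 0) (hb0 : b ≠ 0) : (a * b).order = a.order + b.order :=
  order_mul_of_ne_zero (h ha hb ha0 hb0)

theorem LCM.noZeroDivisors (h : LCM H) : NoZeroDivisors H := by
  constructor
  intro a b hab
  by_contra hc
  push Not at hc
  have ha : (a : HahnSeries V R) ≠ 0 := fun h' => hc.1 (Subtype.ext h')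
  have hb : (b : HahnSeries V R) ≠ 0 := fun h' => hc.2 (Subtype.ext h')
  exact h.mul_ne_zero a.2 b.2 ha hb (congrArg Subtype.val hab)

theorem LCM.leadingCoeff_pow (h : LCM H) {a : HahnSeries V R} (ha : a ∈ H) (n : ℕ) :
    (a ^ n).leadingCoeff = a.leadingCoeff ^ n := by
  induction n with
  | zero =>
    rw [pow_zero, pow_zero, leadingCoeff_eq, order_one, coeff_one, if_pos rfl]
  | succ n ih =>
    rw [pow_succ, pow_succ, h.leadingCoeff_mul (pow_mem ha n) ha, ih]

theorem LCM.pow_ne_zero (h : LCM H) {a : HahnSeries V R} (ha : a ∈ H) (ha0 : a ≠ 0) (n : ℕ)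
    [Nontrivial R] : a ^ n ≠ 0 := by
  induction n with
  | zero => rw [pow_zero]; exact one_ne_zero
  | succ n ih => rw [pow_succ]; exact h.mul_ne_zero (pow_mem ha n) ha ih ha0

theorem LCM.order_pow (h : LCM H) [Nontrivial R] {a : HahnSeries V R} (ha : a ∈ H)
    (ha0 : a ≠ 0) (n : ℕ) : (a ^ n).order = n • a.order := by
  induction n with
  | zero => rw [pow_zero, order_one, zero_nsmul]
  | succ n ih =>
    rw [pow_succ, h.order_mul (pow_mem ha n) ha (h.pow_ne_zero ha ha0 n) ha0, ih, succ_nsmul]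

end LCM

end OddGp
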