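import Mathlib
import Pool.Agent.W_MP_bec7e1_h80.Grp
import Pool.Agent.W_MP_bec7e1_h80.Cross
import Pool.Agent.W_MP_bec7e1_h80.HH

/-!
# The algebra `D`
-/

namespace OddGp

open HahnSeries

noncomputable section

/-- lexicographic `ℤ²` -/
abbrev VV : Type := ℤ ×ₗ ℤ

/-- reduction modulo `p` -/
def dgV (p : ℕ) : Multiplicative VV →* GA p where
  toFun v := ⟨((ofLex (Multiplicative.toAdd v)).1 : ZMod p),
    ((ofLex (Multiplicative.toAdd v)).2 : ZMod p)⟩
  map_one' := by ext <;> simp
  map_mul' a b := by ext <;> simp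

theorem dgV_apply (p : ℕ) (v : VV) :
    dgV p (Multiplicative.ofAdd v) = ⟨((ofLex v).1 : ZMod p), ((ofLex v).2 : ZMod p)⟩ := rfl

theorem dgV_eq_one (p : ℕ) (v : VV) :
    dgV p (Multiplicative.ofAdd v) = 1 ↔ ∃ w : VV, v = p • w := by
  rw [dgV_apply]
  constructor
  · intro h
    have h1 : ((ofLex v).1 : ZMod p) = 0 := congrArg GA.i h
    have h2 : ((ofLex v).2 : ZMod p) = 0 := congrArg GA.j h
    rw [ZMod.intCast_zmod_eq_zero_iff_dvd] at h1 h2
    obtain ⟨a, ha⟩ := h1
    obtain ⟨b, hb⟩ := h2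
    refine ⟨toLex (a, b), ?_⟩
    have h3 : p • (toLex (a, b) : VV) = toLex (p • (a, b)) := rfl
    rw [h3]
    apply ofLex.injective
    rw [ofLex_toLex]
    ext
    · rw [Prod.smul_fst, ha]; simp
    · rw [Prod.smul_snd, hb]; simp
  · rintro ⟨w, rfl⟩
    ext
    · simp
    · simp

theorem dgV_surjective (p : ℕ) : Function.Surjective (dgV p) := by
  rintro ⟨i, j⟩
  refine ⟨Multiplicative.ofAdd (toLex ((i.cast : ℤ), (j.cast : ℤ))), ?_⟩
  rw [dgV_apply]
  ext <;> simp

/-- multiplication by `p` on `VV` -/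
def sc (p : ℕ) : VV →+ VV := (nsmulAddMonoidHom p : VV →+ VV)

@[simp] theorem sc_apply (p : ℕ) (v : VV) : sc p v = p • v := rfl

theorem sc_injective (p : ℕ) [NeZero p] : Function.Injective (sc p) := by
  intro a b h
  exact nsmul_right_injective (NeZero.ne p) h

theorem sc_le (p : ℕ) [NeZero p] (a b : VV) : sc p a ≤ sc p b ↔ a ≤ b := by
  rw [sc_apply, sc_apply]
  exact nsmul_le_nsmul_iff_right (NeZero.ne p)

section D

variable {p : ℕ} [Fact p.Prime] {K : Type} [Field K] [MulSemiringAction (GG p) K]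

/-- the `GA p`-grading of the crossed product -/
def grB (c : Coc (GG p) K) : Grad (GA p) (CP c) where
  comp γ :=
    { carrier := {a | ∀ g, GG.bar g ≠ γ → a.f g = 0}
      add_mem' := fun {a b} ha hb g hg => by rw [CP.add_f, ha g hg, hb g hg, add_zero]
      zero_mem' := fun g _ => rfl
      neg_mem' := fun {a} ha g hg => by rw [CP.neg_f, ha g hg, neg_zero] }
  one_mem := fun g hg => by
    rw [CP.one_def, CP.sg_f_ne]
    rintro rfl
    exact hg rfl
  mul_mem := fun {i j a b} ha hb g hg => by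
    rw [CP.mul_f]
    apply Finset.sum_eq_zero
    intro h _
    by_cases h1 : GG.bar h = i
    · have h2 : GG.bar (h⁻¹ * g) ≠ j := by
        intro h3
        apply hg
        rw [← h1, ← h3, ← GG.bar_mul']
        congr 1
        group
      rw [hb _ h2, smul_zero, mul_zero, zero_mul]
    · rw [ha _ h1, zero_mul, zero_mul]

theorem mem_grB {c : Coc (GG p) K} {γ : GA p} {a : CP c} :
    a ∈ (grB c).comp γ ↔ ∀ g, GG.bar g ≠ γ → a.f g = 0 := Iff.rfl

/-- The division algebra `D` (if `B_0` is a domain). -/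
def DD (c : Coc (GG p) K) : Subring (HahnSeries VV (CP c)) := HH (grB c) (dgV p)

theorem mem_DD {c : Coc (GG p) K} {a : HahnSeries VV (CP c)} :
    a ∈ DD c ↔ ∀ v g, GG.bar g ≠ dgV p (Multiplicative.ofAdd v) → (a.coeff v).f g = 0 := Iff.rfl

/-- coefficientwise ring hom -/
def hmap {R R' V : Type} [Ring R] [Ring R'] [AddCommGroup V] [LinearOrder V]
    [IsOrderedAddMonoid V] (f : R →+* R') : HahnSeries V R →+* HahnSeries V R' where
  toFun x := x.map f
  map_one' := HahnSeries.map_one f.toMonoidWithZeroHom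
  map_zero' := by ext n; simp
  map_add' x y := by ext n; simp
  map_mul' x y := by
    exact HahnSeries.map_mul f.toNonUnitalRingHom (x := x) (y := y)

@[simp] theorem hmap_coeff {R R' V : Type} [Ring R] [Ring R'] [AddCommGroup V] [LinearOrder V]
    [IsOrderedAddMonoid V] (f : R →+* R') (x : HahnSeries V R) (v : V) :
    (hmap f x).coeff v = f (x.coeff v) := rfl

/-- the coefficientwise action of `GG p` on `K((V))` -/
instance actKV : MulSemiringAction (GG p) (HahnSeries VV K) where
  __ := (inferInstance : DistribMulAction (GG p) (HahnSeries VV K))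
  smul_one g := by
    change g • (1 : HahnSeries VV K) = 1
    ext v
    rw [coeff_smul, coeff_one]
    split_ifs
    · exact smul_one g
    · exact smul_zero g
  smul_mul g a b := by
    change g • (a * b) = (g • a) * (g • b)
    have h : ∀ x : HahnSeries VV K,
        g • x = hmap (V := VV) (MulSemiringAction.toRingHom (GG p) K g) x := fun x => rfl
    rw [h, h, h, map_mul]

theorem act_coeff (g : GG p) (x : HahnSeries VV K) (v : VV) : (g • x).coeff v = g • x.coeff v := rfl

/-- the ground field `F = k((V))`, `k = K ^ G` -/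
abbrev FF (p : ℕ) [Fact p.Prime] (K : Type) [Field K] [MulSemiringAction (GG p) K] : Type :=
  FixedPoints.subfield (GG p) (HahnSeries VV K)

theorem FF_coeff (a : FF p K) (v : VV) (g : GG p) :
    g • (a : HahnSeries VV K).coeff v = (a : HahnSeries VV K).coeff v := by
  have h := a.2 g
  exact congrArg (fun s : HahnSeries VV K => s.coeff v) h

/-- `K((V)) → B((V))`, exponents multiplied by `p` -/
def jK' (c : Coc (GG p) K) : HahnSeries VV K →+* HahnSeries VV (CP c) :=
  (embDomainRingHom (sc p) (sc_injective p) (sc_le p)).comp (hmap (CP.of c))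

theorem jK'_coeff_sc (c : Coc (GG p) K) (a : HahnSeries VV K) (v : VV) :
    (jK' c a).coeff (p • v) = CP.of c (a.coeff v) := by
  have h := embDomain_coeff (f := ⟨⟨sc p, sc_injective p⟩, sc_le p _ _⟩)
    (x := hmap (CP.of c) a) (a := v)
  exact h

theorem jK'_coeff_ne (c : Coc (GG p) K) (a : HahnSeries VV K) (v : VV)
    (hv : dgV p (Multiplicative.ofAdd v) ≠ 1) : (jK' c a).coeff v = 0 := by
  apply embDomain_of_notMem_range
  rintro ⟨w, hw⟩
  apply hv
  rw [dgV_eq_one]
  exact ⟨w, hw.symm⟩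

theorem jK'_mem (c : Coc (GG p) K) (a : HahnSeries VV K) : jK' c a ∈ DD c := by
  rw [mem_DD]
  intro v g hg
  by_cases hv : dgV p (Multiplicative.ofAdd v) = 1
  · obtain ⟨w, rfl⟩ := (dgV_eq_one p v).1 hv
    rw [jK'_coeff_sc, CP.of_apply, CP.sg_f_ne]
    rintro rfl
    exact hg hv.symm
  · rw [jK'_coeff_ne c a v hv, CP.zero_f]

/-- `K((V)) → D` -/
def jK (c : Coc (GG p) K) : HahnSeries VV K →+* DD c :=
  (jK' c).codRestrict (DD c) (jK'_mem c)

theorem jK_coe (c : Coc (GG p) K) (a : HahnSeries VV K) :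
    ((jK c a : DD c) : HahnSeries VV (CP c)) = jK' c a := rfl

/-- series whose coefficients commute, commute -/
theorem hahn_comm {R V : Type} [Ring R] [AddCommGroup V] [LinearOrder V] [IsOrderedAddMonoid V]
    {a b : HahnSeries V R} (h : ∀ v w, a.coeff v * b.coeff w = b.coeff w * a.coeff v) :
    a * b = b * a := by
  ext v
  rw [coeff_mul, coeff_mul]
  refine Finset.sum_bij' (fun x _ => (x.2, x.1)) (fun x _ => (x.2, x.1)) ?_ ?_ ?_ ?_ ?_
  · rintro ⟨i, j⟩ hij
    rw [Finset.mem_antidiagonal] at hij ⊢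
    exact ⟨hij.2.1, hij.1, by rw [add_comm]; exact hij.2.2⟩
  · rintro ⟨i, j⟩ hij
    rw [Finset.mem_antidiagonal] at hij ⊢
    exact ⟨hij.2.1, hij.1, by rw [add_comm]; exact hij.2.2⟩
  · rintro ⟨i, j⟩ _; rfl
  · rintro ⟨i, j⟩ _; rfl
  · rintro ⟨i, j⟩ _; exact h i j

theorem CP_of_central {c : Coc (GG p) K} {a : K} (ha : ∀ g : GG p, g • a = a) (b : CP c) :
    CP.of c a * b = b * CP.of c a := by
  ext g
  rw [CP.of_mul_f, CP.mul_of_f, ha, mul_comm]

theorem jK_comm (c : Coc (GG p) K) (a : FF p K) (d : DD c) :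
    (jK c (a : HahnSeries VV K)) * d = d * jK c (a : HahnSeries VV K) := by
  apply Subtype.ext
  change jK' c a * (d : HahnSeries VV (CP c)) = (d : HahnSeries VV (CP c)) * jK' c a
  apply hahn_comm
  intro v w
  by_cases hv : dgV p (Multiplicative.ofAdd v) = 1
  · obtain ⟨u, rfl⟩ := (dgV_eq_one p v).1 hv
    rw [jK'_coeff_sc]
    exact CP_of_central (fun g => FF_coeff a u g) _
  · rw [jK'_coeff_ne c _ v hv, zero_mul, mul_zero]

instance algD (c : Coc (GG p) K) : Algebra (FF p K) (DD c) :=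
  RingHom.toAlgebra' ((jK c).comp (FixedPoints.subfield (GG p) (HahnSeries VV K)).subtype)
    (fun a d => jK_comm c a d)

theorem algebraMap_D (c : Coc (GG p) K) (a : FF p K) :
    ((algebraMap (FF p K) (DD c) a : DD c) : HahnSeries VV (CP c)) = jK' c a := rfl

/-- `K((V)) → D` as an `F`-algebra hom -/
def jKalg (c : Coc (GG p) K) : HahnSeries VV K →ₐ[FF p K] DD c :=
  { jK c with commutes' := fun _ => rfl }

end D

end

end OddGp
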