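import Mathlib
import Pool.Agent.W_MP_bec7e1_h80.DDef

/-!
# Twisted substitutions `∑ l_n φ^n ↦ ∑ X(l_n) μ^n φ^n`
-/

namespace OddGp

open HahnSeries

noncomputable section

variable {L : Type} [Field L]

/-- underlying series of `tw` -/
def twFun (X : L →+* L) (μ : Lˣ) (f : LaurentSeries L) : LaurentSeries L where
  coeff n := X (f.coeff n) * ((μ ^ n : Lˣ) : L)
  isPWO_support' := by
    apply f.isPWO_support.mono
    intro n hn
    rw [Function.mem_support] at hn
    rw [mem_support]
    intro h
    apply hn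
    rw [h, map_zero, zero_mul]

theorem twFun_support (X : L →+* L) (μ : Lˣ) (f : LaurentSeries L) :
    (twFun X μ f).support = f.support := by
  ext n
  rw [mem_support, mem_support]
  change X (f.coeff n) * ((μ ^ n : Lˣ) : L) ≠ 0 ↔ _
  constructor
  · intro h h'
    apply h
    rw [h', map_zero, zero_mul]
  · intro h
    exact mul_ne_zero ((map_ne_zero X).2 h) (Units.ne_zero _)

/-- The ring endomorphism `∑ l_n φ^n ↦ ∑ X(l_n) μ^n φ^n` of `L((φ))`. -/
def tw (X : L →+* L) (μ : Lˣ) : LaurentSeries L →+* LaurentSeries L where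
  toFun := twFun X μ
  map_one' := by
    ext n
    change X ((1 : LaurentSeries L).coeff n) * ((μ ^ n : Lˣ) : L) = (1 : LaurentSeries L).coeff n
    rw [coeff_one]
    split_ifs with h
    · rw [h, map_one, zpow_zero, Units.val_one, mul_one]
    · rw [map_zero, zero_mul]
  map_zero' := by
    ext n
    change X ((0 : LaurentSeries L).coeff n) * ((μ ^ n : Lˣ) : L) = (0 : LaurentSeries L).coeff n
    rw [coeff_zero, map_zero, zero_mul]
  map_add' f g := by
    ext n
    change X ((f + g).coeff n) * ((μ ^ n : Lˣ) : L) = X (f.coeff n) * ((μ ^ n : Lˣ) : L) +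
      X (g.coeff n) * ((μ ^ n : Lˣ) : L)
    rw [coeff_add, map_add, add_mul]
  map_mul' f g := by
    ext n
    change X ((f * g).coeff n) * ((μ ^ n : Lˣ) : L) = (twFun X μ f * twFun X μ g).coeff n
    rw [coeff_mul, coeff_mul, map_sum, Finset.sum_mul]
    have hs : ∀ (s t : Set ℤ) (hs : s.IsPWO) (ht : t.IsPWO) (s' t' : Set ℤ) (hs' : s'.IsPWO)
        (ht' : t'.IsPWO), s = s' → t = t' →
        Finset.antidiagonal hs ht n = Finset.antidiagonal hs' ht' n := by
      intro s t hs ht s' t' hs' ht' h1 h2
      subst h1; subst h2; rfl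
    rw [hs _ _ (twFun X μ f).isPWO_support (twFun X μ g).isPWO_support _ _ f.isPWO_support
      g.isPWO_support (twFun_support X μ f) (twFun_support X μ g)]
    apply Finset.sum_congr rfl
    rintro ⟨i, j⟩ hij
    rw [Finset.mem_antidiagonal] at hij
    obtain ⟨_, _, h3⟩ := hij
    simp only at h3
    change X (f.coeff i * g.coeff j) * ((μ ^ n : Lˣ) : L) =
      X (f.coeff i) * ((μ ^ i : Lˣ) : L) * (X (g.coeff j) * ((μ ^ j : Lˣ) : L))
    rw [← h3, zpow_add, Units.val_mul, map_mul]
    ring

@[simp] theorem tw_coeff (X : L →+* L) (μ : Lˣ) (f : LaurentSeries L) (n : ℤ) :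
    (tw X μ f).coeff n = X (f.coeff n) * ((μ ^ n : Lˣ) : L) := rfl

theorem tw_single (X : L →+* L) (μ : Lˣ) (n : ℤ) (a : L) :
    tw X μ (single n a) = single n (X a * ((μ ^ n : Lˣ) : L)) := by
  ext m
  rw [tw_coeff, coeff_single, coeff_single]
  split_ifs with h
  · rw [h]
  · rw [map_zero, zero_mul]

theorem tw_order (X : L →+* L) (μ : Lˣ) (f : LaurentSeries L) : (tw X μ f).order = f.order := by
  by_cases hf : f = 0
  · rw [hf, map_zero]
  · have h0 : tw X μ f ≠ 0 := (map_ne_zero (tw X μ)).2 hf
    apply le_antisymm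
    · apply order_le_of_coeff_ne_zero
      rw [tw_coeff]
      apply mul_ne_zero _ (Units.ne_zero _)
      rw [map_ne_zero]
      exact fun h => hf (coeff_order_eq_zero.1 h)
    · apply order_le_of_coeff_ne_zero
      intro h
      apply h0
      rw [← coeff_order_eq_zero, tw_coeff, h, map_zero, zero_mul]

theorem tw_leadingCoeff (X : L →+* L) (μ : Lˣ) (f : LaurentSeries L) :
    (tw X μ f).leadingCoeff = X f.leadingCoeff * ((μ ^ f.order : Lˣ) : L) := by
  rw [leadingCoeff_eq, tw_order, tw_coeff, ← leadingCoeff_eq]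

theorem hmap_order {R R' V : Type} [Ring R] [Ring R'] [AddCommGroup V] [LinearOrder V]
    [IsOrderedAddMonoid V] (f : R →+* R') (hf : Function.Injective f) (x : HahnSeries V R) :
    (hmap f x).order = x.order := by
  by_cases hx : x = 0
  · rw [hx, map_zero, order_zero, order_zero]
  · have h1 : f (x.coeff x.order) ≠ 0 := by
      intro h
      exact hx (coeff_order_eq_zero.1 (hf (by rw [h, map_zero])))
    have h0 : hmap f x ≠ 0 := by
      intro h
      apply h1
      have := congrArg (fun s : HahnSeries V R' => s.coeff x.order) h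
      exact this
    apply le_antisymm
    · exact order_le_of_coeff_ne_zero h1
    · apply order_le_of_coeff_ne_zero
      intro h
      apply h0
      rw [← coeff_order_eq_zero, hmap_coeff, h, map_zero]

theorem hmap_leadingCoeff {R R' V : Type} [Ring R] [Ring R'] [AddCommGroup V] [LinearOrder V]
    [IsOrderedAddMonoid V] (f : R →+* R') (hf : Function.Injective f) (x : HahnSeries V R) :
    (hmap f x).leadingCoeff = f x.leadingCoeff := by
  rw [leadingCoeff_eq, hmap_order f hf, hmap_coeff, ← leadingCoeff_eq]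

theorem hmap_hmap {R R' R'' V : Type} [Ring R] [Ring R'] [Ring R''] [AddCommGroup V]
    [LinearOrder V] [IsOrderedAddMonoid V] (f : R →+* R') (g : R' →+* R'') (x : HahnSeries V R) :
    hmap g (hmap f x) = hmap (g.comp f) x := by
  ext v; rfl

end

end OddGp
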