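import Mathlib
import Pool.Agent.W_MP_bec7e1_h80.Tw

/-!
# Abstract definitions: Kummer pairs, local output, bad data, local embeddings
-/

namespace OddGp

open HahnSeries Finset

noncomputable section

/-- `N / L` is cyclic of degree `p`, generated by `δ`, with Kummer generator `ν`:
`δ ν = ζ⁻¹ ν`, `ν ^ p = nn`. -/
structure Kum (p : ℕ) {L N : Type} [Field L] [Field N] (em : L →+* N) (δ : N →+* N)
    (ζ nn : L) (ν : N) : Prop where
  prim : IsPrimitiveRoot ζ p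
  ord : ∀ a, δ^[p] a = a
  em_fix : ∀ b, δ (em b) = em b
  fix : ∀ a, δ a = a → ∃ b, em b = a
  ν0 : ν ≠ 0
  δν : em ζ * δ ν = ν
  νp : ν ^ p = em nn

/-- Claim A for the automorphism `X` of `L`. -/
def ClaimA (p : ℕ) {L N : Type} [Field L] [Field N] (em : L →+* N) (δ : N →+* N)
    (ζ : L) (X : L →+* L) : Prop :=
  ∀ (l m : L) (q : N) (a : ℤ), l ≠ 0 → m ≠ 0 → q ≠ 0 → em l = ∏ t ∈ range p, δ^[t] q →
    X l = m ^ p * l → ∏ t ∈ range p, X^[t] m = ζ ^ a → ζ ^ a = 1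

/-- Claim B for the automorphisms `X`, `Y` of `L`. -/
def ClaimB (p : ℕ) {L N : Type} [Field L] [Field N] (em : L →+* N) (δ : N →+* N)
    (ζ : L) (X Y : L →+* L) : Prop :=
  ∀ (l mx my : L) (q : N) (κ : ℤ), l ≠ 0 → mx ≠ 0 → my ≠ 0 → q ≠ 0 →
    em l = ∏ t ∈ range p, δ^[t] q → X l = mx ^ p * l → Y l = my ^ p * l →
    ∏ t ∈ range p, X^[t] mx = 1 → ∏ t ∈ range p, Y^[t] my = 1 →
    mx * X my = ζ ^ κ * (my * Y mx) → (p : ℤ) ∣ κ

/-- The outcome of the local analysis of bad data. -/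
def LocOut (p : ℕ) {L N : Type} [Field L] [Field N] (em : L →+* N) (δ : N →+* N)
    (ζ : L) (X Y : L →+* L) (αx αy κ : ℤ) : Prop :=
  ∃ (j : ℤ) (l mx my : L) (q : N), l ≠ 0 ∧ mx ≠ 0 ∧ my ≠ 0 ∧ q ≠ 0 ∧
    X l = mx ^ p * l ∧ Y l = my ^ p * l ∧
    ∏ t ∈ range p, X^[t] mx = ζ ^ (αx - j) ∧ ∏ t ∈ range p, Y^[t] my = ζ ^ αy ∧
    mx * X my = ζ ^ (κ + j) * (my * Y mx) ∧
    ((¬ (p : ℤ) ∣ j ∧ em l = ∏ t ∈ range p, δ^[t] q) ∨
      ((p : ℤ) ∣ j ∧ em l = q ^ p ∧ ∀ b, em b ≠ q))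

section Glob

variable {p : ℕ} [Fact p.Prime] {K : Type} [Field K] [MulSemiringAction (GG p) K]

/-- `Q = B_0` -/
def QQ (c : Coc (GG p) K) : Subring (CP c) where
  carrier := {a | a ∈ (grB c).comp 1}
  mul_mem' := fun {a b} ha hb => by
    have := (grB c).mul_mem ha hb
    rw [one_mul] at this
    exact this
  one_mem' := (grB c).one_mem
  add_mem' := fun {a b} ha hb => AddSubgroup.add_mem ((grB c).comp 1) ha hb
  zero_mem' := AddSubgroup.zero_mem ((grB c).comp 1)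
  neg_mem' := fun {a} ha => AddSubgroup.neg_mem ((grB c).comp 1) ha

theorem mem_QQ {c : Coc (GG p) K} {a : CP c} :
    a ∈ QQ c ↔ ∀ g, GG.bar g ≠ 1 → a.f g = 0 := Iff.rfl

/-- `u_z ^ p = of (YY c)` -/
def YY (c : Coc (GG p) K) : K := ∏ t ∈ range p, c.c (GG.z ^ t) GG.z

/-- Bad data: a candidate for a maximal subfield with the wrong group. -/
def BadType (c : Coc (GG p) K) (ζ : K) (αx αy κ : ℤ) : Prop :=
  ∃ (q : CP c) (lam mx my : K),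
    q ∈ QQ c ∧ (∀ a : K, (GG.z : GG p) • a = a → CP.of c a ≠ q) ∧
    lam ≠ 0 ∧ mx ≠ 0 ∧ my ≠ 0 ∧
    (GG.z : GG p) • lam = lam ∧ (GG.z : GG p) • mx = mx ∧ (GG.z : GG p) • my = my ∧
    q ^ p = CP.of c lam ∧
    (GG.x : GG p) • lam = mx ^ p * lam ∧ (GG.y : GG p) • lam = my ^ p * lam ∧
    ∏ t ∈ range p, ((GG.x : GG p) ^ t) • mx = ζ ^ αx ∧
    ∏ t ∈ range p, ((GG.y : GG p) ^ t) • my = ζ ^ αy ∧
    mx * ((GG.x : GG p) • my) = ζ ^ κ * (my * ((GG.y : GG p) • mx))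

/-- A local embedding of `K`. -/
structure LocEmb (c : Coc (GG p) K) (ζK : K) {L : Type} [Field L] (ζ : Lˣ) (nn : L)
    (X Y : L →+* L) (μx μy : Lˣ) where
  /-- the embedding -/
  ι : K →+* LaurentSeries (LaurentSeries L)
  /-- the `p`-th root of `ι (YY c) / nn` -/
  E : LaurentSeries (LaurentSeries L)
  hζ : ι ζK = HahnSeries.C (HahnSeries.C (ζ : L))
  hx : ∀ a, ι ((GG.x : GG p) • a) = hmap (tw X μx) (ι a)
  hy : ∀ a, ι ((GG.y : GG p) • a) = hmap (tw Y μy) (ι a)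
  hz : ∀ a, ι ((GG.z : GG p) • a) = hmap (tw (RingHom.id L) ζ) (ι a)
  hE : hmap (tw (RingHom.id L) ζ) E = E
  hY : ι (YY c) = HahnSeries.C (HahnSeries.C nn) * E ^ p

end Glob

end

end OddGp
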