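import Mathlib
import Pool.Agent.W_MP_bec7e1_h80.Grp

/-!
# The lattices of circulations
-/

namespace OddGp

open Finset

section Circ

variable {G : Type} [Group G] [Fintype G]

/-- Circulations on the Cayley graph of `G`: `m g h` is the flow along the edge `g → g * h`
(no loops). -/
def Circ (G : Type) [Group G] [Fintype G] : AddSubgroup (G → G → ℤ) where
  carrier := {m | (∀ g, m g 1 = 0) ∧ ∀ g, ∑ h, m g h = ∑ h, m (g * h⁻¹) h}
  add_mem' := by
    rintro a b ⟨ha, ha'⟩ ⟨hb, hb'⟩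
    refine ⟨fun g => by simp [ha g, hb g], fun g => ?_⟩
    simp only [Pi.add_apply, Finset.sum_add_distrib, ha' g, hb' g]
  zero_mem' := ⟨fun _ => rfl, fun _ => rfl⟩
  neg_mem' := by
    rintro a ⟨ha, ha'⟩
    refine ⟨fun g => by simp [ha g], fun g => ?_⟩
    simp only [Pi.neg_apply, Finset.sum_neg_distrib, ha' g]

theorem Circ.one (m : Circ G) (g : G) : m.1 g 1 = 0 := m.2.1 g

theorem Circ.flow (m : Circ G) (g : G) : ∑ h, m.1 g h = ∑ h, m.1 (g * h⁻¹) h := m.2.2 g

/-- the fundamental identity: `∑ m(g,h) F(gh) = ∑ m(g,h) F(g)` -/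
theorem Circ.sum_eq {M : Type} [AddCommGroup M] (m : Circ G) (F : G → M) :
    ∑ g, ∑ h, m.1 g h • F (g * h) = ∑ g, ∑ h, m.1 g h • F g := by
  have h1 : ∑ g, ∑ h, m.1 g h • F (g * h) = ∑ g, ∑ h, m.1 (g * h⁻¹) h • F g := by
    rw [Finset.sum_comm]
    conv_rhs => rw [Finset.sum_comm]
    apply Finset.sum_congr rfl
    intro h _
    apply Fintype.sum_equiv (Equiv.mulRight h)
    intro g
    rw [Equiv.coe_mulRight, mul_inv_cancel_right]
  rw [h1]
  apply Finset.sum_congr rfl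
  intro g _
  rw [← Finset.sum_smul, ← Finset.sum_smul, Circ.flow m g]

/-- `G` acts on circulations: `(a • m)(g, h) = m(a⁻¹ g, h)`. -/
instance : DistribMulAction G (Circ G) where
  smul a m := ⟨fun g h => m.1 (a⁻¹ * g) h, fun g => Circ.one m _, fun g => by
    have h1 := Circ.flow m (a⁻¹ * g)
    simp only [mul_assoc] at h1 ⊢
    exact h1⟩
  one_smul m := by
    apply Subtype.ext
    funext g h
    change m.1 (1⁻¹ * g) h = m.1 g h
    rw [inv_one, one_mul]
  mul_smul a b m := by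
    apply Subtype.ext
    funext g h
    change m.1 ((a * b)⁻¹ * g) h = m.1 (b⁻¹ * (a⁻¹ * g)) h
    rw [mul_inv_rev, mul_assoc]
  smul_zero a := rfl
  smul_add a m n := rfl

theorem Circ.smul_val (a : G) (m : Circ G) (g h : G) : (a • m).1 g h = m.1 (a⁻¹ * g) h := rfl

/-- the linear functional `m ↦ ∑ m(g,h) F(g,h)` -/
def esum (F : G → G → ℤ) : Circ G →+ ℤ where
  toFun m := ∑ g, ∑ h, m.1 g h * F g h
  map_zero' := by simp
  map_add' m n := by
    rw [← Finset.sum_add_distrib]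
    apply Finset.sum_congr rfl
    intro g _
    rw [← Finset.sum_add_distrib]
    apply Finset.sum_congr rfl
    intro h _
    change (m.1 g h + n.1 g h) * F g h = _
    ring

theorem esum_apply (F : G → G → ℤ) (m : Circ G) : esum F m = ∑ g, ∑ h, m.1 g h * F g h := rfl

theorem esum_smul (F : G → G → ℤ) (a : G) (m : Circ G) :
    esum F (a • m) = esum (fun g h => F (a * g) h) m := by
  rw [esum_apply, esum_apply]
  symm
  apply Fintype.sum_equiv (Equiv.mulLeft a)
  intro g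
  apply Finset.sum_congr rfl
  intro h _
  rw [Circ.smul_val, Equiv.coe_mulLeft, inv_mul_cancel_left]

/-- potentials have zero circulation -/
theorem esum_pot (F : G → ℤ) (m : Circ G) : esum (fun g h => F (g * h) - F g) m = 0 := by
  have h1 := Circ.sum_eq m F
  rw [esum_apply]
  simp only [smul_eq_mul] at h1
  simp only [mul_sub, Finset.sum_sub_distrib]
  rw [h1, sub_self]

variable [DecidableEq G]

/-- the edge `g → g * h` (zero if it is a loop) -/
def edge (g h : G) : G → G → ℤ := fun a b => if a = g ∧ b = h ∧ h ≠ 1 then 1 else 0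

omit [Fintype G] in
theorem edge_one (g h a : G) : edge g h a 1 = 0 := by
  rw [edge]
  split_ifs with h1
  · exact absurd h1.2.1.symm h1.2.2
  · rfl

theorem edge_out (g h a : G) : ∑ b, edge g h a b = if a = g ∧ h ≠ 1 then 1 else 0 := by
  rw [Finset.sum_eq_single h]
  · simp [edge]
  · intro b _ hb
    simp [edge, hb]
  · intro h'; exact absurd (Finset.mem_univ _) h'

theorem edge_in (g h a : G) : ∑ b, edge g h (a * b⁻¹) b = if a = g * h ∧ h ≠ 1 then 1 else 0 := by
  rw [Finset.sum_eq_single h]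
  · have h2 : (a * h⁻¹ = g ∧ h = h ∧ h ≠ 1) ↔ (a = g * h ∧ h ≠ 1) := by
      rw [mul_inv_eq_iff_eq_mul]; tauto
    rw [edge]
    exact if_congr h2 rfl rfl
  · intro b _ hb
    simp [edge, hb]
  · intro h'; exact absurd (Finset.mem_univ _) h'

/-- out minus in -/
def dv (m : G → G → ℤ) (a : G) : ℤ := ∑ h, m a h - ∑ h, m (a * h⁻¹) h

omit [DecidableEq G] in
theorem mem_Circ {m : G → G → ℤ} : m ∈ Circ G ↔ (∀ g, m g 1 = 0) ∧ ∀ g, dv m g = 0 := by
  constructor
  · rintro ⟨h1, h2⟩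
    exact ⟨h1, fun g => sub_eq_zero.2 (h2 g)⟩
  · rintro ⟨h1, h2⟩
    exact ⟨h1, fun g => sub_eq_zero.1 (h2 g)⟩

theorem dv_edge (g h a : G) : dv (edge g h) a = (if a = g then 1 else 0) -
    (if a = g * h then 1 else 0) := by
  rw [dv, edge_out, edge_in]
  by_cases hh : h = 1
  · subst hh; simp
  · simp [hh]

omit [DecidableEq G] in
theorem dv_add (m n : G → G → ℤ) (a : G) : dv (m + n) a = dv m a + dv n a := by
  simp only [dv, Pi.add_apply, Finset.sum_add_distrib]; ring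

omit [DecidableEq G] in
theorem dv_sub (m n : G → G → ℤ) (a : G) : dv (m - n) a = dv m a - dv n a := by
  simp only [dv, Pi.sub_apply, Finset.sum_sub_distrib]; ring

/-- The triangle `1 → g → g h`, minus `1 → g h`. -/
def cc (g h : G) : Circ G := ⟨edge 1 g + edge g h - edge 1 (g * h), by
  rw [mem_Circ]
  refine ⟨fun a => ?_, fun a => ?_⟩
  · simp only [Pi.sub_apply, Pi.add_apply, edge_one, add_zero, sub_zero]
  · rw [dv_sub, dv_add, dv_edge, dv_edge, dv_edge]
    simp only [one_mul]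
    ring⟩

theorem cc_val (g h : G) : (cc g h).1 = edge 1 g + edge g h - edge 1 (g * h) := rfl

omit [Fintype G] in
theorem smul_edge (a g h b d : G) : edge g h (a⁻¹ * b) d = edge (a * g) h b d := by
  simp only [edge, inv_mul_eq_iff_eq_mul]

omit [Fintype G] in
theorem edge_loop (g : G) : edge g 1 = 0 := by
  funext a b; simp [edge]

theorem cc_one_left (g : G) : cc 1 g = 0 := by
  apply Subtype.ext
  rw [cc_val, edge_loop, zero_add, one_mul, sub_self]; rfl

theorem cc_one_right (g : G) : cc g 1 = 0 := by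
  apply Subtype.ext
  rw [cc_val, edge_loop, add_zero, mul_one, sub_self]; rfl

theorem cc_coc (g h l : G) : cc g h + cc (g * h) l = g • cc h l + cc g (h * l) := by
  apply Subtype.ext
  funext a b
  change edge 1 g a b + edge g h a b - edge 1 (g * h) a b + (edge 1 (g * h) a b +
    edge (g * h) l a b - edge 1 (g * h * l) a b) = edge 1 h (g⁻¹ * a) b +
    edge h l (g⁻¹ * a) b - edge 1 (h * l) (g⁻¹ * a) b +
    (edge 1 g a b + edge g (h * l) a b - edge 1 (g * (h * l)) a b)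
  rw [smul_edge, smul_edge, smul_edge, mul_one, mul_assoc]
  ring

end Circ

/-- The augmentation kernel in `ℤ[Z/p]`. -/
def AZ (p : ℕ) [NeZero p] : AddSubgroup (ZMod p → ℤ) where
  carrier := {a | ∑ s, a s = 0}
  add_mem' {a b} ha hb := by
    change ∑ s, (a s + b s) = 0
    rw [Finset.sum_add_distrib]
    change ∑ s, a s = 0 at ha
    change ∑ s, b s = 0 at hb
    rw [ha, hb, add_zero]
  zero_mem' := by simp
  neg_mem' {a} ha := by
    change ∑ s, -a s = 0
    change ∑ s, a s = 0 at ha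
    rw [Finset.sum_neg_distrib, ha, neg_zero]

section Lam

variable {p : ℕ} [Fact p.Prime]

/-- `a ↦ ∑ s a(s)` -/
def mom (p : ℕ) [Fact p.Prime] : AZ p →+ ℤ where
  toFun a := ∑ s : ZMod p, (s.val : ℤ) * a.1 s
  map_zero' := by simp
  map_add' a b := by
    rw [← Finset.sum_add_distrib]
    apply Finset.sum_congr rfl
    intro s _
    change (s.val : ℤ) * (a.1 s + b.1 s) = _
    ring

/-- the shift on `AZ p` -/
def shA (p : ℕ) [Fact p.Prime] : AZ p →+ AZ p where
  toFun a := ⟨fun s => a.1 (s - 1), by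
    have h1 : ∑ s, a.1 s = 0 := a.2
    change ∑ s, a.1 (s - 1) = 0
    rw [← h1]
    exact Fintype.sum_equiv (Equiv.subRight 1) _ _ (fun _ => rfl)⟩
  map_zero' := rfl
  map_add' _ _ := rfl

/-- `δ_j - δ_0` -/
def dlt (j : ZMod p) : AZ p := ⟨fun s => (if s = j then 1 else 0) - (if s = 0 then 1 else 0), by
  change ∑ s, _ = (0 : ℤ)
  rw [Finset.sum_sub_distrib]
  simp⟩

/-- `v(m) = ∑ m(g,h) cy(j(g), j(h))` on `Circ (GA p)` -/
def vB (p : ℕ) [Fact p.Prime] : Circ (GA p) →+ ℤ := esum (fun g h => (cy g.j h.j : ℤ))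

/-- `A(m) = ∑ m(g,h) (j(g) i(h) + cy(i(g), i(h)))` -/
def aB (p : ℕ) [Fact p.Prime] : Circ (GA p) →+ ℤ :=
  esum (fun g h => (g.j.val * h.i.val : ℤ) + (cy g.i h.i : ℤ))

/-- `- ∑ m(g,h) j(h) i(gh) + ∑ m(g,h) cy(i(g), i(h))` -/
def aB' (p : ℕ) [Fact p.Prime] : Circ (GA p) →+ ℤ :=
  esum (fun g h => -(h.j.val * (g.i + h.i).val : ℤ) + (cy g.i h.i : ℤ))

/-- exponent of `ζ` in `χ_x` -/
def exX (p : ℕ) [Fact p.Prime] : Circ (GA p) →+ ℤ :=
  esum (fun g h => if g.i = -1 then (cy g.j h.j : ℤ) else 0)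

/-- exponent of `ζ` in `χ_y` (without the part depending on `a`) -/
def exY (p : ℕ) [Fact p.Prime] : Circ (GA p) →+ ℤ :=
  esum (fun g h => (g.i.val * cy (g.j + 1) h.j : ℤ) +
    ((ff g h).val : ℤ) * (if g.j + h.j = -1 then -1 else 0))

/-- the holonomy `a + A(m)` on `Circ (GA p) × ℤ` -/
def holZ (p : ℕ) [Fact p.Prime] : Circ (GA p) × ℤ →+ ℤ :=
  AddMonoidHom.snd _ _ + (aB p).comp (AddMonoidHom.fst _ _)

theorem holZ_apply (b : Circ (GA p) × ℤ) : holZ p b = b.2 + aB p b.1 := rfl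

/-- The lattice `Λ`. -/
def Lam (p : ℕ) [Fact p.Prime] : AddSubgroup (Circ (GA p) × ℤ) where
  carrier := {b | (p : ℤ) ∣ holZ p b}
  add_mem' {a b} ha hb := by
    change (p : ℤ) ∣ holZ p (a + b)
    rw [map_add]; exact dvd_add ha hb
  zero_mem' := by
    change (p : ℤ) ∣ holZ p 0
    rw [map_zero]; exact dvd_zero _
  neg_mem' {a} ha := by
    change (p : ℤ) ∣ holZ p (-a)
    rw [map_neg]; exact (dvd_neg).2 ha

theorem mem_Lam {b : Circ (GA p) × ℤ} : b ∈ Lam p ↔ (p : ℤ) ∣ holZ p b := Iff.rfl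

/-- `v` on `Circ (GG p)` -/
def vG (p : ℕ) [Fact p.Prime] : Circ (GG p) →+ ℤ := esum (fun g h => (cy g.j h.j : ℤ))

/-- exponent of `η` in `ω_1` -/
def om (p : ℕ) [Fact p.Prime] : Circ (GG p) →+ ℤ :=
  esum (fun g h => (p * g.k.val * cy g.j h.j : ℤ) - (h.k.val * (g.j + h.j).val : ℤ))

/-- `m ↦ ∑ m(g,h) k(h)` -/
def kG (p : ℕ) [Fact p.Prime] : Circ (GG p) →+ ℤ := esum (fun _ h => (h.k.val : ℤ))

/-- the push-forward of a function on the edges of `GG p`, without loops -/
def pushFun (m : GG p → GG p → ℤ) (a b : GA p) : ℤ :=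
  if b = 1 then 0 else ∑ g, ∑ h, if GG.bar g = a ∧ GG.bar h = b then m g h else 0

end Lam

end OddGp
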