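import Mathlib
import Pool.Agent.W_MP_bec7e1_h80.Lat

/-!
# Invariance properties of the functionals on `Circ (GA p)`
-/

namespace OddGp

open Finset

section esumLemmas

variable {G : Type} [Group G] [Fintype G]

theorem esum_congr' {F F' : G → G → ℤ} (h : ∀ a b, F a b = F' a b) (m : Circ G) :
    esum F m = esum F' m := by
  have : F = F' := by funext a b; exact h a b
  rw [this]

theorem esum_add' (F F' : G → G → ℤ) (m : Circ G) :
    esum (fun g h => F g h + F' g h) m = esum F m + esum F' m := by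
  rw [esum_apply, esum_apply, esum_apply, ← Finset.sum_add_distrib]
  apply Finset.sum_congr rfl; intro g _
  rw [← Finset.sum_add_distrib]
  apply Finset.sum_congr rfl; intro h _
  ring

theorem esum_sub' (F F' : G → G → ℤ) (m : Circ G) :
    esum (fun g h => F g h - F' g h) m = esum F m - esum F' m := by
  rw [esum_apply, esum_apply, esum_apply, ← Finset.sum_sub_distrib]
  apply Finset.sum_congr rfl; intro g _
  rw [← Finset.sum_sub_distrib]
  apply Finset.sum_congr rfl; intro h _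
  ring

theorem esum_mul' (c : ℤ) (F : G → G → ℤ) (m : Circ G) :
    esum (fun g h => c * F g h) m = c * esum F m := by
  rw [esum_apply, esum_apply, Finset.mul_sum]
  apply Finset.sum_congr rfl; intro g _
  rw [Finset.mul_sum]
  apply Finset.sum_congr rfl; intro h _
  ring

theorem esum_cast {R : Type} [CommRing R] (F : G → G → ℤ) (m : Circ G) :
    ((esum F m : ℤ) : R) = ∑ g, ∑ h, m.1 g h • ((F g h : ℤ) : R) := by
  rw [esum_apply]
  push_cast
  simp only [zsmul_eq_mul]

/-- `p * ∑ m cy(f g, f h) = ∑ m f(h)` for a homomorphism-like `f`. -/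
theorem esum_cy {p : ℕ} [NeZero p] (f : G → ZMod p) (hf : ∀ a b, f (a * b) = f a + f b)
    (m : Circ G) : (p : ℤ) * esum (fun g h => (cy (f g) (f h) : ℤ)) m =
      esum (fun _ h => ((f h).val : ℤ)) m := by
  have h1 := esum_pot (fun g => ((f g).val : ℤ)) m
  rw [← esum_mul']
  have h2 : esum (fun _ h => ((f h).val : ℤ)) m =
      esum (fun _ h => ((f h).val : ℤ)) m - esum (fun g h => ((f (g * h)).val : ℤ) -
        ((f g).val : ℤ)) m := by rw [h1, sub_zero]
  rw [h2, ← esum_sub']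
  apply esum_congr'
  intro a b
  have h3 := cy_add_val (f a) (f b)
  rw [hf]
  have h4 : ((p * cy (f a) (f b) + (f a + f b).val : ℕ) : ℤ) = (((f a).val + (f b).val : ℕ) : ℤ) := by
    rw [h3]
  push_cast at h4
  linarith

/-- `esum` of a function of `h` only is invariant -/
theorem esum_inv_smul (F : G → ℤ) (a : G) (m : Circ G) :
    esum (fun _ h => F h) (a • m) = esum (fun _ h => F h) m := by
  rw [esum_smul]

end esumLemmas

variable {p : ℕ} [Fact p.Prime]

/-- TASK. `p * ∑ m(g,h) cy(j(g), j(h)) = ∑ m(g,h) j(h)`.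
Proof: `p cy(a,b) = a + b - (a+b)` (values), see `cy_add_val`; the potential part
`∑ m(g,h) (j(g) - j(gh))` vanishes (`esum_pot` with `F g = (g.j.val : ℤ)`). -/
theorem p_mul_vB (m : Circ (GA p)) :
    (p : ℤ) * vB p m = esum (fun _ h => (h.j.val : ℤ)) m :=
  esum_cy (fun g : GA p => g.j) (fun _ _ => rfl) m

/-- TASK. The same for `i`. -/
theorem p_mul_cyi (m : Circ (GA p)) :
    (p : ℤ) * esum (fun g h => (cy g.i h.i : ℤ)) m = esum (fun _ h => (h.i.val : ℤ)) m :=
  esum_cy (fun g : GA p => g.i) (fun _ _ => rfl) m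

/-- TASK. `v` is invariant (by `p_mul_vB`, as `esum` of a function of `h` only is invariant, see
`esum_smul`). -/
theorem vB_smul (a : GA p) (m : Circ (GA p)) : vB p (a • m) = vB p m := by
  have hp : (p : ℤ) ≠ 0 := by exact_mod_cast (Fact.out : p.Prime).ne_zero
  apply mul_left_cancel₀ hp
  rw [p_mul_vB, p_mul_vB, esum_inv_smul (fun h : GA p => (h.j.val : ℤ))]

/-- TASK. The same on `GG p`: `p * vG m = ∑ m(g,h) j(h)`, hence the invariance. -/
theorem vG_smul (a : GG p) (m : Circ (GG p)) : vG p (a • m) = vG p m := by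
  have hp : (p : ℤ) ≠ 0 := by exact_mod_cast (Fact.out : p.Prime).ne_zero
  apply mul_left_cancel₀ hp
  have h1 : ∀ m : Circ (GG p), (p : ℤ) * vG p m = esum (fun _ h => (h.j.val : ℤ)) m :=
    esum_cy (fun g : GG p => g.j) (fun _ _ => rfl)
  rw [h1, h1, esum_inv_smul (fun h : GG p => (h.j.val : ℤ))]

/-- TASK. (`esum_smul`.) -/
theorem kG_smul (a : GG p) (m : Circ (GG p)) : kG p (a • m) = kG p m :=
  esum_inv_smul (fun h : GG p => (h.k.val : ℤ)) a m

theorem cyi_smul (a : GA p) (m : Circ (GA p)) :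
    esum (fun g h => (cy g.i h.i : ℤ)) (a • m) = esum (fun g h => (cy g.i h.i : ℤ)) m := by
  have hp : (p : ℤ) ≠ 0 := by exact_mod_cast (Fact.out : p.Prime).ne_zero
  apply mul_left_cancel₀ hp
  rw [p_mul_cyi, p_mul_cyi, esum_inv_smul (fun h : GA p => (h.i.val : ℤ))]

theorem aB_eq (m : Circ (GA p)) : aB p m =
    esum (fun g h => (g.j.val * h.i.val : ℤ)) m + esum (fun g h => (cy g.i h.i : ℤ)) m :=
  esum_add' _ _ m

theorem aB'_eq (m : Circ (GA p)) : aB' p m =
    esum (fun g h => -(h.j.val * (g.i + h.i).val : ℤ)) m +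
      esum (fun g h => (cy g.i h.i : ℤ)) m :=
  esum_add' _ _ m

/-- TASK. `A` is invariant under `x`: `∑ m(g,h) j(g) i(h)` is invariant, since `j(xg) = j(g)`, and
`∑ m(g,h) cy(i(g), i(h)) = (1/p) ∑ m(g,h) i(h)` is invariant (`p_mul_cyi`). -/
theorem aB_x (m : Circ (GA p)) : aB p ((GA.x : GA p) • m) = aB p m := by
  rw [aB_eq, aB_eq, cyi_smul, esum_smul]
  congr 1
  apply esum_congr'
  intro g h
  simp

/-- TASK. `A'` is invariant under `y` (its first part involves only `i(g)`, `i(h)`, `j(h)`). -/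
theorem aB'_y (m : Circ (GA p)) : aB' p ((GA.y : GA p) • m) = aB' p m := by
  rw [aB'_eq, aB'_eq, cyi_smul, esum_smul]
  congr 1
  apply esum_congr'
  intro g h
  simp

/-- TASK. `A' = A` modulo `p`: in `ZMod p`,
`∑ m(g,h) (j(g) i(h) + j(h) (i(g) + i(h))) = ∑ m(g,h) (i(gh) j(gh) - i(g) j(g)) = 0`
(apply `Circ.sum_eq` with `F g = g.i * g.j : ZMod p`). -/
theorem aB'_sub (m : Circ (GA p)) : (p : ℤ) ∣ aB' p m - aB p m := by
  rw [← ZMod.intCast_zmod_eq_zero_iff_dvd]
  rw [aB_eq, aB'_eq]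
  have h1 := Circ.sum_eq m (fun g : GA p => (g.i * g.j : ZMod p))
  have h2 : ((esum (fun g h : GA p => -(h.j.val * (g.i + h.i).val : ℤ)) m +
      esum (fun g h => (cy g.i h.i : ℤ)) m - (esum (fun g h => (g.j.val * h.i.val : ℤ)) m +
        esum (fun g h => (cy g.i h.i : ℤ)) m) : ℤ) : ZMod p) =
      ((esum (fun g h : GA p => -(h.j.val * (g.i + h.i).val : ℤ) - (g.j.val * h.i.val : ℤ)) m : ℤ) :
        ZMod p) := by
    rw [esum_sub']
    push_cast
    ring
  rw [h2, esum_cast]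
  have h3 : ∑ g : GA p, ∑ h : GA p, m.1 g h • (((-(h.j.val * (g.i + h.i).val : ℤ) -
      (g.j.val * h.i.val : ℤ) : ℤ)) : ZMod p) =
      ∑ g : GA p, ∑ h : GA p, m.1 g h • (g.i * g.j : ZMod p) -
      ∑ g : GA p, ∑ h : GA p, m.1 g h • ((g * h).i * (g * h).j : ZMod p) := by
    rw [← Finset.sum_sub_distrib]
    apply Finset.sum_congr rfl; intro g _
    rw [← Finset.sum_sub_distrib]
    apply Finset.sum_congr rfl; intro h _
    rw [← smul_sub]
    congr 1
    push_cast
    simp only [ZMod.natCast_val, ZMod.cast_id', id, GA.mul_i, GA.mul_j]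
    ring
  rw [h3, h1, sub_self]

/-- TASK. `A` is invariant modulo `p` under all of `GA p`: in `ZMod p`, `∑ m(g,h) j(g) i(h)` changes
by `∑ m(g,h) j(a) i(h) = j(a) ∑ m(g,h) (i(gh) - i(g)) = 0`, and the second part is invariant by
`p_mul_cyi`. -/
theorem aB_smul (a : GA p) (m : Circ (GA p)) : (p : ℤ) ∣ aB p (a • m) - aB p m := by
  rw [← ZMod.intCast_zmod_eq_zero_iff_dvd]
  rw [aB_eq, aB_eq, cyi_smul, esum_smul, add_sub_add_right_eq_sub, ← esum_sub', esum_cast]
  have h1 := Circ.sum_eq m (fun g : GA p => (a.j * g.i : ZMod p))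
  have h3 : ∑ g : GA p, ∑ h : GA p, m.1 g h • ((((a * g).j.val * h.i.val : ℤ) -
      (g.j.val * h.i.val : ℤ) : ℤ) : ZMod p) =
      ∑ g : GA p, ∑ h : GA p, m.1 g h • (a.j * (g * h).i : ZMod p) -
      ∑ g : GA p, ∑ h : GA p, m.1 g h • (a.j * g.i : ZMod p) := by
    rw [← Finset.sum_sub_distrib]
    apply Finset.sum_congr rfl; intro g _
    rw [← Finset.sum_sub_distrib]
    apply Finset.sum_congr rfl; intro h _
    rw [← smul_sub]
    congr 1
    push_cast
    simp only [ZMod.natCast_val, ZMod.cast_id', id, GA.mul_i, GA.mul_j]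
    ring
  rw [h3, h1, sub_self]

/-- TASK. `A(m + n)`-type consequence: the lattice `Lam p` is stable. -/
theorem Lam_smul (a : GA p) (b : Circ (GA p) × ℤ) (hb : b ∈ Lam p) : (a • b.1, b.2) ∈ Lam p := by
  rw [mem_Lam, holZ_apply] at hb ⊢
  have h1 := aB_smul a b.1
  have h2 := dvd_add hb h1
  have h3 : b.2 + aB p b.1 + (aB p (a • b.1) - aB p b.1) = b.2 + aB p (a • b.1) := by ring
  rw [h3] at h2
  exact h2

end OddGp
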