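import Mathlib
import Pool.Agent.W_MP_bec7e1_h80.Lat

/-!
# The push-forward of circulations `GG p → GA p`
-/

namespace OddGp

open Finset

variable {p : ℕ} [Fact p.Prime]

/-- TASK. Linear functionals of the push-forward.
Proof: both sides are `∑_{g,h, bar h ≠ 1} m(g,h) F(bar g, bar h)`: on the left insert the definition
of `pushFun`, exchange the sums over `(a, b)` and `(g, h)`; for fixed `(g, h)` only
`(a, b) = (bar g, bar h)` contributes, and the terms with `b = 1` vanish on both sides
(`F a 1 = 0`). -/
theorem sum_pushFun (m : GG p → GG p → ℤ) (F : GA p → GA p → ℤ) (hF : ∀ a, F a 1 = 0) :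
    ∑ a, ∑ b, pushFun m a b * F a b = ∑ g, ∑ h, m g h * F (GG.bar g) (GG.bar h) := by
  have h1 : ∀ a b : GA p, pushFun m a b * F a b =
      ∑ g, ∑ h, (if GG.bar g = a ∧ GG.bar h = b then m g h * F a b else 0) := by
    intro a b
    by_cases hb : b = 1
    · subst hb
      rw [hF a, mul_zero]
      symm
      apply Finset.sum_eq_zero
      intro g _
      apply Finset.sum_eq_zero
      intro h _
      rw [mul_zero, ite_self]
    · rw [pushFun, if_neg hb, Finset.sum_mul]
      apply Finset.sum_congr rfl
      intro g _
      rw [Finset.sum_mul]
      apply Finset.sum_congr rfl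
      intro h _
      rw [ite_mul, zero_mul]
  calc ∑ a, ∑ b, pushFun m a b * F a b
      = ∑ a, ∑ b, ∑ g, ∑ h, (if GG.bar g = a ∧ GG.bar h = b then m g h * F a b else 0) := by
        apply Finset.sum_congr rfl
        intro a _
        apply Finset.sum_congr rfl
        intro b _
        exact h1 a b
    _ = ∑ a, ∑ g, ∑ b, ∑ h, (if GG.bar g = a ∧ GG.bar h = b then m g h * F a b else 0) := by
        apply Finset.sum_congr rfl
        intro a _
        exact Finset.sum_comm
    _ = ∑ g, ∑ a, ∑ b, ∑ h, (if GG.bar g = a ∧ GG.bar h = b then m g h * F a b else 0) :=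
        Finset.sum_comm
    _ = ∑ g, ∑ a, ∑ h, ∑ b, (if GG.bar g = a ∧ GG.bar h = b then m g h * F a b else 0) := by
        apply Finset.sum_congr rfl
        intro g _
        apply Finset.sum_congr rfl
        intro a _
        exact Finset.sum_comm
    _ = ∑ g, ∑ h, ∑ a, ∑ b, (if GG.bar g = a ∧ GG.bar h = b then m g h * F a b else 0) := by
        apply Finset.sum_congr rfl
        intro g _
        exact Finset.sum_comm
    _ = ∑ g, ∑ h, m g h * F (GG.bar g) (GG.bar h) := by
        apply Finset.sum_congr rfl
        intro g _
        apply Finset.sum_congr rfl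
        intro h _
        rw [Finset.sum_eq_single (GG.bar g)]
        · rw [Finset.sum_eq_single (GG.bar h)]
          · rw [if_pos ⟨rfl, rfl⟩]
          · intro b _ hb
            rw [if_neg]
            rintro ⟨_, h2⟩
            exact hb h2.symm
          · intro h'
            exact absurd (Finset.mem_univ _) h'
        · intro a _ ha
          apply Finset.sum_eq_zero
          intro b _
          rw [if_neg]
          rintro ⟨h2, _⟩
          exact ha h2.symm
        · intro h'
          exact absurd (Finset.mem_univ _) h'

/-- TASK. The push-forward of a circulation is a circulation.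
Proof: by `mem_Circ` we need `dv (pushFun m) a = 0` for all `a` (`pushFun m a 1 = 0` is clear).
`dv (pushFun m) a = ∑_{g,h : bar h ≠ 1} m(g,h) ([bar g = a] - [bar g * bar h = a])`; the terms with
`bar h = 1` would contribute `0`, so this is
`∑_{g,h} m(g,h) ([bar g = a] - [bar (g h) = a]) = 0` by `Circ.sum_eq` (or `esum_pot`). One can use
`sum_pushFun` with `F(c, b) = [c = a] - [c b = a]`. -/
theorem push_mem (m : Circ (GG p)) : pushFun m.1 ∈ Circ (GA p) := by
  rw [mem_Circ]
  refine ⟨fun g => ?_, fun a => ?_⟩
  · rw [pushFun, if_pos rfl]
  · have h1 := sum_pushFun m.1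
      (fun c b => (if c * b = a then 1 else 0) - (if c = a then 1 else 0)) (by
        intro c
        rw [mul_one, sub_self])
    have h2 := esum_pot (G := GG p) (fun g => if GG.bar g = a then 1 else 0) m
    rw [esum_apply] at h2
    simp only [GG.bar_mul'] at h2
    replace h1 := h1.trans h2
    have h3 : dv (pushFun m.1) a = - ∑ c, ∑ b, pushFun m.1 c b *
        ((if c * b = a then 1 else 0) - (if c = a then 1 else 0)) := by
      have h4 : ∑ c, ∑ b, pushFun m.1 c b * (if c * b = a then (1 : ℤ) else 0) =
          ∑ b, pushFun m.1 (a * b⁻¹) b := by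
        rw [Finset.sum_comm]
        apply Finset.sum_congr rfl
        intro b _
        rw [Finset.sum_eq_single (a * b⁻¹)]
        · rw [if_pos (inv_mul_cancel_right a b), mul_one]
        · intro c _ hc
          rw [if_neg, mul_zero]
          intro h5
          exact hc (eq_mul_inv_of_mul_eq h5)
        · intro h'
          exact absurd (Finset.mem_univ _) h'
      have h5 : ∑ c, ∑ b, pushFun m.1 c b * (if c = a then (1 : ℤ) else 0) =
          ∑ b, pushFun m.1 a b := by
        rw [Finset.sum_eq_single a]
        · apply Finset.sum_congr rfl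
          intro b _
          rw [if_pos rfl, mul_one]
        · intro c _ hc
          apply Finset.sum_eq_zero
          intro b _
          rw [if_neg hc, mul_zero]
        · intro h'
          exact absurd (Finset.mem_univ _) h'
      simp only [mul_sub, Finset.sum_sub_distrib]
      rw [h4, h5, dv]
      ring
    rw [h3, h1, neg_zero]

end OddGp
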