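import Mathlib
import Pool.Agent.W_MP_bec7e1_h80.PushMem
import Pool.Agent.W_MP_bec7e1_h80.HolFacts

/-!
# `Ψ : Circ (GG p) → Λ` and the action on `Λ`
-/

namespace OddGp

open Finset

variable {p : ℕ} [Fact p.Prime]

instance : DistribMulAction (GA p) (Lam p) where
  smul a b := ⟨(a • b.1.1, b.1.2), Lam_smul a b.1 b.2⟩
  one_smul b := by
    apply Subtype.ext
    change ((1 : GA p) • b.1.1, b.1.2) = b.1
    rw [one_smul]
  mul_smul a a' b := by
    apply Subtype.ext
    change ((a * a') • b.1.1, b.1.2) = (a • a' • b.1.1, b.1.2)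
    rw [mul_smul]
  smul_zero a := by
    apply Subtype.ext
    change (a • (0 : Circ (GA p)), (0 : ℤ)) = 0
    rw [smul_zero]; rfl
  smul_add a b b' := by
    apply Subtype.ext
    change (a • (b.1.1 + b'.1.1), b.1.2 + b'.1.2) = _
    rw [smul_add]; rfl

theorem Lam_smul_fst (a : GA p) (b : Lam p) : (a • b).1.1 = a • b.1.1 := rfl
theorem Lam_smul_snd (a : GA p) (b : Lam p) : (a • b).1.2 = b.1.2 := rfl

/-- the action of `a` on `Λ` as an additive hom -/
def actL (a : GA p) : Lam p →+ Lam p := DistribSMul.toAddMonoidHom (Lam p) a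

@[simp] theorem actL_apply (a : GA p) (b : Lam p) : actL a b = a • b := rfl

/-- The push-forward. -/
def push (p : ℕ) [Fact p.Prime] : Circ (GG p) →+ Circ (GA p) where
  toFun m := ⟨pushFun m.1, push_mem m⟩
  map_zero' := by
    apply Subtype.ext
    funext a b
    change pushFun (fun _ _ => 0) a b = 0
    simp [pushFun]
  map_add' m n := by
    apply Subtype.ext
    funext a b
    change pushFun (fun g h => m.1 g h + n.1 g h) a b = pushFun m.1 a b + pushFun n.1 a b
    rw [pushFun, pushFun, pushFun]
    split_ifs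
    · rfl
    · simp only [← Finset.sum_add_distrib]
      apply Finset.sum_congr rfl; intro g _
      apply Finset.sum_congr rfl; intro h _
      split_ifs <;> simp

theorem push_val (m : Circ (GG p)) : (push p m).1 = pushFun m.1 := rfl

theorem esum_push (F : GA p → GA p → ℤ) (hF : ∀ a, F a 1 = 0) (m : Circ (GG p)) :
    esum F (push p m) = esum (fun g h => F (GG.bar g) (GG.bar h)) m := by
  rw [esum_apply, esum_apply, push_val]
  exact sum_pushFun m.1 F hF

/-- `v` only depends on the push-forward -/
theorem vB_push (m : Circ (GG p)) : vB p (push p m) = vG p m :=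
  esum_push _ (fun a => by simp) m

theorem push_smul (a : GG p) (m : Circ (GG p)) : push p (a • m) = GG.bar a • push p m := by
  apply Subtype.ext
  funext b d
  rw [Circ.smul_val, push_val, push_val, pushFun, pushFun]
  split_ifs
  · rfl
  · apply Fintype.sum_equiv (Equiv.mulLeft a⁻¹)
    intro g
    apply Finset.sum_congr rfl
    intro h _
    have h1 : GG.bar (Equiv.mulLeft a⁻¹ g) = (GG.bar a)⁻¹ * GG.bar g := rfl
    rw [h1]
    have h2 : ((GG.bar a)⁻¹ * GG.bar g = (GG.bar a)⁻¹ * b ∧ GG.bar h = d) ↔
      (GG.bar g = b ∧ GG.bar h = d) := by rw [mul_right_inj]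
    rw [Circ.smul_val]
    exact (if_congr h2 rfl rfl).symm

end OddGp
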