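import Mathlib
import Pool.Agent.W_MP_bec7e1_h80.Lat2

/-!
# `Ψ` has values in `Λ`
-/

namespace OddGp

open Finset

variable {p : ℕ} [Fact p.Prime]

/-- TASK. The total `k`-weight of the labels plus the holonomy of the push-forward is divisible by
`p`.
Proof: `holZ (push m, kG m) = kG m + aB (push m)`, and by `esum_push`
(`F a b = a.j.val * b.i.val + cy a.i b.i` vanishes for `b = 1`) this is
`∑ m(g,h) (k(h) + j(g) i(h) + cy(i(g), i(h)))`. In `ZMod p` the bracket is `k(gh) - k(g)`
(`GG.mul_k`, `ff`), so the sum vanishes by `Circ.sum_eq` with `F g = g.k : ZMod p`. -/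
theorem psi_mem (m : Circ (GG p)) : (push p m, kG p m) ∈ Lam p := by
  rw [mem_Lam, holZ_apply]
  have h1 : aB p (push p m) = esum (fun g h : GG p => (g.j.val * h.i.val : ℤ) + (cy g.i h.i : ℤ)) m := by
    rw [aB, esum_push _ (fun a => by simp) m]
    rfl
  change (p : ℤ) ∣ kG p m + aB p (push p m)
  rw [h1, kG, esum_apply, esum_apply, ← Finset.sum_add_distrib]
  rw [← ZMod.intCast_zmod_eq_zero_iff_dvd]
  have h2 := Circ.sum_eq m (fun g : GG p => g.k)
  have h3 : ∑ g, ∑ h, m.1 g h • ((g * h).k - g.k) = 0 := by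
    simp only [smul_sub, Finset.sum_sub_distrib]
    rw [h2, sub_self]
  rw [← h3]
  push_cast
  apply Finset.sum_congr rfl
  intro g _
  rw [← Finset.sum_add_distrib]
  apply Finset.sum_congr rfl
  intro h _
  rw [GG.mul_k, ff, zsmul_eq_mul]
  simp only [ZMod.natCast_val, ZMod.cast_id', id_eq, GG.bar_i, GG.bar_j]
  ring

end OddGp
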