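import Mathlib
import Pool.Agent.W_MP_bec7e1_h80.PsiHol

/-!
# `Ψ : Circ (GG p) → Λ`
-/

namespace OddGp

open Finset

variable {p : ℕ} [Fact p.Prime]

/-- `Ψ(m) = (push m, ∑ m(g,h) k(h))` -/
def Psi (p : ℕ) [Fact p.Prime] : Circ (GG p) →+ Lam p where
  toFun m := ⟨(push p m, kG p m), psi_mem m⟩
  map_zero' := by
    apply Subtype.ext
    change (push p 0, kG p 0) = 0
    rw [map_zero, map_zero]; rfl
  map_add' m n := by
    apply Subtype.ext
    change (push p (m + n), kG p (m + n)) = (push p m, kG p m) + (push p n, kG p n)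
    rw [map_add, map_add]; rfl

theorem Psi_fst (m : Circ (GG p)) : (Psi p m).1.1 = push p m := rfl
theorem Psi_snd (m : Circ (GG p)) : (Psi p m).1.2 = kG p m := rfl

theorem Psi_smul (a : GG p) (m : Circ (GG p)) : Psi p (a • m) = GG.bar a • Psi p m := by
  apply Subtype.ext
  apply Prod.ext
  · rw [Psi_fst, Lam_smul_fst, Psi_fst, push_smul]
  · rw [Psi_snd, Lam_smul_snd, Psi_snd, kG_smul]

/-- `v` on `Λ` -/
def vL (p : ℕ) [Fact p.Prime] : Lam p →+ ℤ :=
  (vB p).comp ((AddMonoidHom.fst _ _).comp (Lam p).subtype)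

theorem vL_apply (b : Lam p) : vL p b = vB p b.1.1 := rfl

theorem vL_smul (a : GA p) (b : Lam p) : vL p (a • b) = vL p b := by
  rw [vL_apply, vL_apply, Lam_smul_fst, vB_smul]

theorem vL_Psi (m : Circ (GG p)) : vL p (Psi p m) = vG p m := vB_push m

/-- exponent of `η` in `χ_x` (on `Λ`) -/
def exXL (p : ℕ) [Fact p.Prime] : Lam p →+ ℤ :=
  (p : ℤ) • (exX p).comp ((AddMonoidHom.fst _ _).comp (Lam p).subtype)

/-- exponent of `η` in `χ_y` (on `Λ`) -/
def exYL (p : ℕ) [Fact p.Prime] : Lam p →+ ℤ :=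
  (p : ℤ) • (exY p).comp ((AddMonoidHom.fst _ _).comp (Lam p).subtype) -
    (AddMonoidHom.snd _ _).comp (Lam p).subtype

theorem exXL_apply (b : Lam p) : exXL p b = p * exX p b.1.1 := rfl
theorem exYL_apply (b : Lam p) : exYL p b = p * exY p b.1.1 - b.1.2 := rfl

/-- the element `(0, (0, p))` of `Λ` -/
def nL (p : ℕ) [Fact p.Prime] : Lam p := ⟨(0, p), by
  rw [mem_Lam, holZ_apply, map_zero, add_zero]⟩

theorem nL_fst : (nL p).1.1 = 0 := rfl
theorem nL_snd : (nL p).1.2 = p := rfl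

theorem smul_nL (a : GA p) : a • nL p = nL p := by
  apply Subtype.ext
  apply Prod.ext
  · rw [Lam_smul_fst, nL_fst, smul_zero]
  · rfl

/-- the cycle of the `z`-edges through `1` -/
def yG (p : ℕ) [Fact p.Prime] : Circ (GG p) := ∑ t ∈ range p, cc (GG.z ^ t) GG.z

end OddGp
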