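import Mathlib

/-!
# Fields of rational monomial functions `Frac C[A]`, `A` a lattice
-/

namespace OddGp

noncomputable section

/-- the group algebra (Laurent polynomials) -/
abbrev MA (C A : Type) [Field C] [AddCommGroup A] : Type := AddMonoidAlgebra C A

/-- the fraction field of the group algebra -/
def MF (C A : Type) [Field C] [AddCommGroup A] [TwoUniqueSums A] : Type :=
  FractionRing (AddMonoidAlgebra C A)

instance (C A : Type) [Field C] [AddCommGroup A] [TwoUniqueSums A] : Field (MF C A) :=
  inferInstanceAs (Field (FractionRing (AddMonoidAlgebra C A)))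

instance (C A : Type) [Field C] [AddCommGroup A] [TwoUniqueSums A] : Algebra (MA C A) (MF C A) :=
  inferInstanceAs (Algebra (AddMonoidAlgebra C A) (FractionRing (AddMonoidAlgebra C A)))

instance (C A : Type) [Field C] [AddCommGroup A] [TwoUniqueSums A] :
    IsFractionRing (MA C A) (MF C A) :=
  inferInstanceAs (IsFractionRing (AddMonoidAlgebra C A) (FractionRing (AddMonoidAlgebra C A)))

section lift

variable {C A : Type} [Field C] [AddCommGroup A]

/-- The ring hom `C[A] → E`, `c T ^ a ↦ φ c * χ a`. -/
def mLift {E : Type} [CommRing E] (φ : C →+* E) (χ : Multiplicative A →* E) : MA C A →+* E :=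
  AddMonoidAlgebra.liftNCRingHom φ χ (fun _ _ => mul_comm _ _)

@[simp] theorem mLift_single {E : Type} [CommRing E] (φ : C →+* E) (χ : Multiplicative A →* E)
    (a : A) (c : C) :
    mLift φ χ (AddMonoidAlgebra.single a c) = φ c * χ (Multiplicative.ofAdd a) := by
  exact AddMonoidAlgebra.liftNC_single _ _ _ _

/-- `mLift` as a finite sum. -/
theorem mLift_apply {E : Type} [CommRing E] (φ : C →+* E) (χ : Multiplicative A →* E)
    (f : MA C A) : mLift φ χ f = f.coeff.sum fun a c => φ c * χ (Multiplicative.ofAdd a) := by
  rfl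

theorem MA_hom_ext {E : Type} [Semiring E] {f g : MA C A →+* E}
    (h : ∀ a c, f (AddMonoidAlgebra.single a c) = g (AddMonoidAlgebra.single a c)) : f = g := by
  have h1 : (f : MA C A →+ E) = g := by
    apply AddMonoidAlgebra.addMonoidHom_ext
    intro a c
    exact h a c
  ext x
  · exact DFunLike.congr_fun h1 _
  · exact DFunLike.congr_fun h1 _

end lift

section MF

variable {C A : Type} [Field C] [AddCommGroup A] [TwoUniqueSums A]

/-- the monomial `c T ^ a` in the fraction field -/
def mon (c : C) (a : A) : MF C A := algebraMap (MA C A) (MF C A) (AddMonoidAlgebra.single a c)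

theorem mon_mul (c d : C) (a b : A) : mon c a * mon d b = mon (c * d) (a + b) := by
  rw [mon, mon, mon, ← map_mul, AddMonoidAlgebra.single_mul_single]

theorem mon_zero_one : mon (1 : C) (0 : A) = 1 := by
  rw [mon, ← AddMonoidAlgebra.one_def, map_one]

theorem mon_add (c d : C) (a : A) : mon (c + d) a = mon c a + mon d a := by
  rw [mon, mon, mon, ← map_add, AddMonoidAlgebra.single_add]

theorem mon_zero (a : A) : mon (0 : C) a = 0 := by
  rw [mon, AddMonoidAlgebra.single_zero, map_zero]

theorem mon_injective : Function.Injective (algebraMap (MA C A) (MF C A)) :=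
  IsFractionRing.injective _ _

theorem mon_ne_zero {c : C} (hc : c ≠ 0) (a : A) : mon c a ≠ 0 := by
  intro h
  rw [mon, ← map_zero (algebraMap (MA C A) (MF C A))] at h
  have := mon_injective h
  rw [AddMonoidAlgebra.single_eq_zero] at this
  exact hc this

theorem mon_pow (c : C) (a : A) (n : ℕ) : mon c a ^ n = mon (c ^ n) (n • a) := by
  induction n with
  | zero => simp [mon_zero_one]
  | succ n ih => rw [pow_succ, ih, mon_mul, pow_succ, succ_nsmul]

/-- the constants `C → Frac C[A]` -/
def cst : C →+* MF C A where
  toFun c := mon c 0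
  map_one' := mon_zero_one
  map_mul' c d := by rw [mon_mul, add_zero]
  map_zero' := mon_zero 0
  map_add' c d := mon_add c d 0

theorem cst_apply (c : C) : (cst c : MF C A) = mon c 0 := rfl

theorem cst_mul_mon (c d : C) (a : A) : cst c * mon d a = mon (c * d) a := by
  rw [cst_apply, mon_mul, zero_add]

theorem cst_injective : Function.Injective (cst : C →+* MF C A) := RingHom.injective _

theorem cst_root {n : ℕ} {ζ : C} (h : IsPrimitiveRoot ζ n) :
    IsPrimitiveRoot (cst ζ : MF C A) n := h.map_of_injective cst_injective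

instance [CharZero C] : CharZero (MF C A) := charZero_of_injective_ringHom (cst_injective (A := A))

/-- Two ring homs on `Frac C[A]` which agree on monomials agree. -/
theorem MF_hom_ext {E : Type} [Semiring E] {f g : MF C A →+* E}
    (h : ∀ c a, f (mon c a) = g (mon c a)) : f = g := by
  apply IsLocalization.ringHom_ext (nonZeroDivisors (MA C A))
  apply MA_hom_ext
  intro a c
  exact h c a

/-- Variant of `MF_hom_ext`. -/
theorem MF_hom_ext' {E : Type} [Semiring E] {f g : MF C A →+* E}
    (h : ∀ c, f (cst c) = g (cst c)) (h' : ∀ a, f (mon 1 a) = g (mon 1 a)) : f = g := by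
  apply MF_hom_ext
  intro c a
  rw [← mul_one c, ← cst_mul_mon, map_mul, map_mul, h, h']

/-- The extension of `mLift` to the fraction field. -/
def MFlift {E : Type} [Field E] (φ : C →+* E) (χ : Multiplicative A →* E)
    (h : Function.Injective (mLift φ χ)) : MF C A →+* E := IsFractionRing.lift h

@[simp] theorem MFlift_mon {E : Type} [Field E] (φ : C →+* E) (χ : Multiplicative A →* E)
    (h : Function.Injective (mLift φ χ)) (c : C) (a : A) :
    MFlift φ χ h (mon c a) = φ c * χ (Multiplicative.ofAdd a) := by
  rw [MFlift, mon, IsFractionRing.lift_algebraMap, mLift_single]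

end MF

section MAlg

variable {C A A' : Type} [Field C] [AddCommGroup A] [AddCommGroup A']

/-- The monomial ring hom `C[A] → C[A']`, `c T ^ a ↦ c χ(a) T ^ (σ a)`. -/
def mAlg (σ : A →+ A') (χ : Multiplicative A →* C) : MA C A →+* MA C A' :=
  mLift AddMonoidAlgebra.singleZeroRingHom
    { toFun := fun a => AddMonoidAlgebra.single (σ (Multiplicative.toAdd a)) (χ a)
      map_one' := by
        rw [map_one χ, toAdd_one, map_zero, AddMonoidAlgebra.one_def]
      map_mul' := fun a b => by
        rw [map_mul χ, toAdd_mul, map_add, AddMonoidAlgebra.single_mul_single] }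

@[simp] theorem mAlg_single (σ : A →+ A') (χ : Multiplicative A →* C) (a : A) (c : C) :
    mAlg σ χ (AddMonoidAlgebra.single a c) =
      AddMonoidAlgebra.single (σ a) (c * χ (Multiplicative.ofAdd a)) := by
  rw [mAlg, mLift_single]
  change AddMonoidAlgebra.single 0 c * AddMonoidAlgebra.single (σ a) _ = _
  rw [AddMonoidAlgebra.single_mul_single, zero_add]

theorem char_ne_zero (χ : Multiplicative A →* C) (a : Multiplicative A) : χ a ≠ 0 := by
  intro h
  have h1 : χ a * χ a⁻¹ = 1 := by rw [← map_mul, mul_inv_cancel, map_one]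
  rw [h, zero_mul] at h1
  exact zero_ne_one h1

theorem mAlg_injective (σ : A →+ A') (hσ : Function.Injective σ) (χ : Multiplicative A →* C) :
    Function.Injective (mAlg σ χ) := by
  have hne := char_ne_zero χ
  have hco : ∀ (f : MA C A) (a : A), (mAlg σ χ f).coeff (σ a) =
      f.coeff a * χ (Multiplicative.ofAdd a) := by
    intro f a
    induction f using AddMonoidAlgebra.induction_linear with
    | zero => simp
    | add f g hf hg => rw [map_add, AddMonoidAlgebra.coeff_add, Finsupp.add_apply, hf, hg,
        AddMonoidAlgebra.coeff_add, Finsupp.add_apply, add_mul]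
    | single b c =>
      rw [mAlg_single, AddMonoidAlgebra.coeff_single, AddMonoidAlgebra.coeff_single]
      classical
      rw [Finsupp.single_apply, Finsupp.single_apply]
      by_cases h : b = a
      · rw [if_pos (by rw [h]), if_pos h, h]
      · rw [if_neg (fun h' => h (hσ h')), if_neg h, zero_mul]
  rw [injective_iff_map_eq_zero]
  intro f hf
  ext a
  have h1 := hco f a
  rw [hf] at h1
  simp only [AddMonoidAlgebra.coeff_zero, Finsupp.coe_zero, Pi.zero_apply] at h1 ⊢
  rcases mul_eq_zero.1 h1.symm with h | h
  · exact h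
  · exact absurd h (hne _)

end MAlg

section mHom

variable {C A A' : Type} [Field C] [AddCommGroup A] [TwoUniqueSums A] [AddCommGroup A']
  [TwoUniqueSums A']

/-- the monomial hom `A → Frac C[A']`, `a ↦ χ(a) T ^ (σ a)` -/
def mChar (σ : A →+ A') (χ : Multiplicative A →* C) : Multiplicative A →* MF C A' where
  toFun a := mon (χ a) (σ (Multiplicative.toAdd a))
  map_one' := by
    rw [map_one, toAdd_one, map_zero, mon_zero_one]
  map_mul' a b := by
    rw [map_mul, toAdd_mul, map_add, mon_mul]

omit [TwoUniqueSums A] in
theorem mLift_mChar (σ : A →+ A') (χ : Multiplicative A →* C) :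
    mLift cst (mChar σ χ) = (algebraMap (MA C A') (MF C A')).comp (mAlg σ χ) := by
  apply MA_hom_ext
  intro a c
  rw [mLift_single, RingHom.comp_apply, mAlg_single]
  change cst c * mon _ _ = mon _ _
  rw [cst_mul_mon]
  rfl

omit [TwoUniqueSums A] in
theorem mLift_mChar_injective (σ : A →+ A') (hσ : Function.Injective σ)
    (χ : Multiplicative A →* C) : Function.Injective (mLift cst (mChar σ χ)) := by
  rw [mLift_mChar]
  exact mon_injective.comp (mAlg_injective σ hσ χ)

/-- The monomial ring hom `Frac C[A] → Frac C[A']`, `c T ^ a ↦ c χ(a) T ^ (σ a)`. -/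
def mHom (σ : A →+ A') (hσ : Function.Injective σ) (χ : Multiplicative A →* C) :
    MF C A →+* MF C A' := MFlift cst (mChar σ χ) (mLift_mChar_injective σ hσ χ)

@[simp] theorem mHom_mon (σ : A →+ A') (hσ : Function.Injective σ) (χ : Multiplicative A →* C)
    (c : C) (a : A) : mHom σ hσ χ (mon c a) = mon (c * χ (Multiplicative.ofAdd a)) (σ a) := by
  rw [mHom, MFlift_mon]
  change cst c * mon _ _ = _
  rw [cst_mul_mon]
  rfl

@[simp] theorem mHom_cst (σ : A →+ A') (hσ : Function.Injective σ) (χ : Multiplicative A →* C)
    (c : C) : mHom σ hσ χ (cst c) = cst c := by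
  rw [cst_apply, mHom_mon, map_zero σ, ofAdd_zero, map_one χ, mul_one, cst_apply]

/-- `mHom` on Laurent polynomials -/
theorem mHom_algebraMap (σ : A →+ A') (hσ : Function.Injective σ) (χ : Multiplicative A →* C)
    (f : MA C A) : mHom σ hσ χ (algebraMap (MA C A) (MF C A) f) =
      algebraMap (MA C A') (MF C A') (mAlg σ χ f) := by
  rw [mHom, MFlift, IsFractionRing.lift_algebraMap, mLift_mChar]
  rfl

end mHom

end

end OddGp
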