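import Mathlib
import Pool.Agent.W_MP_bec7e1_h80.Mon
import Pool.Agent.W_MP_bec7e1_h80.Abs
import Pool.Agent.W_MP_bec7e1_h80.Lat3

/-!
# The concrete fields and automorphisms
-/

namespace OddGp

open Finset

noncomputable section

theorem twoUniqueSums_sub {A : Type} [AddCommGroup A] [TwoUniqueSums A] (B : AddSubgroup A) :
    TwoUniqueSums B :=
  TwoUniqueSums.of_injective_addHom (B.subtype : B →+ A).toAddHom Subtype.val_injective
    inferInstance

instance (G : Type) [Group G] [Fintype G] : TwoUniqueSums (Circ G) := twoUniqueSums_sub _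
instance (p : ℕ) [NeZero p] : TwoUniqueSums (AZ p) := twoUniqueSums_sub _
instance (p : ℕ) [Fact p.Prime] : TwoUniqueSums (Lam p) := twoUniqueSums_sub _

/-- the lattice of `L` -/
abbrev LL (p : ℕ) [Fact p.Prime] : Type := AZ p × Lam p

/-- the lattice of `N` -/
abbrev NL (p : ℕ) [Fact p.Prime] : Type := AZ p × (Circ (GA p) × ℤ)

section zchar

variable {C A A' : Type} [Field C] [AddCommGroup A] [AddCommGroup A']

/-- the character `a ↦ η ^ (e a)` -/
def zchar (η : Cˣ) (e : A →+ ℤ) : Multiplicative A →* C where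
  toFun a := ((η ^ (e (Multiplicative.toAdd a)) : Cˣ) : C)
  map_one' := by rw [toAdd_one, map_zero, zpow_zero, Units.val_one]
  map_mul' a b := by rw [toAdd_mul, map_add, zpow_add, Units.val_mul]

@[simp] theorem zchar_ofAdd (η : Cˣ) (e : A →+ ℤ) (a : A) :
    zchar η e (Multiplicative.ofAdd a) = ((η ^ (e a) : Cˣ) : C) := rfl

variable [TwoUniqueSums A] [TwoUniqueSums A']

/-- the monomial endomorphism `T ^ a ↦ η ^ (e a) T ^ (σ a)` -/
def zHom (η : Cˣ) (σ : A →+ A') (hσ : Function.Injective σ) (e : A →+ ℤ) : MF C A →+* MF C A' :=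
  mHom σ hσ (zchar η e)

@[simp] theorem zHom_mon (η : Cˣ) (σ : A →+ A') (hσ : Function.Injective σ) (e : A →+ ℤ) (c : C)
    (a : A) : zHom η σ hσ e (mon c a) = mon (c * ((η ^ (e a) : Cˣ) : C)) (σ a) := by
  rw [zHom, mHom_mon, zchar_ofAdd]

@[simp] theorem zHom_cst (η : Cˣ) (σ : A →+ A') (hσ : Function.Injective σ) (e : A →+ ℤ) (c : C) :
    zHom η σ hσ e (cst c) = cst c := by
  rw [zHom, mHom_cst]

omit [TwoUniqueSums A'] [AddCommGroup A'] in
theorem zHom_iterate (η : Cˣ) (σ : A →+ A) (hσ : Function.Injective σ) (e : A →+ ℤ) (n : ℕ)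
    (c : C) (a : A) : (zHom η σ hσ e)^[n] (mon c a) =
      mon (c * ((η ^ (∑ t ∈ range n, e (σ^[t] a)) : Cˣ) : C)) (σ^[n] a) := by
  induction n with
  | zero => simp
  | succ n ih =>
    rw [Function.iterate_succ_apply', ih, zHom_mon, Finset.sum_range_succ, zpow_add,
      Units.val_mul, mul_assoc, Function.iterate_succ_apply']

omit [TwoUniqueSums A'] [AddCommGroup A'] in
/-- iterates of ring homs are determined by monomials -/
theorem iterate_eq_self (X : MF C A →+* MF C A) (n : ℕ)
    (h : ∀ c a, X^[n] (mon c a) = mon c a) (f : MF C A) : X^[n] f = f := by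
  have h1 : X ^ n = RingHom.id _ := by
    apply MF_hom_ext
    intro c a
    rw [RingHom.coe_pow, h, RingHom.id_apply]
  have h2 := congrArg (fun g : MF C A →+* MF C A => g f) h1
  simpa [RingHom.coe_pow] using h2

end zchar

section conc

variable (C : Type) [Field C] (p : ℕ) [Fact p.Prime]

/-- the field `L` -/
abbrev fL : Type := MF C (LL p)

/-- the field `N` -/
abbrev fN : Type := MF C (NL p)

variable {C} (η : Cˣ)

/-- inclusion of lattices -/
def incl : LL p →+ NL p := AddMonoidHom.prodMap (AddMonoidHom.id _) (Lam p).subtype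

theorem incl_apply (a : LL p) : incl p a = (a.1, a.2.1) := rfl

theorem incl_injective : Function.Injective (incl p) := by
  intro a b h
  rw [incl_apply, incl_apply, Prod.mk.injEq] at h
  exact Prod.ext h.1 (Subtype.ext h.2)

/-- `L → N` -/
def emC : fL C p →+* fN C p := zHom (1 : Cˣ) (incl p) (incl_injective p) 0

theorem emC_mon (c : C) (a : LL p) : emC (C := C) p (mon c a) = mon c (incl p a) := by
  rw [emC, zHom_mon]; simp

/-- holonomy on the lattice of `N` -/
def holN : NL p →+ ℤ := (holZ p).comp (AddMonoidHom.snd _ _)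

theorem holN_apply (a : NL p) : holN p a = a.2.2 + aB p a.2.1 := rfl

/-- `δ T^b = ζ^{-hol b} T^b`, `ζ = η^p` -/
def dlC : fN C p →+* fN C p :=
  zHom η (AddMonoidHom.id _) Function.injective_id (-((p : ℤ) • holN p))

/-- `ν` -/
def nuC : fN C p := mon (1 : C) ((0, (0, 1)) : NL p)

/-- `n = ν^p` -/
def nnC : fL C p := mon (1 : C) ((0, nL p) : LL p)

/-- `(a0, l) ↦ (a0, x l)` -/
def sgX : LL p →+ LL p := AddMonoidHom.prodMap (AddMonoidHom.id _) (actL GA.x)

theorem sgX_apply (a : LL p) : sgX p a = (a.1, (GA.x : GA p) • a.2) := rfl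

theorem sgX_injective : Function.Injective (sgX p) := by
  intro a b h
  rw [sgX_apply, sgX_apply, Prod.mk.injEq] at h
  exact Prod.ext h.1 (MulAction.injective _ h.2)

/-- exponent of `η` in `X_d` -/
def eX (d : ℤ) : LL p →+ ℤ :=
  -((p : ℤ) • (mom p).comp (AddMonoidHom.fst _ _)) +
    d • ((exXL p).comp (AddMonoidHom.snd _ _) - (vL p).comp (AddMonoidHom.snd _ _))

theorem eX_apply (d : ℤ) (a : LL p) :
    eX p d a = -(p * mom p a.1) + d * (exXL p a.2 - vL p a.2) := rfl

/-- `X_d` -/
def XC (d : ℤ) : fL C p →+* fL C p := zHom η (sgX p) (sgX_injective p) (eX p d)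

/-- `(a0, l) ↦ (y a0 - d v(l) (δ_1 - δ_0), y l)` -/
def sgY (d : ℤ) : LL p →+ LL p where
  toFun a := (shA p a.1 - (d * vL p a.2) • dlt 1, (GA.y : GA p) • a.2)
  map_zero' := by simp
  map_add' a b := by
    apply Prod.ext
    · change shA p (a.1 + b.1) - (d * vL p (a.2 + b.2)) • dlt 1 = _
      rw [map_add, map_add, mul_add, add_smul]
      change _ = (shA p a.1 - (d * vL p a.2) • dlt 1) + (shA p b.1 - (d * vL p b.2) • dlt 1)
      abel
    · exact smul_add _ _ _

theorem sgY_apply (d : ℤ) (a : LL p) :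
    sgY p d a = (shA p a.1 - (d * vL p a.2) • dlt 1, (GA.y : GA p) • a.2) := rfl

theorem shA_injective : Function.Injective (shA p) := by
  intro a b h
  apply Subtype.ext
  funext s
  have h1 := congrArg (fun v : AZ p => v.1 (s + 1)) h
  change a.1 (s + 1 - 1) = b.1 (s + 1 - 1) at h1
  rwa [add_sub_cancel_right] at h1

theorem sgY_injective (d : ℤ) : Function.Injective (sgY p d) := by
  intro a b h
  rw [sgY_apply, sgY_apply, Prod.mk.injEq] at h
  have h2 : a.2 = b.2 := MulAction.injective _ h.2
  have h1 := h.1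
  rw [h2] at h1
  exact Prod.ext (shA_injective p (sub_left_inj.1 h1)) h2

/-- exponent of `η` in `Y_d` -/
def eY (d : ℤ) : LL p →+ ℤ := d • (exYL p).comp (AddMonoidHom.snd _ _)

theorem eY_apply (d : ℤ) (a : LL p) : eY p d a = d * exYL p a.2 := rfl

/-- `Y_d` -/
def YC (d : ℤ) : fL C p →+* fL C p := zHom η (sgY p d) (sgY_injective p d) (eY p d)

/-- `μ_x = η` -/
def muX : (fL C p)ˣ := Units.map (cst : C →+* fL C p).toMonoidHom η

theorem muX_val : (muX p η : fL C p) = cst (η : C) := rfl

/-- `ζ = η^p` in `L` -/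
def zeC : (fL C p)ˣ := Units.map (cst : C →+* fL C p).toMonoidHom (η ^ p)

theorem zeC_val : (zeC p η : fL C p) = cst ((η : C) ^ p) := by
  change cst ((η ^ p : Cˣ) : C) = _
  rw [Units.val_pow_eq_pow_val]

variable (C) in
/-- `μ_y = T^{δ_1 - δ_0}` -/
def muY : (fL C p)ˣ where
  val := mon (1 : C) ((dlt 1, 0) : LL p)
  inv := mon (1 : C) (-((dlt 1, 0) : LL p))
  val_inv := by rw [mon_mul, mul_one, add_neg_cancel, mon_zero_one]
  inv_val := by rw [mon_mul, mul_one, neg_add_cancel, mon_zero_one]

theorem muY_val : (muY C p : fL C p) = mon (1 : C) ((dlt 1, 0) : LL p) := rfl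

/-- extension of `X_0` to `N` -/
def sgXN : NL p →+ NL p := AddMonoidHom.prodMap (AddMonoidHom.id _)
  (AddMonoidHom.prodMap (DistribSMul.toAddMonoidHom _ (GA.x : GA p)) (AddMonoidHom.id _))

theorem sgXN_apply (a : NL p) : sgXN p a = (a.1, ((GA.x : GA p) • a.2.1, a.2.2)) := rfl

theorem sgXN_injective : Function.Injective (sgXN p) := by
  intro a b h
  rw [sgXN_apply, sgXN_apply, Prod.mk.injEq, Prod.mk.injEq] at h
  exact Prod.ext h.1 (Prod.ext (MulAction.injective _ h.2.1) h.2.2)

/-- extension of `X_0` to `N` -/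
def XN : fN C p →+* fN C p := zHom η (sgXN p) (sgXN_injective p)
  (-((p : ℤ) • (mom p).comp (AddMonoidHom.fst _ _)))

/-- extension of `Y_0` to `N` -/
def sgYN : NL p →+ NL p := AddMonoidHom.prodMap (shA p)
  (AddMonoidHom.prodMap (DistribSMul.toAddMonoidHom _ (GA.y : GA p)) (AddMonoidHom.id _))

theorem sgYN_apply (a : NL p) : sgYN p a = (shA p a.1, ((GA.y : GA p) • a.2.1, a.2.2)) := rfl

theorem sgYN_injective : Function.Injective (sgYN p) := by
  intro a b h
  rw [sgYN_apply, sgYN_apply, Prod.mk.injEq, Prod.mk.injEq] at h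
  exact Prod.ext (shA_injective p h.1) (Prod.ext (MulAction.injective _ h.2.1) h.2.2)

/-- extension of `Y_0` to `N` -/
def YN : fN C p →+* fN C p := zHom (1 : Cˣ) (sgYN p) (sgYN_injective p) 0

end conc

section glob

variable (C : Type) [Field C] (p : ℕ) [Fact p.Prime]

/-- the field `K` -/
abbrev fK : Type := MF C (Circ (GG p))

variable {C p}

theorem smulHom_injective (g : GG p) :
    Function.Injective (DistribSMul.toAddMonoidHom (Circ (GG p)) g) :=
  MulAction.injective g

/-- the action of an element of `GG p` on `K` -/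
def actKHom (g : GG p) : fK C p →+* fK C p :=
  zHom (1 : Cˣ) (DistribSMul.toAddMonoidHom _ g) (smulHom_injective g) 0

theorem actKHom_mon (g : GG p) (c : C) (m : Circ (GG p)) :
    actKHom g (mon c m) = mon c (g • m) := by
  rw [actKHom, zHom_mon]; simp

variable (C p) in
/-- The action of `GG p` on `K` (permutation of the monomials). -/
instance actK : MulSemiringAction (GG p) (fK C p) where
  smul g a := actKHom g a
  one_smul a := by
    change actKHom 1 a = a
    have h : actKHom (C := C) (1 : GG p) = RingHom.id _ := by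
      apply MF_hom_ext
      intro c m
      rw [actKHom_mon, one_smul, RingHom.id_apply]
    rw [h, RingHom.id_apply]
  mul_smul g g' a := by
    change actKHom (g * g') a = actKHom g (actKHom g' a)
    have h : actKHom (C := C) (g * g') = (actKHom g).comp (actKHom g') := by
      apply MF_hom_ext
      intro c m
      rw [actKHom_mon, RingHom.comp_apply, actKHom_mon, actKHom_mon, mul_smul]
    rw [h, RingHom.comp_apply]
  smul_zero g := map_zero (actKHom g)
  smul_add g := map_add (actKHom g)
  smul_one g := map_one (actKHom g)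
  smul_mul g := map_mul (actKHom g)

theorem smul_mon (g : GG p) (c : C) (m : Circ (GG p)) :
    g • (mon c m : fK C p) = mon c (g • m) := actKHom_mon g c m

theorem smul_cst (g : GG p) (c : C) : g • (cst c : fK C p) = cst c := by
  rw [cst_apply, smul_mon, smul_zero]

variable (C p) in
/-- the universal cocycle -/
def cK : Coc (GG p) (fK C p) where
  c g h := mon (1 : C) (cc g h)
  ne g h := mon_ne_zero one_ne_zero _
  one_left g := by rw [cc_one_left, mon_zero_one]
  one_right g := by rw [cc_one_right, mon_zero_one]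
  coc g h l := by
    rw [smul_mon, mon_mul, mon_mul, cc_coc]

theorem YY_cK : YY (cK C p) = mon (1 : C) (yG p) := by
  rw [YY, yG]
  have h : ∀ (s : Finset ℕ) (F : ℕ → Circ (GG p)),
      ∏ t ∈ s, (mon (1 : C) (F t) : fK C p) = mon (1 : C) (∑ t ∈ s, F t) := by
    intro s F
    induction s using Finset.induction_on with
    | empty => rw [Finset.prod_empty, Finset.sum_empty, mon_zero_one]
    | insert a s ha ih => rw [Finset.prod_insert ha, Finset.sum_insert ha, ih, mon_mul, mul_one]
  exact h _ _

end glob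

end

end OddGp
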