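import Mathlib
import Pool.Agent.W_MP_bec7e1_h80.Conc

/-!
# Claim A
-/

namespace OddGp

open HahnSeries Finset

noncomputable section

section abstractA

variable {C A B : Type} [Field C] [AddCommGroup A] [TwoUniqueSums A] [AddCommGroup B]
  [TwoUniqueSums B]

/-- the character `a ↦ T ^ a τ ^ {W a}` -/
def clA_char (W : A →+ ℤ) : Multiplicative A →* LaurentSeries (MF C A) where
  toFun a := single (W (Multiplicative.toAdd a)) (mon (1 : C) (Multiplicative.toAdd a))
  map_one' := by
    rw [toAdd_one, map_zero, mon_zero_one]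
    rfl
  map_mul' a b := by
    rw [toAdd_mul, map_add, single_mul_single, mon_mul, mul_one]

/-- the part of weight `n` -/
def clA_fil (W : A →+ ℤ) (n : ℤ) (f : MA C A) : MA C A :=
  AddMonoidAlgebra.ofCoeff (f.coeff.filter (fun a => W a = n))

theorem clA_coeff (W : A →+ ℤ) (n : ℤ) (f : MA C A) :
    (mLift ((HahnSeries.C : MF C A →+* LaurentSeries (MF C A)).comp cst) (clA_char W) f).coeff n =
      algebraMap (MA C A) (MF C A) (clA_fil W n f) := by
  induction f using AddMonoidAlgebra.induction_linear with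
  | zero =>
    have h : clA_fil W n (0 : MA C A) = 0 := by
      unfold clA_fil
      rw [AddMonoidAlgebra.coeff_zero, Finsupp.filter_zero, AddMonoidAlgebra.ofCoeff_zero]
    rw [h]
    simp
  | add f g hf hg =>
    have h : clA_fil W n (f + g) = clA_fil W n f + clA_fil W n g := by
      unfold clA_fil
      rw [AddMonoidAlgebra.coeff_add, Finsupp.filter_add, AddMonoidAlgebra.ofCoeff_add]
    rw [h, map_add, coeff_add, hf, hg, map_add]
  | single a c =>
    rw [mLift_single, RingHom.comp_apply]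
    have h1 : (HahnSeries.C (cst c : MF C A) : LaurentSeries (MF C A)) *
        clA_char W (Multiplicative.ofAdd a) = single (W a) (mon c a) := by
      change single (0 : ℤ) (cst c : MF C A) * single (W a) (mon (1 : C) a) = _
      rw [single_mul_single, zero_add, cst_mul_mon, mul_one]
    rw [h1, coeff_single]
    unfold clA_fil
    rw [AddMonoidAlgebra.coeff_single]
    by_cases h : W a = n
    · have e : Finsupp.filter (fun a => W a = n) (Finsupp.single a c) = Finsupp.single a c :=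
        Finsupp.filter_single_of_pos (fun a => W a = n) h
      rw [if_pos h.symm, e]
      rfl
    · have e : Finsupp.filter (fun a => W a = n) (Finsupp.single a c) = 0 :=
        Finsupp.filter_single_of_neg (fun a => W a = n) h
      rw [if_neg (fun h' => h h'.symm), e, AddMonoidAlgebra.ofCoeff_zero, map_zero]

theorem clA_inj (W : A →+ ℤ) : Function.Injective
    (mLift ((HahnSeries.C : MF C A →+* LaurentSeries (MF C A)).comp cst) (clA_char W)) := by
  rw [injective_iff_map_eq_zero]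
  intro f hf
  ext a
  have h := clA_coeff W (W a) f
  rw [hf, coeff_zero, ← map_zero (algebraMap (MA C A) (MF C A))] at h
  have h1 := mon_injective h
  have h2 := congrArg (fun g : MA C A => g.coeff a) h1
  simp only [clA_fil, AddMonoidAlgebra.coeff_ofCoeff, AddMonoidAlgebra.coeff_zero,
    Finsupp.coe_zero, Pi.zero_apply] at h2
  rw [Finsupp.filter_apply_pos (fun a' => W a' = W a) f.coeff rfl] at h2
  simp only [AddMonoidAlgebra.coeff_zero, Finsupp.coe_zero, Pi.zero_apply]
  exact h2.symm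

/-- TASK. The graded embedding `T^a ↦ T^a τ^{W a}` of `Frac C[A]` into `Frac C[A]((τ))`.
Proof: `MFlift` with `φ = C ∘ cst` and the character `a ↦ single (W a) (mon 1 a)`; injectivity of
`mLift`: the sum of all coefficients of the image of `f` is (the image of) `f`; precisely, the
coefficient at `n` of the image of `f` is `∑_{a : W a = n} mon (f a) a`, so if the image is zero then
`f = ∑_n (..) = 0` (`mon_injective`). -/
theorem exists_Th (W : A →+ ℤ) : ∃ Θ : MF C A →+* LaurentSeries (MF C A),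
    ∀ (c : C) (a : A), Θ (mon c a) = single (W a) (mon c a) := by
  refine ⟨MFlift _ _ (clA_inj W), fun c a => ?_⟩
  rw [MFlift_mon, RingHom.comp_apply]
  change single (0 : ℤ) (cst c : MF C A) * single (W a) (mon (1 : C) a) = _
  rw [single_mul_single, zero_add, cst_mul_mon, mul_one]

theorem clA_prod {L : Type} [Field L] (lc : L → L) (hm : ∀ a b, lc (a * b) = lc a * lc b)
    (h1 : lc 1 = 1) (g : ℕ → L) (n : ℕ) : lc (∏ t ∈ range n, g t) = ∏ t ∈ range n, lc (g t) := by
  induction n with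
  | zero => simpa using h1
  | succ n ih => rw [prod_range_succ, hm, ih, prod_range_succ]

/-- the computation of Claim A with abstract leading coefficients -/
theorem clA_core {p : ℕ} [Fact p.Prime] (hp2 : p ≠ 2) {L N : Type} [Field L] [Field N]
    (em : L →+* N) (δ : N →+* N) (ζ nn : L) (ν : N) (X : L →+* L) (hK : Kum p em δ ζ nn ν)
    (hXζ : X ζ = ζ) (hXn : X nn = nn) (hX : ∀ l, X^[p] l = l) (lcL : L → L) (lcN : N → N)
    (mulL : ∀ a b, lcL (a * b) = lcL a * lcL b)
    (lcζ : ∀ a : ℤ, lcL (ζ ^ a) = ζ ^ a)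
    (mulN : ∀ a b, lcN (a * b) = lcN a * lcN b) (neN : ∀ a, a ≠ 0 → lcN a ≠ 0)
    (h1 : ∀ l, lcN (em l) = em (lcL l)) (h2 : ∀ l, lcL (X l) = X (lcL l))
    (h3 : ∀ q, lcN (δ q) = δ (lcN q))
    (h4 : ∀ q, ∃ n : ℤ, δ (lcN q) = (em ζ) ^ (-n) * lcN q) : ClaimA p em δ ζ X := by
  intro l m q a hl hm hq hlq hXl hma
  have hp : p.Prime := Fact.out
  have hζ0 : ζ ≠ 0 := hK.prim.ne_zero hp.ne_zero
  have hemζ0 : em ζ ≠ 0 := (map_ne_zero em).2 hζ0
  have hemζp : (em ζ) ^ p = 1 := by rw [← map_pow, hK.prim.pow_eq_one, map_one]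
  have lcL1 : lcL 1 = 1 := by simpa using lcζ 0
  have lcN1 : lcN 1 = 1 := by
    have e := mulN 1 1
    rw [mul_one] at e
    have e2 : lcN 1 * (lcN 1 - 1) = 0 := by rw [mul_sub, mul_one, ← e, sub_self]
    rcases mul_eq_zero.1 e2 with h | h
    · exact absurd h (neN 1 one_ne_zero)
    · exact sub_eq_zero.1 h
  obtain ⟨n, hn⟩ := h4 q
  have hf0 : lcN q ≠ 0 := neN q hq
  -- the element `f ν^{-n}` is fixed
  have hδν : δ ν = (em ζ)⁻¹ * ν := by
    rw [eq_inv_mul_iff_mul_eq₀ hemζ0]
    exact hK.δν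
  have hfix : δ (lcN q * ν ^ (-n)) = lcN q * ν ^ (-n) := by
    rw [map_mul, map_zpow₀, hn, hδν, mul_zpow, inv_zpow, ← zpow_neg, neg_neg]
    have e : (em ζ) ^ (-n) * (em ζ) ^ n = 1 := by
      rw [← zpow_add₀ hemζ0, neg_add_cancel, zpow_zero]
    calc (em ζ) ^ (-n) * lcN q * ((em ζ) ^ n * ν ^ (-n))
        = ((em ζ) ^ (-n) * (em ζ) ^ n) * (lcN q * ν ^ (-n)) := by ring
      _ = lcN q * ν ^ (-n) := by rw [e, one_mul]
  obtain ⟨l', hl'⟩ := hK.fix _ hfix
  have hl'0 : l' ≠ 0 := by
    rintro rfl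
    rw [map_zero] at hl'
    exact (mul_ne_zero hf0 (zpow_ne_zero _ hK.ν0)) hl'.symm
  have hf : lcN q = em l' * ν ^ n := by
    rw [hl', mul_assoc, ← zpow_add₀ hK.ν0, neg_add_cancel, zpow_zero, mul_one]
  -- leading coefficients of the conjugates
  have hit : ∀ t : ℕ, lcN (δ^[t] q) = ((em ζ) ^ (-n)) ^ t * lcN q := by
    intro t
    induction t with
    | zero => simp
    | succ t ih =>
      rw [Function.iterate_succ_apply', h3, ih, map_mul, map_pow, map_zpow₀, hK.em_fix, hn,
        pow_succ]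
      ring
  have hsum : ∃ k : ℕ, ∑ t ∈ range p, t = p * k := by
    have e := Finset.sum_range_id_mul_two p
    obtain ⟨k, hk⟩ := hp.odd_of_ne_two hp2
    refine ⟨k, ?_⟩
    have e2 : p - 1 = 2 * k := by omega
    rw [e2] at e
    have : (∑ t ∈ range p, t) * 2 = (p * k) * 2 := by rw [e]; ring
    exact Nat.eq_of_mul_eq_mul_right (by norm_num) this
  have hprodN : lcN (∏ t ∈ range p, δ^[t] q) = lcN q ^ p := by
    rw [clA_prod lcN mulN lcN1]
    rw [Finset.prod_congr rfl (fun t _ => hit t), Finset.prod_mul_distrib, Finset.prod_const,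
      Finset.card_range, Finset.prod_pow_eq_pow_sum]
    obtain ⟨k, hk⟩ := hsum
    rw [hk, pow_mul, ← zpow_natCast ((em ζ) ^ (-n)) p, ← zpow_mul, mul_comm (-n) (p : ℤ), zpow_mul,
      zpow_natCast, hemζp, one_zpow, one_pow, one_mul]
  have hlc : lcL l = l' ^ p * nn ^ n := by
    apply em.injective
    rw [← h1, hlq, hprodN, hf, map_mul, map_pow, map_zpow₀, ← hK.νp, mul_pow, ← zpow_natCast (ν ^ n) p,
      ← zpow_mul, ← zpow_natCast ν p, ← zpow_mul, mul_comm n (p : ℤ)]
  have hnn0 : nn ≠ 0 := by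
    intro h
    have := hK.νp
    rw [h, map_zero] at this
    exact hK.ν0 (pow_eq_zero_iff hp.ne_zero |>.1 this)
  -- apply `X`
  have hlc2 : (lcL m * l') ^ p = (X l') ^ p := by
    have e1 : lcL (X l) = (X l') ^ p * nn ^ n := by
      rw [h2, hlc, map_mul, map_pow, map_zpow₀, hXn]
    have e2 : lcL (X l) = (lcL m) ^ p * (l' ^ p * nn ^ n) := by
      rw [hXl, mulL, hlc]
      congr 1
      have : ∀ k : ℕ, lcL (m ^ k) = lcL m ^ k := by
        intro k
        induction k with
        | zero => simpa using lcL1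
        | succ k ih => rw [pow_succ, mulL, ih, pow_succ]
      exact this p
    rw [e1] at e2
    have h0 : nn ^ n ≠ 0 := zpow_ne_zero _ hnn0
    apply mul_right_cancel₀ h0
    rw [mul_pow, mul_assoc, ← e2]
  have hXl'0 : X l' ≠ 0 := (map_ne_zero X).2 hl'0
  have hroot : (lcL m * l' / X l') ^ p = 1 := by
    rw [div_pow, hlc2, div_self (pow_ne_zero _ hXl'0)]
  have : NeZero p := ⟨hp.ne_zero⟩
  obtain ⟨b, -, hb⟩ := hK.prim.eq_pow_of_pow_eq_one hroot
  have hlcm : lcL m = ζ ^ b * (X l' / l') := by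
    rw [hb]
    field_simp
  have hXit : ∀ t : ℕ, lcL (X^[t] m) = X^[t] (lcL m) := by
    intro t
    induction t with
    | zero => rfl
    | succ t ih => rw [Function.iterate_succ_apply', h2, ih, Function.iterate_succ_apply']
  have hXt0 : ∀ t : ℕ, X^[t] l' ≠ 0 := by
    intro t
    induction t with
    | zero => exact hl'0
    | succ t ih =>
      rw [Function.iterate_succ_apply']
      exact (map_ne_zero X).2 ih
  have hXt : ∀ t : ℕ, X^[t] (lcL m) = ζ ^ b * (X^[t + 1] l' / X^[t] l') := by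
    intro t
    induction t with
    | zero =>
      rw [hlcm]
      rfl
    | succ t ih =>
      rw [Function.iterate_succ_apply', ih, map_mul, map_pow, hXζ, map_div₀,
        ← Function.iterate_succ_apply' X (t + 1) l', ← Function.iterate_succ_apply' X t l']
  have htel : ∏ t ∈ range p, X^[t] (lcL m) = 1 := by
    rw [Finset.prod_congr rfl (fun t _ => hXt t), Finset.prod_mul_distrib, Finset.prod_const,
      Finset.card_range, ← pow_mul, mul_comm b p, pow_mul, hK.prim.pow_eq_one, one_pow, one_mul]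
    have : ∀ k : ℕ, ∏ t ∈ range k, (X^[t + 1] l' / X^[t] l') = X^[k] l' / l' := by
      intro k
      induction k with
      | zero => simp [hl'0]
      | succ k ih =>
        rw [prod_range_succ, ih, mul_comm, div_mul_div_cancel₀ (hXt0 k)]
    rw [this, hX, div_self hl'0]
  have hfin := congrArg lcL hma
  rw [clA_prod lcL mulL lcL1, Finset.prod_congr rfl (fun t _ => hXit t), htel, lcζ] at hfin
  exact hfin.symm

/-- TASK. Claim A, abstractly. `L = Frac C[B]`, `N = Frac C[A]`, `em = T^{i b}`, `δ = ζ^{-hol}`,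
`ν = T^{a1}`, `hol a1 = 1`, `nn = T^{b1}`, `i b1 = p a1`; `W : A → ℤ` is congruent to `hol` modulo `p`
and `W (i (σ b)) = W (i b)`, `X = zHom σ e` has order `p` and fixes `nn`.
Proof. Let `Θ` (on `N`) and `Θ'` (on `L`, for `W ∘ i`) be the embeddings of `exists_Th`. On monomials
one checks: `Θ (em l) = hmap em (Θ' l)`, `hmap X (Θ' l) = Θ' (X l)` (here `W (i (σ b)) = W (i b)`
is used), and `hmap δ (Θ q) = tw id (ζ⁻¹) (Θ q)` (as `W = hol` modulo `p`), i.e.
`δ ((Θ q).coeff n) = ζ^{-n} (Θ q).coeff n`, and `Θ (δ q) = hmap δ (Θ q)`.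
Let `em l = ∏_t δ^t q`, `X l = m^p l`, `∏ X^t m = ζ^a`. Let `f` be the leading coefficient of `Θ q`,
`n` its order. `δ f = ζ^{-n} f`, so `δ (f ν^{-n}) = f ν^{-n}` and `f = em l' * ν^n` with `l' ≠ 0`
(`hK.fix`). The leading coefficient of `Θ (∏ δ^t q) = ∏ hmap δ^t (Θ q)` is
`∏ δ^t f = ∏ ζ^{-n t} f = ζ^{-n p (p-1)/2} f^p = f^p` (`p` odd), which is `em (l'^p nn^n)`.
So, with `lc` the leading coefficient under `Θ'`: `lc l = l'^p nn^n` (`em` injective).
Apply `X`: `lc (X l) = X (lc l) = (X l')^p nn^n` and `lc (X l) = lc(m)^p lc(l)`; hence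
`(lc m * l' / X l')^p = 1`, so `lc m = ζ^b * X l' / l'` for some `b`, and
`∏ X^t (lc m) = ζ^{p b} ∏ X^t (X l' / l') = 1` (`X^p = 1`). But
`∏ X^t (lc m) = lc (∏ X^t m) = lc (ζ^a) = ζ^a`. -/
theorem claimA_abs {p : ℕ} [Fact p.Prime] (hp2 : p ≠ 2) (η : Cˣ) (i : B →+ A)
    (hi : Function.Injective i) (hol : A →+ ℤ) (a1 : A) (b1 : B) (hb1 : i b1 = p • a1)
    (W : A →+ ℤ) (hW : ∀ a, (p : ℤ) ∣ W a - hol a) (σ : B →+ B) (hσ : Function.Injective σ)
    (hWσ : ∀ b, W (i (σ b)) = W (i b)) (e : B →+ ℤ)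
    (hK : Kum p (zHom (1 : Cˣ) i hi 0)
      (zHom η (AddMonoidHom.id A) Function.injective_id (-((p : ℤ) • hol)))
      (cst ((η : C) ^ p) : MF C B) (mon 1 b1) (mon (1 : C) a1))
    (hX : ∀ l, (zHom η σ hσ e)^[p] l = l) (hXn : zHom η σ hσ e (mon 1 b1) = mon 1 b1) :
    ClaimA p (zHom (1 : Cˣ) i hi 0)
      (zHom η (AddMonoidHom.id A) Function.injective_id (-((p : ℤ) • hol)))
      (cst ((η : C) ^ p) : MF C B) (zHom η σ hσ e) := by
  have hp : p.Prime := Fact.out
  obtain ⟨Θ, hΘ⟩ := exists_Th (C := C) W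
  obtain ⟨Θ', hΘ'⟩ := exists_Th (C := C) (W.comp i)
  have hηp : ((η : C) ^ p) ^ p = 1 := by
    apply (cst_injective (C := C) (A := B))
    rw [map_pow, hK.prim.pow_eq_one, map_one]
  have hcst : ∀ c : C, Θ' (cst c) = single 0 (cst c) := by
    intro c
    rw [cst_apply, hΘ', map_zero]
  -- compatibility of `Θ` with the maps
  have c1 : ∀ l, Θ (zHom (1 : Cˣ) i hi 0 l) = hmap (zHom (1 : Cˣ) i hi 0) (Θ' l) := by
    intro l
    have e : Θ.comp (zHom (1 : Cˣ) i hi 0) = (hmap (zHom (1 : Cˣ) i hi 0)).comp Θ' := by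
      apply MF_hom_ext
      intro c b
      rw [RingHom.comp_apply, RingHom.comp_apply, hΘ', zHom_mon, hΘ]
      ext n
      rw [hmap_coeff, coeff_single, coeff_single, AddMonoidHom.comp_apply]
      split_ifs
      · rw [zHom_mon]
      · rw [map_zero]
    exact congrArg (fun g : MF C B →+* LaurentSeries (MF C A) => g l) e
  have c2 : ∀ l, Θ' (zHom η σ hσ e l) = hmap (zHom η σ hσ e) (Θ' l) := by
    intro l
    have e : Θ'.comp (zHom η σ hσ e) = (hmap (zHom η σ hσ e)).comp Θ' := by
      apply MF_hom_ext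
      intro c b
      rw [RingHom.comp_apply, RingHom.comp_apply, hΘ', zHom_mon, hΘ']
      ext n
      rw [hmap_coeff, coeff_single, coeff_single, AddMonoidHom.comp_apply,
        AddMonoidHom.comp_apply, hWσ]
      split_ifs
      · rw [zHom_mon]
      · rw [map_zero]
    exact congrArg (fun g : MF C B →+* LaurentSeries (MF C B) => g l) e
  set δ := zHom η (AddMonoidHom.id A) Function.injective_id (-((p : ℤ) • hol)) with hδ
  have c3 : ∀ q, Θ (δ q) = hmap δ (Θ q) := by
    intro q
    have e : Θ.comp δ = (hmap δ).comp Θ := by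
      apply MF_hom_ext
      intro c a
      rw [RingHom.comp_apply, RingHom.comp_apply, hδ, hΘ, zHom_mon, hΘ]
      ext n
      rw [hmap_coeff, coeff_single, coeff_single, AddMonoidHom.id_apply]
      split_ifs
      · rw [zHom_mon, AddMonoidHom.id_apply]
      · rw [map_zero]
    exact congrArg (fun g : MF C A →+* LaurentSeries (MF C A) => g q) e
  have hη : ∀ a : A, ((η ^ ((-((p : ℤ) • hol) : A →+ ℤ) a) : Cˣ) : C) =
      ((η : C) ^ p) ^ (-(W a)) := by
    intro a
    obtain ⟨k, hk⟩ := hW a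
    have h1 : (-((p : ℤ) • hol) : A →+ ℤ) a = -((p : ℤ) * hol a) := rfl
    have h2 : -((p : ℤ) * hol a) = (p : ℤ) * -(W a) + (p : ℤ) * ((p : ℤ) * k) := by
      rw [← hk]; ring
    rw [h1, h2, Units.val_zpow_eq_zpow_val, zpow_add₀ η.ne_zero, zpow_mul, zpow_natCast, zpow_mul,
      zpow_natCast, zpow_mul, zpow_natCast, hηp, one_zpow, mul_one]
  have c4 : ∀ q, hmap δ (Θ q) = tw (RingHom.id (MF C A))
      (Units.map (cst : C →+* MF C A).toMonoidHom (η ^ p))⁻¹ (Θ q) := by
    intro q
    have e : (hmap δ).comp Θ = (tw (RingHom.id (MF C A))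
        (Units.map (cst : C →+* MF C A).toMonoidHom (η ^ p))⁻¹).comp Θ := by
      apply MF_hom_ext
      intro c a
      rw [RingHom.comp_apply, RingHom.comp_apply, hΘ, tw_single]
      ext n
      rw [hmap_coeff, coeff_single, coeff_single]
      split_ifs
      · rw [hδ, zHom_mon, AddMonoidHom.id_apply, RingHom.id_apply, hη, Units.val_zpow_eq_zpow_val,
          Units.val_inv_eq_inv_val, inv_zpow, ← zpow_neg]
        change mon _ a = mon c a * ((cst ((η ^ p : Cˣ) : C) : MF C A)) ^ (-(W a))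
        rw [Units.val_pow_eq_pow_val, ← map_zpow₀, mul_comm (mon c a), cst_mul_mon, mul_comm c]
      · rw [map_zero]
    exact congrArg (fun g : MF C A →+* LaurentSeries (MF C A) => g q) e
  refine clA_core hp2 _ δ _ _ _ _ hK ?_ hXn hX (fun l => (Θ' l).leadingCoeff)
    (fun q => (Θ q).leadingCoeff) ?_ ?_ ?_ ?_ ?_ ?_ ?_ ?_
  · rw [zHom_cst]
  · intro a b
    simp only [map_mul, leadingCoeff_mul]
  · intro a
    rw [← map_zpow₀, hcst, leadingCoeff_of_single]
  · intro a b
    simp only [map_mul, leadingCoeff_mul]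
  · intro a ha
    rw [leadingCoeff_ne_zero, map_ne_zero]
    exact ha
  · intro l
    rw [c1, hmap_leadingCoeff _ (RingHom.injective _)]
  · intro l
    rw [c2, hmap_leadingCoeff _ (RingHom.injective _)]
  · intro q
    rw [c3, hmap_leadingCoeff _ (RingHom.injective _)]
  · intro q
    refine ⟨(Θ q).order, ?_⟩
    have e := congrArg (fun s : LaurentSeries (MF C A) => s.leadingCoeff) (c4 q)
    simp only [hmap_leadingCoeff δ (RingHom.injective δ), tw_leadingCoeff, RingHom.id_apply] at e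
    rw [e, mul_comm, zHom_cst, Units.val_zpow_eq_zpow_val, Units.val_inv_eq_inv_val, inv_zpow,
      ← zpow_neg]
    congr 2

end abstractA

end

end OddGp
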