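import Mathlib
import Pool.Agent.W_MP_bec7e1_h80.Conc

/-!
# `N / L` is a Kummer extension
-/

namespace OddGp

open Finset

noncomputable section

variable {C : Type} [Field C] {p : ℕ} [Fact p.Prime] (η : Cˣ)

/-- every monomial is `em` of a monomial times a power of `ν` -/
theorem kum_mon (c : C) (b : NL p) :
    ∃ (l : fL C p) (r : ℕ), r < p ∧ mon c b = emC p l * nuC p ^ r := by
  have hp : 0 < p := (Fact.out : p.Prime).pos
  have hpz : (p : ℤ) ≠ 0 := by exact_mod_cast hp.ne'
  obtain ⟨a0, m, a⟩ := b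
  set h : ℤ := holZ p (m, a) with hh
  have hr0 : 0 ≤ h % p := Int.emod_nonneg _ hpz
  have hr1 : h % p < p := Int.emod_lt_of_pos _ (by exact_mod_cast hp)
  obtain ⟨r, hr⟩ := Int.eq_ofNat_of_zero_le hr0
  have hmem : ((m, a - r) : Circ (GA p) × ℤ) ∈ Lam p := by
    rw [mem_Lam, holZ_apply]
    have h1 : a - (r : ℤ) + aB p m = h - h % p := by
      rw [hr, hh, holZ_apply]; ring
    change (p : ℤ) ∣ a - (r : ℤ) + aB p m
    rw [h1]
    exact Int.dvd_self_sub_emod
  refine ⟨mon c (a0, ⟨(m, a - r), hmem⟩), r, by omega, ?_⟩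
  rw [emC_mon, nuC, mon_pow, one_pow, mon_mul, mul_one]
  congr 1
  rw [incl_apply]
  apply Prod.ext
  · simp
  · apply Prod.ext
    · simp
    · simp

/-- Every element of `N` is `∑_{i<p} em (l i) ν^i`.
Proof. The set `M` of such elements is a subring of `N` containing `em L` and `ν` (`ν^p = em nn`). It
contains all monomials: `mon c (a0, (m, a)) = em (mon c (a0, (m, a - r))) ν^r` where
`0 ≤ r < p`, `r = holN b` modulo `p` (so `(m, a - r) ∈ Λ`). So `M` contains the image of `C[NL]`. It is
closed under inverses of nonzero elements: `M` is a finite dimensional vector space over the field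
`em L` (spanned by the `ν^i`) and a domain, hence a field (or: for `0 ≠ s ∈ C[NL]` the product
`P = ∏_{0<t<p} δ^t s` is in `M` and `s P` is fixed by `δ`; a fixed Laurent polynomial has only
monomials of holonomy divisible by `p` so it is in `em L`, and `s⁻¹ = P (s P)⁻¹`). As every element
of `N` is a quotient of elements of `C[NL]`, `M = N`. -/
theorem N_repr (a : fN C p) :
    ∃ l : ℕ → fL C p, a = ∑ i ∈ range p, emC p (l i) * nuC p ^ i := by
  have hp : 0 < p := (Fact.out : p.Prime).pos
  let alg : Algebra (fL C p) (fN C p) := (emC (C := C) p).toAlgebra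
  have halg : ∀ x : fL C p, algebraMap (fL C p) (fN C p) x = emC p x := fun _ => rfl
  have hνp : nuC (C := C) p ^ p = emC p (nnC p) := by
    rw [nuC, nnC, mon_pow, one_pow, emC_mon, incl_apply]
    congr 1
    apply Prod.ext
    · simp
    · apply Prod.ext
      · simp [nL]
      · simp [nL]
  let g : Polynomial (fL C p) := Polynomial.X ^ p - Polynomial.C (nnC p)
  have hg : g.Monic := Polynomial.monic_X_pow_sub_C _ hp.ne'
  have hgdeg : g.natDegree = p := Polynomial.natDegree_X_pow_sub_C
  have hroot : Polynomial.aeval (nuC (C := C) p) g = 0 := by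
    simp only [g, map_sub, map_pow, Polynomial.aeval_X, Polynomial.aeval_C, halg, hνp, sub_self]
  have hint : IsIntegral (fL C p) (nuC (C := C) p) := ⟨g, hg, by
    rw [← Polynomial.aeval_def]; exact hroot⟩
  have htop : a ∈ IntermediateField.adjoin (fL C p) ({nuC (C := C) p} : Set (fN C p)) := by
    set K := IntermediateField.adjoin (fL C p) ({nuC (C := C) p} : Set (fN C p)) with hK
    have hν : nuC (C := C) p ∈ K := IntermediateField.mem_adjoin_simple_self _ _
    have hmon : ∀ (c : C) (b : NL p), mon c b ∈ K := by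
      intro c b
      obtain ⟨l, r, _, h⟩ := kum_mon c b
      rw [h]
      exact K.mul_mem (K.algebraMap_mem l) (K.pow_mem hν r)
    have hMA : ∀ x : MA C (NL p), algebraMap (MA C (NL p)) (fN C p) x ∈ K := by
      intro x
      induction x using AddMonoidAlgebra.induction_linear with
      | zero => rw [map_zero]; exact K.zero_mem
      | add f g hf hg => rw [map_add]; exact K.add_mem hf hg
      | single b c => exact hmon c b
    obtain ⟨x, y, hy, rfl⟩ := IsFractionRing.div_surjective (MA C (NL p)) a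
    exact K.div_mem (hMA x) (hMA y)
  have htop' : a ∈ Algebra.adjoin (fL C p) ({nuC (C := C) p} : Set (fN C p)) := by
    rw [← IntermediateField.adjoin_simple_toSubalgebra_of_isAlgebraic hint.isAlgebraic]
    exact htop
  rw [Algebra.adjoin_singleton_eq_range_aeval] at htop'
  obtain ⟨f, hf⟩ := htop'
  refine ⟨fun i => (f %ₘ g).coeff i, ?_⟩
  have h1 : Polynomial.aeval (nuC (C := C) p) (f %ₘ g) = a := by
    rw [Polynomial.aeval_modByMonic_eq_self_of_root hroot]
    exact hf
  have h2 : (f %ₘ g).natDegree < p := by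
    refine lt_of_lt_of_eq (Polynomial.natDegree_modByMonic_lt _ hg ?_) hgdeg
    intro h
    have := congrArg Polynomial.natDegree h
    rw [hgdeg, Polynomial.natDegree_one] at this
    omega
  rw [← h1, Polynomial.aeval_eq_sum_range' h2]
  apply Finset.sum_congr rfl
  intro i _
  rw [Algebra.smul_def, halg]

/-- `N / L` is a Kummer extension.
Proof. `prim`: `ζ = η^p` is a primitive `p`-th root of unity (`IsPrimitiveRoot.pow`, `cst_root`).
`ord`, `em_fix`, `δν`, `νp`: check on monomials (`MF_hom_ext`, `iterate_eq_self`, `zHom_iterate`;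
`p^2 ∣ p * p * holN`, and for `b ∈ LL`: `p ∣ holN (incl b)`, so `η^{-p holN} = 1`).
`fix`: if `δ a = a`, write `a = ∑ em (l i) ν^i` (`N_repr`); then `p a = ∑_t δ^t a =
∑_i em (l i) (∑_t ζ^{-t i}) ν^i = p em (l 0)`. (`p ≠ 0` in `C` since `C` has a primitive `p`-th root
of unity.) -/
theorem kumC (hη : IsPrimitiveRoot (η : C) (p ^ 2)) :
    Kum p (emC p) (dlC p η) (zeC p η : fL C p) (nnC p) (nuC p) := by
  have hp : 0 < p := (Fact.out : p.Prime).pos
  have hp1 : 1 < p := (Fact.out : p.Prime).one_lt
  have hη1 : (η : Cˣ) ^ ((p : ℤ) * p) = 1 := by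
    apply Units.ext
    have := hη.pow_eq_one
    rw [show ((p : ℤ) * p) = ((p ^ 2 : ℕ) : ℤ) by push_cast; ring, zpow_natCast,
      Units.val_pow_eq_pow_val, this, Units.val_one]
  have hηk : ∀ k : ℤ, (η : Cˣ) ^ ((p : ℤ) * p * k) = 1 := by
    intro k
    rw [zpow_mul, hη1, one_zpow]
  have hprimC : IsPrimitiveRoot ((η : C) ^ p) p :=
    hη.pow (by positivity) (by ring)
  have hprim : IsPrimitiveRoot (zeC p η : fL C p) p := by
    rw [zeC_val]
    exact cst_root hprimC
  have hνp : nuC (C := C) p ^ p = emC p (nnC p) := by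
    rw [nuC, nnC, mon_pow, one_pow, emC_mon, incl_apply]
    congr 1
    apply Prod.ext
    · simp
    · apply Prod.ext
      · simp [nL]
      · simp [nL]
  have hord : ∀ a : fN C p, (dlC p η)^[p] a = a := by
    apply iterate_eq_self
    intro c a
    rw [dlC, zHom_iterate]
    have h1 : ∀ t : ℕ, (⇑(AddMonoidHom.id (NL p)))^[t] a = a := by
      intro t
      induction t with
      | zero => rfl
      | succ t ih => rw [Function.iterate_succ_apply', ih]; rfl
    rw [h1]
    have h2 : ∑ t ∈ range p, (-((p : ℤ) • holN p)) ((⇑(AddMonoidHom.id (NL p)))^[t] a) =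
        (p : ℤ) * p * (-(holN p a)) := by
      rw [Finset.sum_congr rfl (fun t _ => by rw [h1 t])]
      simp only [AddMonoidHom.neg_apply, AddMonoidHom.smul_apply, sum_const, card_range,
        nsmul_eq_mul, smul_eq_mul]
      ring
    rw [h2, hηk, Units.val_one, mul_one]
  have hfix : ∀ b : fL C p, dlC p η (emC p b) = emC p b := by
    intro b
    have h : (dlC (C := C) p η).comp (emC p) = emC p := by
      apply MF_hom_ext
      intro c a
      rw [RingHom.comp_apply, emC_mon, dlC, zHom_mon]
      obtain ⟨k, hk⟩ : (p : ℤ) ∣ holN p (incl p a) := mem_Lam.1 a.2.2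
      have h1 : (-((p : ℤ) • holN p)) (incl p a) = (p : ℤ) * p * (-k) := by
        simp only [AddMonoidHom.neg_apply, AddMonoidHom.smul_apply, smul_eq_mul]
        rw [hk]; ring
      rw [h1, hηk, Units.val_one, mul_one]
      rfl
    exact congrArg (fun f : fL C p →+* fN C p => f b) h
  have hν0 : nuC (C := C) p ≠ 0 := mon_ne_zero one_ne_zero _
  have hδν : emC p (zeC p η : fL C p) * dlC p η (nuC p) = nuC p := by
    rw [zeC_val, emC, zHom_cst, nuC, dlC, zHom_mon, cst_mul_mon]
    have h1 : (-((p : ℤ) • holN p)) ((0, (0, 1)) : NL p) = -(p : ℤ) := by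
      simp only [AddMonoidHom.neg_apply, AddMonoidHom.smul_apply, smul_eq_mul]
      rw [holN_apply]
      simp
    rw [h1, one_mul, zpow_neg, zpow_natCast]
    have h2 : (η : C) ^ p * (((η ^ p)⁻¹ : Cˣ) : C) = 1 := by
      rw [← Units.val_pow_eq_pow_val, ← Units.val_mul, mul_inv_cancel, Units.val_one]
    rw [h2]
    rfl
  refine ⟨hprim, hord, hfix, ?_, hν0, hδν, hνp⟩
  intro a ha
  obtain ⟨l, hl⟩ := N_repr a
  refine ⟨l 0, ?_⟩
  set z : fN C p := (emC p (zeC p η : fL C p))⁻¹ with hz
  have hzp : IsPrimitiveRoot z p := (hprim.map_of_injective (emC (C := C) p).injective).inv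
  have hz1 : dlC p η z = z := by
    rw [hz, map_inv₀, hfix]
  have hζ0 : emC p (zeC p η : fL C p) ≠ 0 := by
    intro h
    rw [hz, h, inv_zero] at hzp
    exact hzp.ne_zero hp.ne' rfl
  have hδν' : dlC p η (nuC (C := C) p) = z * nuC p := by
    rw [hz]
    field_simp
    rw [mul_comm]
    exact hδν
  have hit : ∀ t : ℕ, (dlC p η)^[t] (nuC (C := C) p) = z ^ t * nuC p := by
    intro t
    induction t with
    | zero => simp
    | succ t ih =>
      rw [Function.iterate_succ_apply', ih, map_mul, map_pow, hz1, hδν']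
      ring
  have hem : ∀ (t : ℕ) (b : fL C p), (dlC p η)^[t] (emC p b) = emC p b := by
    intro t b
    induction t with
    | zero => rfl
    | succ t ih => rw [Function.iterate_succ_apply', ih, hfix]
  have hda : ∀ t : ℕ, (dlC p η)^[t] a = a := by
    intro t
    induction t with
    | zero => rfl
    | succ t ih => rw [Function.iterate_succ_apply', ih, ha]
  have hexp : ∀ t : ℕ, a = ∑ i ∈ range p, emC p (l i) * (z ^ i) ^ t * nuC p ^ i := by
    intro t
    have h1 : (dlC p η)^[t] a = ∑ i ∈ range p, emC p (l i) * (z ^ i) ^ t * nuC p ^ i := by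
      have h2 : (dlC p η)^[t] a = ((dlC (C := C) p η) ^ t) a := by rw [RingHom.coe_pow]
      rw [h2, hl, map_sum]
      apply Finset.sum_congr rfl
      intro i _
      rw [map_mul, map_pow]
      have h3 : ∀ x : fN C p, ((dlC (C := C) p η) ^ t) x = (dlC p η)^[t] x := by
        intro x; rw [RingHom.coe_pow]
      rw [h3, h3, hem, hit, mul_pow, ← pow_mul, ← pow_mul, mul_comm t i, mul_assoc]
    rw [hda] at h1
    exact h1
  have hsum : (p : fN C p) * a = ∑ i ∈ range p, emC p (l i) * (∑ t ∈ range p, (z ^ i) ^ t) *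
      nuC p ^ i := by
    have h1 : (p : fN C p) * a = ∑ t ∈ range p, a := by
      rw [sum_const, card_range, nsmul_eq_mul]
    rw [h1, Finset.sum_congr rfl (fun t _ => hexp t), Finset.sum_comm]
    apply Finset.sum_congr rfl
    intro i _
    rw [Finset.mul_sum, Finset.sum_mul]
  have hz0 : ∀ i ∈ range p, i ≠ 0 → ∑ t ∈ range p, (z ^ i) ^ t = 0 := by
    intro i hi hi0
    have hne : z ^ i ≠ 1 := hzp.pow_ne_one_of_pos_of_lt hi0 (mem_range.1 hi)
    have h1 : (z ^ i) ^ p = 1 := by rw [← pow_mul, mul_comm, pow_mul, hzp.pow_eq_one, one_pow]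
    have h2 := mul_geom_sum (z ^ i) p
    rw [h1, sub_self] at h2
    rcases mul_eq_zero.1 h2 with h | h
    · exact absurd (sub_eq_zero.1 h) hne
    · exact h
  have hfin : (p : fN C p) * a = (p : fN C p) * emC p (l 0) := by
    rw [hsum, Finset.sum_eq_single 0]
    · rw [pow_zero, pow_zero, mul_one, mul_comm]
      congr 1
      simp
    · intro i hi hi0
      rw [hz0 i hi hi0, mul_zero, zero_mul]
    · intro h
      exact absurd (mem_range.2 hp) h
  have : NeZero p := ⟨hp.ne'⟩
  have hpN : (p : fN C p) ≠ 0 := (hzp.neZero').ne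
  exact (mul_left_cancel₀ hpN hfin).symm

end

end OddGp
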