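import Mathlib
import Pool.Agent.W_MP_bec7e1_h80.Lat3

/-!
# The products over the orbits of `x` and `y`
-/

namespace OddGp

open Finset

variable {p : ℕ} [Fact p.Prime]

theorem ordP_sum_range {M : Type} [AddCommMonoid M] (f : ZMod p → M) :
    ∑ t ∈ range p, f (t : ZMod p) = ∑ s : ZMod p, f s := by
  refine Finset.sum_nbij' (fun t => (t : ZMod p)) (fun s => s.val) ?_ ?_ ?_ ?_ ?_
  · intro t _
    exact mem_univ _
  · intro s _
    exact mem_range.2 (ZMod.val_lt s)
  · intro t ht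
    exact ZMod.val_cast_of_lt (mem_range.1 ht)
  · intro s _
    exact ZMod.natCast_zmod_val s
  · intro t _
    rfl

theorem ordP_sum_cy (b : ZMod p) : ∑ s : ZMod p, cy s b = b.val := by
  have h1 : ∑ s : ZMod p, (p * cy s b + (s + b).val) = ∑ s : ZMod p, (s.val + b.val) :=
    Finset.sum_congr rfl fun s _ => cy_add_val s b
  have h2 : ∑ s : ZMod p, (s + b).val = ∑ s : ZMod p, s.val :=
    Fintype.sum_equiv (Equiv.addRight b) _ _ fun s => rfl
  rw [Finset.sum_add_distrib, Finset.sum_add_distrib, h2, ← Finset.mul_sum, Finset.sum_const,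
    Finset.card_univ, ZMod.card, smul_eq_mul] at h1
  have h3 : p * ∑ s : ZMod p, cy s b = p * b.val := by omega
  exact Nat.eq_of_mul_eq_mul_left (Fact.out : p.Prime).pos h3

/-- exchange of the sum over `t` and the sum over the edges -/
theorem ordP_swap (F : GA p → GA p → ℤ) (a : ℕ → GA p) (m : Circ (GA p)) :
    ∑ t ∈ range p, esum F (a t • m) =
      ∑ g, ∑ h, m.1 g h * ∑ t ∈ range p, F (a t * g) h := by
  have h1 : ∀ t : ℕ, esum F (a t • m) = ∑ g, ∑ h, m.1 g h * F (a t * g) h := fun t => by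
    rw [esum_smul, esum_apply]
  rw [Finset.sum_congr rfl fun t _ => h1 t, Finset.sum_comm]
  refine Finset.sum_congr rfl fun g _ => ?_
  rw [Finset.sum_comm]
  refine Finset.sum_congr rfl fun h _ => ?_
  rw [Finset.mul_sum]

/-- TASK. `∑_t exX (x^t m) = v(m)`.
Proof: by `esum_smul`, `exX (x^t m) = ∑ m(g,h) [i(g) + t = -1] cy(j(g), j(h))`, and for every `g`
exactly one `t` in `range p` satisfies `i(g) + t = -1`. -/
theorem sum_exX (m : Circ (GA p)) :
    ∑ t ∈ range p, exX p (((GA.x : GA p) ^ t) • m) = vB p m := by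
  unfold exX vB
  rw [ordP_swap _ (fun t => (GA.x : GA p) ^ t), esum_apply]
  refine Finset.sum_congr rfl fun g _ => Finset.sum_congr rfl fun h _ => ?_
  congr 1
  have h1 : ∀ t : ℕ, (if ((GA.x : GA p) ^ t * g).i = -1 then
      (cy ((GA.x : GA p) ^ t * g).j h.j : ℤ) else 0) =
      (fun s : ZMod p => if s = -1 - g.i then (cy g.j h.j : ℤ) else 0) (t : ZMod p) := by
    intro t
    have e1 : ((GA.x : GA p) ^ t * g).i = (t : ZMod p) + g.i := by
      rw [GA.mul_i, GA.pow_i, GA.x_i, mul_one]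
    have e2 : ((GA.x : GA p) ^ t * g).j = g.j := by
      rw [GA.mul_j, GA.pow_j, GA.x_j, mul_zero, zero_add]
    rw [e1, e2]
    exact if_congr eq_sub_iff_add_eq.symm rfl rfl
  rw [Finset.sum_congr rfl fun t _ => h1 t]
  refine (ordP_sum_range (fun s : ZMod p => if s = -1 - g.i then (cy g.j h.j : ℤ) else 0)).trans ?_
  rw [Finset.sum_ite_eq', if_pos (mem_univ _)]

/-- TASK. `∑_t exY (y^t m) = a` modulo `p` for `(m, a)` in `Λ`.
Proof: by `esum_smul`, `exY (y^t m) = ∑ m(g,h) (i(g) cy(j(g)+t+1, j(h)) +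
  ff(y^t g, h) (if j(g) + t + j(h) = -1 then -1 else 0))` where
`ff(y^t g, h) = (j(g) + t) i(h) + cy(i(g), i(h))` in `ZMod p`.
`∑_{s in ZMod p} cy(s, b) = b.val` (as `cy(s, b) = 1` iff `s.val + b.val >= p`), so the first part
gives `∑ m i(g) j(h)`. In the second part only `t` with `j(g) + t = -1 - j(h)` contributes, giving
`- ∑ m ((-1 - j(h)) i(h) + cy(i(g), i(h)))` in `ZMod p`. As `(m, a)` is in `Λ`,
`a = - ∑ m (j(g) i(h) + cy(i(g), i(h)))` in `ZMod p`. Hence
`(∑_t ..) - a = ∑ m (i(g) j(h) + i(h) + j(h) i(h) + j(g) i(h))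
 = ∑ m (i(gh) j(gh) - i(g) j(g)) + ∑ m (i(gh) - i(g)) = 0` in `ZMod p` by `Circ.sum_eq`.
(Checked numerically.) -/
theorem sum_exY (b : Lam p) :
    (p : ℤ) ∣ ∑ t ∈ range p, exY p (((GA.y : GA p) ^ t) • b.1.1) - b.1.2 := by
  have hb : (((b.1.2 + aB p b.1.1 : ℤ)) : ZMod p) = 0 := by
    have h1 : (p : ℤ) ∣ holZ p b.1 := b.2
    rw [holZ_apply] at h1
    exact (ZMod.intCast_zmod_eq_zero_iff_dvd _ _).2 h1
  obtain ⟨m, hm⟩ : ∃ m, m = b.1.1 := ⟨_, rfl⟩
  rw [← hm] at hb ⊢
  rw [← ZMod.intCast_zmod_eq_zero_iff_dvd]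
  have h1 : ((∑ t ∈ range p, exY p (((GA.y : GA p) ^ t) • m) : ℤ) : ZMod p) =
      ∑ g, ∑ h, (m.1 g h : ZMod p) * (g.i * h.j + (h.i + h.j * h.i - (cy g.i h.i : ℕ))) := by
    unfold exY
    rw [ordP_swap _ (fun t => (GA.y : GA p) ^ t)]
    push_cast
    refine Finset.sum_congr rfl fun g _ => Finset.sum_congr rfl fun h _ => ?_
    congr 1
    have e1 : ∀ t : ℕ, ((GA.y : GA p) ^ t * g).i = g.i := by
      intro t
      rw [GA.mul_i, GA.pow_i, GA.y_i, mul_zero, zero_add]
    have e2 : ∀ t : ℕ, ((GA.y : GA p) ^ t * g).j = (t : ZMod p) + g.j := by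
      intro t
      rw [GA.mul_j, GA.pow_j, GA.y_j, mul_one]
    rw [Finset.sum_add_distrib]
    congr 1
    · have e3 : ∀ t : ℕ, ((((GA.y : GA p) ^ t * g).i.val : ℕ) : ZMod p) *
          ((cy (((GA.y : GA p) ^ t * g).j + 1) h.j : ℕ) : ZMod p) =
          (fun s : ZMod p => g.i * ((cy (s + (g.j + 1)) h.j : ℕ) : ZMod p)) (t : ZMod p) := by
        intro t
        rw [e1, e2, ZMod.natCast_zmod_val, add_assoc]
      rw [Finset.sum_congr rfl fun t _ => e3 t]
      refine (ordP_sum_range (fun s : ZMod p =>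
        g.i * ((cy (s + (g.j + 1)) h.j : ℕ) : ZMod p))).trans ?_
      rw [← Finset.mul_sum]
      congr 1
      have e4 : ∑ s : ZMod p, ((cy (s + (g.j + 1)) h.j : ℕ) : ZMod p) =
          ∑ s : ZMod p, ((cy s h.j : ℕ) : ZMod p) :=
        Fintype.sum_equiv (Equiv.addRight (g.j + 1)) _ _ fun s => rfl
      rw [e4, ← Nat.cast_sum, ordP_sum_cy, ZMod.natCast_zmod_val]
    · have e3 : ∀ t : ℕ, (((ff ((GA.y : GA p) ^ t * g) h).val : ℕ) : ZMod p) *
          (if ((GA.y : GA p) ^ t * g).j + h.j = -1 then -1 else 0 : ZMod p) =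
          (fun s : ZMod p => if s = -1 - h.j - g.j then
            h.i + h.j * h.i - (cy g.i h.i : ℕ) else 0) (t : ZMod p) := by
        intro t
        rw [ZMod.natCast_zmod_val, ff, e1, e2]
        by_cases ht : (t : ZMod p) = -1 - h.j - g.j
        · have ht' : (t : ZMod p) + g.j + h.j = -1 := by rw [ht]; ring
          rw [if_pos ht']
          simp only [ht, if_true]
          ring
        · have ht' : ¬ ((t : ZMod p) + g.j + h.j = -1) := by
            intro h'
            apply ht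
            rw [← h']
            ring
          rw [if_neg ht']
          simp only [ht, if_false]
          ring
      rw [Finset.sum_congr rfl fun t _ => e3 t]
      refine (ordP_sum_range (fun s : ZMod p => if s = -1 - h.j - g.j then
            h.i + h.j * h.i - (cy g.i h.i : ℕ) else 0)).trans ?_
      rw [Finset.sum_ite_eq', if_pos (mem_univ _)]
  have h2 : ((aB p m : ℤ) : ZMod p) =
      ∑ g, ∑ h, (m.1 g h : ZMod p) * (g.j * h.i + (cy g.i h.i : ℕ)) := by
    unfold aB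
    rw [esum_apply]
    push_cast
    refine Finset.sum_congr rfl fun g _ => Finset.sum_congr rfl fun h _ => ?_
    rw [ZMod.natCast_zmod_val, ZMod.natCast_zmod_val]
  have h3 := Circ.sum_eq m (fun g : GA p => g.i * g.j + g.i)
  simp only [zsmul_eq_mul, GA.mul_i, GA.mul_j] at h3
  have h4 : ((b.1.2 : ℤ) : ZMod p) = -((aB p m : ℤ) : ZMod p) := by
    push_cast at hb
    exact eq_neg_of_add_eq_zero_left hb
  push_cast [h4, h2] at h1 ⊢
  rw [h1, sub_neg_eq_add, ← Finset.sum_add_distrib]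
  have h5 : ∑ g, ∑ h, (m.1 g h : ZMod p) * ((g.i + h.i) * (g.j + h.j) + (g.i + h.i)) -
      ∑ g, ∑ h, (m.1 g h : ZMod p) * (g.i * g.j + g.i) = 0 := sub_eq_zero.2 h3
  rw [← h5, ← Finset.sum_sub_distrib]
  refine Finset.sum_congr rfl fun g _ => ?_
  rw [← Finset.sum_add_distrib, ← Finset.sum_sub_distrib]
  refine Finset.sum_congr rfl fun h _ => ?_
  ring

end OddGp
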