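import Mathlib
import Pool.Agent.W_MP_bec7e1_h80.Conc
import Pool.Agent.W_MP_bec7e1_h80.OrdP

/-!
# Properties of the automorphisms `X_d`, `Y_d`
-/

namespace OddGp

open Finset

noncomputable section

variable {C : Type} [Field C] {p : ℕ} [Fact p.Prime] (η : Cˣ)

private theorem cxy_unit {η : Cˣ} (hη : (η : C) ^ (p ^ 2) = 1) {k : ℤ}
    (hk : ((p : ℤ) ^ 2) ∣ k) : ((η ^ k : Cˣ) : C) = 1 := by
  obtain ⟨m, rfl⟩ := hk
  have h1 : η ^ (p ^ 2) = 1 := by
    apply Units.ext
    rw [Units.val_pow_eq_pow_val, hη, Units.val_one]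
  have h2 : ((p : ℤ) ^ 2) = ((p ^ 2 : ℕ) : ℤ) := by push_cast; rfl
  rw [h2, zpow_mul, zpow_natCast, h1, one_zpow, Units.val_one]

private theorem cxy_sgX_iter (t : ℕ) (a : LL p) :
    (sgX p)^[t] a = (a.1, ((GA.x : GA p) ^ t) • a.2) := by
  induction t with
  | zero => rw [pow_zero, one_smul]; rfl
  | succ t ih =>
    rw [Function.iterate_succ_apply', ih, sgX_apply, pow_succ', mul_smul]

/-- TASK. `X_d ^ p = 1`.
Proof: `iterate_eq_self`, `zHom_iterate`. `sgX^[p] (a0, l) = (a0, x^p l) = (a0, l)`. The exponent of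
`η` is `∑_{t<p} (-p mom a0 + d (exXL (x^t l) - vL (x^t l))) = - p^2 mom a0 +
d (p ∑_t exX (x^t l) - p vL l) = - p^2 mom a0` by `sum_exX`, `vL_smul`; and `η^{p^2} = 1`. -/
theorem XC_ord (hη : (η : C) ^ (p ^ 2) = 1) (d : ℤ) (a : fL C p) : (XC p η d)^[p] a = a := by
  apply iterate_eq_self
  intro c a
  rw [XC, zHom_iterate, cxy_sgX_iter, GA.pow_p, one_smul]
  have h1 : ∑ t ∈ range p, eX p d ((sgX p)^[t] a) = (p : ℤ) ^ 2 * (-(mom p a.1)) := by
    have h2 : ∀ t, eX p d ((sgX p)^[t] a) = -(p * mom p a.1) +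
        d * (p * exX p (((GA.x : GA p) ^ t) • a.2.1.1) - vL p a.2) := by
      intro t
      rw [cxy_sgX_iter, eX_apply, exXL_apply, vL_smul, Lam_smul_fst]
    simp only [h2]
    rw [Finset.sum_add_distrib, Finset.sum_const, card_range, ← Finset.mul_sum,
      Finset.sum_sub_distrib, ← Finset.mul_sum, sum_exX, Finset.sum_const, card_range, vL_apply]
    simp only [nsmul_eq_mul]
    ring
  rw [h1, cxy_unit hη (dvd_mul_right _ _), mul_one]

private theorem cxy_shA_iter (t : ℕ) (a : AZ p) (s : ZMod p) :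
    ((shA p)^[t] a).1 s = a.1 (s - t) := by
  induction t generalizing s with
  | zero => simp
  | succ t ih =>
    rw [Function.iterate_succ_apply']
    change ((shA p)^[t] a).1 (s - 1) = _
    rw [ih]
    have h : s - 1 - (t : ZMod p) = s - ((t + 1 : ℕ) : ZMod p) := by
      push_cast
      ring
    rw [h]

private theorem cxy_shA_p (a : AZ p) : (shA p)^[p] a = a := by
  apply Subtype.ext
  funext s
  rw [cxy_shA_iter]
  simp

private theorem cxy_sum_val (n : ℕ) (F : ℕ → AZ p) (s : ZMod p) :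
    (∑ t ∈ range n, F t).1 s = ∑ t ∈ range n, (F t).1 s := by
  induction n with
  | zero => rfl
  | succ n ih =>
    rw [sum_range_succ, sum_range_succ, ← ih]
    rfl

private theorem cxy_sum_dlt : ∑ t ∈ range p, (shA p)^[t] (dlt 1) = 0 := by
  apply Subtype.ext
  funext s
  rw [cxy_sum_val]
  have h1 : ∀ t ∈ range p, ((shA p)^[t] (dlt 1)).1 s =
      (fun n : ℕ => if s - (n : ZMod p) = 0 then (1 : ℤ) else 0) (t + 1) -
      (fun n : ℕ => if s - (n : ZMod p) = 0 then (1 : ℤ) else 0) t := by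
    intro t _
    rw [cxy_shA_iter]
    change (if s - (t : ZMod p) = 1 then (1 : ℤ) else 0) -
      (if s - (t : ZMod p) = 0 then (1 : ℤ) else 0) = _
    congr 1
    refine if_congr ?_ rfl rfl
    push_cast
    constructor
    · intro h
      rw [← sub_sub, h, sub_self]
    · intro h
      rw [← sub_sub, sub_eq_zero] at h
      exact h
  rw [Finset.sum_congr rfl h1]
  refine (Finset.sum_range_sub
    (fun n : ℕ => if s - (n : ZMod p) = 0 then (1 : ℤ) else 0) p).trans ?_
  simp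

private theorem cxy_sgY_iter (d : ℤ) (t : ℕ) (a : LL p) :
    (sgY p d)^[t] a = ((shA p)^[t] a.1 - (d * vL p a.2) • ∑ s ∈ range t, (shA p)^[s] (dlt 1),
      ((GA.y : GA p) ^ t) • a.2) := by
  induction t with
  | zero =>
    rw [pow_zero, one_smul, range_zero, sum_empty, smul_zero]
    apply Prod.ext
    · change a.1 = a.1 - 0
      rw [sub_zero]
    · rfl
  | succ t ih =>
    rw [Function.iterate_succ_apply', ih, sgY_apply]
    apply Prod.ext
    · change shA p ((shA p)^[t] a.1 - (d * vL p a.2) • ∑ s ∈ range t, (shA p)^[s] (dlt 1)) -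
        (d * vL p (((GA.y : GA p) ^ t) • a.2)) • dlt 1 = _
      change _ = (shA p)^[t + 1] a.1 - (d * vL p a.2) • ∑ s ∈ range (t + 1), (shA p)^[s] (dlt 1)
      rw [vL_smul, map_sub, map_zsmul, map_sum, Function.iterate_succ_apply', sum_range_succ',
        smul_add]
      have h1 : ∀ s ∈ range t, (shA p) ((shA p)^[s] (dlt 1)) = (shA p)^[s + 1] (dlt 1) := by
        intro s _
        rw [Function.iterate_succ_apply']
      rw [Finset.sum_congr rfl h1]
      change _ = _ - ((d * vL p a.2) • _ + (d * vL p a.2) • dlt 1)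
      abel
    · change (GA.y : GA p) • (((GA.y : GA p) ^ t) • a.2) = ((GA.y : GA p) ^ (t + 1)) • a.2
      rw [pow_succ', mul_smul]

/-- TASK. `Y_d ^ p = 1`.
Proof: `iterate_eq_self`, `zHom_iterate`. `sgY^[n] (a0, l) =
(shA^n a0 - d v(l) ∑_{t<n} shA^t (dlt 1), y^n l)` and for `n = p` this is `(a0, l)`, because
`shA^p = 1` and `∑_{t<p} shA^t (dlt 1) = 0` (the value at `s` is `∑_t ([s = t+1] - [s = t]) = 0`).
The exponent of `η` is `d ∑_t exYL (y^t l) = d (p ∑_t exY (y^t l) - p a)`, `l = (m, a)`, which is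
divisible by `p^2` by `sum_exY`. -/
theorem YC_ord (hη : (η : C) ^ (p ^ 2) = 1) (d : ℤ) (a : fL C p) : (YC p η d)^[p] a = a := by
  apply iterate_eq_self
  intro c a
  rw [YC, zHom_iterate]
  have h0 : (sgY p d)^[p] a = a := by
    rw [cxy_sgY_iter, GA.pow_p, one_smul, cxy_sum_dlt, smul_zero, sub_zero, cxy_shA_p]
  rw [h0]
  have h1 : ∑ t ∈ range p, eY p d ((sgY p d)^[t] a) =
      (d * p) * (∑ t ∈ range p, exY p (((GA.y : GA p) ^ t) • a.2.1.1) - a.2.1.2) := by
    have h2 : ∀ t, eY p d ((sgY p d)^[t] a) =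
        d * (p * exY p (((GA.y : GA p) ^ t) • a.2.1.1) - a.2.1.2) := by
      intro t
      rw [cxy_sgY_iter, eY_apply]
      change d * exYL p (((GA.y : GA p) ^ t) • a.2) = _
      rw [exYL_apply, Lam_smul_fst, Lam_smul_snd]
    simp only [h2]
    rw [← Finset.mul_sum, Finset.sum_sub_distrib, ← Finset.mul_sum, Finset.sum_const, card_range]
    simp only [nsmul_eq_mul]
    ring
  obtain ⟨m, hm⟩ := sum_exY a.2
  rw [h1, hm, cxy_unit hη ⟨d * m, by ring⟩, mul_one]

private theorem cxy_vL_nL : vL p (nL p) = 0 := by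
  rw [vL_apply, nL_fst, map_zero]

private theorem cxy_exXL_nL : exXL p (nL p) = 0 := by
  rw [exXL_apply, nL_fst, map_zero, mul_zero]

/-- TASK. (`smul_nL`, `exXL`, `vL` of `nL` vanish: `nL = (0, p)`.) -/
theorem XC_nn (d : ℤ) : XC p η d (nnC p) = nnC p := by
  rw [XC, nnC, zHom_mon, sgX_apply, eX_apply]
  change mon (1 * ((η ^ (-(p * mom p (0 : AZ p)) + d * (exXL p (nL p) - vL p (nL p))) : Cˣ) : C))
    ((0, (GA.x : GA p) • nL p) : LL p) = _
  rw [smul_nL, cxy_vL_nL, cxy_exXL_nL, map_zero, mul_zero, neg_zero, sub_zero, mul_zero,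
    add_zero, zpow_zero, Units.val_one, mul_one]

/-- TASK. `Y_d n = η^{-p d} n` (`exYL nL = - p`). -/
theorem YC_nn (d : ℤ) : YC p η d (nnC p) = cst (((η ^ (-(p * d)) : Cˣ) : C)) * nnC p := by
  rw [YC, nnC, zHom_mon, sgY_apply, eY_apply, cst_mul_mon]
  change mon (1 * ((η ^ (d * exYL p (nL p)) : Cˣ) : C))
    ((shA p (0 : AZ p) - (d * vL p (nL p)) • dlt 1, (GA.y : GA p) • nL p) : LL p) = _
  have h1 : d * exYL p (nL p) = -(p * d) := by
    rw [exYL_apply, nL_fst, nL_snd, map_zero]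
    ring
  rw [smul_nL, cxy_vL_nL, h1, mul_zero, zero_smul, map_zero, sub_zero, one_mul, mul_one]

private theorem cxy_mom_shA (a : AZ p) : (p : ℤ) ∣ mom p (shA p a) - mom p a := by
  rw [← ZMod.intCast_eq_intCast_iff_dvd_sub]
  change ((∑ s : ZMod p, (s.val : ℤ) * a.1 s : ℤ) : ZMod p) =
    ((∑ s : ZMod p, (s.val : ℤ) * a.1 (s - 1) : ℤ) : ZMod p)
  push_cast
  simp only [ZMod.natCast_val, ZMod.cast_id', id_eq]
  have h1 : ∑ s : ZMod p, s * ((a.1 (s - 1) : ℤ) : ZMod p) =
      ∑ s : ZMod p, (s + 1) * ((a.1 s : ℤ) : ZMod p) := by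
    refine Fintype.sum_equiv (Equiv.subRight 1) _ _ fun s => ?_
    rw [Equiv.subRight_apply, sub_add_cancel]
  rw [h1]
  simp only [add_mul, one_mul, Finset.sum_add_distrib]
  have h2 : ∑ s : ZMod p, ((a.1 s : ℤ) : ZMod p) = 0 := by
    have h3 : ∑ s, a.1 s = 0 := a.2
    have h4 := congrArg (Int.cast : ℤ → ZMod p) h3
    push_cast at h4
    exact h4
  rw [h2, add_zero]

/-- TASK. `X_0` and `Y_0` commute.
Proof: on monomials; `mom (shA a) = mom a` modulo `p`: `∑ s a(s-1) = ∑ (s+1) a(s)` in `ZMod p` and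
`∑ a = 0`; so `η^{p mom (shA a)} = η^{p mom a}`. -/
theorem XY_comm (hη : (η : C) ^ (p ^ 2) = 1) (a : fL C p) :
    XC p η 0 (YC p η 0 a) = YC p η 0 (XC p η 0 a) := by
  have h : (XC p η 0).comp (YC p η 0) = (YC p η 0).comp (XC p η 0) := by
    apply MF_hom_ext
    intro c a
    rw [RingHom.comp_apply, RingHom.comp_apply, XC, YC, zHom_mon, zHom_mon, zHom_mon, zHom_mon,
      sgX_apply, sgY_apply, sgX_apply, sgY_apply, eX_apply, eX_apply, eY_apply, eY_apply]
    simp only [zero_mul, add_zero, zpow_zero, Units.val_one, mul_one, zero_smul, sub_zero]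
    have h1 : (GA.x : GA p) • (GA.y : GA p) • a.2 = (GA.y : GA p) • (GA.x : GA p) • a.2 := by
      rw [← mul_smul, ← mul_smul, mul_comm]
    rw [h1]
    congr 2
    obtain ⟨m, hm⟩ := cxy_mom_shA a.1
    have h2 : -((p : ℤ) * mom p (shA p a.1)) = -((p : ℤ) * mom p a.1) + (p : ℤ) ^ 2 * (-m) := by
      have : mom p (shA p a.1) = mom p a.1 + p * m := by linarith
      rw [this]
      ring
    rw [h2, zpow_add, Units.val_mul, cxy_unit hη (dvd_mul_right _ _), mul_one]
  exact congrArg (fun g : fL C p →+* fL C p => g a) h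

/-- TASK. (`X_d` fixes constants.) -/
theorem NX_mu (d : ℤ) :
    ∏ t ∈ range p, (XC p η d)^[t] (muX p η : fL C p) = (zeC p η : fL C p) := by
  have h1 : ∀ t : ℕ, (XC p η d)^[t] (muX p η : fL C p) = cst (η : C) := by
    intro t
    induction t with
    | zero => exact muX_val p η
    | succ t ih => rw [Function.iterate_succ_apply', ih, XC, zHom_cst]
  simp only [h1]
  rw [Finset.prod_const, card_range, zeC_val, map_pow]

private theorem cxy_prod_mon {A : Type} [AddCommGroup A] [TwoUniqueSums A] (n : ℕ) (F : ℕ → A) :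
    ∏ t ∈ range n, (mon (1 : C) (F t) : MF C A) = mon (1 : C) (∑ t ∈ range n, F t) := by
  induction n with
  | zero => rw [range_zero, prod_empty, sum_empty, mon_zero_one]
  | succ n ih => rw [prod_range_succ, sum_range_succ, ih, mon_mul, mul_one]

/-- TASK. `Y^t μ_y = T^{(shA^t (dlt 1), 0)}` and `∑_{t<p} shA^t (dlt 1) = 0`. -/
theorem NY_mu (d : ℤ) :
    ∏ t ∈ range p, (YC p η d)^[t] (muY C p : fL C p) = 1 := by
  have h1 : ∀ t : ℕ, (YC p η d)^[t] (muY C p : fL C p) =
      mon (1 : C) (((shA p)^[t] (dlt 1), 0) : LL p) := by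
    intro t
    induction t with
    | zero => exact muY_val p
    | succ t ih =>
      rw [Function.iterate_succ_apply', ih, YC, zHom_mon, sgY_apply, eY_apply,
        Function.iterate_succ_apply']
      change mon (1 * ((η ^ (d * exYL p (0 : Lam p)) : Cˣ) : C))
        ((shA p ((shA p)^[t] (dlt 1)) - (d * vL p (0 : Lam p)) • dlt 1,
          (GA.y : GA p) • (0 : Lam p)) : LL p) = _
      rw [map_zero, map_zero, smul_zero, mul_zero, zero_smul, sub_zero, zpow_zero, Units.val_one,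
        one_mul]
  simp only [h1]
  rw [cxy_prod_mon]
  have h2 : ∑ t ∈ range p, (((shA p)^[t] (dlt 1), 0) : LL p) = 0 := by
    apply Prod.ext
    · rw [Prod.fst_sum]
      exact cxy_sum_dlt
    · rw [Prod.snd_sum]
      exact Finset.sum_const_zero
  rw [h2, mon_zero_one]

private theorem cxy_mom_dlt : mom p (dlt 1) = 1 := by
  change ∑ s : ZMod p, (s.val : ℤ) * ((if s = 1 then 1 else 0) - (if s = 0 then 1 else 0)) = 1
  simp only [mul_sub, mul_ite, mul_one, mul_zero, Finset.sum_sub_distrib, Finset.sum_ite_eq',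
    Finset.mem_univ, if_true, ZMod.val_zero]
  have : Fact (1 < p) := ⟨(Fact.out : p.Prime).one_lt⟩
  rw [ZMod.val_one]
  simp

/-- TASK. `X_d μ_y = η^{-p} μ_y` since `mom (dlt 1) = 1`; `Y_d μ_x = μ_x`. -/
theorem mu_comm (d : ℤ) :
    (zeC p η : fL C p) * ((muX p η : fL C p) * XC p η d (muY C p : fL C p)) =
      (muY C p : fL C p) * YC p η d (muX p η : fL C p) := by
  rw [zeC_val, muX_val, muY_val, XC, YC, zHom_cst, zHom_mon, sgX_apply, eX_apply]
  change cst ((η : C) ^ p) * (cst (η : C) *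
    mon (1 * ((η ^ (-(p * mom p (dlt 1 : AZ p)) + d * (exXL p (0 : Lam p) - vL p (0 : Lam p))) :
      Cˣ) : C)) ((dlt 1, (GA.x : GA p) • (0 : Lam p)) : LL p)) = _
  rw [map_zero, map_zero, sub_zero, mul_zero, add_zero, smul_zero, cxy_mom_dlt, mul_one,
    cst_mul_mon, cst_mul_mon, mul_comm (mon (1 : C) _) (cst (η : C)), cst_mul_mon]
  congr 1
  have h1 : ((η ^ (-(p : ℤ)) : Cˣ) : C) = ((η : C) ^ p)⁻¹ := by
    rw [zpow_neg, zpow_natCast, Units.val_inv_eq_inv_val, Units.val_pow_eq_pow_val]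
  rw [h1, one_mul, mul_one]
  have h2 : (η : C) ^ p ≠ 0 := pow_ne_zero _ η.ne_zero
  field_simp

end

end OddGp
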