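import Mathlib
import Pool.Agent.W_MP_bec7e1_h80.ClaimA
import Pool.Agent.W_MP_bec7e1_h80.ConcKum
import Pool.Agent.W_MP_bec7e1_h80.ConcXY

/-!
# Claim A for `X_d` and `Y_0`
-/

namespace OddGp

open Finset

noncomputable section

variable {C : Type} [Field C] {p : ℕ} [Fact p.Prime] (η : Cˣ)

theorem incl_b1 : incl p ((0, nL p) : LL p) = p • ((0, (0, 1)) : NL p) := by
  rw [incl_apply]
  apply Prod.ext
  · simp
  · apply Prod.ext
    · change (nL p).1.1 = _
      rw [nL_fst]; simp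
    · change (nL p).1.2 = _
      rw [nL_snd]; simp

theorem pow_sq_eq_one (hη : IsPrimitiveRoot (η : C) (p ^ 2)) : (η : C) ^ (p ^ 2) = 1 :=
  hη.pow_eq_one

/-- Claim A for `X_d` -/
theorem claimA_X (hp2 : p ≠ 2) (hη : IsPrimitiveRoot (η : C) (p ^ 2)) (d : ℤ) :
    ClaimA p (emC p) (dlC p η) (zeC p η : fL C p) (XC p η d) := by
  have hK := kumC (p := p) η hη
  rw [zeC_val] at hK ⊢
  refine claimA_abs hp2 η (incl p) (incl_injective p) (holN p) (0, (0, 1)) (0, nL p) incl_b1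
    (holN p) (fun a => by rw [sub_self]; exact dvd_zero _) (sgX p) (sgX_injective p) ?_ (eX p d)
    hK (XC_ord η (pow_sq_eq_one η hη) d) (XC_nn η d)
  intro b
  rw [incl_apply, incl_apply, holN_apply, holN_apply, sgX_apply]
  change (((GA.x : GA p) • b.2).1.2 : ℤ) + aB p ((GA.x : GA p) • b.2).1.1 = _
  rw [Lam_smul_fst, Lam_smul_snd, aB_x]

/-- the second weight -/
def wY (p : ℕ) [Fact p.Prime] : NL p →+ ℤ :=
  (AddMonoidHom.snd _ _ + (aB' p).comp (AddMonoidHom.fst _ _)).comp (AddMonoidHom.snd _ _)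

theorem wY_apply (a : NL p) : wY p a = a.2.2 + aB' p a.2.1 := rfl

/-- Claim A for `Y_0` -/
theorem claimA_Y (hp2 : p ≠ 2) (hη : IsPrimitiveRoot (η : C) (p ^ 2)) :
    ClaimA p (emC p) (dlC p η) (zeC p η : fL C p) (YC p η 0) := by
  have hK := kumC (p := p) η hη
  rw [zeC_val] at hK ⊢
  refine claimA_abs hp2 η (incl p) (incl_injective p) (holN p) (0, (0, 1)) (0, nL p) incl_b1
    (wY p) (fun a => ?_) (sgY p 0) (sgY_injective p 0) ?_ (eY p 0)
    hK (YC_ord η (pow_sq_eq_one η hη) 0) ?_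
  · rw [wY_apply, holN_apply, add_sub_add_left_eq_sub]
    exact aB'_sub a.2.1
  · intro b
    rw [incl_apply, incl_apply, wY_apply, wY_apply, sgY_apply]
    change (((GA.y : GA p) • b.2).1.2 : ℤ) + aB' p ((GA.y : GA p) • b.2).1.1 = _
    rw [Lam_smul_fst, Lam_smul_snd, aB'_y]
  · have h := YC_nn (p := p) η 0
    rw [mul_zero, neg_zero, zpow_zero, Units.val_one, map_one, one_mul] at h
    exact h

end

end OddGp
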