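import Mathlib

/-!
# Hilbert 90 for an endomorphism of prime order
-/

namespace OddGp

open Finset

/-- Hilbert 90.
Proof. The ring homs `σ^i`, `i < p`, are distinct: if `σ^i = σ^j` with `i < j < p` then
`σ^{j-i} = 1` (`σ` is bijective), and `p` prime with `σ^p = 1` gives `σ = 1`, excluded by `hne`. Put
`c_i = ∏_{j<i} σ^j a`. By linear independence of characters (`linearIndependent_monoidHom`) there is
`θ` with `w = ∑_{i<p} c_i σ^i θ ≠ 0` (`c_0 = 1`). `a σ(c_i) = c_{i+1}`, `c_p = 1 = c_0` and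
`σ^p θ = θ`, so `a σ(w) = w`. Take `b = w⁻¹`. -/
theorem h90 {N : Type} [Field N] {p : ℕ} (hp : p.Prime) (σ : N →+* N) (hσ : ∀ a, σ^[p] a = a)
    (hne : ∃ a, σ a ≠ a) (a : N) (ha : ∏ t ∈ range p, σ^[t] a = 1) :
    ∃ b, b ≠ 0 ∧ σ b = a * b := by
  have hpow : ∀ (n : ℕ) (x : N), (σ ^ n) x = σ^[n] x := by
    intro n x
    rw [RingHom.coe_pow]
  have hord : σ ^ p = 1 := by
    ext x
    rw [hpow, hσ]; rfl
  have hne1 : σ ≠ 1 := by
    rintro rfl
    obtain ⟨x, hx⟩ := hne
    exact hx rfl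
  have : Fact p.Prime := ⟨hp⟩
  have horder : orderOf σ = p := orderOf_eq_prime hord hne1
  -- the characters
  let χ : Fin p → (N →* N) := fun i => ((σ ^ (i : ℕ) : N →+* N) : N →* N)
  have hχ : Function.Injective χ := by
    intro i j hij
    have h1 : σ ^ (i : ℕ) = σ ^ (j : ℕ) := by
      ext x
      have := congrArg (fun f : N →* N => f x) hij
      simpa [χ] using this
    have h2 : Set.InjOn (fun n : ℕ => σ ^ n) (Set.Iio (orderOf σ)) := pow_injOn_Iio_orderOf
    rw [horder] at h2
    exact Fin.ext (h2 i.2 j.2 h1)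
  have hli : LinearIndependent N (fun i : Fin p => (χ i : N → N)) :=
    (linearIndependent_monoidHom N N).comp χ hχ
  let c : ℕ → N := fun i => ∏ j ∈ range i, σ^[j] a
  have hc0 : c 0 = 1 := by simp [c]
  have hcp : c p = 1 := ha
  have hcs : ∀ i, a * σ (c i) = c (i + 1) := by
    intro i
    simp only [c]
    rw [map_prod, Finset.prod_range_succ', mul_comm]
    congr 1
    apply Finset.prod_congr rfl
    intro j _
    rw [Function.iterate_succ_apply']
  obtain ⟨θ, hθ⟩ : ∃ θ, ∑ i ∈ range p, c i * σ^[i] θ ≠ 0 := by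
    by_contra hall
    push Not at hall
    have h0 : ∑ i : Fin p, c i • (χ i : N → N) = 0 := by
      funext θ
      rw [Finset.sum_apply]
      simp only [Pi.smul_apply, smul_eq_mul, Pi.zero_apply]
      have := hall θ
      rw [← Fin.sum_univ_eq_sum_range (fun i => c i * σ^[i] θ) p] at this
      refine Eq.trans (Finset.sum_congr rfl ?_) this
      intro i _
      simp only [χ, MonoidHom.coe_coe, hpow]
    have := Fintype.linearIndependent_iff.1 hli (fun i => c i) h0 ⟨0, hp.pos⟩
    exact one_ne_zero (hc0.symm.trans this)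
  set w := ∑ i ∈ range p, c i * σ^[i] θ with hw
  have hkey : a * σ w = w := by
    have h1 : a * σ w = ∑ i ∈ range p, c (i + 1) * σ^[i + 1] θ := by
      rw [hw, map_sum, Finset.mul_sum]
      apply Finset.sum_congr rfl
      intro i _
      rw [map_mul, ← mul_assoc, hcs, Function.iterate_succ_apply']
    have h2 := Finset.sum_range_succ' (fun i => c i * σ^[i] θ) p
    have h3 := Finset.sum_range_succ (fun i => c i * σ^[i] θ) p
    rw [h1]
    have h4 : c p * σ^[p] θ = c 0 * σ^[0] θ := by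
      rw [hcp, hc0, hσ]; rfl
    rw [h3, h4] at h2
    exact (add_right_cancel h2).symm
  have hσw : σ w ≠ 0 := by
    intro h
    rw [h, mul_zero] at hkey
    exact hθ hkey.symm
  refine ⟨w⁻¹, inv_ne_zero hθ, ?_⟩
  rw [map_inv₀]
  have ha0 : a ≠ 0 := by
    rintro rfl
    rw [zero_mul] at hkey
    exact hθ hkey.symm
  rw [← hkey]
  rw [mul_inv, ← mul_assoc, mul_inv_cancel₀ ha0, one_mul]
  rw [hkey]

/-- Hilbert 90 relative to a commuting endomorphism `X`: if `a` is fixed by `X` and some element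
fixed by `X` is moved by `σ`, then `b` can be chosen fixed by `X`.
Proof: apply `h90` to the subfield `{a | X a = a}` with the restriction of `σ`. -/
theorem h90_fixed {N : Type} [Field N] {p : ℕ} (hp : p.Prime) (σ X : N →+* N)
    (hσ : ∀ a, σ^[p] a = a) (hc : ∀ a, X (σ a) = σ (X a)) (hne : ∃ a, X a = a ∧ σ a ≠ a) (a : N)
    (hXa : X a = a) (ha : ∏ t ∈ range p, σ^[t] a = 1) :
    ∃ b, b ≠ 0 ∧ X b = b ∧ σ b = a * b := by
  let K : Subfield N := RingHom.eqLocusField X (RingHom.id N)
  have hK : ∀ x, x ∈ K ↔ X x = x := fun x => Iff.rfl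
  let τ : K →+* K := (σ.comp K.subtype).codRestrict K (by
    intro x
    rw [hK]
    simp only [RingHom.comp_apply]
    rw [hc]
    congr 1
    exact (hK _).1 x.2)
  have hτ : ∀ x : K, ((τ x : K) : N) = σ x := fun x => rfl
  have hτn : ∀ (n : ℕ) (x : K), ((τ^[n] x : K) : N) = σ^[n] x := by
    intro n
    induction n with
    | zero => intro x; rfl
    | succ n ih =>
      intro x
      rw [Function.iterate_succ_apply, Function.iterate_succ_apply, ih]
      rw [hτ]
  obtain ⟨x, hx1, hx2⟩ := hne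
  obtain ⟨b, hb1, hb2⟩ := h90 (N := K) hp τ (fun x => Subtype.ext (by rw [hτn, hσ]))
    ⟨⟨x, (hK x).2 hx1⟩, fun h => hx2 (congrArg Subtype.val h)⟩ ⟨a, (hK a).2 hXa⟩
    (by
      apply Subtype.ext
      have : ((∏ t ∈ range p, τ^[t] ⟨a, (hK a).2 hXa⟩ : K) : N) = ∏ t ∈ range p, σ^[t] a := by
        rw [← K.subtype_apply, map_prod]
        apply Finset.prod_congr rfl
        intro t _
        exact hτn t _
      rw [this, ha]; rfl)
  refine ⟨b, ?_, (hK _).1 b.2, ?_⟩
  · intro h
    exact hb1 (Subtype.ext h)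
  · exact congrArg Subtype.val hb2

end OddGp
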