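import Mathlib
import Pool.Agent.W_MP_bec7e1_h80.Abs
import Pool.Agent.W_MP_bec7e1_h80.H90

/-!
# Claim B, the field part
-/

namespace OddGp

open Finset

section cb

variable {F : Type} [Field F] {p : ℕ}

theorem cb_it (σ : F →+* F) (n : ℕ) (a : F) : σ^[n] a = (σ ^ n) a := by
  rw [RingHom.coe_pow]

/-- `∏_{t<p} σ^t a` -/
def cbN (p : ℕ) (σ : F →+* F) (a : F) : F := ∏ t ∈ range p, σ^[t] a

/-- `σ a / a` -/
def cbD (σ : F →+* F) (a : F) : F := σ a / a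

theorem cbN_mul (σ : F →+* F) (a b : F) : cbN p σ (a * b) = cbN p σ a * cbN p σ b := by
  simp only [cbN, cb_it, map_mul, Finset.prod_mul_distrib]

theorem cbN_div (σ : F →+* F) (a b : F) : cbN p σ (a / b) = cbN p σ a / cbN p σ b := by
  simp only [cbN, cb_it, map_div₀, Finset.prod_div_distrib]

theorem cbN_inv (σ : F →+* F) (a : F) : cbN p σ a⁻¹ = (cbN p σ a)⁻¹ := by
  simp only [cbN, cb_it, map_inv₀, Finset.prod_inv_distrib]

theorem cbN_pow (σ : F →+* F) (a : F) (n : ℕ) : cbN p σ (a ^ n) = (cbN p σ a) ^ n := by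
  simp only [cbN, cb_it, map_pow, Finset.prod_pow]

theorem cbN_zpow (σ : F →+* F) (a : F) (n : ℤ) : cbN p σ (a ^ n) = (cbN p σ a) ^ n := by
  simp only [cbN, cb_it, map_zpow₀, Finset.prod_zpow]

theorem cb_iter_fixed {σ : F →+* F} {a : F} (h : σ a = a) (t : ℕ) : σ^[t] a = a :=
  Function.iterate_fixed h t

theorem cbN_fixed {σ : F →+* F} {a : F} (h : σ a = a) : cbN p σ a = a ^ p := by
  simp only [cbN, cb_iter_fixed h, Finset.prod_const, Finset.card_range]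

theorem cb_iter_comm {σ τ : F →+* F} (h : ∀ a, τ (σ a) = σ (τ a)) (t : ℕ) (a : F) :
    τ (σ^[t] a) = σ^[t] (τ a) := by
  have : Function.Commute τ σ := h
  exact (this.iterate_right t) a

theorem cbN_comm {σ τ : F →+* F} (h : ∀ a, τ (σ a) = σ (τ a)) (a : F) :
    τ (cbN p σ a) = cbN p σ (τ a) := by
  simp only [cbN, map_prod, cb_iter_comm h]

theorem cb_iter_em {L N : Type} [Field L] [Field N] (em : L →+* N) {X : L →+* L}
    {X' : N →+* N} (h : ∀ a, X' (em a) = em (X a)) (t : ℕ) (a : L) :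
    em (X^[t] a) = X'^[t] (em a) := by
  have : Function.Semiconj em X X' := fun a => (h a).symm
  exact (this.iterate_right t) a

theorem cbN_em {L N : Type} [Field L] [Field N] (em : L →+* N) {X : L →+* L}
    {X' : N →+* N} (h : ∀ a, X' (em a) = em (X a)) (a : L) :
    em (cbN p X a) = cbN p X' (em a) := by
  simp only [cbN, map_prod, cb_iter_em em h]

theorem cbN_ne {σ : F →+* F} {a : F} (h : a ≠ 0) : cbN p σ a ≠ 0 := by
  rw [cbN, Finset.prod_ne_zero_iff]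
  intro t _
  rw [cb_it]
  exact (map_ne_zero _).2 h

theorem cbN_shift {σ : F →+* F} {a : F} (h : σ^[p] a = a) : σ (cbN p σ a) = cbN p σ a := by
  by_cases ha : a = 0
  · subst ha
    simp [cbN]
  · have h1 : (∏ t ∈ range p, σ^[t + 1] a) * σ^[0] a = (∏ t ∈ range p, σ^[t] a) * σ^[p] a :=
      (Finset.prod_range_succ' (fun t => σ^[t] a) p).symm.trans (Finset.prod_range_succ _ _)
    rw [h, Function.iterate_zero, id] at h1
    have h2 := mul_right_cancel₀ ha h1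
    rw [cbN, map_prod]
    simpa only [Function.iterate_succ_apply'] using h2

theorem cbD_mul (σ : F →+* F) (a b : F) : cbD σ (a * b) = cbD σ a * cbD σ b := by
  simp only [cbD, map_mul, mul_div_mul_comm]

theorem cbD_div (σ : F →+* F) (a b : F) : cbD σ (a / b) = cbD σ a / cbD σ b := by
  simp only [cbD, map_div₀]
  rw [div_div_div_comm]

theorem cbD_comm {σ τ : F →+* F} (h : ∀ a, τ (σ a) = σ (τ a)) (a : F) :
    τ (cbD σ a) = cbD σ (τ a) := by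
  simp only [cbD, map_div₀, h]

theorem cbD_ne {σ : F →+* F} {a : F} (h : a ≠ 0) : cbD σ a ≠ 0 :=
  div_ne_zero ((map_ne_zero _).2 h) h

theorem cbD_eq_one {σ : F →+* F} {a : F} (h : a ≠ 0) (h1 : cbD σ a = 1) : σ a = a := by
  rw [cbD, div_eq_one_iff_eq h] at h1
  exact h1

theorem cbN_cbD {σ τ : F →+* F} (h : ∀ a, τ (σ a) = σ (τ a)) (a : F) :
    cbN p τ (cbD σ a) = cbD σ (cbN p τ a) := by
  rw [cbD, cbD, cbN_div, cbN_comm (fun a => (h a).symm)]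

theorem cbN_cbD_self {σ : F →+* F} {a : F} (h : σ^[p] a = a) (ha : a ≠ 0) :
    cbN p σ (cbD σ a) = 1 := by
  rw [cbD, cbN_div, ← cbN_comm (fun _ => rfl), cbN_shift h, div_self (cbN_ne ha)]

/-- Cocycle formula. -/
theorem cb_iter_mul {σ : F →+* F} {q g : F} (h : σ q = q * g) (n : ℕ) :
    σ^[n] q = q * ∏ t ∈ range n, σ^[t] g := by
  induction n with
  | zero => simp
  | succ n ih =>
    rw [Function.iterate_succ_apply, h, cb_it, map_mul, ← cb_it, ← cb_it, ih,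
      Finset.prod_range_succ, mul_assoc]

/-- Hilbert 90 with `cbD`. -/
theorem cb_h90 (hp : p.Prime) (σ : F →+* F) (hσ : ∀ a, σ^[p] a = a)
    (hne : ∃ a, σ a ≠ a) (a : F) (ha : cbN p σ a = 1) :
    ∃ b, b ≠ 0 ∧ cbD σ b = a := by
  obtain ⟨b, hb, h⟩ := h90 hp σ hσ hne a ha
  exact ⟨b, hb, by rw [cbD, h, mul_div_assoc, div_self hb, mul_one]⟩

theorem cb_h90_fixed (hp : p.Prime) (σ X : F →+* F) (hσ : ∀ a, σ^[p] a = a)
    (hc : ∀ a, X (σ a) = σ (X a)) (hne : ∃ a, X a = a ∧ σ a ≠ a) (a : F)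
    (hXa : X a = a) (ha : cbN p σ a = 1) :
    ∃ b, b ≠ 0 ∧ X b = b ∧ cbD σ b = a := by
  obtain ⟨b, hb, h1, h⟩ := h90_fixed hp σ X hσ hc hne a hXa ha
  exact ⟨b, hb, h1, by rw [cbD, h, mul_div_assoc, div_self hb, mul_one]⟩

theorem cbD_zpow (σ : F →+* F) (a : F) (n : ℤ) : cbD σ (a ^ n) = (cbD σ a) ^ n := by
  simp only [cbD, map_zpow₀, div_zpow]

theorem cbN_cbN {σ τ : F →+* F} (h : ∀ a, τ (σ a) = σ (τ a)) (a : F) :
    cbN p τ (cbN p σ a) = cbN p σ (cbN p τ a) := by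
  simp only [cbN, cb_it, map_prod]
  rw [Finset.prod_comm]
  refine Finset.prod_congr rfl fun s _ => Finset.prod_congr rfl fun t _ => ?_
  rw [← cb_it, ← cb_it, ← cb_it, ← cb_it]
  have hc : Function.Commute τ σ := h
  exact hc.iterate_iterate t s a

theorem cbD_prod (σ : F →+* F) (s : Finset ℕ) (f : ℕ → F) :
    cbD σ (∏ t ∈ s, f t) = ∏ t ∈ s, cbD σ (f t) := by
  simp only [cbD, map_prod, Finset.prod_div_distrib]

end cb

/-- Step 1. -/
theorem cb_step1 {p : ℕ} [Fact p.Prime] {L N : Type} [Field L] [Field N]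
    {em : L →+* N} {δ : N →+* N} {ζ nn : L} {ν : N} (hK : Kum p em δ ζ nn ν)
    (hne : ∃ a, δ a ≠ a) (X : L →+* L) (X' : N →+* N)
    (hXem : ∀ a, X' (em a) = em (X a)) (hXδ : ∀ a, X' (δ a) = δ (X' a))
    (l mx : L) (q : N) (hl : l ≠ 0) (hmx : mx ≠ 0) (hq : q ≠ 0)
    (h0 : em l = cbN p δ q) (h1 : X l = mx ^ p * l) :
    ∃ fx, fx ≠ 0 ∧ X' q = q * (em mx * cbD δ fx) := by
  have pp : p.Prime := Fact.out
  obtain ⟨fx, hfx, hD⟩ := cb_h90 pp δ hK.ord hne (X' q / (em mx * q)) (by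
    rw [cbN_div, cbN_mul, cbN_fixed (hK.em_fix mx), ← cbN_comm hXδ, ← h0, hXem, h1, map_mul,
      map_pow, div_self]
    exact mul_ne_zero (pow_ne_zero _ ((map_ne_zero em).2 hmx)) ((map_ne_zero em).2 hl))
  refine ⟨fx, hfx, ?_⟩
  rw [hD]
  have := (map_ne_zero em).2 hmx
  field_simp

theorem cb_odd {F : Type} [Field F] {p : ℕ} (pp : p.Prime) (hp2 : p ≠ 2) (c : F)
    (hc : c ^ p = 1) : ∏ i ∈ range p, c ^ i = 1 := by
  rw [Finset.prod_pow_eq_pow_sum, Finset.sum_range_id]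
  obtain ⟨k, hk⟩ := pp.odd_of_ne_two hp2
  have : p * (p - 1) / 2 = p * k := by
    rw [hk, Nat.add_sub_cancel, show (2 * k + 1) * (2 * k) = (2 * k + 1) * k * 2 by ring]
    exact Nat.mul_div_cancel _ (by norm_num)
  rw [this, pow_mul, hc, one_pow]

/-- TASK. Claim B, field part. `X`, `Y` on `L` extend to `X'`, `Y'` on `N`, which fix `ν` and commute
with `δ` and with each other, and all have order `p`.
Proof. Write `N_σ a = ∏_{t<p} σ^t a`; `em l = N_δ q`.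
(1) `N_δ (X' q) = X' (em l) = em (mx^p l) = N_δ (em mx * q)`, so `h90` for `δ` (nontrivial: `δ ν ≠ ν`)
applied to `X' q / (em mx * q)` gives `fx ≠ 0` with `X' q * fx = q * em mx * δ fx`. Similarly
`Y' q * fy = q * em my * δ fy`.
(2) Compute `X' (Y' q) = Y' (X' q)` with (1): with `P = fy * Y' fx / (fx * X' fy)` one gets
`em (mx * X my) * δ (fx X' fy) / (fx X' fy) = em (my * Y mx) * δ (fy Y' fx) / (fy Y' fx)`, so
`δ P = em ζ^κ * P`. Hence `P ν^κ` is fixed by `δ`: `P = ν^{-κ} em U`, `U ≠ 0` (`hK.fix`).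
(3) `q = Y'^p q = q * N_Y(em my) * δ (N_Y' fy) / N_Y' fy` and `N_Y my = 1`, so `N_Y' fy` is fixed by
`δ`: `N_Y' fy = em w`; `Y w = w` as `Y^p = 1`.
(4) `X' fy / fy = (Y' fx / fx) P⁻¹`, so taking `N_Y'`: `X w / w = N_Y'(P)⁻¹ = nn^κ / N_Y U`, i.e.
`X w * N_Y U = nn^κ * w` (`Y' ν = ν`, `ν^p = em nn`).
(5) `N_Y my = 1`: if `Y` is nontrivial on `L` (`hY1`), `h90` gives `l1 ≠ 0` with `Y l1 = my * l1`.
Put `θ = l / l1^p`, `m = mx * l1 / X l1`, `q' = q / em l1`. Then `Y θ = θ`, `X θ = m^p θ`,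
`N_X m = 1`, `Y m = ζ^{-κ} m` (use the relation for `κ`), `em θ = N_δ q'`,
`Y' q' * fy = q' * δ fy`, `X' q' * fx = q' * em m * δ fx`.
(6) `q'^p / em θ = ∏_{t<p} q' / δ^t q'` has `N_δ = 1`; `h90`: `q'^p = em θ * δ s / s`.
Let `t0 = θ * ∏_{i<p} ∏_{j<i} X^j m`. As `X'^i q' = q' * em (∏_{j<i} X^j m) * δ F_i / F_i`,
`F_i = ∏_{j<i} X'^j fx`, one gets `N_X' q' = em t0 * δ r0 / r0` for some `r0 ≠ 0`.
`X t0 = t0`: `X t0 = m^p θ ∏_i ∏_{j<i} X^{j+1} m`, and `∏_{j<i} X^{j+1} m = (∏_{j<i} X^j m) X^i m / m`,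
so `X t0 = m^p t0 * ∏_{i<p} (X^i m) / m^p = t0 * N_X m = t0`.
`Y t0 = t0 ζ^{-κ p (p-1)/2} = t0` (`p` odd).
Then `N_X' q' / em t0` is fixed by `X'`, has `N_δ = 1` (it is `δ r0 / r0`); `h90_fixed` with `ν`
(`X' ν = ν`, `δ ν ≠ ν`) gives `r ≠ 0`, `X' r = r`, `N_X' q' * r = em t0 * δ r`.
(7) Apply `Y'`: `Y' (N_X' q') = N_X' (Y' q') = N_X' q' * δ (N_X' fy) / N_X' fy`, and
`Y' (N_X' q') = em t0 * δ (Y' r) / Y' r`. So `u' = N_X' fy * r / Y' r` is fixed by `δ`: `u' = em u`,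
`X u = u` (`N_X' fy` is fixed by `X'`, as `X'^p = 1`). `N_Y u = N_Y' N_X' fy = N_X' N_Y' fy = N_X w`
(the `r`-part telescopes, `Y'^p = 1`). -/
theorem claimB_field {p : ℕ} [Fact p.Prime] (hp2 : p ≠ 2) {L N : Type} [Field L] [Field N]
    {em : L →+* N} {δ : N →+* N} {ζ nn : L} {ν : N} (hK : Kum p em δ ζ nn ν) (X Y : L →+* L)
    (X' Y' : N →+* N) (hX : ∀ a, X^[p] a = a) (hY : ∀ a, Y^[p] a = a)
    (hX' : ∀ a, X'^[p] a = a) (hY' : ∀ a, Y'^[p] a = a)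
    (hXem : ∀ a, X' (em a) = em (X a)) (hYem : ∀ a, Y' (em a) = em (Y a))
    (hXν : X' ν = ν) (hYν : Y' ν = ν) (hXδ : ∀ a, X' (δ a) = δ (X' a))
    (hYδ : ∀ a, Y' (δ a) = δ (Y' a)) (hXY : ∀ a, X' (Y' a) = Y' (X' a))
    (hY1 : ∃ a, Y a ≠ a) (hXζ : X ζ = ζ) (hYζ : Y ζ = ζ)
    (l mx my : L) (q : N) (κ : ℤ) (hl : l ≠ 0) (hmx : mx ≠ 0) (hmy : my ≠ 0) (hq : q ≠ 0)
    (h0 : em l = ∏ t ∈ range p, δ^[t] q) (h1 : X l = mx ^ p * l) (h2 : Y l = my ^ p * l)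
    (h3 : ∏ t ∈ range p, X^[t] mx = 1) (h4 : ∏ t ∈ range p, Y^[t] my = 1)
    (h5 : mx * X my = ζ ^ κ * (my * Y mx)) :
    ∃ w U u : L, w ≠ 0 ∧ U ≠ 0 ∧ u ≠ 0 ∧ Y w = w ∧
      X w * ∏ t ∈ range p, Y^[t] U = nn ^ κ * w ∧ X u = u ∧
      ∏ t ∈ range p, X^[t] w = ∏ t ∈ range p, Y^[t] u := by
  have pp : p.Prime := Fact.out
  have emi : Function.Injective em := em.injective
  have em0 : ∀ {a : L}, a ≠ 0 → em a ≠ 0 := fun h => (map_ne_zero em).2 h
  have ζ0 : ζ ≠ 0 := hK.prim.ne_zero pp.ne_zero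
  have nδ : δ ν ≠ ν := by
    intro h
    have h1 := hK.δν
    rw [h] at h1
    have h2 : em ζ = 1 := mul_right_cancel₀ hK.ν0 (by rw [h1, one_mul])
    have h3 : ζ = 1 := emi (by rw [h2, map_one])
    exact hK.prim.ne_one pp.one_lt h3
  have hne : ∃ a, δ a ≠ a := ⟨ν, nδ⟩
  have hXYL : ∀ a, X (Y a) = Y (X a) := fun a =>
    emi (by rw [← hXem, ← hYem, hXY, hXem, hYem])
  have X'0 : ∀ {a : N}, a ≠ 0 → X' a ≠ 0 := fun h => (map_ne_zero X').2 h
  have Y'0 : ∀ {a : N}, a ≠ 0 → Y' a ≠ 0 := fun h => (map_ne_zero Y').2 h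
  have X0 : ∀ {a : L}, a ≠ 0 → X a ≠ 0 := fun h => (map_ne_zero X).2 h
  have Y0 : ∀ {a : L}, a ≠ 0 → Y a ≠ 0 := fun h => (map_ne_zero Y).2 h
  have h0' : em l = cbN p δ q := h0
  have h3' : cbN p X mx = 1 := h3
  have h4' : cbN p Y my = 1 := h4
  obtain ⟨fx, hfx, e1⟩ := cb_step1 hK hne X X' hXem hXδ l mx q hl hmx hq h0' h1
  obtain ⟨fy, hfy, e2⟩ := cb_step1 hK hne Y Y' hYem hYδ l my q hl hmy hq h0' h2
  -- step 2
  obtain ⟨P, hP⟩ : ∃ P, P = fy * Y' fx / (fx * X' fy) := ⟨_, rfl⟩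
  have P0 : P ≠ 0 := by
    rw [hP]
    exact div_ne_zero (mul_ne_zero hfy (Y'0 hfx)) (mul_ne_zero hfx (X'0 hfy))
  have eP : cbD δ P = em (ζ ^ κ) := by
    have c := hXY q
    simp only [map_mul, e1, e2, hXem, hYem, cbD_comm hXδ, cbD_comm hYδ] at c
    have h5' : em mx * em (X my) = em (ζ ^ κ) * (em my * em (Y mx)) := by
      rw [← map_mul, h5, map_mul, map_mul]
    rw [hP, cbD_div, cbD_mul, cbD_mul,
      div_eq_iff (mul_ne_zero (cbD_ne hfx) (cbD_ne (X'0 hfy)))]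
    apply mul_left_cancel₀ (mul_ne_zero hq (mul_ne_zero (em0 hmy) (em0 (Y0 hmx))))
    calc q * (em my * em (Y mx)) * (cbD δ fy * cbD δ (Y' fx))
        = q * (em my * cbD δ fy) * (em (Y mx) * cbD δ (Y' fx)) := by ring
      _ = q * (em mx * cbD δ fx) * (em (X my) * cbD δ (X' fy)) := c.symm
      _ = q * (em mx * em (X my)) * (cbD δ fx * cbD δ (X' fy)) := by ring
      _ = _ := by rw [h5']; ring
  have eν : cbD δ ν = (em ζ)⁻¹ := by
    rw [cbD, eq_comm, inv_eq_iff_eq_inv, inv_div, eq_div_iff]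
    · exact hK.δν
    · exact (map_ne_zero δ).2 hK.ν0
  have ePν : cbD δ (P * ν ^ κ) = 1 := by
    rw [cbD_mul, cbD_zpow, eP, eν, map_zpow₀, inv_zpow]
    exact mul_inv_cancel₀ (zpow_ne_zero _ (em0 ζ0))
  have Pν0 : P * ν ^ κ ≠ 0 := mul_ne_zero P0 (zpow_ne_zero _ hK.ν0)
  obtain ⟨U, hU⟩ := hK.fix _ (cbD_eq_one Pν0 ePν)
  have U0 : U ≠ 0 := fun h => Pν0 (by rw [← hU, h, map_zero])
  -- step 3
  have e3 : cbD δ (cbN p Y' fy) = 1 := by
    have c := cb_iter_mul e2 p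
    rw [hY'] at c
    have c1 : cbN p Y' (em my * cbD δ fy) = 1 := by
      apply mul_left_cancel₀ hq
      rw [mul_one]
      exact c.symm
    rw [cbN_mul, ← cbN_em em hYem, h4', map_one, one_mul, cbN_cbD hYδ] at c1
    exact c1
  obtain ⟨w, hw⟩ := hK.fix _ (cbD_eq_one (cbN_ne hfy) e3)
  have w0 : w ≠ 0 := fun h => (cbN_ne (p := p) (σ := Y') hfy) (by rw [← hw, h, map_zero])
  have Yw : Y w = w := emi (by rw [← hYem, hw, cbN_shift (hY' fy)])
  -- step 4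
  have e4 : X w * cbN p Y U = nn ^ κ * w := by
    apply emi
    rw [map_mul, ← hXem, hw, cbN_em em hYem, hU, cbN_comm hXY, ← cbN_mul]
    have c : X' fy * (P * ν ^ κ) = fy * cbD Y' fx * ν ^ κ := by
      have a1 := X'0 hfy
      rw [hP, cbD]
      field_simp
    rw [c, cbN_mul, cbN_mul, cbN_cbD_self (hY' fx) hfx, cbN_zpow, cbN_fixed hYν, hK.νp, ← hw,
      map_mul, map_zpow₀]
    ring
  -- step 5
  obtain ⟨l1, hl1, el1⟩ := cb_h90 pp Y hY hY1 my h4'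
  have el1' : Y l1 = my * l1 := by
    rw [← el1, cbD, div_mul_cancel₀ _ hl1]
  obtain ⟨θ, hθ⟩ : ∃ θ, θ = l / l1 ^ p := ⟨_, rfl⟩
  obtain ⟨m, hm⟩ : ∃ m, m = mx / cbD X l1 := ⟨_, rfl⟩
  obtain ⟨q', hq'⟩ : ∃ q', q' = q / em l1 := ⟨_, rfl⟩
  have θ0 : θ ≠ 0 := by rw [hθ]; exact div_ne_zero hl (pow_ne_zero _ hl1)
  have m0 : m ≠ 0 := by rw [hm]; exact div_ne_zero hmx (cbD_ne hl1)
  have q'0 : q' ≠ 0 := by rw [hq']; exact div_ne_zero hq (em0 hl1)
  have Yθ : Y θ = θ := by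
    rw [hθ, map_div₀, map_pow, h2, el1', mul_pow]
    field_simp
  have Xθ : X θ = m ^ p * θ := by
    have a1 := X0 hl1
    rw [hθ, hm, map_div₀, map_pow, h1, cbD, div_pow, div_pow]
    field_simp
  have Nm : cbN p X m = 1 := by
    rw [hm, cbN_div, h3', cbN_cbD_self (hX l1) hl1, div_one]
  have Ym : Y m = (ζ ^ κ)⁻¹ * m := by
    have a1 := X0 hmy
    have a2 := zpow_ne_zero κ ζ0
    have a3 : cbD X l1 ≠ 0 := cbD_ne hl1
    have a4 : cbD X my ≠ 0 := cbD_ne hmy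
    have c : Y (cbD X l1) = cbD X my * cbD X l1 := by
      rw [cbD_comm (fun a => (hXYL a).symm), el1', cbD_mul]
    rw [hm, map_div₀, c, inv_mul_eq_div, div_div, div_eq_div_iff (mul_ne_zero a4 a3)
      (mul_ne_zero a3 a2)]
    have c2 : cbD X my * my = X my := by rw [cbD, div_mul_cancel₀ _ hmy]
    apply mul_left_cancel₀ hmy
    calc my * (Y mx * (cbD X l1 * ζ ^ κ)) = (ζ ^ κ * (my * Y mx)) * cbD X l1 := by ring
      _ = mx * (cbD X my * my) * cbD X l1 := by rw [← h5, c2]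
      _ = _ := by ring
  have emθ : em θ = cbN p δ q' := by
    rw [hθ, hq', cbN_div, ← h0', cbN_fixed (hK.em_fix l1), map_div₀, map_pow]
  have Yq' : Y' q' = q' * cbD δ fy := by
    have a1 := em0 hl1
    have a2 := em0 hmy
    rw [hq', map_div₀, e2, hYem, el1', map_mul]
    field_simp
  have Xq' : X' q' = q' * (em m * cbD δ fx) := by
    have a1 := em0 hl1
    have a2 := em0 (X0 hl1)
    have a3 : em (cbD X l1) = em (X l1) / em l1 := by rw [cbD, map_div₀]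
    rw [hq', hm, map_div₀, e1, hXem, map_div₀, a3]
    field_simp
  -- step 6
  obtain ⟨s, hs, es⟩ := cb_h90 pp δ hK.ord hne (q' ^ p / em θ) (by
    rw [cbN_div, cbN_pow, ← emθ, cbN_fixed (hK.em_fix θ), div_self]
    exact pow_ne_zero _ (em0 θ0))
  have es' : q' ^ p = em θ * cbD δ s := by
    rw [es, mul_div_cancel₀ _ (em0 θ0)]
  obtain ⟨G, hG⟩ : ∃ G : ℕ → L, G = fun i => ∏ j ∈ range i, X^[j] m := ⟨_, rfl⟩
  obtain ⟨H, hH⟩ : ∃ H : ℕ → N, H = fun i => ∏ j ∈ range i, X'^[j] fx := ⟨_, rfl⟩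
  have G0 : ∀ i, G i ≠ 0 := fun i => by
    rw [hG]
    exact cbN_ne (p := i) (σ := X) m0
  have H0 : ∀ i, H i ≠ 0 := fun i => by
    rw [hH]
    exact cbN_ne (p := i) (σ := X') hfx
  have e6 : ∀ i, X'^[i] q' = q' * (em (G i) * cbD δ (H i)) := fun i => by
    have c1 : ∏ t ∈ range i, X'^[t] (em m * cbD δ fx) = cbN i X' (em m * cbD δ fx) := rfl
    have c2 : G i = cbN i X m := by rw [hG]; rfl
    have c3 : H i = cbN i X' fx := by rw [hH]; rfl
    rw [cb_iter_mul Xq' i, c1, cbN_mul, ← cbN_em em hXem, cbN_cbD hXδ, c2, c3]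
  obtain ⟨t0, ht0⟩ : ∃ t0, t0 = θ * ∏ i ∈ range p, G i := ⟨_, rfl⟩
  obtain ⟨r0, hr0⟩ : ∃ r0, r0 = s * ∏ i ∈ range p, H i := ⟨_, rfl⟩
  have t00 : t0 ≠ 0 := by
    rw [ht0]
    exact mul_ne_zero θ0 (Finset.prod_ne_zero_iff.2 fun i _ => G0 i)
  have r00 : r0 ≠ 0 := by
    rw [hr0]
    exact mul_ne_zero hs (Finset.prod_ne_zero_iff.2 fun i _ => H0 i)
  have eN : cbN p X' q' = em t0 * cbD δ r0 := by
    rw [cbN]
    simp only [e6]
    rw [Finset.prod_mul_distrib, Finset.prod_mul_distrib, Finset.prod_const, Finset.card_range,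
      es', ht0, hr0, map_mul, map_prod, cbD_mul, cbD_prod]
    ring
  have Xt0 : X t0 = t0 := by
    have c : ∀ i, X (G i) * m = G i * X^[i] m := fun i => by
      have c1 := (Finset.prod_range_succ' (fun t => X^[t] m) i).symm.trans
        (Finset.prod_range_succ _ _)
      rw [hG]
      simp only [map_prod]
      simpa only [Function.iterate_succ_apply', Function.iterate_zero, id] using c1
    have c2 : (∏ i ∈ range p, X (G i)) * m ^ p = ∏ i ∈ range p, G i := by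
      calc (∏ i ∈ range p, X (G i)) * m ^ p = ∏ i ∈ range p, (X (G i) * m) := by
            rw [Finset.prod_mul_distrib, Finset.prod_const, Finset.card_range]
        _ = ∏ i ∈ range p, (G i * X^[i] m) := Finset.prod_congr rfl fun i _ => c i
        _ = (∏ i ∈ range p, G i) * cbN p X m := by rw [Finset.prod_mul_distrib, cbN]
        _ = _ := by rw [Nm, mul_one]
    rw [ht0, map_mul, Xθ, map_prod, ← c2]
    ring
  have Yt0 : Y t0 = t0 := by
    obtain ⟨c, hc⟩ : ∃ c, c = (ζ ^ κ)⁻¹ := ⟨_, rfl⟩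
    rw [← hc] at Ym
    have Xc : X c = c := by rw [hc, map_inv₀, map_zpow₀, hXζ]
    have cp : c ^ p = 1 := by
      rw [hc, inv_pow, ← zpow_natCast, ← zpow_mul, mul_comm, zpow_mul, zpow_natCast,
        hK.prim.pow_eq_one, one_zpow, inv_one]
    have c1 : ∀ i, Y (G i) = c ^ i * G i := fun i => by
      rw [hG]
      simp only [map_prod]
      calc ∏ j ∈ range i, Y (X^[j] m) = ∏ j ∈ range i, (c * X^[j] m) := by
            refine Finset.prod_congr rfl fun j _ => ?_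
            rw [cb_iter_comm (fun a => (hXYL a).symm), Ym, cb_it, map_mul, ← cb_it, ← cb_it,
              cb_iter_fixed Xc]
        _ = _ := by rw [Finset.prod_mul_distrib, Finset.prod_const, Finset.card_range]
    rw [ht0, map_mul, Yθ, map_prod, Finset.prod_congr rfl (fun i _ => c1 i),
      Finset.prod_mul_distrib, cb_odd pp hp2 c cp, one_mul]
  have ev : cbN p X' q' / em t0 = cbD δ r0 := by
    rw [eN, mul_div_cancel_left₀ _ (em0 t00)]
  obtain ⟨r, hr, Xr, er⟩ := cb_h90_fixed pp δ X' hK.ord hXδ ⟨ν, hXν, nδ⟩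
    (cbN p X' q' / em t0) (by rw [map_div₀, cbN_shift (hX' q'), hXem, Xt0])
    (by rw [ev, cbN_cbD_self (hK.ord r0) r00])
  have er' : cbN p X' q' = em t0 * cbD δ r := by
    rw [er, mul_div_cancel₀ _ (em0 t00)]
  -- step 7
  have e7 : cbD δ r * cbD δ (cbN p X' fy) = cbD δ (Y' r) := by
    have c : Y' (cbN p X' q') = cbN p X' q' * cbD δ (cbN p X' fy) := by
      rw [cbN_comm (fun a => (hXY a).symm), Yq', cbN_mul, cbN_cbD hXδ]
    rw [er', map_mul, hYem, Yt0, cbD_comm hYδ, mul_assoc] at c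
    exact (mul_left_cancel₀ (em0 t00) c).symm
  have u'0 : cbN p X' fy * r / Y' r ≠ 0 :=
    div_ne_zero (mul_ne_zero (cbN_ne hfy) hr) (Y'0 hr)
  have Du' : cbD δ (cbN p X' fy * r / Y' r) = 1 := by
    rw [cbD_div, cbD_mul, ← e7, mul_comm, div_self]
    exact mul_ne_zero (cbD_ne hr) (cbD_ne (cbN_ne hfy))
  obtain ⟨u, hu⟩ := hK.fix _ (cbD_eq_one u'0 Du')
  have u0 : u ≠ 0 := fun h => u'0 (by rw [← hu, h, map_zero])
  have Xu : X u = u := emi (by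
    rw [← hXem, hu, map_div₀, map_mul, cbN_shift (hX' fy), hXY, Xr])
  have Nw : cbN p X w = cbN p Y u := by
    apply emi
    rw [cbN_em em hXem, cbN_em em hYem, hw, hu, mul_div_assoc, cbN_mul, cbN_cbN hXY]
    have c : r / Y' r = (cbD Y' r)⁻¹ := by rw [cbD, inv_div]
    rw [c, cbN_inv, cbN_cbD_self (hY' r) hr, inv_one, mul_one]
  exact ⟨w, U, u, w0, U0, u0, Yw, e4, Xu, Nw⟩

end OddGp
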