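import Mathlib
import Pool.Agent.W_MP_bec7e1_h80.Conc

/-!
# The extensions of `X_0`, `Y_0` to `N`
-/

namespace OddGp

open Finset

noncomputable section

variable {C : Type} [Field C] {p : ℕ} [Fact p.Prime] (η : Cˣ)

omit [Fact p.Prime] in
theorem eta_zpow_congr_N {η : Cˣ} (hη : (η : C) ^ (p ^ 2) = 1) {a b : ℤ}
    (h : ((p : ℤ) ^ 2) ∣ a - b) : η ^ a = η ^ b := by
  have h1 : η ^ (p ^ 2) = 1 := Units.ext (by rw [Units.val_pow_eq_pow_val, hη, Units.val_one])
  obtain ⟨k, hk⟩ := h
  have h2 : a = ((p ^ 2 : ℕ) : ℤ) * k + b := by push_cast; linarith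
  rw [h2, zpow_add, zpow_mul, zpow_natCast, h1, one_zpow, one_mul]

theorem mom_shA_N (a : AZ p) : (p : ℤ) ∣ mom p (shA p a) - mom p a := by
  rw [← ZMod.intCast_zmod_eq_zero_iff_dvd]
  have h0 : ∑ s, a.1 s = 0 := a.2
  have h1 : mom p (shA p a) = ∑ s : ZMod p, (s.val : ℤ) * a.1 (s - 1) := rfl
  have h2 : mom p a = ∑ s : ZMod p, (s.val : ℤ) * a.1 s := rfl
  have h3 : ∑ s : ZMod p, (s.val : ℤ) * a.1 (s - 1) = ∑ s : ZMod p, ((s + 1).val : ℤ) * a.1 s := by
    apply Fintype.sum_equiv (Equiv.subRight 1)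
    intro s
    rw [Equiv.subRight_apply, sub_add_cancel]
  rw [h1, h2, h3, Int.cast_sub, Int.cast_sum, Int.cast_sum, ← Finset.sum_sub_distrib]
  have h4 : ((∑ s, a.1 s : ℤ) : ZMod p) = 0 := by rw [h0, Int.cast_zero]
  rw [Int.cast_sum] at h4
  rw [← h4]
  apply Finset.sum_congr rfl
  intro s _
  push_cast
  rw [ZMod.natCast_zmod_val, ZMod.natCast_zmod_val]
  ring

theorem shA_iter_N (n : ℕ) (a : AZ p) (s : ZMod p) : ((shA p)^[n] a).1 s = a.1 (s - n) := by
  induction n generalizing s with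
  | zero => simp
  | succ n ih =>
    rw [Function.iterate_succ_apply']
    change ((shA p)^[n] a).1 (s - 1) = _
    rw [ih, show s - 1 - (n : ZMod p) = s - ((n + 1 : ℕ) : ZMod p) by push_cast; ring]

theorem shA_iter_p_N (a : AZ p) : (shA p)^[p] a = a := by
  apply Subtype.ext
  funext s
  rw [shA_iter_N, ZMod.natCast_self, sub_zero]

theorem XN_monN (c : C) (a : NL p) :
    XN p η (mon c a) = mon (c * ((η ^ (-(p * mom p a.1)) : Cˣ) : C)) (sgXN p a) := by
  rw [XN, zHom_mon]; rfl

theorem YN_monN (c : C) (a : NL p) : YN p (mon c a) = mon c (sgYN p a) := by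
  rw [YN, zHom_mon, one_zpow, Units.val_one, mul_one]

theorem dlC_monN (c : C) (a : NL p) :
    dlC p η (mon c a) = mon (c * ((η ^ (-(p * holN p a)) : Cˣ) : C)) a := by
  rw [dlC, zHom_mon]; rfl

/-- TASK. (All statements of this file: check on monomials with `MF_hom_ext`, `zHom_mon`.) -/
theorem XN_em (a : fL C p) : XN p η (emC p a) = emC p (XC p η 0 a) := by
  have h : (XN p η).comp (emC p) = (emC p).comp (XC (C := C) p η 0) := by
    apply MF_hom_ext
    intro c a
    rw [RingHom.comp_apply, RingHom.comp_apply, emC_mon, XN_monN, XC, zHom_mon, emC_mon, eX_apply,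
      zero_mul, add_zero]
    rfl
  exact congrArg (fun g : fL C p →+* fN C p => g a) h

/-- TASK. -/
theorem YN_em (a : fL C p) : YN p (emC p a) = emC p (YC p η 0 a) := by
  have h : (YN p).comp (emC p) = (emC p).comp (YC (C := C) p η 0) := by
    apply MF_hom_ext
    intro c a
    rw [RingHom.comp_apply, RingHom.comp_apply, emC_mon, YN_monN, YC, zHom_mon, emC_mon, eY_apply,
      zero_mul, zpow_zero, Units.val_one, mul_one]
    congr 1
    rw [sgY_apply, zero_mul, zero_smul, sub_zero]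
    rfl
  exact congrArg (fun g : fL C p →+* fN C p => g a) h

/-- TASK. -/
theorem XN_nu : XN p η (nuC (C := C) p) = nuC p := by
  rw [nuC, XN_monN]
  have h1 : mom p ((0, (0, 1)) : NL p).1 = 0 := map_zero _
  rw [h1, mul_zero, neg_zero, zpow_zero, Units.val_one, mul_one]
  congr 1

/-- TASK. -/
theorem YN_nu : YN p (nuC (C := C) p) = nuC p := by
  rw [nuC, YN_monN]
  congr 1

/-- TASK. `δ` commutes with `X`: `holN` is invariant modulo `p` (`aB_smul`), and `η^{p^2} = 1`. -/
theorem XN_dl (hη : (η : C) ^ (p ^ 2) = 1) (a : fN C p) :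
    XN p η (dlC p η a) = dlC p η (XN p η a) := by
  have h : (XN p η).comp (dlC p η) = (dlC p η).comp (XN (C := C) p η) := by
    apply MF_hom_ext
    intro c a
    rw [RingHom.comp_apply, RingHom.comp_apply, dlC_monN, XN_monN, XN_monN, dlC_monN]
    congr 1
    have h1 : η ^ (-(p * holN p (sgXN p a))) = η ^ (-(p * holN p a)) := by
      apply eta_zpow_congr_N hη
      rw [holN_apply, holN_apply, sgXN_apply]
      obtain ⟨k, hk⟩ := aB_smul (GA.x : GA p) a.2.1
      refine ⟨-k, ?_⟩
      simp only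
      linear_combination (-(p : ℤ)) * hk
    rw [h1]
    ring
  exact congrArg (fun g : fN C p →+* fN C p => g a) h

/-- TASK. -/
theorem YN_dl (hη : (η : C) ^ (p ^ 2) = 1) (a : fN C p) :
    YN p (dlC p η a) = dlC p η (YN p a) := by
  have h : (YN p).comp (dlC p η) = (dlC p η).comp (YN (C := C) p) := by
    apply MF_hom_ext
    intro c a
    rw [RingHom.comp_apply, RingHom.comp_apply, dlC_monN, YN_monN, YN_monN, dlC_monN]
    congr 1
    have h1 : η ^ (-(p * holN p (sgYN p a))) = η ^ (-(p * holN p a)) := by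
      apply eta_zpow_congr_N hη
      rw [holN_apply, holN_apply, sgYN_apply]
      obtain ⟨k, hk⟩ := aB_smul (GA.y : GA p) a.2.1
      refine ⟨-k, ?_⟩
      simp only
      linear_combination (-(p : ℤ)) * hk
    rw [h1]
  exact congrArg (fun g : fN C p →+* fN C p => g a) h

/-- TASK. (`mom (shA a) = mom a` modulo `p`, see `XY_comm` in `ConcXY`.) -/
theorem XN_YN (hη : (η : C) ^ (p ^ 2) = 1) (a : fN C p) :
    XN p η (YN p a) = YN p (XN p η a) := by
  have h : (XN p η).comp (YN p) = (YN p).comp (XN (C := C) p η) := by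
    apply MF_hom_ext
    intro c a
    rw [RingHom.comp_apply, RingHom.comp_apply, YN_monN, XN_monN, XN_monN, YN_monN]
    have h1 : η ^ (-(p * mom p (sgYN p a).1)) = η ^ (-(p * mom p a.1)) := by
      apply eta_zpow_congr_N hη
      rw [sgYN_apply]
      obtain ⟨k, hk⟩ := mom_shA_N a.1
      refine ⟨-k, ?_⟩
      simp only
      linear_combination (-(p : ℤ)) * hk
    rw [h1]
    congr 1
    rw [sgXN_apply, sgYN_apply, sgYN_apply, sgXN_apply]
    simp only
    rw [smul_smul, smul_smul, mul_comm (GA.x : GA p) GA.y]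
  exact congrArg (fun g : fN C p →+* fN C p => g a) h

theorem sgXN_iterN (n : ℕ) (a : NL p) :
    (sgXN p)^[n] a = (a.1, (((GA.x : GA p) ^ n) • a.2.1, a.2.2)) := by
  induction n with
  | zero => simp
  | succ n ih =>
    rw [Function.iterate_succ_apply', ih, sgXN_apply]
    simp only
    rw [smul_smul, ← pow_succ']

theorem sgYN_iterN (n : ℕ) (a : NL p) :
    (sgYN p)^[n] a = ((shA p)^[n] a.1, (((GA.y : GA p) ^ n) • a.2.1, a.2.2)) := by
  induction n with
  | zero => simp
  | succ n ih =>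
    rw [Function.iterate_succ_apply', ih, sgYN_apply]
    simp only
    rw [smul_smul, ← pow_succ', Function.iterate_succ_apply']

/-- TASK. -/
theorem XN_ord (hη : (η : C) ^ (p ^ 2) = 1) (a : fN C p) : (XN p η)^[p] a = a := by
  apply iterate_eq_self
  intro c a
  rw [XN, zHom_iterate, sgXN_iterN, GA.pow_p, one_smul]
  have h2 : ∑ t ∈ range p, (-((p : ℤ) • (mom p).comp (AddMonoidHom.fst (AZ p)
      (Circ (GA p) × ℤ)))) ((sgXN p)^[t] a) = -((p : ℤ) ^ 2 * mom p a.1) := by
    have h3 : ∀ t ∈ range p, (-((p : ℤ) • (mom p).comp (AddMonoidHom.fst (AZ p)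
      (Circ (GA p) × ℤ)))) ((sgXN p)^[t] a) = -(p * mom p a.1) := by
      intro t _
      rw [sgXN_iterN]
      rfl
    rw [Finset.sum_congr rfl h3, Finset.sum_const, Finset.card_range, nsmul_eq_mul]
    ring
  rw [h2]
  have h4 : η ^ (-((p : ℤ) ^ 2 * mom p a.1)) = η ^ (0 : ℤ) := by
    apply eta_zpow_congr_N hη
    exact ⟨-mom p a.1, by ring⟩
  rw [h4, zpow_zero, Units.val_one, mul_one]

/-- TASK. -/
theorem YN_ord (a : fN C p) : (YN p)^[p] a = a := by
  apply iterate_eq_self
  intro c a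
  rw [YN, zHom_iterate, sgYN_iterN, GA.pow_p, one_smul, shA_iter_p_N, one_zpow, Units.val_one,
    mul_one]

end

end OddGp
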