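import Mathlib
import Pool.Agent.W_MP_bec7e1_h80.Lat3

/-!
# The final contradiction in the lattice `Λ`
-/

namespace OddGp

open Finset

variable {p : ℕ} [Fact p.Prime]

theorem fl_sum_range (f : ZMod p → ℤ) (a : ZMod p) :
    ∑ t ∈ range p, f (a - (t : ZMod p)) = ∑ s, f s := by
  have h1 : ∑ s : ZMod p, f (a - s) = ∑ s, f s :=
    Fintype.sum_equiv (Equiv.subLeft a) _ _ (fun _ => rfl)
  rw [← h1]
  refine Finset.sum_bij' (fun t _ => (t : ZMod p)) (fun s _ => s.val) ?_ ?_ ?_ ?_ ?_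
  · intro t _; exact Finset.mem_univ _
  · intro s _; exact Finset.mem_range.2 (ZMod.val_lt s)
  · intro t ht; exact ZMod.val_natCast_of_lt (Finset.mem_range.1 ht)
  · intro s _; exact ZMod.natCast_zmod_val s
  · intro t _; rfl

theorem fl_sum_val (s : Finset ℕ) (F : ℕ → Lam p) (g h : GA p) :
    (∑ t ∈ s, F t).1.1.1 g h = ∑ t ∈ s, (F t).1.1.1 g h := by
  classical
  induction s using Finset.induction_on with
  | empty => simp
  | insert a s ha ih =>
    rw [Finset.sum_insert ha, Finset.sum_insert ha, ← ih]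
    rfl

theorem fl_y (t : ℕ) (i j : ZMod p) :
    ((GA.y : GA p) ^ t)⁻¹ * ⟨i, j⟩ = ⟨i, j - (t : ZMod p)⟩ := by
  ext
  · simp [GA.pow_i]
  · simp [GA.pow_j]; ring

theorem fl_x (t : ℕ) (i j : ZMod p) :
    ((GA.x : GA p) ^ t)⁻¹ * ⟨i, j⟩ = ⟨i - (t : ZMod p), j⟩ := by
  ext
  · simp [GA.pow_i]; ring
  · simp [GA.pow_j]

theorem fl_y1 (i j : ZMod p) : (GA.y : GA p)⁻¹ * ⟨i, j⟩ = ⟨i, j - 1⟩ := by
  ext
  · simp
  · simp; ring

theorem fl_x1 (i j : ZMod p) : (GA.x : GA p)⁻¹ * ⟨i, j⟩ = ⟨i - 1, j⟩ := by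
  ext
  · simp; ring
  · simp

theorem fl_sum_snd (s : Finset ℕ) (F : ℕ → Lam p) :
    (∑ t ∈ s, F t).1.2 = ∑ t ∈ s, (F t).1.2 := by
  classical
  induction s using Finset.induction_on with
  | empty => simp
  | insert a s ha ih =>
    rw [Finset.sum_insert ha, Finset.sum_insert ha, ← ih]
    rfl

theorem fl_Ny (m : Lam p) (i j : ZMod p) (h : GA p) :
    (∑ t ∈ range p, ((GA.y : GA p) ^ t) • m).1.1.1 ⟨i, j⟩ h = ∑ s, m.1.1.1 ⟨i, s⟩ h := by
  rw [fl_sum_val, ← fl_sum_range (fun s => m.1.1.1 ⟨i, s⟩ h) j]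
  apply Finset.sum_congr rfl
  intro t _
  rw [Lam_smul_fst, Circ.smul_val, fl_y]

theorem fl_Nx (m : Lam p) (i j : ZMod p) (h : GA p) :
    (∑ t ∈ range p, ((GA.x : GA p) ^ t) • m).1.1.1 ⟨i, j⟩ h = ∑ s, m.1.1.1 ⟨s, j⟩ h := by
  rw [fl_sum_val, ← fl_sum_range (fun s => m.1.1.1 ⟨s, j⟩ h) i]
  apply Finset.sum_congr rfl
  intro t _
  rw [Lam_smul_fst, Circ.smul_val, fl_x]

theorem fl_const {f : ZMod p → ℤ} (h : ∀ a, f (a - 1) = f a) (a : ZMod p) : f a = f 0 := by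
  have h1 : ∀ n : ℕ, f (n : ZMod p) = f 0 := by
    intro n
    induction n with
    | zero => simp
    | succ n ih =>
      rw [← ih, ← h ((n + 1 : ℕ) : ZMod p)]
      congr 1
      push_cast; ring
  have h2 := h1 a.val
  rwa [ZMod.natCast_zmod_val] at h2

theorem fl_sum_GA {M : Type} [AddCommMonoid M] (F : GA p → M) :
    ∑ g, F g = ∑ i : ZMod p, ∑ j : ZMod p, F ⟨i, j⟩ := by
  rw [← Fintype.sum_prod_type' (fun i j => F ⟨i, j⟩)]
  exact Fintype.sum_equiv (GA.equivProd p) _ _ (fun _ => rfl)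

/-- The final contradiction.
Proof. Write `W = (w, _)`, `U = (c, n)`, `u = (e, _)` with `w, c, e ∈ Circ (GA p)`; `GA p` acts
trivially on the integer component.
(1) Integer component of `h2`: `p n = p k`, so `n = k`. As `U ∈ Λ`, `p ∣ n + aB c`. So it suffices to
show `p ∣ aB c`, and by `aB'_sub` it suffices that `p ∣ aB' c`, where
`aB' c = - ∑ c(g,h) j(h) i(gh) + ∑ c(g,h) cy(i(g), i(h))` (values as integers).
(2) `h1` says that `w(g,h)` depends only on `i(g)` and `h`; write `w(i; h)`. The first component of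
`h2` is `w(i - 1; h) + ∑_j c((i,j), h) = w(i; h)` for all `i`, `h` (`N_y c (g, h) =
∑_t c(y^{-t} g, h)` = sum over all second coordinates). (h2')
(3) Summing (h2') over `i`: `∑_g c(g,h) = 0` for every `h`. Hence
`p ∑ c(g,h) cy(i(g), i(h)) = ∑ c(g,h) i(h) = 0` (`p_mul_cyi`), so the second part of `aB' c` is `0`.
(4) In `ZMod p`: `aB' c = - ∑_{i,h} (∑_j c((i,j),h)) j(h) (i + i(h))
 = - ∑_{i,h} (w(i;h) - w(i-1;h)) j(h) i` (the `i(h)`-part vanishes by (3))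
 `= - ∑_h j(h) ∑_i w(i;h) (i - (i+1)) = ∑_h j(h) ∑_i w(i;h)` (summation by parts over `ZMod p`).
(5) First component of `h4`: `∑_i w(i;h) = ∑_j e(j;h)` where, by `h3`, `e(g,h) = e(j(g);h)` depends
only on `j(g)` and `h` (`N_x w (g,h) = ∑_t w(x^{-t} g, h)`, `N_y e (g,h) = ∑_t e(y^{-t} g, h)`).
So `aB' c = ∑_{j,h} j(h) e(j;h)` in `ZMod p`.
(6) `p ∑_{j,h} e(j;h) j(h) = ∑_{g,h} e(g,h) j(h) = p vB e` (`p_mul_vB`), and
`vB e = ∑_{g,h} e(g,h) cy(j(g),j(h)) = p ∑_{j,h} e(j;h) cy(j, j(h))` (integers). So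
`∑_{j,h} e(j;h) j(h) = p (..)` is divisible by `p`. Hence `p ∣ aB' c`. -/
theorem final_lattice (W U u : Lam p) (k : ℤ) (h1 : (GA.y : GA p) • W = W)
    (h2 : (GA.x : GA p) • W + ∑ t ∈ range p, ((GA.y : GA p) ^ t) • U = W + k • nL p)
    (h3 : (GA.x : GA p) • u = u)
    (h4 : ∑ t ∈ range p, ((GA.x : GA p) ^ t) • W = ∑ t ∈ range p, ((GA.y : GA p) ^ t) • u) :
    (p : ℤ) ∣ k := by
  have hp0 : (p : ℤ) ≠ 0 := by
    exact_mod_cast (Fact.out : p.Prime).ne_zero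
  -- the integer component
  have hnk : U.1.2 = k := by
    have e1 : ((GA.x : GA p) • W + ∑ t ∈ range p, ((GA.y : GA p) ^ t) • U).1.2 =
        (W + k • nL p).1.2 := by rw [h2]
    have e2 : ((GA.x : GA p) • W + ∑ t ∈ range p, ((GA.y : GA p) ^ t) • U).1.2 =
        W.1.2 + (∑ t ∈ range p, ((GA.y : GA p) ^ t) • U).1.2 := rfl
    have e3 : (W + k • nL p).1.2 = W.1.2 + k * p := rfl
    rw [e2, e3, fl_sum_snd] at e1
    have e4 : ∑ t ∈ range p, (((GA.y : GA p) ^ t) • U).1.2 = p * U.1.2 := by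
      rw [Finset.sum_congr rfl (fun t _ => Lam_smul_snd _ U)]
      simp
    rw [e4] at e1
    have e5 : (p : ℤ) * U.1.2 = p * k := by linarith
    exact mul_left_cancel₀ hp0 e5
  -- the values
  have hw : ∀ i j h, W.1.1.1 ⟨i, j⟩ h = W.1.1.1 ⟨i, 0⟩ h := by
    intro i j h
    refine fl_const (f := fun j => W.1.1.1 ⟨i, j⟩ h) (fun a => ?_) j
    have e1 : ((GA.y : GA p) • W).1.1.1 ⟨i, a⟩ h = W.1.1.1 ⟨i, a⟩ h := by rw [h1]
    rw [Lam_smul_fst, Circ.smul_val, fl_y1] at e1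
    exact e1
  have he : ∀ i j h, u.1.1.1 ⟨i, j⟩ h = u.1.1.1 ⟨0, j⟩ h := by
    intro i j h
    refine fl_const (f := fun i => u.1.1.1 ⟨i, j⟩ h) (fun a => ?_) i
    have e1 : ((GA.x : GA p) • u).1.1.1 ⟨a, j⟩ h = u.1.1.1 ⟨a, j⟩ h := by rw [h3]
    rw [Lam_smul_fst, Circ.smul_val, fl_x1] at e1
    exact e1
  obtain ⟨w, hwd⟩ : ∃ w : ZMod p → GA p → ℤ, w = fun i h => W.1.1.1 ⟨i, 0⟩ h := ⟨_, rfl⟩
  obtain ⟨C, hCd⟩ : ∃ C : ZMod p → GA p → ℤ, C = fun i h => ∑ s, U.1.1.1 ⟨i, s⟩ h := ⟨_, rfl⟩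
  have h2' : ∀ i h, w (i - 1) h + C i h = w i h := by
    intro i h
    have e1 : ((GA.x : GA p) • W + ∑ t ∈ range p, ((GA.y : GA p) ^ t) • U).1.1.1 ⟨i, 0⟩ h =
        (W + k • nL p).1.1.1 ⟨i, 0⟩ h := by rw [h2]
    have e2 : ((GA.x : GA p) • W + ∑ t ∈ range p, ((GA.y : GA p) ^ t) • U).1.1.1 ⟨i, 0⟩ h =
        ((GA.x : GA p) • W).1.1.1 ⟨i, 0⟩ h +
        (∑ t ∈ range p, ((GA.y : GA p) ^ t) • U).1.1.1 ⟨i, 0⟩ h := rfl
    have e3 : (W + k • nL p).1.1.1 ⟨i, 0⟩ h = W.1.1.1 ⟨i, 0⟩ h := by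
      have e4 : (W + k • nL p).1.1 = W.1.1 := by
        have e5 : (W + k • nL p).1.1 = W.1.1 + k • (nL p).1.1 := rfl
        rw [e5, nL_fst, smul_zero, add_zero]
      rw [e4]
    rw [e2, e3, fl_Ny, Lam_smul_fst, Circ.smul_val, fl_x1] at e1
    rw [hwd, hCd]
    exact e1
  have hCs : ∀ h, ∑ i, C i h = 0 := by
    intro h
    have e1 : ∑ i, C i h = ∑ i, w i h - ∑ i, w (i - 1) h := by
      rw [← Finset.sum_sub_distrib]
      apply Finset.sum_congr rfl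
      intro i _
      have := h2' i h
      linarith
    have e2 : ∑ i, w (i - 1) h = ∑ i, w i h :=
      Fintype.sum_equiv (Equiv.subRight 1) _ _ (fun _ => rfl)
    rw [e1, e2, sub_self]
  -- sums over edges
  have hE : ∀ (m : Circ (GA p)) (F : ZMod p → GA p → ℤ),
      esum (fun g h => F g.i h) m = ∑ h, ∑ i, (∑ s, m.1 ⟨i, s⟩ h) * F i h := by
    intro m F
    rw [esum_apply, Finset.sum_comm]
    apply Finset.sum_congr rfl
    intro h _
    rw [fl_sum_GA]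
    apply Finset.sum_congr rfl
    intro i _
    rw [Finset.sum_mul]
  have hcy : esum (fun g h => (cy g.i h.i : ℤ)) U.1.1 = 0 := by
    have e1 := p_mul_cyi U.1.1
    have e2 : esum (fun _ h => (h.i.val : ℤ)) U.1.1 = 0 := by
      rw [hE U.1.1 (fun _ h => (h.i.val : ℤ))]
      apply Finset.sum_eq_zero
      intro h _
      rw [← Finset.sum_mul]
      have e3 := hCs h
      rw [hCd] at e3
      rw [e3, zero_mul]
    rw [e2] at e1
    exact (mul_eq_zero.1 e1).resolve_left hp0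
  have haB' : aB' p U.1.1 = -∑ h : GA p, ∑ i : ZMod p, C i h * ((h.j.val : ℤ) * ((i + h.i).val : ℤ)) := by
    have e1 : aB' p U.1.1 = -esum (fun g h => ((h.j.val : ℤ) * ((g.i + h.i).val : ℤ))) U.1.1 +
        esum (fun g h => (cy g.i h.i : ℤ)) U.1.1 := by
      rw [aB', esum_apply, esum_apply, esum_apply, ← Finset.sum_neg_distrib,
        ← Finset.sum_add_distrib]
      apply Finset.sum_congr rfl
      intro g _
      rw [← Finset.sum_neg_distrib, ← Finset.sum_add_distrib]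
      apply Finset.sum_congr rfl
      intro h _
      ring
    rw [e1, hcy, add_zero, hE U.1.1 (fun i h => ((h.j.val : ℤ) * ((i + h.i).val : ℤ))), hCd]
  -- everything modulo p
  have hmod : ((aB' p U.1.1 : ℤ) : ZMod p) = ∑ h : GA p, h.j * ∑ i, ((w i h : ℤ) : ZMod p) := by
    rw [haB']
    push_cast
    rw [← Finset.sum_neg_distrib]
    apply Finset.sum_congr rfl
    intro h _
    have e1 : ∀ i : ZMod p, ((C i h : ℤ) : ZMod p) = (w i h : ZMod p) - (w (i - 1) h : ZMod p) := by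
      intro i
      rw [← h2' i h]
      push_cast; ring
    have e2 : ∑ i, ((C i h : ℤ) : ZMod p) = 0 := by
      have := hCs h
      have := congrArg (Int.cast : ℤ → ZMod p) this
      push_cast at this
      exact this
    have e3 : ∑ i, ((w (i - 1) h : ℤ) : ZMod p) * i = ∑ i, ((w i h : ℤ) : ZMod p) * (i + 1) := by
      apply Fintype.sum_equiv (Equiv.subRight 1)
      intro i
      simp
    have e4 : ∑ i : ZMod p, ((C i h : ℤ) : ZMod p) * (((h.j.val : ℕ) : ZMod p) *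
        (((i + h.i).val : ℕ) : ZMod p)) =
        h.j * (∑ i, ((w i h : ℤ) : ZMod p) * i - ∑ i, ((w (i - 1) h : ℤ) : ZMod p) * i) +
        h.j * h.i * ∑ i, ((C i h : ℤ) : ZMod p) := by
      rw [← Finset.sum_sub_distrib, Finset.mul_sum, Finset.mul_sum, ← Finset.sum_add_distrib]
      apply Finset.sum_congr rfl
      intro i _
      rw [ZMod.natCast_zmod_val, ZMod.natCast_zmod_val, e1 i]
      ring
    rw [e4, e2, e3, ← Finset.sum_sub_distrib, mul_zero, add_zero, ← mul_neg,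
      ← Finset.sum_neg_distrib]
    congr 1
    apply Finset.sum_congr rfl
    intro i _
    ring
  -- the relation with u
  have hwu : ∀ h, ∑ i, w i h = ∑ s, u.1.1.1 ⟨0, s⟩ h := by
    intro h
    have e1 : (∑ t ∈ range p, ((GA.x : GA p) ^ t) • W).1.1.1 ⟨0, 0⟩ h =
        (∑ t ∈ range p, ((GA.y : GA p) ^ t) • u).1.1.1 ⟨0, 0⟩ h := by rw [h4]
    rw [fl_Nx, fl_Ny] at e1
    rw [hwd]
    exact e1
  have hvB : (p : ℤ) ∣ ∑ h : GA p, (h.j.val : ℤ) * ∑ s, u.1.1.1 ⟨0, s⟩ h := by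
    have e1 := p_mul_vB u.1.1
    have e2 : esum (fun _ h => (h.j.val : ℤ)) u.1.1 =
        p * ∑ h : GA p, (h.j.val : ℤ) * ∑ s, u.1.1.1 ⟨0, s⟩ h := by
      rw [esum_apply, Finset.sum_comm, Finset.mul_sum]
      apply Finset.sum_congr rfl
      intro h _
      rw [fl_sum_GA]
      have e3 : ∀ i : ZMod p, ∑ j, u.1.1.1 ⟨i, j⟩ h * (h.j.val : ℤ) =
          (h.j.val : ℤ) * ∑ s, u.1.1.1 ⟨0, s⟩ h := by
        intro i
        rw [Finset.mul_sum]
        apply Finset.sum_congr rfl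
        intro j _
        rw [he i j h, mul_comm]
      rw [Finset.sum_congr rfl (fun i _ => e3 i)]
      simp [ZMod.card]
    rw [e2] at e1
    have e4 := mul_left_cancel₀ hp0 e1
    rw [← e4]
    have e5 : vB p u.1.1 = p * ∑ j : ZMod p, ∑ h : GA p, u.1.1.1 ⟨0, j⟩ h * (cy j h.j : ℤ) := by
      rw [vB, esum_apply, fl_sum_GA]
      have e3 : ∀ i : ZMod p, ∑ j, ∑ h, u.1.1.1 ⟨i, j⟩ h *
          (cy (⟨i, j⟩ : GA p).j h.j : ℤ) =
          ∑ j : ZMod p, ∑ h : GA p, u.1.1.1 ⟨0, j⟩ h * (cy j h.j : ℤ) := by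
        intro i
        apply Finset.sum_congr rfl
        intro j _
        apply Finset.sum_congr rfl
        intro h _
        rw [he i j h]
      rw [Finset.sum_congr rfl (fun i _ => e3 i)]
      simp [ZMod.card]
    rw [e5]
    exact dvd_mul_right _ _
  have hdiv : (p : ℤ) ∣ aB' p U.1.1 := by
    rw [← ZMod.intCast_zmod_eq_zero_iff_dvd, hmod]
    rw [← ZMod.intCast_zmod_eq_zero_iff_dvd] at hvB
    rw [← hvB]
    push_cast
    apply Finset.sum_congr rfl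
    intro h _
    rw [ZMod.natCast_zmod_val]
    congr 1
    have := congrArg (Int.cast : ℤ → ZMod p) (hwu h)
    push_cast at this
    exact this
  have haB : (p : ℤ) ∣ aB p U.1.1 := by
    have e1 := aB'_sub U.1.1
    have e2 : aB p U.1.1 = aB' p U.1.1 - (aB' p U.1.1 - aB p U.1.1) := by ring
    rw [e2]
    exact dvd_sub hdiv e1
  have hU : (p : ℤ) ∣ holZ p U.1 := U.2
  rw [holZ_apply, hnk] at hU
  have e1 : k = k + aB p U.1.1 - aB p U.1.1 := by ring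
  rw [e1]
  exact dvd_sub hU haB

end OddGp
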