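import Mathlib
import Pool.Agent.W_MP_bec7e1_h80.Lat3

/-!
# `H¹(Δ, Λ) = 0` for all subgroups `Δ` of `(Z/p)²`
-/

namespace OddGp

open Finset

variable {p : ℕ} [Fact p.Prime]

section Gen

variable {G : Type} [Group G] [Fintype G]

/-- right transversal of a subgroup -/
theorem H1Lam_transversal (Δ : Subgroup G) : ∃ (d : G → Δ) (r : G → G),
    (∀ g, (d g : G) * r g = g) ∧ (∀ (a : Δ) g, d ((a : G) * g) = a * d g) ∧
    ∀ (a : Δ) g, r ((a : G) * g) = r g := by
  classical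
  obtain ⟨r, hr⟩ : ∃ r : G → G, r = fun g => (Quotient.mk (QuotientGroup.rightRel Δ) g).out :=
    ⟨_, rfl⟩
  have hmem : ∀ g, g * (r g)⁻¹ ∈ Δ := by
    intro g
    have h1 : (QuotientGroup.rightRel Δ) (Quotient.mk (QuotientGroup.rightRel Δ) g).out g :=
      Quotient.mk_out g
    rw [QuotientGroup.rightRel_apply] at h1
    rw [hr]
    exact h1
  have hra : ∀ (a : Δ) g, r ((a : G) * g) = r g := by
    intro a g
    have hq : Quotient.mk (QuotientGroup.rightRel Δ) ((a : G) * g) =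
        Quotient.mk (QuotientGroup.rightRel Δ) g := by
      apply Quotient.sound
      show (QuotientGroup.rightRel Δ) ((a : G) * g) g
      rw [QuotientGroup.rightRel_apply, mul_inv_rev, mul_inv_cancel_left]
      exact inv_mem a.2
    rw [hr]
    simp only [hq]
  refine ⟨fun g => ⟨g * (r g)⁻¹, hmem g⟩, r, fun g => ?_, fun a g => ?_, hra⟩
  · exact inv_mul_cancel_right g (r g)
  · apply Subtype.ext
    show (a : G) * g * (r ((a : G) * g))⁻¹ = a * (g * (r g)⁻¹)
    rw [hra, mul_assoc]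

theorem H1Lam_sum_dv (m : G → G → ℤ) : ∑ g, dv m g = 0 := by
  have h1 : ∑ g, ∑ h, m (g * h⁻¹) h = ∑ g, ∑ h, m g h := by
    rw [Finset.sum_comm]
    conv_rhs => rw [Finset.sum_comm]
    apply Finset.sum_congr rfl
    intro h _
    apply Fintype.sum_equiv (Equiv.mulRight h⁻¹)
    intro g
    rfl
  simp only [dv, Finset.sum_sub_distrib]
  rw [h1, sub_self]

theorem H1Lam_dv_sum {ι : Type} (s : Finset ι) (b : ι → ℤ) (m : ι → G → G → ℤ) (x : G) :
    dv (fun g h => ∑ i ∈ s, b i * m i g h) x = ∑ i ∈ s, b i * dv (m i) x := by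
  simp only [dv, mul_sub, Finset.sum_sub_distrib, Finset.mul_sum]
  rw [Finset.sum_comm]
  congr 1
  rw [Finset.sum_comm]

/-- `H¹(Δ, Circ G) = 0` -/
theorem H1Lam_circ (Δ : Subgroup G) (c : Δ → Circ G)
    (hc : ∀ a b : Δ, c (a * b) = c a + (a : G) • c b) :
    ∃ v : Circ G, ∀ a : Δ, c a = (a : G) • v - v := by
  classical
  obtain ⟨d, r, hdr, hd, hr⟩ := H1Lam_transversal Δ
  obtain ⟨v0, hv0⟩ : ∃ v0 : G → G → ℤ, v0 = fun g h => - (c (d g)).1 g h := ⟨_, rfl⟩
  have hinv : ∀ (a : Δ) g, d ((a : G)⁻¹ * g) = a⁻¹ * d g := fun a g => hd a⁻¹ g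
  have h1 : ∀ (a : Δ) g h, v0 ((a : G)⁻¹ * g) h = v0 g h + (c a).1 g h := by
    intro a g h
    have e1 := hc a (a⁻¹ * d g)
    rw [mul_inv_cancel_left] at e1
    have e2 : (c (d g)).1 g h = (c a).1 g h + (c (a⁻¹ * d g)).1 ((a : G)⁻¹ * g) h := by
      rw [e1]
      rfl
    rw [hv0]
    show - (c (d ((a : G)⁻¹ * g))).1 ((a : G)⁻¹ * g) h = - (c (d g)).1 g h + (c a).1 g h
    rw [hinv, e2]
    ring
  have h2 : ∀ g, v0 g 1 = 0 := by
    intro g
    rw [hv0]
    show - (c (d g)).1 g 1 = 0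
    rw [Circ.one, neg_zero]
  obtain ⟨b, hb⟩ : ∃ b : G → ℤ, b = dv v0 := ⟨_, rfl⟩
  have h3 : ∀ (a : Δ) g, b ((a : G)⁻¹ * g) = b g := by
    intro a g
    have e1 : dv (c a).1 g = 0 := (mem_Circ.1 (c a).2).2 g
    rw [hb]
    simp only [dv] at e1 ⊢
    have e2 : ∑ h, v0 ((a : G)⁻¹ * g) h = ∑ h, v0 g h + ∑ h, (c a).1 g h := by
      rw [← Finset.sum_add_distrib]
      exact Finset.sum_congr rfl fun h _ => h1 a g h
    have e3 : ∑ h, v0 ((a : G)⁻¹ * g * h⁻¹) h =
        ∑ h, v0 (g * h⁻¹) h + ∑ h, (c a).1 (g * h⁻¹) h := by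
      rw [← Finset.sum_add_distrib]
      refine Finset.sum_congr rfl fun h _ => ?_
      rw [mul_assoc]
      exact h1 a (g * h⁻¹) h
    rw [e2, e3]
    linarith
  have h3' : ∀ (a : Δ) g, b ((a : G) * g) = b g := by
    intro a g
    have := h3 a ((a : G) * g)
    rw [inv_mul_cancel_left] at this
    exact this.symm
  have h4 : ∑ g, b g = 0 := by
    rw [hb]
    exact H1Lam_sum_dv v0
  -- the sums over the fibers of `d` vanish
  have h5 : ∀ a : Δ, ∑ g, (if d g = a then b g else 0) = ∑ g, (if d g = 1 then b g else 0) := by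
    intro a
    apply Fintype.sum_equiv (Equiv.mulLeft (a : G)⁻¹)
    intro g
    rw [Equiv.coe_mulLeft, hinv, h3]
    refine if_congr ?_ rfl rfl
    rw [inv_mul_eq_one, eq_comm]
  have h6 : ∑ a : Δ, ∑ g, (if d g = a then b g else 0) = ∑ g, b g := by
    rw [Finset.sum_comm]
    refine Finset.sum_congr rfl fun g _ => ?_
    rw [Finset.sum_ite_eq]
    simp
  have h7 : ∑ g, (if d g = 1 then b g else 0) = 0 := by
    rw [Finset.sum_congr rfl fun a _ => h5 a, Finset.sum_const, h4, nsmul_eq_mul,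
      mul_eq_zero] at h6
    rcases h6 with h6 | h6
    · exfalso
      rw [Nat.cast_eq_zero, Finset.card_eq_zero] at h6
      exact Finset.notMem_empty (1 : Δ) (h6 ▸ Finset.mem_univ 1)
    · exact h6
  have h8 : ∀ x : G, ∑ g, (if x = (d g : G) then b g else 0) = 0 := by
    intro x
    by_cases hx : x ∈ Δ
    · have e1 : ∀ g, (if x = (d g : G) then b g else 0) =
          if d g = (⟨x, hx⟩ : Δ) then b g else 0 := by
        intro g
        refine if_congr ?_ rfl rfl
        rw [Subtype.ext_iff, eq_comm]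
      rw [Finset.sum_congr rfl fun g _ => e1 g, h5, h7]
    · refine Finset.sum_eq_zero fun g _ => if_neg ?_
      rintro rfl
      exact hx (d g).2
  -- the correction
  obtain ⟨v1, hv1⟩ : ∃ v1 : G → G → ℤ,
      v1 = fun x y => ∑ g, - b g * edge (d g : G) (r g) x y := ⟨_, rfl⟩
  have h9 : ∀ x, dv v1 x = b x := by
    intro x
    rw [hv1, H1Lam_dv_sum]
    have e1 : ∀ g, - b g * dv (edge (d g : G) (r g)) x =
        (if x = g then b g else 0) - (if x = (d g : G) then b g else 0) := by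
      intro g
      rw [dv_edge, hdr]
      split_ifs <;> ring
    rw [Finset.sum_congr rfl fun g _ => e1 g, Finset.sum_sub_distrib, h8, Finset.sum_ite_eq]
    simp
  have h10 : ∀ (a : Δ) x y, v1 ((a : G)⁻¹ * x) y = v1 x y := by
    intro a x y
    rw [hv1]
    show ∑ g, - b g * edge (d g : G) (r g) ((a : G)⁻¹ * x) y = ∑ g, - b g * edge (d g : G) (r g) x y
    apply Fintype.sum_equiv (Equiv.mulLeft (a : G))
    intro g
    rw [Equiv.coe_mulLeft, h3', hd, hr, smul_edge, Subgroup.coe_mul]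
  have h11 : ∀ x, v1 x 1 = 0 := by
    intro x
    rw [hv1]
    refine Finset.sum_eq_zero fun g _ => ?_
    rw [edge_one, mul_zero]
  have hmem : v0 - v1 ∈ Circ G := by
    rw [mem_Circ]
    refine ⟨fun g => ?_, fun g => ?_⟩
    · rw [Pi.sub_apply, Pi.sub_apply, h2, h11, sub_zero]
    · rw [dv_sub, h9, hb, sub_self]
  refine ⟨⟨v0 - v1, hmem⟩, fun a => ?_⟩
  apply Subtype.ext
  funext g h
  show (c a).1 g h = (v0 ((a : G)⁻¹ * g) h - v1 ((a : G)⁻¹ * g) h) - (v0 g h - v1 g h)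
  rw [h1, h10]
  ring

end Gen

/-- TASK. `H¹(Δ, Λ) = 0`.
Proof. Write `f a = (c a, n a)`, `c a ∈ Circ (GA p)`, `n a ∈ ℤ`. `Δ` acts trivially on the second
component, so `n : Δ → ℤ` is additive (`n (a b) = n a + n b`); `Δ` is finite, so `n = 0`.
Choose a set of representatives of the cosets `Δ g` in `GA p`: a function `r : GA p → GA p` with
`g (r g)⁻¹ ∈ Δ`, `r (a g) = r g` for `a ∈ Δ`, `r 1 = 1` (for instance use `Quotient.out` on
`GA p ⧸ Δ`, modified at the class of `1`). Write `g = d(g) r(g)`, `d(g) ∈ Δ`.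
Define `v0 : GA p → GA p → ℤ`, `v0 g h = - (c (d g)).1 g h`. From `c (a b) = c a + a • c b` one
gets for `a ∈ Δ`: `v0 (a⁻¹ g) h = v0 g h + (c a).1 g h` (put `b = a⁻¹ d(g)`, so
`c (d g) = c a + a • c b`). Also `v0 g 1 = 0`.
Let `b(g) = dv v0 g` (out minus in). As `dv (c a) = 0`, `b (a⁻¹ g) = b g` for `a ∈ Δ`. Moreover
`∑_g b(g) = 0` (every edge goes out of one and into one vertex). Define the correction
`v1 = - ∑_{g : r g ≠ 1} b(g) edge (d g) (r g)` (edge from `d g` to `d g * r g = g`, label `r g ≠ 1`).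
By `dv_edge`, `dv v1 = - ∑_{g: r g ≠ 1} b(g) ([d g] - [g])`, where `[g]` is the indicator of `g`.
For `a ∈ Δ` the value at `a` is `- ∑_{g : r g ≠ 1, d g = a} b(g) =
- ∑_{r ≠ 1} b(a r) = - ∑_{r ≠ 1} b(r)` (sum over the representatives) `= b(1) = b(a)`, because
`0 = ∑_g b(g) = |Δ| ∑_r b(r)`; for `g` not in `Δ` the value is `b(g)`.
So `dv v1 = b` (check the sign; if it comes out as `-b` drop the minus sign in `v1`), and
`v2 = v0 - v1` has `dv v2 = 0`, so `v2 ∈ Circ (GA p)` (`mem_Circ`). `v1` is `Δ`-invariant: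
`v1 (a⁻¹ g) h = v1 g h` (use `smul_edge`, `d (a g) = a d(g)`, `r (a g) = r g`, `b (a g) = b g`), so
still `v2 (a⁻¹ g) h = v2 g h + (c a).1 g h`, that is `a • v2 - v2 = c a`.
Finally put `v = (v2, - aB v2)`: `holZ v = 0`, so `v ∈ Λ` and `a • v - v = (c a, 0) = f a`. -/
theorem H1_Lam (Δ : Subgroup (GA p)) (f : Δ → Lam p)
    (hf : ∀ a b : Δ, f (a * b) = f a + (a : GA p) • f b) :
    ∃ v : Lam p, ∀ a : Δ, f a = (a : GA p) • v - v := by
  classical
  have hn : ∀ a b : Δ, (f (a * b)).1.2 = (f a).1.2 + (f b).1.2 := by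
    intro a b
    rw [hf]
    rfl
  have hn0 : ∀ a : Δ, (f a).1.2 = 0 := by
    intro a
    have h1 : (f 1).1.2 = 0 := by
      have := hn 1 1
      rw [mul_one] at this
      linarith
    have h2 : ∀ k : ℕ, (f (a ^ k)).1.2 = k * (f a).1.2 := by
      intro k
      induction k with
      | zero => rw [pow_zero, h1, Nat.cast_zero, zero_mul]
      | succ k ih =>
        rw [pow_succ, hn, ih]
        push_cast
        ring
    have h3 := h2 (Nat.card Δ)
    rw [pow_card_eq_one', h1] at h3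
    have h4 : (Nat.card Δ : ℤ) ≠ 0 := by exact_mod_cast Nat.card_pos.ne'
    rcases mul_eq_zero.1 h3.symm with h5 | h5
    · exact absurd h5 h4
    · exact h5
  obtain ⟨v2, hv2⟩ := H1Lam_circ Δ (fun a => (f a).1.1) (by
    intro a b
    show (f (a * b)).1.1 = (f a).1.1 + (a : GA p) • (f b).1.1
    rw [hf]
    rfl)
  refine ⟨⟨(v2, - aB p v2), ?_⟩, fun a => ?_⟩
  · rw [mem_Lam, holZ_apply]
    simp
  · apply Subtype.ext
    apply Prod.ext
    · show (f a).1.1 = (a : GA p) • v2 - v2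
      exact hv2 a
    · show (f a).1.2 = - aB p v2 - - aB p v2
      rw [hn0, sub_self]

end OddGp
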