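import Mathlib

/-!
# Equivariant homomorphisms from the multiplicative monoid of a UFD
-/

namespace OddGp

/-- TASK. `H¹` of a permutation module with coefficients in `M`, in elementary form.
Proof. Choose a representative `P0` of every orbit. For the stabilizer `Δ` of `P0`,
`f g = e g P0` satisfies `f (g h) = f g + g • f h` (`h P0 = P0`), so by `hH` there is `v` with
`e g P0 = g • v - v` for `g ∈ Δ`; put `w P0 = v`. For `P = g P0` put `w P = g • w P0 - e g P0`; this
does not depend on `g`: `(g s) • v - e (g s) P0 = g • (s • v) - e g P0 - g • e s P0 =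
g • v - e g P0` for `s ∈ Δ` (`he`). Then for `P = g P0`:
`w (h P) = (h g) • v - e (h g) P0 = h • (g • v - e g P0) - e h P = h • w P - e h P`. -/
theorem perm_H1 {Γ P M : Type} [Group Γ] [MulAction Γ P] [AddCommGroup M] [DistribMulAction Γ M]
    (hH : ∀ (Δ : Subgroup Γ) (f : Δ → M), (∀ a b, f (a * b) = f a + (a : Γ) • f b) →
      ∃ v, ∀ a : Δ, f a = (a : Γ) • v - v)
    (e : Γ → P → M) (he : ∀ g h x, e (g * h) x = e g (h • x) + g • e h x) :
    ∃ w : P → M, ∀ g x, w (g • x) = g • w x - e g x := by
  classical
  have hv : ∀ y : P, ∃ v : M, ∀ a : Γ, a • y = y → e a y = a • v - v := by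
    intro y
    obtain ⟨v, hv⟩ := hH (MulAction.stabilizer Γ y) (fun a => e (a : Γ) y) (by
      intro a b
      have hb : (b : Γ) • y = y := b.2
      show e ((a : Γ) * (b : Γ)) y = _
      rw [he, hb])
    exact ⟨v, fun a ha => hv ⟨a, ha⟩⟩
  choose v hv using hv
  let rep : P → P := fun x => Quotient.out (Quotient.mk (MulAction.orbitRel Γ P) x)
  have hrep : ∀ x, ∃ t : Γ, t • rep x = x := by
    intro x
    have h : (MulAction.orbitRel Γ P).r (rep x) x := Quotient.exact (Quotient.out_eq _)
    obtain ⟨g, hg⟩ := h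
    have hg' : g • x = rep x := hg
    exact ⟨g⁻¹, by rw [← hg', inv_smul_smul]⟩
  have hrepg : ∀ (g : Γ) x, rep (g • x) = rep x := by
    intro g x
    have : Quotient.mk (MulAction.orbitRel Γ P) (g • x) = Quotient.mk _ x :=
      Quotient.sound ⟨g, rfl⟩
    simp only [rep, this]
  choose t ht using hrep
  have key : ∀ (a b : Γ) (r : P), a • r = b • r → a • v r - e a r = b • v r - e b r := by
    intro a b r hab
    have hs : (b⁻¹ * a) • r = r := by rw [mul_smul, hab, inv_smul_smul]
    have h1 := hv r _ hs
    have h2 : e a r = e b r + b • e (b⁻¹ * a) r := by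
      have h := he b (b⁻¹ * a) r
      rw [hs, mul_inv_cancel_left] at h
      exact h
    rw [h2, h1, smul_sub, ← mul_smul, mul_inv_cancel_left]
    abel
  refine ⟨fun x => t x • v (rep x) - e (t x) (rep x), fun g x => ?_⟩
  have h3 : t (g • x) • rep x = (g * t x) • rep x := by
    have h4 := ht (g • x)
    rw [hrepg] at h4
    rw [mul_smul, ht x, h4]
  show t (g • x) • v (rep (g • x)) - e (t (g • x)) (rep (g • x)) = _
  rw [hrepg, key _ _ _ h3, he, ht x, smul_sub, mul_smul]
  abel

/-- TASK. Extension of an equivariant map from the units of a UFD to all nonzero elements.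
Proof. Let `P` be the set of irreducible elements of `Associates R` with the action of `Γ` (an
automorphism of `R` induces one of `Associates R`). For `x ∈ P` choose a representative `r x ∈ R`.
`g • r x = ε(g,x) * r (g x)` with `ε(g,x)` a unit. `ε(g h, x) r(ghx) = g • (ε(h,x) r(hx)) =
(g • ε(h,x)) ε(g,hx) r(ghx)`. Put `e g x = pr (ε(g,x))`: `e (g h) x = e g (h x) + g • e h x`.
By `perm_H1` there is `w : P → M` with `w (g x) = g • w x - e g x`. Define, for `a ≠ 0`,
`Π a = pr u + ∑ w x` where `a = u ∏ r x`, `u` a unit, the product and the sum over the multiset of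
prime factors of `a` in `Associates R` (`UniqueFactorizationMonoid`, `Associates.factors`; one may
instead use `normalizedFactors` and the set of normalized primes). Additivity is clear, and
equivariance: `g • a = (g • u) ∏ (g • r x) = (g • u) ∏ ε(g,x) r(g x)`, so
`Π (g a) = g • pr u + ∑ (e g x + w (g x)) = g • pr u + ∑ g • w x = g • Π a`. -/
theorem exists_proj {R M Γ : Type} [CommRing R] [IsDomain R] [UniqueFactorizationMonoid R]
    [Group Γ] [MulSemiringAction Γ R] [AddCommGroup M] [DistribMulAction Γ M] (pr : R → M)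
    (h1 : ∀ u v, IsUnit u → IsUnit v → pr (u * v) = pr u + pr v)
    (h2 : ∀ (g : Γ) u, IsUnit u → pr (g • u) = g • pr u)
    (hH : ∀ (Δ : Subgroup Γ) (f : Δ → M), (∀ a b, f (a * b) = f a + (a : Γ) • f b) →
      ∃ v, ∀ a : Δ, f a = (a : Γ) • v - v) :
    ∃ Pi : R → M, (∀ a b, a ≠ 0 → b ≠ 0 → Pi (a * b) = Pi a + Pi b) ∧
      (∀ (g : Γ) a, a ≠ 0 → Pi (g • a) = g • Pi a) ∧ ∀ u, IsUnit u → Pi u = pr u := by
  classical
  let _ : StrongNormalizationMonoid R := UniqueFactorizationMonoid.strongNormalizationMonoid
  have hpr1 : pr 1 = 0 := by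
    have h := h1 1 1 isUnit_one isUnit_one
    rw [mul_one] at h
    exact left_eq_add.mp h
  have hirr : ∀ (g : Γ) (a : R), Irreducible a → Irreducible (g • a) := by
    intro g a ha
    exact (MulEquiv.irreducible_iff (MulSemiringAction.toRingEquiv Γ R g)).mpr ha
  have hne : ∀ (g : Γ) (a : R), a ≠ 0 → g • a ≠ 0 := by
    intro g a ha h
    apply ha
    have h5 := congrArg (fun z => g⁻¹ • z) h
    simpa using h5
  have hun : ∀ (g : Γ) (a : R), IsUnit a → IsUnit (g • a) := by
    intro g a ha
    exact ha.map (MulSemiringAction.toRingHom Γ R g)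
  let N : R → R := fun a => (((normUnit a)⁻¹ : Rˣ) : R)
  have hNu : ∀ a, IsUnit (N a) := fun a => Units.isUnit _
  have hN : ∀ a : R, a = normalize a * N a := by
    intro a
    show a = a * (normUnit a : R) * (((normUnit a)⁻¹ : Rˣ) : R)
    rw [mul_assoc, Units.mul_inv, mul_one]
  have hNmul : ∀ a b : R, a ≠ 0 → b ≠ 0 → N (a * b) = N a * N b := by
    intro a b ha hb
    show (((normUnit (a * b))⁻¹ : Rˣ) : R) = _
    rw [normUnit_mul ha hb, mul_inv, Units.val_mul]
  have hNunit : ∀ u : R, IsUnit u → N u = u := by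
    rintro _ ⟨u, rfl⟩
    show (((normUnit (u : R))⁻¹ : Rˣ) : R) = _
    rw [normUnit_coe_units, inv_inv]
  have hassoc : ∀ (g : Γ) (a b : R), Associated a b → Associated (g • a) (g • b) := by
    rintro g a b ⟨u, rfl⟩
    rw [smul_mul']
    exact (associated_mul_unit_left _ _ (hun g _ u.isUnit)).symm
  let P : Type := {p : R // Irreducible p ∧ normalize p = p}
  let act : MulAction Γ P :=
    { smul := fun g p => ⟨normalize (g • p.1),
        (associated_normalize _).irreducible (hirr g _ p.2.1), normalize_idem _⟩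
      one_smul := fun p => Subtype.ext (by
        show normalize ((1 : Γ) • p.1) = p.1
        rw [one_smul, p.2.2])
      mul_smul := fun g h p => Subtype.ext (by
        show normalize ((g * h) • p.1) = normalize (g • normalize (h • p.1))
        rw [mul_smul]
        exact normalize_eq_normalize_iff_associated.mpr
          (hassoc g _ _ (associated_normalize _))) }
  have hact : ∀ (g : Γ) (p : P), (g • p).1 = normalize (g • p.1) := fun g p => rfl
  obtain ⟨w, hw⟩ := perm_H1 (P := P) hH (fun g p => pr (N (g • p.1))) (by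
    intro g h x
    have hx0 : x.1 ≠ 0 := x.2.1.ne_zero
    have hz : normalize (h • x.1) ≠ 0 := by
      rw [Ne, normalize_eq_zero]
      exact hne h _ hx0
    have h6 : (g * h) • x.1 = (g • normalize (h • x.1)) * (g • N (h • x.1)) := by
      rw [← smul_mul', ← hN, mul_smul]
    show pr (N ((g * h) • x.1)) = pr (N (g • normalize (h • x.1))) + g • pr (N (h • x.1))
    rw [h6, hNmul _ _ (hne g _ hz) (hun g _ (hNu _)).ne_zero,
      hNunit _ (hun g _ (hNu _)), h1 _ _ (hNu _) (hun g _ (hNu _)), h2 _ _ (hNu _)])
  let W : R → M := fun p => if h : Irreducible p ∧ normalize p = p then w ⟨p, h⟩ else 0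
  have hW : ∀ p : P, W p.1 = w p := fun p => dif_pos p.2
  let F : R → M := fun a =>
    pr (N a) + ((UniqueFactorizationMonoid.normalizedFactors a).map W).sum
  have hFmul : ∀ a b, a ≠ 0 → b ≠ 0 → F (a * b) = F a + F b := by
    intro a b ha hb
    show pr (N (a * b)) + ((UniqueFactorizationMonoid.normalizedFactors (a * b)).map W).sum = _
    rw [UniqueFactorizationMonoid.normalizedFactors_mul ha hb, hNmul _ _ ha hb,
      h1 _ _ (hNu _) (hNu _), Multiset.map_add, Multiset.sum_add]
    show _ = (pr (N a) + ((UniqueFactorizationMonoid.normalizedFactors a).map W).sum) +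
      (pr (N b) + ((UniqueFactorizationMonoid.normalizedFactors b).map W).sum)
    abel
  have hFunit : ∀ u, IsUnit u → F u = pr u := by
    intro u hu
    show pr (N u) + ((UniqueFactorizationMonoid.normalizedFactors u).map W).sum = _
    rw [UniqueFactorizationMonoid.normalizedFactors_of_isUnit hu, hNunit u hu]
    simp
  have hFirr : ∀ p, Irreducible p → F p = pr (N p) + W (normalize p) := by
    intro p hp
    show pr (N p) + ((UniqueFactorizationMonoid.normalizedFactors p).map W).sum = _
    rw [UniqueFactorizationMonoid.normalizedFactors_irreducible hp]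
    simp
  have hNone : ∀ p : P, N p.1 = 1 := by
    intro p
    have h7 := hN p.1
    rw [p.2.2] at h7
    exact (mul_right_eq_self₀.mp h7.symm).resolve_right p.2.1.ne_zero
  have hFP : ∀ p : P, F p.1 = w p := by
    intro p
    rw [hFirr _ p.2.1, hNone, hpr1, zero_add, p.2.2, hW]
  have hFgP : ∀ (g : Γ) (p : P), F (g • p.1) = g • F p.1 := by
    intro g p
    rw [hFP, hFirr _ (hirr g _ p.2.1), ← hact, hW, hw]
    abel
  refine ⟨F, hFmul, ?_, hFunit⟩
  intro g a
  induction a using WfDvdMonoid.induction_on_irreducible with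
  | zero => intro h; exact absurd rfl h
  | unit u hu =>
    intro _
    rw [hFunit _ (hun g _ hu), hFunit _ hu, h2 _ _ hu]
  | mul a i ha hi ih =>
    intro _
    have hi0 : i ≠ 0 := hi.ne_zero
    have hin : F (g • i) = g • F i := by
      have hz : normalize i ≠ 0 := by
        rw [Ne, normalize_eq_zero]
        exact hi0
      have h8 : F (g • (normalize i * N i)) = g • F (normalize i * N i) := by
        rw [smul_mul', hFmul _ _ (hne g _ hz) (hun g _ (hNu _)).ne_zero,
          hFmul _ _ hz (hNu _).ne_zero, smul_add, hFunit _ (hun g _ (hNu _)),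
          hFunit _ (hNu _), h2 _ _ (hNu _)]
        congr 1
        exact hFgP g ⟨normalize i, (associated_normalize _).irreducible hi, normalize_idem _⟩
      rwa [← hN] at h8
    rw [smul_mul', hFmul _ _ (hne g _ hi0) (hne g _ ha), hFmul _ _ hi0 ha, smul_add, hin, ih ha]

end OddGp
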