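import Mathlib
import Pool.Agent.W_MP_bec7e1_h80.Mon

/-!
# Laurent polynomial rings in several variables are UFDs; their units
-/

namespace OddGp

section ufd

variable (C ι : Type) [Field C]

/-- the inclusion of exponents -/
noncomputable def ufdExp (ι : Type) : (ι →₀ ℕ) →+ (ι →₀ ℤ) :=
  Finsupp.mapRange.addMonoidHom (Nat.castAddMonoidHom ℤ)

theorem ufdExp_apply (n : ι →₀ ℕ) (i : ι) : ufdExp ι n i = (n i : ℤ) := rfl

theorem ufdExp_injective : Function.Injective (ufdExp ι) := by
  intro n m h
  ext i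
  have h1 := DFunLike.congr_fun h i
  rw [ufdExp_apply, ufdExp_apply] at h1
  exact_mod_cast h1

/-- polynomials as Laurent polynomials -/
noncomputable def ufdHom : MvPolynomial ι C →+* AddMonoidAlgebra C (ι →₀ ℤ) :=
  AddMonoidAlgebra.mapDomainRingHom C (ufdExp ι)

theorem ufdHom_single (n : ι →₀ ℕ) (c : C) :
    ufdHom C ι (AddMonoidAlgebra.single n c) = AddMonoidAlgebra.single (ufdExp ι n) c :=
  AddMonoidAlgebra.mapDomain_single

theorem ufdHom_injective : Function.Injective (ufdHom C ι) :=
  AddMonoidAlgebra.mapDomain_injective (ufdExp_injective ι)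

/-- the monomials -/
def ufdMon : Submonoid (MvPolynomial ι C) where
  carrier := {x | ∃ n : ι →₀ ℕ, x = AddMonoidAlgebra.single n 1}
  one_mem' := ⟨0, rfl⟩
  mul_mem' := by
    rintro _ _ ⟨n, rfl⟩ ⟨m, rfl⟩
    exact ⟨n + m, by rw [AddMonoidAlgebra.single_mul_single, one_mul]⟩

theorem ufd_surj (z : AddMonoidAlgebra C (ι →₀ ℤ)) :
    ∃ (x : MvPolynomial ι C) (s : MvPolynomial ι C), s ∈ ufdMon C ι ∧
      z * ufdHom C ι s = ufdHom C ι x := by
  induction z using AddMonoidAlgebra.induction_linear with
  | zero => exact ⟨0, 1, (ufdMon C ι).one_mem, by simp⟩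
  | add f g hf hg =>
    obtain ⟨x, s, hs, h1⟩ := hf
    obtain ⟨y, t, ht, h2⟩ := hg
    refine ⟨x * t + y * s, s * t, (ufdMon C ι).mul_mem hs ht, ?_⟩
    rw [map_add, map_mul, map_mul, map_mul, ← h1, ← h2]
    ring
  | single a c =>
    classical
    let n : ι →₀ ℕ := a.mapRange (fun k : ℤ => (-k).toNat) (by simp)
    let m : ι →₀ ℕ := a.mapRange (fun k : ℤ => k.toNat) (by simp)
    refine ⟨AddMonoidAlgebra.single m c, AddMonoidAlgebra.single n 1, ⟨n, rfl⟩, ?_⟩
    rw [ufdHom_single, ufdHom_single, AddMonoidAlgebra.single_mul_single, mul_one]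
    congr 1
    ext i
    rw [Finsupp.add_apply, ufdExp_apply, ufdExp_apply]
    simp only [n, m, Finsupp.mapRange_apply]
    omega

theorem ufd_laurent : UniqueFactorizationMonoid (AddMonoidAlgebra C (ι →₀ ℤ)) := by
  let _ : Algebra (MvPolynomial ι C) (AddMonoidAlgebra C (ι →₀ ℤ)) := (ufdHom C ι).toAlgebra
  have hloc : IsLocalization (ufdMon C ι) (AddMonoidAlgebra C (ι →₀ ℤ)) := by
    rw [isLocalization_iff]
    refine ⟨?_, ?_, ?_⟩
    · rintro ⟨_, n, rfl⟩
      change IsUnit (ufdHom C ι (AddMonoidAlgebra.single n 1))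
      rw [ufdHom_single]
      refine IsUnit.of_mul_eq_one (AddMonoidAlgebra.single (-ufdExp ι n) 1) ?_
      rw [AddMonoidAlgebra.single_mul_single, add_neg_cancel, one_mul, AddMonoidAlgebra.one_def]
    · intro z
      obtain ⟨x, s, hs, h⟩ := ufd_surj C ι z
      exact ⟨(x, ⟨s, hs⟩), h⟩
    · intro x y hxy
      exact ⟨1, by rw [ufdHom_injective C ι hxy]⟩
  exact UniqueFactorizationMonoid.of_isLocalization (ufdMon C ι) _

end ufd

/-- TASK. Laurent polynomials over a field form a UFD.
Proof: choose a basis `A ≃+ (ι →₀ ℤ)`, `ι` finite. `C[ι →₀ ℤ]` is the localization of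
`MvPolynomial ι C = C[ι →₀ ℕ]` at the submonoid of the monomials `X^n` (every Laurent polynomial
times a monomial is a polynomial), and a localization of a UFD is a UFD
(`UniqueFactorizationMonoid.of_isLocalization`); transport along `AddMonoidAlgebra.mapDomain`
equivalences. -/
theorem ufd_MA (C A : Type) [Field C] [AddCommGroup A] [Module.Free ℤ A] [Module.Finite ℤ A] :
    UniqueFactorizationMonoid (MA C A) := by
  have e : A ≃ₗ[ℤ] (Module.Free.ChooseBasisIndex ℤ A →₀ ℤ) := (Module.Free.chooseBasis ℤ A).repr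
  have h := ufd_laurent C (Module.Free.ChooseBasisIndex ℤ A)
  exact (AddMonoidAlgebra.mapDomainRingEquiv C e.toAddEquiv).symm.toMulEquiv.uniqueFactorizationMonoid h

/-- TASK. The units are the monomials.
Proof: let `f g = 1`. If the support of `f` or of `g` has more than one element, then by
`TwoUniqueSums` there are two different pairs with unique sums in `supp f × supp g`, which give two
different elements of the support of `f g = 1`, contradiction. So `f` is a monomial. -/
theorem unit_MA {C A : Type} [Field C] [AddCommGroup A] [TwoUniqueSums A] (f : MA C A)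
    (hf : IsUnit f) : ∃ (c : C) (a : A), c ≠ 0 ∧ f = AddMonoidAlgebra.single a c := by
  classical
  obtain ⟨g, hg⟩ := hf.exists_right_inv
  have hf0 : f ≠ 0 := hf.ne_zero
  have hg0 : g ≠ 0 := by
    rintro rfl
    rw [mul_zero] at hg
    exact zero_ne_one hg
  have hfs : f.coeff.support.Nonempty := by
    rw [Finsupp.support_nonempty_iff]
    intro h
    exact hf0 (by ext a; rw [h]; rfl)
  have hgs : g.coeff.support.Nonempty := by
    rw [Finsupp.support_nonempty_iff]
    intro h
    exact hg0 (by ext a; rw [h]; rfl)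
  have key : ∀ a ∈ f.coeff.support, ∀ b ∈ g.coeff.support,
      UniqueAdd f.coeff.support g.coeff.support a b → a + b = 0 := by
    intro a ha b hb hu
    by_contra hne
    have h1 := AddMonoidAlgebra.coeff_mul_add_of_uniqueAdd hu
    rw [hg, AddMonoidAlgebra.one_def, AddMonoidAlgebra.coeff_single, Finsupp.single_apply,
      if_neg (fun h => hne h.symm)] at h1
    exact mul_ne_zero (Finsupp.mem_support_iff.1 ha) (Finsupp.mem_support_iff.1 hb) h1.symm
  have hcard : ¬ 1 < f.coeff.support.card * g.coeff.support.card := by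
    intro h
    obtain ⟨p1, hp1, p2, hp2, hne, hu1, hu2⟩ := TwoUniqueSums.uniqueAdd_of_one_lt_card h
    rw [Finset.mem_product] at hp1 hp2
    have e1 := key _ hp1.1 _ hp1.2 hu1
    have e2 := key _ hp2.1 _ hp2.2 hu2
    obtain ⟨e3, e4⟩ := hu1 hp2.1 hp2.2 (e2.trans e1.symm)
    exact hne (Prod.ext e3.symm e4.symm)
  have hf1 : 0 < f.coeff.support.card := Finset.card_pos.2 hfs
  have hg1 : 0 < g.coeff.support.card := Finset.card_pos.2 hgs
  have hcf : f.coeff.support.card = 1 := by nlinarith
  obtain ⟨a, ha⟩ := Finset.card_eq_one.1 hcf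
  refine ⟨f.coeff a, a, ?_, ?_⟩
  · rw [← Finsupp.mem_support_iff, ha]
    exact Finset.mem_singleton_self a
  · ext b
    rw [AddMonoidAlgebra.coeff_single, Finsupp.single_apply]
    by_cases h : a = b
    · rw [if_pos h, h]
    · rw [if_neg h]
      by_contra h2
      have h3 := Finsupp.mem_support_iff.2 h2
      rw [ha, Finset.mem_singleton] at h3
      exact h h3.symm

end OddGp
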