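import Mathlib
import Pool.Agent.W_MP_bec7e1_h80.Conc
import Pool.Agent.W_MP_bec7e1_h80.Proj
import Pool.Agent.W_MP_bec7e1_h80.UFD
import Pool.Agent.W_MP_bec7e1_h80.H1Lam

/-!
# The equivariant projection `L* → Λ`
-/

namespace OddGp

open Finset

noncomputable section

variable {C : Type} [Field C] {p : ℕ} [Fact p.Prime] (η : Cˣ)

theorem piC_fin_sub {A : Type} [AddCommGroup A] [Module.Finite ℤ A] (B : AddSubgroup A) :
    Module.Finite ℤ B :=
  Module.Finite.of_injective B.subtype.toIntLinearMap Subtype.val_injective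

theorem piC_tf_sub {A : Type} [AddCommGroup A] [Module.IsTorsionFree ℤ A] (B : AddSubgroup A) :
    Module.IsTorsionFree ℤ B :=
  Function.Injective.moduleIsTorsionFree (B.subtype) Subtype.val_injective
    (fun n b => map_zsmul B.subtype n b)

/-- TASK. The lattice is finitely generated and free over `ℤ` (submodules of finite free
`ℤ`-modules: `AddSubgroup.toIntSubmodule`, `Module.Free` for torsion-free finitely generated
modules over a PID, `Module.Finite` for submodules of Noetherian modules). -/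
theorem LL_free : Module.Free ℤ (LL p) ∧ Module.Finite ℤ (LL p) := by
  have h1 : Module.Finite ℤ (AZ p) := piC_fin_sub _
  have h2 : Module.Finite ℤ (Circ (GA p)) := piC_fin_sub _
  have h3 : Module.Finite ℤ (Lam p) := piC_fin_sub _
  have h4 : Module.Finite ℤ (LL p) := inferInstance
  have h5 : Module.IsTorsionFree ℤ (AZ p) := piC_tf_sub _
  have h6 : Module.IsTorsionFree ℤ (Circ (GA p)) := piC_tf_sub _
  have h7 : Module.IsTorsionFree ℤ (Lam p) := piC_tf_sub _
  have h8 : Module.IsTorsionFree ℤ (LL p) := inferInstance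
  exact ⟨inferInstance, h4⟩

/-- iterates of the shift -/
def shN (p : ℕ) [Fact p.Prime] : ℕ → (AZ p →+ AZ p)
  | 0 => AddMonoidHom.id _
  | n + 1 => (shA p).comp (shN p n)

theorem shN_val (n : ℕ) (a : AZ p) (s : ZMod p) : (shN p n a).1 s = a.1 (s - n) := by
  induction n generalizing s with
  | zero => simp [shN]
  | succ n ih =>
    change (shN p n a).1 (s - 1) = _
    rw [ih, Nat.cast_succ, sub_sub, add_comm (1 : ZMod p)]

theorem shN_zval (j : ZMod p) (a : AZ p) (s : ZMod p) : (shN p j.val a).1 s = a.1 (s - j) := by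
  rw [shN_val, ZMod.natCast_zmod_val]

theorem shN_add (i j : ZMod p) (a : AZ p) :
    shN p (i + j).val a = shN p i.val (shN p j.val a) := by
  apply Subtype.ext
  funext s
  rw [shN_zval, shN_zval, shN_zval, sub_add_eq_sub_sub]

theorem mom_shN (j : ZMod p) (a : AZ p) : (p : ℤ) ∣ mom p (shN p j.val a) - mom p a := by
  rw [← ZMod.intCast_zmod_eq_zero_iff_dvd]
  have h0 : ∑ s, a.1 s = 0 := a.2
  have h0' : ∑ s, ((a.1 s : ℤ) : ZMod p) = 0 := by
    rw [← Int.cast_sum, h0, Int.cast_zero]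
  have key : ∀ b : AZ p, ((mom p b : ℤ) : ZMod p) = ∑ s : ZMod p, s * ((b.1 s : ℤ) : ZMod p) := by
    intro b
    change ((∑ s : ZMod p, (s.val : ℤ) * b.1 s : ℤ) : ZMod p) = _
    rw [Int.cast_sum]
    apply Finset.sum_congr rfl
    intro s _
    rw [Int.cast_mul, Int.cast_natCast, ZMod.natCast_zmod_val]
  rw [Int.cast_sub, key, key]
  have h1 : ∑ s : ZMod p, s * (((shN p j.val a).1 s : ℤ) : ZMod p) =
      ∑ s : ZMod p, (s + j) * ((a.1 s : ℤ) : ZMod p) := by
    apply Fintype.sum_equiv (Equiv.subRight j)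
    intro s
    rw [shN_zval]
    simp
  rw [h1]
  simp only [add_mul, Finset.sum_add_distrib, ← Finset.mul_sum, h0', mul_zero, add_zero, sub_self]

omit [Fact p.Prime] in
theorem piC_zpow_congr {η : Cˣ} (hη : (η : C) ^ (p ^ 2) = 1) {m n : ℤ}
    (h : ((p : ℤ) ^ 2) ∣ m - n) : η ^ m = η ^ n := by
  obtain ⟨k, hk⟩ := h
  have h1 : η ^ (p ^ 2) = 1 := by
    apply Units.ext
    rw [Units.val_pow_eq_pow_val, hη, Units.val_one]
  have h2 : m = n + ((p ^ 2 : ℕ) : ℤ) * k := by
    push_cast
    linarith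
  rw [h2, zpow_add, zpow_mul, zpow_natCast, h1, one_zpow, mul_one]

/-- The action of `g = x^i y^j` on Laurent polynomials: `T^{(a0, l)} ↦
η^{-p i mom(a0)} T^{(shA^j a0, g l)}`. -/
def actR (g : GA p) : MA C (LL p) →+* MA C (LL p) :=
  mAlg (AddMonoidHom.prodMap (shN p g.j.val) (actL g))
    (zchar η (-(((p : ℤ) * g.i.val) • (mom p).comp (AddMonoidHom.fst _ _))))

theorem actR_single (g : GA p) (a : LL p) (c : C) :
    actR η g (AddMonoidAlgebra.single a c) = AddMonoidAlgebra.single
      ((shN p g.j.val a.1, g • a.2) : LL p)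
      (c * ((η ^ (-(((p : ℤ) * g.i.val) * mom p a.1)) : Cˣ) : C)) := by
  rw [actR, mAlg_single, zchar_ofAdd]
  rfl

/-- TASK. This defines an action of `GA p` (`η^{p^2} = 1`).
Proof: on monomials: `shA^p = 1`, and `mom (shA^j a) = mom a` modulo `p` (see `XY_comm` in
`ConcXY`: in `ZMod p`, `∑ s a(s-1) = ∑ (s+1) a(s)`, `∑ a = 0`). -/
theorem actR_mul (hη : (η : C) ^ (p ^ 2) = 1) (g h : GA p) (f : MA C (LL p)) :
    actR η (g * h) f = actR η g (actR η h f) := by
  have h1 : actR (C := C) η (g * h) = (actR η g).comp (actR η h) := by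
    apply MA_hom_ext
    intro a c
    rw [RingHom.comp_apply, actR_single, actR_single, actR_single]
    congr 1
    · apply Prod.ext
      · exact shN_add g.j h.j a.1
      · exact mul_smul g h a.2
    · rw [mul_assoc c, ← Units.val_mul, ← zpow_add]
      congr 2
      apply piC_zpow_congr hη
      obtain ⟨k, hk⟩ := mom_shN h.j a.1
      have h2 := cy_add_val g.i h.i
      have h3 : ((g * h).i.val : ℤ) = g.i.val + h.i.val - p * cy g.i h.i := by
        rw [GA.mul_i]
        have h4 : ((p * cy g.i h.i + (g.i + h.i).val : ℕ) : ℤ) = ((g.i.val + h.i.val : ℕ) : ℤ) := by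
          rw [h2]
        push_cast at h4
        linarith
      have h5 : mom p (shN p h.j.val a.1) = mom p a.1 + p * k := by linarith
      change (p : ℤ) ^ 2 ∣ -(((p : ℤ) * (g * h).i.val) * mom p a.1) -
        (-(((p : ℤ) * h.i.val) * mom p a.1) +
          -(((p : ℤ) * g.i.val) * mom p (shN p h.j.val a.1)))
      rw [h3, h5]
      exact ⟨cy g.i h.i * mom p a.1 + g.i.val * k, by ring⟩
  rw [h1, RingHom.comp_apply]

/-- TASK. -/
theorem actR_one (f : MA C (LL p)) : actR (C := C) (p := p) η 1 f = f := by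
  have h1 : actR (C := C) (p := p) η 1 = RingHom.id _ := by
    apply MA_hom_ext
    intro a c
    rw [actR_single, RingHom.id_apply]
    have h2 : (1 : GA p).i.val = 0 := ZMod.val_zero
    have h3 : (1 : GA p).j.val = 0 := ZMod.val_zero
    rw [h2, h3]
    congr 1
    · apply Prod.ext
      · rfl
      · exact one_smul _ _
    · simp
  rw [h1, RingHom.id_apply]

/-- the action as a `MulSemiringAction` -/
@[reducible] def actRInst (hη : (η : C) ^ (p ^ 2) = 1) : MulSemiringAction (GA p) (MA C (LL p)) where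
  smul g f := actR η g f
  one_smul f := actR_one η f
  mul_smul g h f := actR_mul η hη g h f
  smul_zero g := map_zero (actR η g)
  smul_add g := map_add (actR η g)
  smul_one g := map_one (actR η g)
  smul_mul g := map_mul (actR η g)

/-- the exponent of a monomial -/
def prM (f : MA C (LL p)) : Lam p := (∑ a ∈ f.coeff.support, a).2

theorem prM_single (a : LL p) {c : C} (hc : c ≠ 0) :
    prM (AddMonoidAlgebra.single a c : MA C (LL p)) = a.2 := by
  rw [prM, AddMonoidAlgebra.coeff_single, Finsupp.support_single _ hc,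
    Finset.sum_singleton]

theorem piC_XC_algebraMap (f : MA C (LL p)) :
    XC p η 0 (algebraMap (MA C (LL p)) (fL C p) f) =
      algebraMap (MA C (LL p)) (fL C p) (actR η GA.x f) := by
  rw [XC, zHom, mHom_algebraMap]
  congr 1
  have h1 : mAlg (sgX p) (zchar η (eX p 0)) = actR (C := C) η (GA.x : GA p) := by
    apply MA_hom_ext
    intro a c
    rw [mAlg_single, actR_single, zchar_ofAdd, sgX_apply, eX_apply]
    have h2 : (GA.x : GA p).i.val = 1 := by
      have : Fact (1 < p) := ⟨(Fact.out : p.Prime).one_lt⟩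
      exact ZMod.val_one p
    have h3 : (GA.x : GA p).j.val = 0 := ZMod.val_zero
    rw [h2, h3]
    congr 1
    simp
  exact congrArg (fun F : MA C (LL p) →+* MA C (LL p) => F f) h1

theorem piC_YC_algebraMap (f : MA C (LL p)) :
    YC p η 0 (algebraMap (MA C (LL p)) (fL C p) f) =
      algebraMap (MA C (LL p)) (fL C p) (actR η GA.y f) := by
  rw [YC, zHom, mHom_algebraMap]
  congr 1
  have h1 : mAlg (sgY p 0) (zchar η (eY p 0)) = actR (C := C) η (GA.y : GA p) := by
    apply MA_hom_ext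
    intro a c
    rw [mAlg_single, actR_single, zchar_ofAdd, sgY_apply, eY_apply]
    have h2 : (GA.y : GA p).j.val = 1 := by
      have : Fact (1 < p) := ⟨(Fact.out : p.Prime).one_lt⟩
      exact ZMod.val_one p
    have h3 : (GA.y : GA p).i.val = 0 := ZMod.val_zero
    rw [h2, h3]
    congr 1
    · apply Prod.ext
      · change shA p a.1 - (0 * vL p a.2) • dlt 1 = shA p a.1
        simp
      · rfl
    · simp
  exact congrArg (fun F : MA C (LL p) →+* MA C (LL p) => F f) h1

/-- TASK. The equivariant projection.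
Proof. `exists_proj` for `R = C[LL]` (`ufd_MA`, `LL_free`; domain), `Γ = GA p` acting by `actR`
(construct the `MulSemiringAction` from `actR_one`, `actR_mul`), `M = Λ`,
`pr f = (∑ a ∈ f.coeff.support, a).2`: for a unit `f = single a c` (`unit_MA`), `pr f = a.2`, which
gives `h1`, `h2`; `hH = H1_Lam`. It gives `Pi0 : R → Λ`. Every `a ∈ L`, `a ≠ 0` is a quotient
`r / s` of nonzero elements of `R`; put `Pi a = Pi0 r - Pi0 s` (well defined by additivity).
Additivity, and equivariance: `XC p η 0 (r / s) = actR x r / actR x s`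
(`mHom_algebraMap`; `XC p η 0 = zHom η sgX (eX p 0)` and `actR x` is `mAlg` of `sgX` with exponent
`- p mom`, the same map on monomials), similarly `YC p η 0`, `actR y`. -/
theorem exists_Pi (hη : (η : C) ^ (p ^ 2) = 1) : ∃ Pi : fL C p → Lam p,
    (∀ a b, a ≠ 0 → b ≠ 0 → Pi (a * b) = Pi a + Pi b) ∧
    (∀ a, a ≠ 0 → Pi (XC p η 0 a) = (GA.x : GA p) • Pi a) ∧
    (∀ a, a ≠ 0 → Pi (YC p η 0 a) = (GA.y : GA p) • Pi a) ∧
    (∀ (c : C) (a : LL p), c ≠ 0 → Pi (mon c a) = a.2) := by
  let iact : MulSemiringAction (GA p) (MA C (LL p)) := actRInst η hη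
  have hF : Module.Free ℤ (LL p) := LL_free.1
  have hFi : Module.Finite ℤ (LL p) := LL_free.2
  have hU : UniqueFactorizationMonoid (MA C (LL p)) := ufd_MA C (LL p)
  have hact : ∀ (g : GA p) (f : MA C (LL p)), g • f = actR η g f := fun g f => rfl
  have h1 : ∀ u v : MA C (LL p), IsUnit u → IsUnit v → prM (u * v) = prM u + prM v := by
    intro u v hu hv
    obtain ⟨c, a, hc, rfl⟩ := unit_MA u hu
    obtain ⟨d, b, hd, rfl⟩ := unit_MA v hv
    rw [AddMonoidAlgebra.single_mul_single, prM_single _ hc, prM_single _ hd,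
      prM_single _ (mul_ne_zero hc hd)]
    rfl
  have h2 : ∀ (g : GA p) (u : MA C (LL p)), IsUnit u → prM (g • u) = g • prM u := by
    intro g u hu
    obtain ⟨c, a, hc, rfl⟩ := unit_MA u hu
    rw [hact, actR_single, prM_single _ hc, prM_single _ (mul_ne_zero hc (Units.ne_zero _))]
  obtain ⟨Pi0, hP1, hP2, hP3⟩ := exists_proj (R := MA C (LL p)) (M := Lam p) (Γ := GA p) prM h1 h2
    (fun Δ f hf => H1_Lam Δ f hf)
  have hinj : Function.Injective (algebraMap (MA C (LL p)) (fL C p)) := mon_injective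
  have hrep : ∀ a : fL C p, ∃ r s : MA C (LL p), s ≠ 0 ∧
      a = algebraMap (MA C (LL p)) (fL C p) r / algebraMap (MA C (LL p)) (fL C p) s := by
    intro a
    obtain ⟨r, s, hs, ha⟩ := IsFractionRing.div_surjective (A := MA C (LL p)) a
    exact ⟨r, s, nonZeroDivisors.ne_zero hs, ha.symm⟩
  choose r s hs hrs using hrep
  have hr : ∀ a : fL C p, a ≠ 0 → r a ≠ 0 := by
    intro a ha h
    apply ha
    rw [hrs a, h, map_zero, zero_div]
  have hwd : ∀ (a : fL C p) (u v : MA C (LL p)), a ≠ 0 → u ≠ 0 → v ≠ 0 →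
      a = algebraMap (MA C (LL p)) (fL C p) u / algebraMap (MA C (LL p)) (fL C p) v →
      Pi0 (r a) - Pi0 (s a) = Pi0 u - Pi0 v := by
    intro a u v ha hu hv h
    have h3 : algebraMap (MA C (LL p)) (fL C p) (s a) ≠ 0 := by
      intro h'
      exact hs a (hinj (by rw [h', map_zero]))
    have h4 : algebraMap (MA C (LL p)) (fL C p) v ≠ 0 := by
      intro h'
      exact hv (hinj (by rw [h', map_zero]))
    have h5 : algebraMap (MA C (LL p)) (fL C p) (r a) / algebraMap (MA C (LL p)) (fL C p) (s a) =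
      algebraMap (MA C (LL p)) (fL C p) u / algebraMap (MA C (LL p)) (fL C p) v := by
      rw [← hrs a]; exact h
    rw [div_eq_div_iff h3 h4, ← map_mul, ← map_mul] at h5
    have h6 := congrArg Pi0 (hinj h5)
    rw [hP1 _ _ (hr a ha) hv, hP1 _ _ hu (hs a)] at h6
    rw [sub_eq_sub_iff_add_eq_add]
    exact h6
  refine ⟨fun a => Pi0 (r a) - Pi0 (s a), ?_, ?_, ?_, ?_⟩
  · intro a b ha hb
    change Pi0 (r (a * b)) - Pi0 (s (a * b)) = (Pi0 (r a) - Pi0 (s a)) + (Pi0 (r b) - Pi0 (s b))
    rw [hwd (a * b) (r a * r b) (s a * s b) (mul_ne_zero ha hb)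
      (mul_ne_zero (hr a ha) (hr b hb)) (mul_ne_zero (hs a) (hs b)) (by
        rw [map_mul, map_mul, mul_div_mul_comm, ← hrs a, ← hrs b]),
      hP1 _ _ (hr a ha) (hr b hb), hP1 _ _ (hs a) (hs b)]
    abel
  · intro a ha
    have h7 : ∀ f : MA C (LL p), f ≠ 0 → (GA.x : GA p) • f ≠ 0 := by
      intro f hf h
      exact hf ((smul_eq_zero_iff_eq _).1 h)
    change Pi0 (r (XC p η 0 a)) - Pi0 (s (XC p η 0 a)) =
      (GA.x : GA p) • (Pi0 (r a) - Pi0 (s a))
    rw [hwd (XC p η 0 a) ((GA.x : GA p) • r a) ((GA.x : GA p) • s a)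
      (by rwa [Ne, map_eq_zero]) (h7 _ (hr a ha)) (h7 _ (hs a)) (by
        conv_lhs => rw [hrs a]
        rw [map_div₀, piC_XC_algebraMap, piC_XC_algebraMap]
        rfl),
      hP2 _ _ (hr a ha), hP2 _ _ (hs a), smul_sub]
  · intro a ha
    have h7 : ∀ f : MA C (LL p), f ≠ 0 → (GA.y : GA p) • f ≠ 0 := by
      intro f hf h
      exact hf ((smul_eq_zero_iff_eq _).1 h)
    change Pi0 (r (YC p η 0 a)) - Pi0 (s (YC p η 0 a)) =
      (GA.y : GA p) • (Pi0 (r a) - Pi0 (s a))
    rw [hwd (YC p η 0 a) ((GA.y : GA p) • r a) ((GA.y : GA p) • s a)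
      (by rwa [Ne, map_eq_zero]) (h7 _ (hr a ha)) (h7 _ (hs a)) (by
        conv_lhs => rw [hrs a]
        rw [map_div₀, piC_YC_algebraMap, piC_YC_algebraMap]
        rfl),
      hP2 _ _ (hr a ha), hP2 _ _ (hs a), smul_sub]
  · intro c a hc
    have h8 : (AddMonoidAlgebra.single a c : MA C (LL p)) ≠ 0 := by
      rw [Ne, AddMonoidAlgebra.single_eq_zero]; exact hc
    have h9 : IsUnit (AddMonoidAlgebra.single a c : MA C (LL p)) := by
      refine IsUnit.of_mul_eq_one (AddMonoidAlgebra.single (-a) c⁻¹) ?_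
      rw [AddMonoidAlgebra.single_mul_single, add_neg_cancel, mul_inv_cancel₀ hc,
        AddMonoidAlgebra.one_def]
    change Pi0 (r (mon c a)) - Pi0 (s (mon c a)) = a.2
    have h10 : Pi0 1 = 0 := by
      have h11 := hP1 1 1 one_ne_zero one_ne_zero
      rw [mul_one] at h11
      exact left_eq_add.1 h11
    rw [hwd (mon c a) (AddMonoidAlgebra.single a c) 1 (mon_ne_zero hc a) h8 one_ne_zero (by
      rw [map_one, div_one]; rfl), hP3 _ h9, prM_single _ hc, h10, sub_zero]

end

end OddGp
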