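import Mathlib
import Pool.Agent.W_MP_bec7e1_h80.ClaimBField
import Pool.Agent.W_MP_bec7e1_h80.ConcKum
import Pool.Agent.W_MP_bec7e1_h80.ConcXY
import Pool.Agent.W_MP_bec7e1_h80.ConcN
import Pool.Agent.W_MP_bec7e1_h80.PiC
import Pool.Agent.W_MP_bec7e1_h80.FinalLat

/-!
# Claim B for `X_0`, `Y_0`
-/

namespace OddGp

open Finset

noncomputable section

section mult

variable {L M : Type} [Field L] [AddCommGroup M] {Pi : L → M}
  (hmul : ∀ a b, a ≠ 0 → b ≠ 0 → Pi (a * b) = Pi a + Pi b)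

include hmul

theorem Pi_one : Pi 1 = 0 := by
  have h := hmul 1 1 one_ne_zero one_ne_zero
  rw [mul_one] at h
  exact left_eq_add.1 h

theorem Pi_prod (F : ℕ → L) (hF : ∀ t, F t ≠ 0) (n : ℕ) :
    Pi (∏ t ∈ range n, F t) = ∑ t ∈ range n, Pi (F t) := by
  induction n with
  | zero => rw [Finset.prod_range_zero, Finset.sum_range_zero, Pi_one hmul]
  | succ n ih =>
    rw [Finset.prod_range_succ, Finset.sum_range_succ,
      hmul _ _ (Finset.prod_ne_zero_iff.2 fun t _ => hF t) (hF n), ih]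

theorem Pi_inv (a : L) (ha : a ≠ 0) : Pi a⁻¹ = -Pi a := by
  have h := hmul a a⁻¹ ha (inv_ne_zero ha)
  rw [mul_inv_cancel₀ ha, Pi_one hmul] at h
  exact (neg_eq_of_add_eq_zero_right h.symm).symm

theorem Pi_pow (a : L) (ha : a ≠ 0) (n : ℕ) : Pi (a ^ n) = n • Pi a := by
  induction n with
  | zero => rw [pow_zero, zero_smul, Pi_one hmul]
  | succ n ih => rw [pow_succ, hmul _ _ (pow_ne_zero n ha) ha, ih, succ_nsmul]

theorem Pi_zpow (a : L) (ha : a ≠ 0) (n : ℤ) : Pi (a ^ n) = n • Pi a := by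
  obtain ⟨m, rfl | rfl⟩ := n.eq_nat_or_neg
  · rw [zpow_natCast, Pi_pow hmul a ha, natCast_zsmul]
  · rw [zpow_neg, zpow_natCast, Pi_inv hmul _ (pow_ne_zero m ha), Pi_pow hmul a ha, neg_smul,
      natCast_zsmul]

end mult

variable {C : Type} [Field C] {p : ℕ} [Fact p.Prime] (η : Cˣ)

theorem iterate_ne_zero {L : Type} [Field L] (X : L →+* L) {a : L} (ha : a ≠ 0) (t : ℕ) :
    X^[t] a ≠ 0 := by
  induction t with
  | zero => exact ha
  | succ t ih => rw [Function.iterate_succ_apply']; exact (map_ne_zero X).2 ih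

theorem YC_nontrivial : ∃ a : fL C p, YC p η 0 a ≠ a := by
  have hp : Fact (1 < p) := ⟨(Fact.out : p.Prime).one_lt⟩
  refine ⟨mon (1 : C) ((dlt 1, 0) : LL p), ?_⟩
  rw [YC, zHom_mon, eY_apply, zero_mul, zpow_zero, Units.val_one, mul_one]
  intro h
  have h1 := mon_injective h
  rw [AddMonoidAlgebra.single_left_inj one_ne_zero] at h1
  have h2 : (shA p (dlt 1) - ((0 : ℤ) * vL p 0) • dlt 1 : AZ p) = dlt 1 := congrArg Prod.fst h1
  rw [zero_mul, zero_smul, sub_zero] at h2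
  have h3 := congrArg (fun v : AZ p => v.1 0) h2
  change (if (0 - 1 : ZMod p) = 1 then (1 : ℤ) else 0) - (if (0 - 1 : ZMod p) = 0 then 1 else 0) =
    (if (0 : ZMod p) = 1 then 1 else 0) - (if (0 : ZMod p) = 0 then 1 else 0) at h3
  have e1 : (0 - 1 : ZMod p) ≠ 0 := by
    rw [zero_sub, neg_ne_zero]; exact one_ne_zero
  rw [if_neg e1, if_neg zero_ne_one, if_pos rfl] at h3
  split_ifs at h3 <;> omega

/-- Claim B for `X_0`, `Y_0` -/
theorem claimB_0 (hp2 : p ≠ 2) (hη : IsPrimitiveRoot (η : C) (p ^ 2)) :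
    ClaimB p (emC p) (dlC p η) (zeC p η : fL C p) (XC p η 0) (YC p η 0) := by
  have hη1 : (η : C) ^ (p ^ 2) = 1 := hη.pow_eq_one
  intro l mx my q κ hl hmx hmy hq h0 h1 h2 h3 h4 h5
  have hXζ : XC p η 0 (zeC p η : fL C p) = zeC p η := by rw [zeC_val, XC, zHom_cst]
  have hYζ : YC p η 0 (zeC p η : fL C p) = zeC p η := by rw [zeC_val, YC, zHom_cst]
  obtain ⟨w, U, u, hw, hU, hu, hYw, hXw, hXu, hN⟩ := claimB_field hp2 (kumC η hη)
    (XC p η 0) (YC p η 0) (XN p η) (YN p) (XC_ord η hη1 0) (YC_ord η hη1 0) (XN_ord η hη1) YN_ord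
    (XN_em η) (YN_em η) (XN_nu η) YN_nu (XN_dl η hη1) (YN_dl η hη1) (XN_YN η hη1)
    (YC_nontrivial η) hXζ hYζ l mx my q κ hl hmx hmy hq h0 h1 h2 h3 h4 h5
  obtain ⟨Pi, hmul, hPX, hPY, hmon⟩ := exists_Pi (C := C) (p := p) η hη1
  have hPXt : ∀ (a : fL C p), a ≠ 0 → ∀ t : ℕ, Pi ((XC p η 0)^[t] a) = (GA.x : GA p) ^ t • Pi a := by
    intro a ha t
    induction t with
    | zero => rw [pow_zero, one_smul]; rfl
    | succ t ih =>
      rw [Function.iterate_succ_apply', hPX _ (iterate_ne_zero _ ha t), ih, pow_succ', mul_smul]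
  have hPYt : ∀ (a : fL C p), a ≠ 0 → ∀ t : ℕ, Pi ((YC p η 0)^[t] a) = (GA.y : GA p) ^ t • Pi a := by
    intro a ha t
    induction t with
    | zero => rw [pow_zero, one_smul]; rfl
    | succ t ih =>
      rw [Function.iterate_succ_apply', hPY _ (iterate_ne_zero _ ha t), ih, pow_succ', mul_smul]
  have hnn0 : nnC (C := C) p ≠ 0 := mon_ne_zero one_ne_zero _
  have hPn : Pi (nnC p) = nL p := hmon 1 _ one_ne_zero
  refine final_lattice (Pi w) (Pi U) (Pi u) κ ?_ ?_ ?_ ?_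
  · rw [← hPY w hw, hYw]
  · have h6 := congrArg Pi hXw
    rw [hmul _ _ ((map_ne_zero _).2 hw) (Finset.prod_ne_zero_iff.2 fun t _ =>
      iterate_ne_zero _ hU t), hPX w hw, Pi_prod hmul _ (fun t => iterate_ne_zero _ hU t),
      hmul _ _ (zpow_ne_zero κ hnn0) hw, Pi_zpow hmul _ hnn0, hPn] at h6
    rw [Finset.sum_congr rfl (fun t _ => hPYt U hU t)] at h6
    rw [h6, add_comm]
  · rw [← hPX u hu, hXu]
  · have h6 := congrArg Pi hN
    rw [Pi_prod hmul _ (fun t => iterate_ne_zero _ hw t),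
      Pi_prod hmul _ (fun t => iterate_ne_zero _ hu t),
      Finset.sum_congr rfl (fun t _ => hPXt w hw t),
      Finset.sum_congr rfl (fun t _ => hPYt u hu t)] at h6
    exact h6

end

end OddGp
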