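import Mathlib
import Pool.Agent.W_MP_bec7e1_h80.Abs

/-!
# The conclusion from the two local analyses
-/

namespace OddGp

open Finset

theorem Concl_norm {L : Type} [Field L] {p : ℕ} (X : L →+* L) (hX : ∀ a, X^[p] a = a) {c b : L}
    (hc : X c = c) (hb : b ≠ 0) : ∏ t ∈ range p, X^[t] (c * (X b / b)) = c ^ p := by
  have hcn : ∀ n : ℕ, X^[n] c = c := by
    intro n
    induction n with
    | zero => rfl
    | succ n ih => rw [Function.iterate_succ_apply', ih, hc]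
  have hbn : ∀ n : ℕ, X^[n] b ≠ 0 := by
    intro n
    rw [← RingHom.coe_pow]
    exact (map_ne_zero _).2 hb
  have key : ∀ n : ℕ, ∏ t ∈ range n, X^[t] (c * (X b / b)) = c ^ n * (X^[n] b / b) := by
    intro n
    induction n with
    | zero => simp [hb]
    | succ n ih =>
      rw [prod_range_succ, ih]
      have h1 : X^[n] (c * (X b / b)) = c * (X^[n + 1] b / X^[n] b) := by
        rw [← RingHom.coe_pow, map_mul, map_div₀, RingHom.coe_pow, hcn,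
          ← Function.iterate_succ_apply]
      rw [h1]
      have h2 := hbn n
      field_simp
      ring
  rw [key, hX, div_self hb, mul_one]

/-- p-th roots of unity as powers of `ζ` -/
theorem Concl_root {L : Type} [Field L] {p : ℕ} [Fact p.Prime] {ζ : L} (hζ : IsPrimitiveRoot ζ p)
    {x y : L} (hy : y ≠ 0) (h : x ^ p = y ^ p) : ∃ s : ℕ, x = ζ ^ s * y := by
  have h1 : (x / y) ^ p = 1 := by rw [div_pow, h, div_self (pow_ne_zero _ hy)]
  obtain ⟨s, -, hs⟩ := hζ.eq_pow_of_pow_eq_one h1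
  exact ⟨s, by rw [hs, div_mul_cancel₀ _ hy]⟩

/-- TASK. `p`-th roots of Kummer type: if `q^p = em l`, `q ≠ 0`, then `q = em b * ν^i`.
Proof: `(δ q)^p = δ (em l) = em l = q^p`, so `δ q = em ζ^{-i} q` for some `i : ℕ`
(`IsPrimitiveRoot.eq_pow_of_pow_eq_one` for `(δ q / q)`, replace `i` by `p - i`), and
`q / ν^i` is fixed by `δ`. -/
theorem kummer_root {p : ℕ} [Fact p.Prime] {L N : Type} [Field L] [Field N]
    {em : L →+* N} {δ : N →+* N} {ζ nn : L} {ν : N} (hK : Kum p em δ ζ nn ν) (l : L) (q : N)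
    (hq0 : q ≠ 0) (hq : em l = q ^ p) : ∃ (b : L) (i : ℕ), b ≠ 0 ∧ q = em b * ν ^ i := by
  have hp : 0 < p := (Fact.out : p.Prime).pos
  have hζ : IsPrimitiveRoot (em ζ) p := hK.prim.map_of_injective em.injective
  have h1 : (δ q) ^ p = q ^ p := by rw [← map_pow, ← hq, hK.em_fix]
  have h2 : (δ q / q) ^ p = 1 := by rw [div_pow, h1, div_self (pow_ne_zero _ hq0)]
  obtain ⟨i, hi, hiq⟩ := hζ.eq_pow_of_pow_eq_one h2
  have h3 : δ q = em ζ ^ i * q := by rw [hiq, div_mul_cancel₀ _ hq0]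
  have h4 : δ (q * ν ^ i) = q * ν ^ i := by
    rw [map_mul, h3, map_pow]
    calc em ζ ^ i * q * δ ν ^ i = q * (em ζ * δ ν) ^ i := by rw [mul_pow]; ring
      _ = q * ν ^ i := by rw [hK.δν]
  obtain ⟨b, hb⟩ := hK.fix _ h4
  have hnn : em nn ≠ 0 := by rw [← hK.νp]; exact pow_ne_zero _ hK.ν0
  have h5 : q = em (b / nn) * ν ^ (p - i) := by
    have h6 : ν ^ i * ν ^ (p - i) = em nn := by
      rw [← pow_add, Nat.add_sub_cancel' hi.le, hK.νp]
    rw [map_div₀, hb, div_mul_eq_mul_div, mul_assoc, h6, mul_div_cancel_right₀ _ hnn]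
  refine ⟨b / nn, p - i, ?_, h5⟩
  rintro h7
  rw [h7, map_zero, zero_mul] at h5
  exact hq0 h5

/-- TASK. Conclusion. `X0, Y0` belong to the first local embedding (`d = 0`), `X1, Y1` to the second
(`d = 1`).
Proof. First use `o0 : LocOut .. X0 Y0`: `j, l, mx, my, q`.
Case `p ∤ j`: `em l = N_δ q`. Claim A for `X0`: `ζ^{αx - j} = 1`, so `p ∣ αx - j`, so `p ∤ αx`; hence
`p ∣ κ` by `hbad`. Claim A for `Y0`: `ζ^αy = 1`. So Claim B applies with `κ + j`: `p ∣ κ + j`, hence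
`p ∣ j`, contradiction.
Case `p ∣ j`: `em l = q^p`, by `kummer_root` `q = em b * ν^i`, `l = b^p nn^i`.
`X0 l = (X0 b)^p nn^i = mx^p b^p nn^i`, so `(mx b / X0 b)^p = 1`, `mx = ζ^s X0 b / b`, and
`N_X mx = ζ^{p s} N_X (X0 b / b) = 1` (`X0^p = 1`). So `p ∣ αx - j`, `p ∣ αx`. Similarly
`my = ζ^{s'} Y0 b / b` and `p ∣ αy`. And `mx X0 my = ζ^{s+s'} X0 (Y0 b) / b`,
`my Y0 mx = ζ^{s+s'} Y0 (X0 b) / b`, which are equal (`hXY`), so `ζ^{κ+j} = 1` and `p ∣ κ`.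
(`X0 ζ = Y0 ζ = ζ`.) So in any case `p ∣ αx`, `p ∣ αy`, `p ∣ κ`.
Now use `o1 : LocOut .. X1 Y1`: `j, l, mx, my, q`.
Case `p ∤ j`: Claim A for `X1` gives `ζ^{αx - j} = 1`, so `p ∣ j`, contradiction.
Case `p ∣ j`: `q = em b * ν^i`, `l = b^p nn^i`; `Y1 nn = ζ^{-1} nn` gives
`my^p b^p nn^i = Y1 l = (Y1 b)^p ζ^{-i} nn^i`. With `η^p = ζ`: `(my b η^i / Y1 b)^p = 1`, so
`my = ζ^s η^{-i} Y1 b / b`, and `N_Y my = ζ^{s p} η^{-i p} = ζ^{-i}` (`Y1` fixes `ζ`, `η`). As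
`N_Y my = ζ^αy = 1`, `p ∣ i`, so `ν^i = em nn^{i/p}` and `q ∈ em L`, contradiction. -/
theorem conclusion {p : ℕ} [Fact p.Prime] {L N : Type} [Field L] [Field N]
    {em : L →+* N} {δ : N →+* N} {ζ nn η : L} {ν : N} (hK : Kum p em δ ζ nn ν) (hη : η ^ p = ζ)
    (X0 Y0 X1 Y1 : L →+* L) (hX0 : ∀ a, X0^[p] a = a) (hY0 : ∀ a, Y0^[p] a = a)
    (hY1 : ∀ a, Y1^[p] a = a)
    (hXn : X0 nn = nn) (hYn : Y0 nn = nn) (hY1n : ζ * Y1 nn = nn)
    (hXζ : X0 ζ = ζ) (hYζ : Y0 ζ = ζ) (hY1η : Y1 η = η)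
    (hXY : ∀ a, X0 (Y0 a) = Y0 (X0 a))
    (AX0 : ClaimA p em δ ζ X0) (AY0 : ClaimA p em δ ζ Y0) (B0 : ClaimB p em δ ζ X0 Y0)
    (AX1 : ClaimA p em δ ζ X1) (αx αy κ : ℤ)
    (hbad : (p : ℤ) ∣ κ ∨ ((p : ℤ) ∣ αx ∧ (p : ℤ) ∣ αy))
    (o0 : LocOut p em δ ζ X0 Y0 αx αy κ) (o1 : LocOut p em δ ζ X1 Y1 αx αy κ) : False := by
  have hp : 0 < p := (Fact.out : p.Prime).pos
  have hζ := hK.prim
  have hζ0 : ζ ≠ 0 := hζ.ne_zero hp.ne'
  have hη0 : η ≠ 0 := by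
    intro h
    rw [h, zero_pow hp.ne'] at hη
    exact hζ0 hη.symm
  have hnn : nn ≠ 0 := by
    intro h
    have h1 := hK.νp
    rw [h, map_zero] at h1
    exact hK.ν0 (pow_eq_zero_iff hp.ne' |>.1 h1)
  have hdvd : ∀ a : ℤ, ζ ^ a = 1 → (p : ℤ) ∣ a := fun a h => (hζ.zpow_eq_one_iff_dvd a).1 h
  -- the form of `l`
  have hform : ∀ (l : L) (q : N), q ≠ 0 → em l = q ^ p →
      ∃ (b : L) (i : ℕ), b ≠ 0 ∧ q = em b * ν ^ i ∧ l = b ^ p * nn ^ i := by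
    intro l q hq0 hq
    obtain ⟨b, i, hb, hqb⟩ := kummer_root hK l q hq0 hq
    refine ⟨b, i, hb, hqb, em.injective ?_⟩
    rw [hq, hqb, map_mul, map_pow, map_pow, mul_pow, ← hK.νp, ← pow_mul, ← pow_mul, mul_comm i p]
  -- first analysis
  have h0 : (p : ℤ) ∣ αx ∧ (p : ℤ) ∣ αy := by
    obtain ⟨j, l, mx, my, q, hl, hmx, hmy, hq, hXl, hYl, hNX, hNY, hcomm, hcase⟩ := o0
    rcases hcase with ⟨hj, hem⟩ | ⟨hj, hem, -⟩
    · exfalso
      have h1 := AX0 l mx q (αx - j) hl hmx hq hem hXl hNX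
      have h2 := AY0 l my q αy hl hmy hq hem hYl hNY
      have h3 := hdvd _ h1
      have h4 : (p : ℤ) ∣ κ := by
        rcases hbad with h | h
        · exact h
        · exact absurd ((dvd_sub_right h.1).1 h3) hj
      have h5 := B0 l mx my q (κ + j) hl hmx hmy hq hem hXl hYl (by rw [hNX, h1])
        (by rw [hNY, h2]) hcomm
      exact hj ((dvd_add_right h4).1 h5)
    · obtain ⟨b, i, hb, -, hlb⟩ := hform l q hq hem
      have hX : ∃ s : ℕ, mx = ζ ^ s * (X0 b / b) := by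
        have h1 : (mx * b) ^ p = (X0 b) ^ p := by
          have h2 : X0 l = mx ^ p * l := hXl
          rw [hlb, map_mul, map_pow, map_pow, hXn, ← mul_assoc] at h2
          rw [mul_pow]
          exact (mul_right_cancel₀ (pow_ne_zero _ hnn) h2).symm
        obtain ⟨s, hs⟩ := Concl_root hζ ((map_ne_zero X0).2 hb) h1
        exact ⟨s, by rw [← mul_div_assoc, ← hs, mul_div_cancel_right₀ _ hb]⟩
      have hY : ∃ s : ℕ, my = ζ ^ s * (Y0 b / b) := by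
        have h1 : (my * b) ^ p = (Y0 b) ^ p := by
          have h2 : Y0 l = my ^ p * l := hYl
          rw [hlb, map_mul, map_pow, map_pow, hYn, ← mul_assoc] at h2
          rw [mul_pow]
          exact (mul_right_cancel₀ (pow_ne_zero _ hnn) h2).symm
        obtain ⟨s, hs⟩ := Concl_root hζ ((map_ne_zero Y0).2 hb) h1
        exact ⟨s, by rw [← mul_div_assoc, ← hs, mul_div_cancel_right₀ _ hb]⟩
      obtain ⟨s, hs⟩ := hX
      obtain ⟨s', hs'⟩ := hY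
      have hpow : ∀ n : ℕ, (ζ ^ n) ^ p = 1 := fun n => by
        rw [← pow_mul, mul_comm, pow_mul, hζ.pow_eq_one, one_pow]
      have h1 : ζ ^ (αx - j) = 1 := by
        rw [← hNX, hs, Concl_norm X0 hX0 (by rw [map_pow, hXζ]) hb, hpow]
      have h2 : ζ ^ αy = 1 := by
        rw [← hNY, hs', Concl_norm Y0 hY0 (by rw [map_pow, hYζ]) hb, hpow]
      refine ⟨?_, hdvd _ h2⟩
      have h3 := dvd_add (hdvd _ h1) hj
      rwa [sub_add_cancel] at h3
  -- second analysis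
  obtain ⟨j, l, mx, my, q, hl, hmx, hmy, hq, hXl, hYl, hNX, hNY, hcomm, hcase⟩ := o1
  rcases hcase with ⟨hj, hem⟩ | ⟨-, hem, hne⟩
  · have h1 := AX1 l mx q (αx - j) hl hmx hq hem hXl hNX
    exact hj ((dvd_sub_right h0.1).1 (hdvd _ h1))
  · obtain ⟨b, i, hb, hqb, hlb⟩ := hform l q hq hem
    have hY1ζ : Y1 ζ = ζ := by rw [← hη, map_pow, hY1η]
    have hX : ∃ s : ℕ, my * b * η ^ i = ζ ^ s * Y1 b := by
      refine Concl_root hζ ((map_ne_zero Y1).2 hb) ?_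
      have h2 : Y1 l = my ^ p * l := hYl
      rw [hlb, map_mul, map_pow, map_pow] at h2
      have h3 : (η ^ i) ^ p = ζ ^ i := by rw [← pow_mul, mul_comm, pow_mul, hη]
      have h4 : ζ ^ i * Y1 nn ^ i = nn ^ i := by rw [← mul_pow, hY1n]
      have h5 : (my * b * η ^ i) ^ p * nn ^ i = Y1 b ^ p * nn ^ i := by
        rw [mul_pow, mul_pow, h3]
        calc my ^ p * b ^ p * ζ ^ i * nn ^ i = ζ ^ i * (my ^ p * (b ^ p * nn ^ i)) := by ring
          _ = ζ ^ i * (Y1 b ^ p * Y1 nn ^ i) := by rw [h2]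
          _ = Y1 b ^ p * (ζ ^ i * Y1 nn ^ i) := by ring
          _ = Y1 b ^ p * nn ^ i := by rw [h4]
      exact mul_right_cancel₀ (pow_ne_zero _ hnn) h5
    obtain ⟨s, hs⟩ := hX
    have hmy' : my = (ζ ^ s * (η ^ i)⁻¹) * (Y1 b / b) := by
      have hηi : η ^ i ≠ 0 := pow_ne_zero _ hη0
      field_simp
      linear_combination hs
    have h1 : ζ ^ αy = 1 := by
      obtain ⟨t, ht⟩ := h0.2
      rw [ht, zpow_mul, zpow_natCast, hζ.pow_eq_one, one_zpow]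
    rw [h1, hmy', Concl_norm Y1 hY1 (by rw [map_mul, map_inv₀, map_pow, map_pow, hY1ζ, hY1η]) hb,
      mul_pow, ← pow_mul, mul_comm s p, pow_mul, hζ.pow_eq_one, one_pow, one_mul, inv_pow,
      ← pow_mul, mul_comm i p, pow_mul, hη, inv_eq_one] at hNY
    obtain ⟨k, hk⟩ := (hζ.pow_eq_one_iff_dvd i).1 hNY
    refine hne (b * nn ^ k) ?_
    rw [hqb, hk, pow_mul, hK.νp, map_mul, map_pow]

end OddGp
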