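import Mathlib

/-!
# A weak Skolem-Noether theorem
-/

namespace OddGp

/-- two sided inverses in a finite dimensional domain -/
theorem exists_two_sided_inv {F D : Type} [Field F] [Ring D] [Algebra F D] [NoZeroDivisors D]
    [Nontrivial D] [FiniteDimensional F D] (x : D) (hx : x ≠ 0) :
    ∃ y : D, x * y = 1 ∧ y * x = 1 := by
  have hinj : Function.Injective (LinearMap.mulLeft F x) := by
    rw [injective_iff_map_eq_zero]
    intro z hz
    rw [LinearMap.mulLeft_apply] at hz
    rcases mul_eq_zero.1 hz with h | h
    · exact absurd h hx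
    · exact h
  have hsurj := LinearMap.surjective_of_injective hinj
  obtain ⟨y, hy⟩ := hsurj 1
  rw [LinearMap.mulLeft_apply] at hy
  refine ⟨y, hy, ?_⟩
  have h1 : x * (y * x - 1) = 0 := by
    rw [mul_sub, ← mul_assoc, hy, one_mul, mul_one, sub_self]
  rcases mul_eq_zero.1 h1 with h | h
  · exact absurd h hx
  · exact sub_eq_zero.1 h

/-- TASK. Separation lemma: for a central division algebra `D / F`, if `a_i` are linearly independent
over `F` and `∑ a_i d b_i = 0` for all `d`, then all `b_i = 0`.
Proof. `D` is a division ring (finite dimensional domain). Suppose the lemma fails and take a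
counterexample `(a_i, b_i)_{i ∈ s}` (`s` a finite set, all `b_i ≠ 0`) with `|s| > 0` minimal; fix
`i0 ∈ s`. For all `c, d`: `∑ a_i (d c) b_i = 0`, and `(∑ a_i d b_i) b_{i0}⁻¹ c b_{i0} = 0`. Subtract:
`∑_{i ≠ i0} a_i d (c b_i - b_i b_{i0}⁻¹ c b_{i0}) = 0` for all `d`. By minimality
`c b_i = b_i b_{i0}⁻¹ c b_{i0}`, i.e. `b_i b_{i0}⁻¹` commutes with every `c`, so it is
`algebraMap λ_i`. Then `(∑ λ_i a_i) d b_{i0} = 0`, so `∑ λ_i a_i = 0` with `λ_{i0} = 1`,
contradiction. (An induction on the cardinality of `s` is convenient.) -/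
theorem sep_lemma {F D : Type} [Field F] [Ring D] [Algebra F D] [NoZeroDivisors D] [Nontrivial D]
    [FiniteDimensional F D] [Algebra.IsCentral F D] (s : Finset ℕ) (a b : ℕ → D)
    (ha : ∀ t : ℕ → F, ∑ i ∈ s, t i • a i = 0 → ∀ i ∈ s, t i = 0)
    (h : ∀ d, ∑ i ∈ s, a i * d * b i = 0) : ∀ i ∈ s, b i = 0 := by
  have hinv : ∀ x : D, x ≠ 0 → ∃ y : D, x * y = 1 ∧ y * x = 1 := exists_two_sided_inv (F := F)
  have main : ∀ (n : ℕ) (s : Finset ℕ), s.card = n → ∀ (a b : ℕ → D),
      (∀ t : ℕ → F, ∑ i ∈ s, t i • a i = 0 → ∀ i ∈ s, t i = 0) →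
      (∀ d, ∑ i ∈ s, a i * d * b i = 0) → ∀ i ∈ s, b i = 0 := by
    intro n
    induction n with
    | zero =>
      intro s hs a b _ _ i hi
      rw [Finset.card_eq_zero] at hs
      rw [hs] at hi
      simp at hi
    | succ n ih =>
      intro s hs a b ha h i0 hi0
      by_contra hb0
      obtain ⟨u, hu1, hu2⟩ := hinv _ hb0
      -- every `b i * u` is central
      have hcomm : ∀ i ∈ s, ∀ c : D, c * b i = b i * u * c * b i0 := by
        intro i hi c
        by_cases hii : i = i0
        · subst hii
          rw [hu1, one_mul]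
        · have hcard : (s.erase i0).card = n := by
            rw [Finset.card_erase_of_mem hi0, hs]; rfl
          have h1 := ih (s.erase i0) hcard a (fun i => c * b i - b i * u * c * b i0) ?_ ?_ i
            (Finset.mem_erase.2 ⟨hii, hi⟩)
          · exact sub_eq_zero.1 h1
          · intro t ht j hj
            have h2 := ha (fun k => if k = i0 then 0 else t k) ?_ j (Finset.mem_of_mem_erase hj)
            · simpa [Finset.ne_of_mem_erase hj] using h2
            · rw [← Finset.add_sum_erase _ _ hi0]
              simp only [if_true, zero_smul, zero_add]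
              rw [← ht]
              apply Finset.sum_congr rfl
              intro k hk
              simp [Finset.ne_of_mem_erase hk]
          · intro d
            have h3 : ∑ i ∈ s, a i * d * (c * b i - b i * u * c * b i0) = 0 := by
              have h4 : ∀ i ∈ s, a i * d * (c * b i - b i * u * c * b i0) =
                  a i * (d * c) * b i - a i * d * b i * (u * c * b i0) := by
                intro i _
                simp only [mul_sub, mul_assoc]
              rw [Finset.sum_congr rfl h4, Finset.sum_sub_distrib, h (d * c), ← Finset.sum_mul,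
                h d, zero_mul, sub_zero]
            rw [← Finset.add_sum_erase _ _ hi0] at h3
            rw [hu1, one_mul, sub_self, mul_zero, zero_add] at h3
            exact h3
      have hcen : ∀ i ∈ s, ∃ l : F, algebraMap F D l = b i * u := by
        intro i hi
        have hz : b i * u ∈ Subalgebra.center F D := by
          rw [Subalgebra.mem_center_iff]
          intro c
          calc c * (b i * u) = c * b i * u := by rw [mul_assoc]
            _ = b i * u * c * b i0 * u := by rw [hcomm i hi c]
            _ = b i * u * c * (b i0 * u) := by simp only [mul_assoc]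
            _ = b i * u * c := by rw [hu1, mul_one]
        rw [Algebra.IsCentral.center_eq_bot, Algebra.mem_bot] at hz
        exact hz
      choose! l hl using hcen
      have hs0 : ∑ i ∈ s, l i • a i = 0 := by
        have h5 : (∑ i ∈ s, l i • a i) * b i0 = 0 := by
          rw [← h 1, Finset.sum_mul]
          apply Finset.sum_congr rfl
          intro i hi
          have h6 : b i = algebraMap F D (l i) * b i0 := by
            rw [hl i hi, mul_assoc, hu2, mul_one]
          conv_rhs => rw [h6]
          rw [mul_one, Algebra.smul_def, Algebra.commutes, mul_assoc]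
        rcases mul_eq_zero.1 h5 with h7 | h7
        · exact h7
        · exact absurd h7 hb0
      have h8 := ha l hs0 i0 hi0
      have h9 := hl i0 hi0
      rw [h8, hu1, map_zero] at h9
      exact zero_ne_one h9
  exact main s.card s rfl a b ha h

/-- TASK. Weak Skolem-Noether.
Proof. Let `θ` be a primitive element of `K / F`, `m` its minimal polynomial,
`m = ∏_{τ} (X - τ θ)` over `K` (Galois), `n = [K : F]`. Let `P = ∏_{τ ≠ σ} (X - τ θ) = ∑_{i<n} b_i X^i`
in `K[X]`, monic of degree `n - 1`. For `d ∈ D` put `T d = ∑_i f(θ)^i d f(b_i)`. If `T d = 0` for all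
`d` then `f(b_{n-1}) = f 1 = 0` by `sep_lemma` (the `f(θ)^i`, `i < n`, are linearly independent over
`F`), contradiction. So there is `d0` with `d := T d0 ≠ 0`. From
`(X - σ θ) P = m` one gets `f(θ) d - d f(σ θ) = ∑_i f(θ)^i d0 f(coefficient of X^i in m)`
and the coefficients of `m` are in `F`, so this is `f(m(θ)) d0 = 0`. Hence `f θ * d = d * f (σ θ)`.
The set of `a ∈ K` with `f a * d = d * f (σ a)` is an `F`-subalgebra containing `θ`, so it is `K`. -/
theorem weak_skolem {F D K : Type} [Field F] [Ring D] [Algebra F D] [NoZeroDivisors D]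
    [Nontrivial D] [FiniteDimensional F D] [Algebra.IsCentral F D] [Field K] [Algebra F K]
    [FiniteDimensional F K] [IsGalois F K] (f : K →ₐ[F] D) (σ : K ≃ₐ[F] K) :
    ∃ d : D, d ≠ 0 ∧ ∀ a, f a * d = d * f (σ a) := by
  classical
  obtain ⟨pb⟩ : Nonempty (PowerBasis F K) := ⟨Field.powerBasisOfFiniteOfSeparable F K⟩
  set θ : K := pb.gen with hθ
  set m : Polynomial F := minpoly F θ with hm
  have hint : IsIntegral F θ := Algebra.IsIntegral.isIntegral θ
  have hmm : m.Monic := minpoly.monic hint
  set n : ℕ := m.natDegree with hn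
  have hnpos : 0 < n := minpoly.natDegree_pos hint
  set M : Polynomial K := m.map (algebraMap F K) with hM
  have hMm : M.Monic := hmm.map _
  have hMdeg : M.natDegree = n := hmm.natDegree_map _
  have hroot : M.IsRoot (σ θ) := by
    rw [Polynomial.IsRoot.def, hM, Polynomial.eval_map_algebraMap]
    have h1 : Polynomial.aeval (σ θ) m = σ (Polynomial.aeval θ m) := by
      exact Polynomial.aeval_algHom_apply σ.toAlgHom θ m
    rw [h1, hm, minpoly.aeval, map_zero]
  obtain ⟨P, hP⟩ : ∃ P : Polynomial K, M = (Polynomial.X - Polynomial.C (σ θ)) * P :=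
    Polynomial.dvd_iff_isRoot.2 hroot
  have hPm : P.Monic := by
    have h1 := (Polynomial.monic_X_sub_C (σ θ)).of_mul_monic_left (q := P) (by rw [← hP]; exact hMm)
    exact h1
  have hPdeg : P.natDegree + 1 = n := by
    rw [← hMdeg, hP, (Polynomial.monic_X_sub_C (σ θ)).natDegree_mul hPm,
      Polynomial.natDegree_X_sub_C]
    ring
  have hPn : P.coeff n = 0 := Polynomial.coeff_eq_zero_of_natDegree_lt (by omega)
  have hPn1 : P.coeff (n - 1) = 1 := by
    have h1 : n - 1 = P.natDegree := by omega
    rw [h1]; exact hPm.coeff_natDegree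
  have hfinj : Function.Injective f := f.toRingHom.injective
  -- the operator T
  set T : D → D := fun d => ∑ i ∈ Finset.range n, (f θ) ^ i * d * f (P.coeff i) with hT
  have hex : ∃ d0, T d0 ≠ 0 := by
    by_contra hcon
    push Not at hcon
    have h1 := sep_lemma (F := F) (Finset.range n) (fun i => (f θ) ^ i) (fun i => f (P.coeff i))
      ?_ hcon (n - 1) (Finset.mem_range.2 (by omega))
    · simp only [hPn1, map_one] at h1
      exact one_ne_zero h1
    · intro t ht i hi
      have hli := linearIndependent_pow (K := F) θ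
      rw [Fintype.linearIndependent_iff] at hli
      have h2 := hli (fun j => t j) ?_ ⟨i, Finset.mem_range.1 hi⟩
      · exact h2
      · apply hfinj
        rw [map_zero, ← ht, map_sum, Finset.sum_range (fun i => t i • (f θ) ^ i)]
        apply Finset.sum_congr rfl
        intro j _
        rw [map_smul, map_pow]
  obtain ⟨d0, hd0⟩ := hex
  have hkey : f θ * T d0 = T d0 * f (σ θ) := by
    have hc0 : algebraMap F K (m.coeff 0) = - (P.coeff 0 * σ θ) := by
      have h1 : M.coeff 0 = ((Polynomial.X - Polynomial.C (σ θ)) * P).coeff 0 := by rw [← hP]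
      rw [hM, Polynomial.coeff_map] at h1
      rw [h1, sub_mul, Polynomial.coeff_sub, Polynomial.coeff_X_mul_zero, Polynomial.coeff_C_mul]
      ring
    have hc : ∀ i, algebraMap F K (m.coeff (i + 1)) = P.coeff i - P.coeff (i + 1) * σ θ := by
      intro i
      have h1 : M.coeff (i + 1) = ((Polynomial.X - Polynomial.C (σ θ)) * P).coeff (i + 1) := by
        rw [← hP]
      rw [hM, Polynomial.coeff_map] at h1
      rw [h1, sub_mul, Polynomial.coeff_sub, Polynomial.coeff_X_mul, Polynomial.coeff_C_mul]
      ring
    have hzero : ∑ i ∈ Finset.range (n + 1), (f θ) ^ i * d0 * f (algebraMap F K (m.coeff i)) = 0 := by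
      have h1 : Polynomial.aeval (f θ) m = 0 := by
        rw [Polynomial.aeval_algHom_apply f θ m, hm, minpoly.aeval, map_zero]
      have h2 : (Polynomial.aeval (f θ) m) * d0 = 0 := by rw [h1, zero_mul]
      rw [Polynomial.aeval_eq_sum_range, Finset.sum_mul] at h2
      rw [← h2]
      apply Finset.sum_congr rfl
      intro i _
      rw [f.commutes, ← Algebra.commutes, Algebra.smul_def, mul_assoc]
    rw [Finset.sum_range_succ'] at hzero
    simp only [hc, hc0, map_sub, map_neg, mul_sub, pow_zero, one_mul, mul_neg] at hzero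
    rw [Finset.sum_sub_distrib] at hzero
    have h3 : f θ * T d0 = ∑ i ∈ Finset.range n, (f θ) ^ (i + 1) * d0 * f (P.coeff i) := by
      rw [hT]
      simp only
      rw [Finset.mul_sum]
      apply Finset.sum_congr rfl
      intro i _
      rw [pow_succ']
      simp only [mul_assoc]
    have h4 : T d0 * f (σ θ) = ∑ i ∈ Finset.range n, (f θ) ^ (i + 1) * d0 *
        f (P.coeff (i + 1) * σ θ) + d0 * f (P.coeff 0 * σ θ) := by
      have h5 : ∑ i ∈ Finset.range (n + 1), (f θ) ^ i * d0 * f (P.coeff i * σ θ) =
          ∑ i ∈ Finset.range n, (f θ) ^ (i + 1) * d0 *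
        f (P.coeff (i + 1) * σ θ) + d0 * f (P.coeff 0 * σ θ) := by
        rw [Finset.sum_range_succ']
        simp only [pow_zero, one_mul]
      rw [← h5, Finset.sum_range_succ, hPn, zero_mul, map_zero, mul_zero, add_zero, hT]
      simp only
      rw [Finset.sum_mul]
      apply Finset.sum_congr rfl
      intro i _
      rw [map_mul]
      simp only [mul_assoc]
    rw [h3, h4]
    have h6 := hzero
    rw [← sub_eq_add_neg, sub_sub] at h6
    exact sub_eq_zero.1 h6
  refine ⟨T d0, hd0, ?_⟩
  intro a
  obtain ⟨q, rfl⟩ := pb.exists_eq_aeval' a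
  induction q using Polynomial.induction_on' with
  | add p q hp hq =>
    simp only [map_add, add_mul, mul_add, hp, hq]
  | monomial k c =>
    rw [Polynomial.aeval_monomial, map_mul, map_mul, map_mul, map_pow, map_pow, map_pow,
      AlgEquiv.commutes, f.commutes]
    have hpow : ∀ k : ℕ, (f θ) ^ k * T d0 = T d0 * (f (σ θ)) ^ k := by
      intro k
      induction k with
      | zero => simp
      | succ k ih => rw [pow_succ, mul_assoc, hkey, ← mul_assoc, ih, mul_assoc, ← pow_succ]
    rw [mul_assoc, hpow, ← mul_assoc, Algebra.commutes, mul_assoc]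

end OddGp
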