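import Mathlib
import Pool.Agent.W_MP_bec7e1_h80.DDef
import Pool.Agent.W_MP_bec7e1_h80.SN

/-!
# Automorphisms preserve orders
-/

namespace OddGp

open HahnSeries

variable {p : ℕ} [Fact p.Prime] {K : Type} [Field K] [MulSemiringAction (GG p) K]

/-- TASK. Galois automorphisms of a subfield of `D` preserve the order.
Proof: `weak_skolem` gives `d ≠ 0` with `f a * d = d * f (σ a)`; for `a ≠ 0` compare orders
(`LCM.order_mul` for `DD c`, `HH_LCM`): `ord (f a) + ord d = ord d + ord (f (σ a))`. `D` is a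
nontrivial domain (`LCM.noZeroDivisors`). -/
theorem order_aut (c : Coc (GG p) K) (hNZ : (grB c).NZ) [FiniteDimensional (FF p K) (DD c)]
    [Algebra.IsCentral (FF p K) (DD c)] {K' : Type} [Field K'] [Algebra (FF p K) K']
    [FiniteDimensional (FF p K) K'] [IsGalois (FF p K) K'] (f : K' →ₐ[FF p K] DD c)
    (σ : K' ≃ₐ[FF p K] K') (a : K') :
    ((f (σ a) : DD c) : HahnSeries VV (CP c)).order =
      ((f a : DD c) : HahnSeries VV (CP c)).order := by
  have hL : LCM (DD c) := HH_LCM hNZ
  have : NoZeroDivisors (DD c) := hL.noZeroDivisors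
  by_cases ha : a = 0
  · rw [ha, map_zero]
  have : Nontrivial (CP c) := by
    refine ⟨⟨1, 0, fun h => ?_⟩⟩
    have h1 := congrArg (fun x : CP c => x.f 1) h
    rw [CP.one_def] at h1
    simp only [CP.zero_f] at h1
    rw [CP.sg_f_self] at h1
    exact one_ne_zero h1
  have : Nontrivial (DD c) := inferInstance
  obtain ⟨d, hd0, hd⟩ := weak_skolem (F := FF p K) f σ
  have hinj : Function.Injective f := f.toRingHom.injective
  have hsa : σ a ≠ 0 := fun h => ha (σ.injective (by rw [h, map_zero]))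
  have hfa : ((f a : DD c) : HahnSeries VV (CP c)) ≠ 0 := fun h =>
    ha (hinj (by rw [map_zero]; exact Subtype.ext h))
  have hfsa : ((f (σ a) : DD c) : HahnSeries VV (CP c)) ≠ 0 := fun h =>
    hsa (hinj (by rw [map_zero]; exact Subtype.ext h))
  have hd0' : (d : HahnSeries VV (CP c)) ≠ 0 := fun h => hd0 (Subtype.ext h)
  have h1 : ((f a : DD c) : HahnSeries VV (CP c)) * (d : HahnSeries VV (CP c)) =
      (d : HahnSeries VV (CP c)) * ((f (σ a) : DD c) : HahnSeries VV (CP c)) :=
    congrArg Subtype.val (hd a)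
  have h2 := congrArg HahnSeries.order h1
  rw [hL.order_mul (f a).2 d.2 hfa hd0', hL.order_mul d.2 (f (σ a)).2 hd0' hfsa, add_comm] at h2
  exact (add_left_cancel h2).symm

end OddGp
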