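import Mathlib
import Pool.Agent.W_MP_bec7e1_h80.DDef

/-!
# The dimension of `D`
-/

namespace OddGp

open HahnSeries

variable {p : ℕ} [Fact p.Prime] {K : Type} [Field K] [MulSemiringAction (GG p) K]

/-- representatives of the residue classes -/
noncomputable def rrD (γ : GA p) : VV := Multiplicative.toAdd (Classical.choose (dgV_surjective p γ))

omit [Fact p.Prime] in
theorem dgV_rrD (γ : GA p) : dgV p (Multiplicative.ofAdd (rrD γ)) = γ :=
  Classical.choose_spec (dgV_surjective p γ)

theorem exists_rrD {v : VV} {γ : GA p} (h : dgV p (Multiplicative.ofAdd v) = γ) :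
    ∃ w : VV, v = p • w + rrD γ := by
  have h1 : dgV p (Multiplicative.ofAdd (v - rrD γ)) = 1 := by
    rw [ofAdd_sub, map_div, h, dgV_rrD, div_self']
  obtain ⟨w, hw⟩ := (dgV_eq_one p _).1 h1
  exact ⟨w, by rw [← hw, sub_add_cancel]⟩

theorem dgV_smul_add_DB (w : VV) (γ : GA p) :
    dgV p (Multiplicative.ofAdd (p • w + rrD γ)) = γ := by
  rw [ofAdd_add, map_mul, dgV_rrD, (dgV_eq_one p _).2 ⟨w, rfl⟩, one_mul]

theorem single_mem_DD_DB (c : Coc (GG p) K) (g : GG p) :
    (single (rrD (GG.bar g)) (CP.u c g) : HahnSeries VV (CP c)) ∈ DD c := by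
  rw [mem_DD]
  intro v h hh
  rw [coeff_single]
  split_ifs with hv
  · rw [CP.u_def, CP.sg_f_ne]
    rintro rfl
    apply hh
    rw [hv, dgV_rrD]
  · rfl

theorem coeff_basis_self (c : Coc (GG p) K) (y : HahnSeries VV K) (g : GG p) (w : VV) :
    (jK' c y * single (rrD (GG.bar g)) (CP.u c g)).coeff (p • w + rrD (GG.bar g)) =
      CP.sg c g (y.coeff w) := by
  rw [coeff_mul_single_add, jK'_coeff_sc, CP.of_mul_u]

theorem coeff_basis_ne (c : Coc (GG p) K) (y : HahnSeries VV K) (g h : GG p) (hgh : h ≠ g)
    (v : VV) :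
    ((jK' c y * single (rrD (GG.bar g)) (CP.u c g)).coeff v).f h = 0 := by
  have h1 : v = (v - rrD (GG.bar g)) + rrD (GG.bar g) := (sub_add_cancel _ _).symm
  rw [h1, coeff_mul_single_add]
  by_cases h2 : dgV p (Multiplicative.ofAdd (v - rrD (GG.bar g))) = 1
  · obtain ⟨w, hw⟩ := (dgV_eq_one p _).1 h2
    rw [hw, jK'_coeff_sc, CP.of_mul_u, CP.sg_f_ne hgh]
  · rw [jK'_coeff_ne c y _ h2, zero_mul, CP.zero_f]

/-- the basis element -/
noncomputable def bD (c : Coc (GG p) K) (g : GG p) : DD c :=
  ⟨single (rrD (GG.bar g)) (CP.u c g), single_mem_DD_DB c g⟩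

/-- the linear combination -/
noncomputable def lcD (c : Coc (GG p) K) (x : GG p → HahnSeries VV K) : DD c :=
  ∑ g, jK c (x g) * bD c g

theorem lcD_coe (c : Coc (GG p) K) (x : GG p → HahnSeries VV K) :
    ((lcD c x : DD c) : HahnSeries VV (CP c)) =
      ∑ g, jK' c (x g) * single (rrD (GG.bar g)) (CP.u c g) := by
  have h := map_sum (DD c).subtype (fun g => jK c (x g) * bD c g) Finset.univ
  exact h

theorem lcD_coeff (c : Coc (GG p) K) (x : GG p → HahnSeries VV K) (g : GG p) (w : VV) :
    (((lcD c x : DD c) : HahnSeries VV (CP c)).coeff (p • w + rrD (GG.bar g))).f g =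
      (x g).coeff w := by
  rw [lcD_coe, coeff_sum, CP.sum_f, Finset.sum_eq_single g]
  · rw [coeff_basis_self, CP.sg_f_self]
  · intro h _ hh
    exact coeff_basis_ne c _ _ _ (Ne.symm hh) _
  · intro h; exact absurd (Finset.mem_univ _) h

theorem lcD_injective (c : Coc (GG p) K) : Function.Injective (lcD c) := by
  intro x y hxy
  funext g
  ext w
  rw [← lcD_coeff c x g w, ← lcD_coeff c y g w, hxy]

theorem isPWO_preimage_sc (γ : GA p) {s : Set VV} (hs : s.IsPWO) :
    {w : VV | p • w + rrD γ ∈ s}.IsPWO := by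
  intro f
  obtain ⟨m, n, hmn, h⟩ := hs (fun n => ⟨p • (f n).1 + rrD γ, (f n).2⟩)
  refine ⟨m, n, hmn, ?_⟩
  have h1 : p • (f m).1 ≤ p • (f n).1 := le_of_add_le_add_right h
  exact (nsmul_le_nsmul_iff_right (NeZero.ne p)).1 h1

/-- the coordinates -/
noncomputable def coD (c : Coc (GG p) K) (d : DD c) (g : GG p) : HahnSeries VV K where
  coeff w := ((d : HahnSeries VV (CP c)).coeff (p • w + rrD (GG.bar g))).f g
  isPWO_support' := by
    apply (isPWO_preimage_sc (GG.bar g) (d : HahnSeries VV (CP c)).isPWO_support).mono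
    intro w hw
    rw [Function.mem_support] at hw
    rw [Set.mem_ofPred_eq, mem_support]
    intro h
    apply hw
    rw [h, CP.zero_f]

theorem coD_coeff (c : Coc (GG p) K) (d : DD c) (g : GG p) (w : VV) :
    (coD c d g).coeff w = ((d : HahnSeries VV (CP c)).coeff (p • w + rrD (GG.bar g))).f g := rfl

theorem lcD_coD (c : Coc (GG p) K) (d : DD c) : lcD c (coD c d) = d := by
  apply Subtype.ext
  ext v g
  by_cases hv : GG.bar g = dgV p (Multiplicative.ofAdd v)
  · obtain ⟨w, rfl⟩ := exists_rrD hv.symm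
    rw [lcD_coeff, coD_coeff]
  · rw [mem_DD.1 (lcD c (coD c d)).2 v g hv, mem_DD.1 d.2 v g hv]

theorem lcD_smul (c : Coc (GG p) K) (a : HahnSeries VV K) (x : GG p → HahnSeries VV K) :
    lcD c (fun g => a * x g) = jK c a * lcD c x := by
  rw [lcD, lcD, Finset.mul_sum]
  apply Finset.sum_congr rfl
  intro g _
  rw [map_mul, mul_assoc]

theorem lcD_add (c : Coc (GG p) K) (x y : GG p → HahnSeries VV K) :
    lcD c (fun g => x g + y g) = lcD c x + lcD c y := by
  rw [lcD, lcD, lcD, ← Finset.sum_add_distrib]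
  apply Finset.sum_congr rfl
  intro g _
  rw [map_add, add_mul]

/-- TASK. `D` is free of rank `|GG p|` as a left vector space over `K((V))`.
Proof. For `g ∈ GG p` choose `r_g ∈ VV` with `dgV r_g = bar g` (`dgV_surjective`), the same for all
`g` with the same `bar g`. The map `(GG p → K((V))) → D`, `(x_g) ↦ ∑_g jK (x_g) * single r_g (u g)`
is `K((V))`-linear. Coefficients: `(jK' x * single r a)_{p w + r} = of (x_w) * a`
(`coeff_mul_single_add`, `jK'_coeff_sc`), and it vanishes at exponents not of this form. So for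
`v = p w + r_g`, `(∑_h jK(x_h) single r_h (u h))_v .f g = (x_g)_w` (only the `h` with
`bar h = dgV v = bar g` contribute at `v`, all with the same `r_h = r_g`, and `of a * u h = sg h a`).
This shows injectivity, and surjectivity: given `d`, put `(x_g)_w = (d_{p w + r_g}).f g` (the support
is PWO, as a preimage of a PWO set under a strictly monotone map). -/
theorem exists_equiv_D (c : Coc (GG p) K) :
    letI : Module (HahnSeries VV K) (DD c) := Module.compHom _ (jK c)
    Nonempty ((GG p → HahnSeries VV K) ≃ₗ[HahnSeries VV K] DD c) := by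
  letI : Module (HahnSeries VV K) (DD c) := Module.compHom _ (jK c)
  exact ⟨{ toFun := lcD c
           map_add' := fun x y => lcD_add c x y
           map_smul' := fun a x => lcD_smul c a x
           invFun := coD c
           left_inv := fun x => lcD_injective c (lcD_coD c (lcD c x))
           right_inv := fun d => lcD_coD c d }⟩

/-- the action on series is faithful -/
instance faithful_KV_DB [FaithfulSMul (GG p) K] : FaithfulSMul (GG p) (HahnSeries VV K) where
  eq_of_smul_eq_smul := by
    intro g h hgh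
    apply FaithfulSMul.eq_of_smul_eq_smul (α := K)
    intro a
    have h1 := congrArg (fun s : HahnSeries VV K => s.coeff 0) (hgh (C a))
    simpa [act_coeff] using h1

theorem finrank_KV_DB (p : ℕ) [Fact p.Prime] (K : Type) [Field K] [MulSemiringAction (GG p) K]
    [FaithfulSMul (GG p) K] : Module.finrank (FF p K) (HahnSeries VV K) = p ^ 3 := by
  rw [FixedPoints.finrank_eq_card, GG.card]

/-- TASK. `[D : F] = p^6`.
Proof: `[K((V)) : F] = |GG p| = p^3` (`FixedPoints.finrank_eq_card`, the action on `K((V))` is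
faithful: look at constants `C a`), and `D` has dimension `p^3` over `K((V))` (`exists_equiv_D`);
`D` is an `F`-module through `K((V))` (`IsScalarTower`), so use `Module.finrank_mul_finrank`, or
directly: `D ≃ (GG p → K((V)))` is `F`-linear (`jKalg`), and
`finrank F (GG p → K((V))) = |GG p| * finrank F K((V))`. -/
theorem finrank_D (c : Coc (GG p) K) [FaithfulSMul (GG p) K] :
    FiniteDimensional (FF p K) (DD c) ∧ Module.finrank (FF p K) (DD c) = (p ^ 3) ^ 2 := by
  let e : (GG p → HahnSeries VV K) ≃ₗ[FF p K] DD c :=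
    { toFun := lcD c
      map_add' := fun x y => lcD_add c x y
      map_smul' := fun a x => by
        rw [RingHom.id_apply, Algebra.smul_def]
        exact lcD_smul c a x
      invFun := coD c
      left_inv := fun x => lcD_injective c (lcD_coD c (lcD c x))
      right_inv := fun d => lcD_coD c d }
  haveI : FiniteDimensional (FF p K) (HahnSeries VV K) := by
    apply FiniteDimensional.of_finrank_pos
    rw [finrank_KV_DB]
    exact pow_pos (Nat.pos_of_ne_zero (NeZero.ne p)) 3
  refine ⟨Module.Finite.equiv e, ?_⟩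
  rw [← e.finrank_eq, Module.finrank_pi_fintype, Finset.sum_const, finrank_KV_DB, Finset.card_univ,
    GG.card, smul_eq_mul, sq]

/-- TASK. The Galois extension `K((V)) / F` with group `GG p`.
Proof: the action of `GG p` on `K((V))` is faithful (constants); `FixedPoints.finrank_eq_card`,
`IsGalois.of_fixed_field`, `FixedPoints.toAlgAutMulEquiv`. -/
theorem KV_galois (p : ℕ) [Fact p.Prime] (K : Type) [Field K] [MulSemiringAction (GG p) K]
    [FaithfulSMul (GG p) K] :
    FiniteDimensional (FF p K) (HahnSeries VV K) ∧ IsGalois (FF p K) (HahnSeries VV K) ∧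
      Module.finrank (FF p K) (HahnSeries VV K) = p ^ 3 ∧
      Nonempty ((HahnSeries VV K ≃ₐ[FF p K] HahnSeries VV K) ≃* GG p) := by
  haveI : FiniteDimensional (FF p K) (HahnSeries VV K) := by
    apply FiniteDimensional.of_finrank_pos
    rw [finrank_KV_DB]
    exact pow_pos (Nat.pos_of_ne_zero (NeZero.ne p)) 3
  refine ⟨inferInstance, inferInstance, finrank_KV_DB p K, ⟨?_⟩⟩
  exact (FixedPoints.toAlgAutMulEquiv (GG p) (HahnSeries VV K)).symm

end OddGp
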