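import Mathlib
import Pool.Agent.W_MP_bec7e1_h80.Abs

/-!
# The centre of `D`; homogeneous elements of `B`
-/

namespace OddGp

open HahnSeries

variable {p : ℕ} [Fact p.Prime] {K : Type} [Field K] [MulSemiringAction (GG p) K]

theorem dc_jK'_C (c : Coc (GG p) K) (a : K) :
    jK' c (HahnSeries.C a) = HahnSeries.C (CP.of c a) := by
  change embDomainRingHom (sc p) (sc_injective p) (sc_le p)
    (hmap (CP.of c) (HahnSeries.C a)) = _
  have h : hmap (V := VV) (CP.of c) (HahnSeries.C a) = HahnSeries.C (CP.of c a) := by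
    ext1
    funext v
    rw [hmap_coeff, C_apply, C_apply, coeff_single, coeff_single]
    split_ifs
    · rfl
    · rw [map_zero]
  rw [h, embDomainRingHom_C]

theorem dc_single_mem (c : Coc (GG p) K) (g : GG p) (v : VV)
    (hv : dgV p (Multiplicative.ofAdd v) = GG.bar g) : single v (CP.u c g) ∈ DD c := by
  rw [mem_DD]
  intro w g' hg'
  rw [coeff_single]
  split_ifs with h
  · rw [CP.u_def, CP.sg_f_ne]
    rintro rfl
    exact hg' (by rw [h, hv])
  · rfl

/-- the series with `w`-th coefficient `(d_{p w}).f 1` -/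
def dc_x {c : Coc (GG p) K} (d : HahnSeries VV (CP c)) : HahnSeries VV K where
  coeff w := (d.coeff (p • w)).f 1
  isPWO_support' := by
    have h := d.isPWO_support
    rw [Set.IsPWO, Set.partiallyWellOrderedOn_iff_exists_lt] at h ⊢
    intro f hf
    obtain ⟨m, n, hmn, hle⟩ := h (fun n => p • f n) (fun n => by
      rw [mem_support]
      intro h0
      apply hf n
      change (d.coeff (p • f n)).f 1 = 0
      rw [h0, CP.zero_f])
    exact ⟨m, n, hmn, (sc_le p _ _).1 hle⟩

/-- TASK. The centre of `D` is `F`.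
Proof. Let `d ∈ D` be central. For `a ∈ K` let `A = jK (C a) ∈ D` (`C a` the constant series;
`jK' (C a) = single 0 (of a)`). `A d = d A` gives `of a * d_v = d_v * of a` for all `v`
(`coeff_single_mul_add`-type lemmas), so `(d_v).f g * (g • a) = a * (d_v).f g`
(`CP.of_mul_f`, `CP.mul_of_f`); if `(d_v).f g ≠ 0` then `g • a = a` for all `a`, so `g = 1` by
faithfulness. So `d_v = of b_v`, `b_v = (d_v).f 1`, and if `b_v ≠ 0`, `dgV v = bar 1 = 1`
(`mem_DD`), so `v = p w` (`dgV_eq_one`). For `g ∈ GG p` choose `v_g` with `dgV v_g = bar g`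
(`dgV_surjective`); `U = single v_g (u g) ∈ D`, and `U d = d U` gives
`u g * of b_v = of b_v * u g`, i.e. `g • b_v = b_v` (`CP.u_mul_of`, `CP.of_mul_u`,
`CP.sg_injective`). Define `x : HahnSeries VV K` with `x_w = b_{p w}` (support: the preimage of a
PWO set under the strictly monotone map `sc p`); it is fixed by `GG p`, so it is in `FF p K`, and
`jK' x = d` by comparing coefficients (`jK'_coeff_sc`, `jK'_coeff_ne`). -/
theorem isCentral_D (c : Coc (GG p) K) [FaithfulSMul (GG p) K] :
    Algebra.IsCentral (FF p K) (DD c) := by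
  constructor
  intro d hd
  rw [Subalgebra.mem_center_iff] at hd
  have h1 : ∀ v (a : K), CP.of c a * (d : HahnSeries VV (CP c)).coeff v =
      (d : HahnSeries VV (CP c)).coeff v * CP.of c a := by
    intro v a
    have h := congrArg (fun s : DD c => (s : HahnSeries VV (CP c)).coeff v)
      (hd (jK c (HahnSeries.C a)))
    change (jK' c (HahnSeries.C a) * (d : HahnSeries VV (CP c))).coeff v =
      ((d : HahnSeries VV (CP c)) * jK' c (HahnSeries.C a)).coeff v at h
    rw [dc_jK'_C, C_apply, coeff_single_zero_mul, coeff_mul_single_zero] at h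
    exact h
  have h2 : ∀ v, (d : HahnSeries VV (CP c)).coeff v =
      CP.of c (((d : HahnSeries VV (CP c)).coeff v).f 1) := by
    intro v
    ext g
    rw [CP.of_apply]
    by_cases hg : g = 1
    · rw [hg, CP.sg_f_self]
    · rw [CP.sg_f_ne hg]
      by_contra h3
      apply hg
      apply FaithfulSMul.eq_of_smul_eq_smul (M := GG p) (α := K)
      intro a
      have h4 := congrArg (fun s : CP c => s.f g) (h1 v a)
      simp only [CP.of_mul_f, CP.mul_of_f] at h4
      rw [mul_comm a] at h4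
      rw [one_smul]
      exact (mul_left_cancel₀ h3 h4).symm
  have h3 : ∀ v (g : GG p), g • (((d : HahnSeries VV (CP c)).coeff v).f 1) =
      ((d : HahnSeries VV (CP c)).coeff v).f 1 := by
    intro v g
    obtain ⟨vm, hvm⟩ := dgV_surjective p (GG.bar g)
    set vg : VV := Multiplicative.toAdd vm with hvg
    have hmem := dc_single_mem c g vg hvm
    have h := congrArg (fun s : DD c => (s : HahnSeries VV (CP c)).coeff (v + vg))
      (hd ⟨single vg (CP.u c g), hmem⟩)
    change (single vg (CP.u c g) * (d : HahnSeries VV (CP c))).coeff (v + vg) =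
      ((d : HahnSeries VV (CP c)) * single vg (CP.u c g)).coeff (v + vg) at h
    rw [coeff_single_mul_add, coeff_mul_single_add] at h
    rw [h2 v] at h
    rw [CP.u_mul_of, CP.of_mul_u, CP.of_mul_u] at h
    exact CP.sg_injective _ h
  rw [Algebra.mem_bot]
  refine ⟨⟨dc_x (d : HahnSeries VV (CP c)), ?_⟩, ?_⟩
  · intro g
    ext w
    rw [act_coeff]
    exact h3 _ g
  · apply Subtype.ext
    rw [algebraMap_D]
    ext1
    funext v
    by_cases hv : dgV p (Multiplicative.ofAdd v) = 1
    · obtain ⟨w, rfl⟩ := (dgV_eq_one p v).1 hv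
      rw [jK'_coeff_sc]
      exact (h2 _).symm
    · rw [jK'_coeff_ne c _ v hv, h2 v]
      have h5 : ((d : HahnSeries VV (CP c)).coeff v).f 1 = 0 :=
        mem_DD.1 d.2 v 1 (fun h6 => hv h6.symm)
      rw [h5, map_zero]

/-- TASK. Products of nonzero homogeneous elements of `B` are nonzero, if `Q` is a domain.
Proof: let `a ∈ B_i`, `b ∈ B_j`; choose `g`, `h` with `bar g = i`, `bar h = j`; `a = a' u_g`,
`b = u_h b'` with `a', b' ∈ Q` (`u_g` is a unit, `CP.u_unit`, and multiplying by its inverse, which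
is homogeneous of degree `i⁻¹`: it is `of(..) * u g⁻¹`), and `u_g u_h = of (c g h) u_{gh}` is a
homogeneous unit `w`; `a b = a' w b'`, `w b' = b'' w` with `b'' = w b' w⁻¹ ∈ Q`; so `a b = a' b'' w ≠ 0`. -/
theorem grB_NZ (c : Coc (GG p) K)
    (h : ∀ a b, a ∈ QQ c → b ∈ QQ c → a ≠ 0 → b ≠ 0 → a * b ≠ 0) : (grB c).NZ := by
  intro i j a b ha hb ha0 hb0 hab
  have hu : ∀ l : GG p, CP.u c l ∈ (grB c).comp (GG.bar l) := by
    intro l m hm
    rw [CP.u_def, CP.sg_f_ne]
    rintro rfl
    exact hm rfl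
  obtain ⟨g, rfl⟩ : ∃ g : GG p, GG.bar g = i := ⟨⟨0, i.i, i.j⟩, rfl⟩
  obtain ⟨k, rfl⟩ : ∃ k : GG p, GG.bar k = j := ⟨⟨0, j.i, j.j⟩, rfl⟩
  have ha1 : CP.u c g⁻¹ * a ∈ QQ c := by
    have h1 := (grB c).mul_mem (hu g⁻¹) ha
    rwa [GG.bar_inv, inv_mul_cancel] at h1
  have hb1 : b * CP.u c k⁻¹ ∈ QQ c := by
    have h1 := (grB c).mul_mem hb (hu k⁻¹)
    rwa [GG.bar_inv, mul_inv_cancel] at h1
  refine h _ _ ha1 hb1 ?_ ?_ ?_
  · intro h1
    exact ha0 ((CP.u_unit _).mul_right_eq_zero.1 h1)
  · intro h1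
    exact hb0 ((CP.u_unit _).mul_left_eq_zero.1 h1)
  · rw [mul_assoc, ← mul_assoc a, hab, zero_mul, mul_zero]

end OddGp
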