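import Mathlib
import Pool.Agent.W_MP_bec7e1_h80.Grp
import Pool.Agent.W_MP_bec7e1_h9.GGHom

/-!
# Recognition of the group `GG p`
-/

namespace OddGp

variable {p : ℕ} [Fact p.Prime]

namespace GroupLemAux

variable {H : Type*} [Group H]

theorem zpow_eq_of_dvd {z : H} (hzp : z ^ p = 1) {m n : ℤ} (h : (p : ℤ) ∣ m - n) :
    z ^ m = z ^ n := by
  obtain ⟨c, hc⟩ := h
  have h1 : m = n + p * c := by linarith
  rw [h1, zpow_add, zpow_mul, zpow_natCast, hzp, one_zpow, mul_one]

theorem comm_zpow_right {z g h : H} (hz : ∀ x, z * x = x * z) {m : ℤ}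
    (hgh : g * h = z ^ m * (h * g)) (j : ℤ) : g * h ^ j = z ^ (m * j) * (h ^ j * g) := by
  have h1 : g * h * g⁻¹ = z ^ m * h := by rw [hgh]; group
  have hc : Commute (z ^ m) h := (show Commute z h from hz h).zpow_left m
  have h2 : g * h ^ j * g⁻¹ = z ^ (m * j) * h ^ j := by
    rw [← conj_zpow, h1, hc.mul_zpow, ← zpow_mul]
  rw [mul_inv_eq_iff_eq_mul] at h2
  rw [h2, mul_assoc]

theorem comm_zpow {z g h : H} (hz : ∀ x, z * x = x * z) {m : ℤ}
    (hgh : g * h = z ^ m * (h * g)) (i j : ℤ) :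
    g ^ i * h ^ j = z ^ (m * i * j) * (h ^ j * g ^ i) := by
  have h1 := comm_zpow_right hz hgh j
  have h2 : h ^ j * g = z ^ (-(m * j)) * (g * h ^ j) := by
    rw [h1, ← mul_assoc, ← zpow_add]; simp
  have h3 := comm_zpow_right hz h2 i
  rw [h3, ← mul_assoc, ← zpow_add]
  have : m * i * j + -(m * j) * i = 0 := by ring
  rw [this, zpow_zero, one_mul]

theorem mul_pow_hall {z g h : H} (hz : ∀ x, z * x = x * z) {m : ℤ}
    (hgh : g * h = z ^ m * (h * g)) (n : ℕ) :
    (g * h) ^ n = z ^ (-(m * (n.choose 2 : ℕ))) * (g ^ n * h ^ n) := by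
  have hzc : ∀ (e : ℤ) (x : H), Commute (z ^ e) x := fun e x =>
    (show Commute z x from hz x).zpow_left e
  induction n with
  | zero => simp
  | succ n ih =>
    have h1 := comm_zpow_right hz hgh (n : ℤ)
    rw [zpow_natCast] at h1
    have h2 : h ^ n * g = z ^ (-(m * n)) * (g * h ^ n) := by
      rw [h1, ← mul_assoc, ← zpow_add]; simp
    have h3 : ((n + 1).choose 2 : ℕ) = n + n.choose 2 := by
      rw [Nat.choose_succ_succ' n 1, Nat.choose_one_right]
    rw [pow_succ, ih, h3]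
    calc z ^ (-(m * (n.choose 2 : ℕ))) * (g ^ n * h ^ n) * (g * h)
        = z ^ (-(m * (n.choose 2 : ℕ))) * (g ^ n * (h ^ n * g) * h) := by group
      _ = z ^ (-(m * (n.choose 2 : ℕ))) * (g ^ n * (z ^ (-(m * n)) * (g * h ^ n)) * h) := by
          rw [h2]
      _ = z ^ (-(m * (n.choose 2 : ℕ))) * ((g ^ n * z ^ (-(m * n))) * (g * h ^ n * h)) := by
          group
      _ = z ^ (-(m * (n.choose 2 : ℕ))) * ((z ^ (-(m * n)) * g ^ n) * (g * h ^ n * h)) := by
          rw [(hzc _ (g ^ n)).eq]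
      _ = (z ^ (-(m * (n.choose 2 : ℕ))) * z ^ (-(m * n))) * ((g ^ n * g) * (h ^ n * h)) := by
          group
      _ = z ^ (-(m * (n + n.choose 2 : ℕ))) * (g ^ (n + 1) * h ^ (n + 1)) := by
          rw [← zpow_add, ← pow_succ, ← pow_succ]
          congr 2
          push_cast
          ring

end GroupLemAux

open GroupLemAux in
/-- TASK. Recognition lemma (`p` odd).
Proof. `z` has order `p` and is central. From `gx gy = z^k gy gx` one gets
`gx^i gy^j = z^(k i j) gy^j gx^i`, and, `p` being odd, `(gx^i gy^j)^p = z^(a i + b j)`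
(Hall: `(u v)^p = u^p v^p [v,u]^{p(p-1)/2}` when `[u,v]` is central of order dividing `p`).
Choose integers: since `(a, b) ≠ 0` mod `p` there are `(i, j)`, `(i', j')` with
`a i + b j = 1`, `a i' + b j' = 0` modulo `p` and determinant `i j' - j i' ≠ 0` mod `p`
(if `a ≠ 0`: `(i, j) = (a⁻¹, 0)`, `(i', j') = (-b, a) * t`; if `a = 0`: `b ≠ 0`,
`(i, j) = (0, b⁻¹)`, `(i', j') = (t, 0)`), and `t ≠ 0` can be chosen such that
`Y X = z X Y` for `X = gx^i gy^j`, `Y = gx^i' gy^j'` (the commutator of `Y` and `X` is `z` to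
`± k (i j' - j i')`, linear in `t`). Then `X^p = z`, `Y^p = 1`, `Y X = z X Y`, and
`(k, i, j) ↦ z^k X^i Y^j` is a homomorphism `GG p → H` (multiplication: `GG.mul_k`, `ff`), whose
kernel is trivial: `z^k X^i Y^j = 1` with `(i, j) ≠ 0` would imply that conjugation by `X^i Y^j` is
trivial on `X`, `Y`, so `z^j = z^i = 1`, so `i = j = 0` and `k = 0`. As `|H| = p^3 = |GG p|` it is an
isomorphism. -/
theorem group_lemma (hp2 : p ≠ 2) {H : Type} [Group H] (hcard : Nat.card H = p ^ 3)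
    (z gx gy : H) (hz : ∀ h, z * h = h * z) (hz1 : z ≠ 1) (hzp : z ^ p = 1) (a b k : ℤ)
    (ha : gx ^ p = z ^ a) (hb : gy ^ p = z ^ b) (hk : gx * gy = z ^ k * (gy * gx))
    (hk0 : ¬ (p : ℤ) ∣ k) (hab : ¬ ((p : ℤ) ∣ a ∧ (p : ℤ) ∣ b)) : Nonempty (H ≃* GG p) := by
  have hp : p.Prime := Fact.out
  have hzc : ∀ (e : ℤ) (x : H), Commute (z ^ e) x := fun e x =>
    (show Commute z x from hz x).zpow_left e
  have inv_exists : ∀ c : ℤ, ¬ (p : ℤ) ∣ c → ∃ d : ℤ, (p : ℤ) ∣ c * d - 1 := by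
    intro c hc
    have h1 : IsCoprime (p : ℤ) c := (Nat.prime_iff_prime_int.1 hp).coprime_iff_not_dvd.2 hc
    obtain ⟨u, v, huv⟩ := h1
    exact ⟨v, -u, by linarith⟩
  obtain ⟨i, j, hij⟩ : ∃ i j : ℤ, (p : ℤ) ∣ a * i + b * j - 1 := by
    by_cases hpa : (p : ℤ) ∣ a
    · have hpb : ¬ (p : ℤ) ∣ b := fun h => hab ⟨hpa, h⟩
      obtain ⟨d, hd⟩ := inv_exists b hpb
      exact ⟨0, d, by simpa using hd⟩
    · obtain ⟨d, hd⟩ := inv_exists a hpa
      exact ⟨d, 0, by simpa using hd⟩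
  obtain ⟨t, ht⟩ := inv_exists k hk0
  -- p-th powers
  have hpow : ∀ u v : ℤ, (gx ^ u * gy ^ v) ^ p = z ^ (a * u + b * v) := by
    intro u v
    have h1 := comm_zpow hz hk u v
    rw [mul_pow_hall hz h1 p]
    have h2 : z ^ (-(k * u * v * (p.choose 2 : ℕ))) = 1 := by
      have h3 : (p : ℤ) ∣ -(k * u * v * (p.choose 2 : ℕ)) - 0 := by
        rw [sub_zero, dvd_neg]
        apply Dvd.dvd.mul_left
        exact Int.natCast_dvd_natCast.2
          (hp.dvd_choose_self (by norm_num) (lt_of_le_of_ne hp.two_le (Ne.symm hp2)))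
      rw [zpow_eq_of_dvd hzp h3, zpow_zero]
    rw [h2, one_mul, ← zpow_natCast, ← zpow_natCast, ← zpow_mul, ← zpow_mul, mul_comm u,
      mul_comm v, zpow_mul, zpow_mul, zpow_natCast, zpow_natCast, ha, hb, ← zpow_mul, ← zpow_mul,
      ← zpow_add]
  set X : H := gx ^ i * gy ^ j with hX
  set Y : H := gx ^ (b * t) * gy ^ (-(a * t)) with hY
  have hXp : X ^ p = z := by
    rw [hX, hpow, zpow_eq_of_dvd hzp (n := 1) hij, zpow_one]
  have hYp : Y ^ p = 1 := by
    rw [hY, hpow, show a * (b * t) + b * -(a * t) = 0 by ring, zpow_zero]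
  -- commutation
  have hcomm : ∀ u v u' v' : ℤ, (gx ^ u * gy ^ v) * (gx ^ u' * gy ^ v') =
      z ^ (k * (u * v' - v * u')) * ((gx ^ u' * gy ^ v') * (gx ^ u * gy ^ v)) := by
    intro u v u' v'
    have h1 := comm_zpow hz hk u v'
    have h2 := comm_zpow hz hk u' v
    have h2' : gy ^ v * gx ^ u' = z ^ (-(k * u' * v)) * (gx ^ u' * gy ^ v) := by
      rw [h2, ← mul_assoc, ← zpow_add]; simp
    calc (gx ^ u * gy ^ v) * (gx ^ u' * gy ^ v')
        = gx ^ u * (gy ^ v * gx ^ u') * gy ^ v' := by group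
      _ = gx ^ u * (z ^ (-(k * u' * v)) * (gx ^ u' * gy ^ v)) * gy ^ v' := by rw [h2']
      _ = (gx ^ u * z ^ (-(k * u' * v))) * (gx ^ u' * gy ^ v * gy ^ v') := by group
      _ = (z ^ (-(k * u' * v)) * gx ^ u) * (gx ^ u' * gy ^ v * gy ^ v') := by
          rw [(hzc _ (gx ^ u)).eq]
      _ = z ^ (-(k * u' * v)) * (gx ^ u' * (gx ^ u * gy ^ v') * gy ^ v) := by group
      _ = z ^ (-(k * u' * v)) * (gx ^ u' * (z ^ (k * u * v') * (gy ^ v' * gx ^ u)) * gy ^ v) := by
          rw [h1]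
      _ = z ^ (-(k * u' * v)) * ((gx ^ u' * z ^ (k * u * v')) * (gy ^ v' * gx ^ u * gy ^ v)) := by
          group
      _ = z ^ (-(k * u' * v)) * ((z ^ (k * u * v') * gx ^ u') * (gy ^ v' * gx ^ u * gy ^ v)) := by
          rw [(hzc _ (gx ^ u')).eq]
      _ = (z ^ (-(k * u' * v)) * z ^ (k * u * v')) *
            ((gx ^ u' * gy ^ v') * (gx ^ u * gy ^ v)) := by group
      _ = z ^ (k * (u * v' - v * u')) * ((gx ^ u' * gy ^ v') * (gx ^ u * gy ^ v)) := by
          rw [← zpow_add]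
          congr 2
          ring
  have hYX : Y * X = z * (X * Y) := by
    rw [hY, hX, hcomm]
    congr 1
    have h3 : (p : ℤ) ∣ k * (b * t * j - -(a * t) * i) - 1 := by
      have h4 : k * (b * t * j - -(a * t) * i) - 1 =
          (k * t) * (a * i + b * j - 1) + (k * t - 1) := by ring
      rw [h4]
      exact dvd_add (Dvd.dvd.mul_left hij _) ht
    rw [zpow_eq_of_dvd hzp h3, zpow_one]
  have hzX : Commute z X := hz X
  have hzY : Commute z Y := hz Y
  let f : GG p →* H := GGHom.hom hzX hzY hYX hXp hYp hzp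
  have ord : ∀ c : ZMod p, z ^ c.val = 1 → c = 0 := by
    intro c hc
    have h1 : orderOf z = p := orderOf_eq_prime hzp hz1
    have h2 : p ∣ c.val := by
      have h4 := orderOf_dvd_of_pow_eq_one hc
      rwa [h1] at h4
    have h3 : c.val = 0 := Nat.eq_zero_of_dvd_of_lt h2 (ZMod.val_lt c)
    exact (ZMod.val_eq_zero c).1 h3
  have hinj : Function.Injective f := by
    rw [injective_iff_map_eq_one]
    intro g hg
    have hg' : z ^ g.k.val * (X ^ g.i.val * Y ^ g.j.val) = 1 := hg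
    have hW : X ^ g.i.val * Y ^ g.j.val = (z ^ g.k.val)⁻¹ := by
      rw [eq_inv_iff_mul_eq_one, ← ((show Commute z _ from hz _).pow_left _).eq]
      exact hg'
    have hWc : ∀ h : H, Commute (X ^ g.i.val * Y ^ g.j.val) h := by
      intro h
      rw [hW]
      exact ((show Commute z h from hz h).pow_left _).inv_left
    -- j = 0
    have hj : g.j = 0 := by
      apply ord
      have h1 := (hWc X).eq
      have h2 := GGHom.Y_pow_X hzX hzY hYX g.j.val 1
      rw [pow_one, mul_one] at h2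
      rw [mul_assoc, h2, ← mul_assoc, ← ((hzX.pow_left g.j.val).pow_right g.i.val).eq,
        mul_assoc, ← mul_assoc (X ^ g.i.val), ← pow_succ, ← mul_assoc X, ← pow_succ'] at h1
      exact mul_eq_right.1 h1
    have hi : g.i = 0 := by
      apply ord
      have h1 := (hWc Y).eq
      have h2 := GGHom.Y_pow_X hzX hzY hYX 1 g.i.val
      rw [pow_one, one_mul] at h2
      rw [hj, ZMod.val_zero, pow_zero, mul_one, h2] at h1
      exact (right_eq_mul.1 h1)
    have hk' : g.k = 0 := by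
      apply ord
      rw [hj, hi] at hg'
      simpa using hg'
    ext
    · exact hk'
    · exact hi
    · exact hj
  have hfin : Finite H := Nat.finite_of_card_ne_zero (by
    rw [hcard]; exact pow_ne_zero _ hp.ne_zero)
  have hbij : Function.Bijective f := by
    have hc : Nat.card H ≤ Nat.card (GG p) := by
      rw [hcard, Nat.card_eq_fintype_card, GG.card]
    exact hinj.bijective_of_nat_card_le hc
  exact ⟨(MulEquiv.ofBijective f hbij).symm⟩

end OddGp
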