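import Mathlib

/-!
# Kummer steps: definition
-/

namespace OddGp

/-- A Kummer step `S^N / S^{⟨N, z⟩}` with `S^N ⊄ T`, `S^{⟨N, z⟩} ⊆ T` and Kummer generator `q`. -/
structure Sel (p : ℕ) {S H : Type} [Field S] [Group H] [MulSemiringAction H S] (T : Subfield S)
    (ζ : S) (N : Subgroup H) (z : H) (q : S) : Prop where
  normal : N.Normal
  qN : ∀ h ∈ N, h • q = q
  qT : q ∉ T
  zq : z • q = ζ * q
  zp : z ^ p ∈ N
  zc : ∀ h : H, h * z * h⁻¹ * z⁻¹ ∈ N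
  galN : ∀ h : H, (∀ s : S, (∀ n ∈ N, n • s = s) → h • s = s) → h ∈ N
  fix : ∀ s : S, (∀ n ∈ N, n • s = s) → z • s = s → s ∈ T

end OddGp
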