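import Mathlib
import Pool.Agent.W_MP_bec7e1_h80.KumDef

/-!
# The action on a Kummer step
-/

namespace OddGp

variable {p : ℕ} [Fact p.Prime]

/-- TASK. Lifting of embeddings (characteristic zero). If two embeddings of `S` into `K` agree on the
fixed field of the finite group `H`, they differ by an element of `H`.
Proof: for `s ∈ S`, `∑_h h • s` is fixed by `H`, so `∑_h τ1 (h • s) = ∑_h τ2 (h • s)`. If
`τ2 ≠ τ1 ∘ h` for all `h`, then by linear independence of the distinct homs `S → K`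
(`linearIndependent_monoidHom`) the coefficient of `τ2` in
`∑_h τ2 ∘ h - ∑_h τ1 ∘ h = 0`, which is the number of `h` with `τ2 ∘ h = τ2` (at least one),
must vanish in `K`, contradiction. -/
theorem lift_aut {S K H : Type} [Field S] [Field K] [CharZero K] [Group H] [Finite H]
    [MulSemiringAction H S] (τ1 τ2 : S →+* K)
    (h : ∀ s, (∀ h : H, h • s = s) → τ1 s = τ2 s) : ∃ h : H, ∀ s, τ1 (h • s) = τ2 s := by
  classical
  haveI := Fintype.ofFinite H
  by_contra hcon
  push Not at hcon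
  have hF : ∀ (τ : S →+* K) (h : H), ∃ f : S →* K, ∀ s, f s = τ (h • s) := fun τ h =>
    ⟨((τ.comp (MulSemiringAction.toRingHom H S h) : S →+* K) : S →* K), fun s => rfl⟩
  choose F hF using hF
  have hc : (∑ h : H, Finsupp.single (F τ1 h) (1 : K) - ∑ h : H, Finsupp.single (F τ2 h) (1 : K)) =
      0 := by
    apply linearIndependent_iff.1 (linearIndependent_monoidHom S K)
    funext s
    rw [map_sub, map_sum, map_sum]
    simp only [Finsupp.linearCombination_single, one_smul, Pi.sub_apply, Finset.sum_apply, hF,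
      Pi.zero_apply]
    rw [← map_sum, ← map_sum, sub_eq_zero]
    apply h
    intro g
    rw [Finset.smul_sum]
    exact Fintype.sum_equiv (Equiv.mulLeft g) _ _ fun x => by
      rw [Equiv.coe_mulLeft, mul_smul]
  have h1 := congrArg (fun c => c (F τ2 1)) hc
  simp only [Finsupp.coe_sub, Pi.sub_apply, Finsupp.coe_finsetSum, Finset.sum_apply,
    Finsupp.single_apply, Finsupp.coe_zero, Pi.zero_apply] at h1
  have h0 : ∑ x : H, (if F τ1 x = F τ2 1 then (1 : K) else 0) = 0 := by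
    apply Finset.sum_eq_zero
    intro h _
    apply if_neg
    intro he
    obtain ⟨s, hs⟩ := hcon h
    apply hs
    rw [← hF τ1 h s, he, hF, one_smul]
  rw [h0, zero_sub, neg_eq_zero, Finset.sum_boole, Nat.cast_eq_zero, Finset.card_eq_zero] at h1
  have h2 : (1 : H) ∈ Finset.univ.filter (fun x : H => F τ2 x = F τ2 1) := by simp
  rw [h1] at h2
  simp at h2

section

variable {S H : Type} [Field S] [Group H] [Finite H] [MulSemiringAction H S] {T : Subfield S}
  {ζ : S} {N : Subgroup H} {z : H} {q : S}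

/-- TASK. `(h q) / q` is fixed by `N` and `z`.
Proof: for `n ∈ N`: `n h q = h (h⁻¹ n h) q = h q` (`N` normal). `z h = h z n` with
`n = z⁻¹ h⁻¹ z h ∈ N` (from `zc`, `N` normal), so `z h q = h z q = h (ζ q) = ζ (h q)`, and
`z q = ζ q`. -/
theorem Sel.quot (hs : Sel p T ζ N z q) (hζf : ∀ h : H, h • ζ = ζ) (h : H) :
    (∀ n ∈ N, n • ((h • q) / q) = (h • q) / q) ∧ z • ((h • q) / q) = (h • q) / q := by
  have hc : ∀ k : H, k ∈ N → ∀ g : H, k • (g • q) = g • q := by
    intro k hk g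
    have h1 : g⁻¹ * k * g ∈ N := by
      have := hs.normal.conj_mem k hk g⁻¹
      rwa [inv_inv] at this
    have h2 : k * g = g * (g⁻¹ * k * g) := by group
    rw [← mul_smul, h2, mul_smul, hs.qN _ h1]
  have hζ0 : ζ ≠ 0 := by
    rintro rfl
    have h1 := hs.zq
    rw [zero_mul] at h1
    have h2 : q = 0 := by
      have := congrArg (fun s => z⁻¹ • s) h1
      simpa using this
    exact hs.qT (h2 ▸ T.zero_mem)
  refine ⟨fun n hn => ?_, ?_⟩
  · rw [smul_div₀', hc n hn h, hs.qN n hn]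
  · have h1 : z * h = h * z * (z⁻¹ * h⁻¹ * z * h) := by group
    have h2 : z⁻¹ * h⁻¹ * z * h ∈ N := by
      have h0 := N.inv_mem (hs.zc h⁻¹)
      have h3 : (h⁻¹ * z * h⁻¹⁻¹ * z⁻¹)⁻¹ = z * h⁻¹ * z⁻¹ * h := by group
      have h4 := hs.normal.conj_mem _ (hs.zc h⁻¹) z⁻¹
      have h5 : z⁻¹ * (h⁻¹ * z * h⁻¹⁻¹ * z⁻¹) * z⁻¹⁻¹ = z⁻¹ * h⁻¹ * z * h := by group
      rwa [h5] at h4
    have h3 : z • (h • q) = ζ * (h • q) := by
      rw [← mul_smul, h1, mul_smul, hs.qN _ h2, mul_smul, hs.zq, smul_mul', hζf]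
    rw [smul_div₀', h3, hs.zq, mul_div_mul_left _ _ hζ0]

/-- TASK. Elements acting trivially on `S^{⟨N, z⟩}` are in `⟨z, N⟩`.
Proof: let `m = (h q) / q`, it is in `S1 = S^{⟨N,z⟩}` (`Sel.quot`). `q^p ∈ S1`
(`z q^p = ζ^p q^p = q^p`), so `m^p = h(q^p) / q^p = 1` and `m = ζ^a` for some `a : ℕ`
(`IsPrimitiveRoot.eq_pow_of_pow_eq_one`; `q ≠ 0` since `q ∉ T`). Put `h' = (z^a)⁻¹ h`; `h' q = q` and
`h'` is trivial on `S1`. Every `s` fixed by `N` is `p⁻¹ ∑_i s_i`,
`s_i = ∑_{t<p} ζ^{-i t} z^t s`, `z s_i = ζ^i s_i`, and `s_i / q^i ∈ S1`; so `h' s = s`.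
By `galN`, `h' ∈ N`. (`p ≠ 0` in `S` since `ζ` is a primitive `p`-th root of unity.) -/
theorem Sel.triv (hs : Sel p T ζ N z q) (hζ : IsPrimitiveRoot ζ p) (hζf : ∀ h : H, h • ζ = ζ)
    (h : H) (hh : ∀ s : S, (∀ n ∈ N, n • s = s) → z • s = s → h • s = s) :
    ∃ (a : ℕ) (n : H), n ∈ N ∧ h = z ^ a * n := by
  have hp := (Fact.out : p.Prime)
  haveI : NeZero p := ⟨hp.ne_zero⟩
  have hq0 : q ≠ 0 := fun h0 => hs.qT (h0 ▸ T.zero_mem)
  have hζ0 : ζ ≠ 0 := hζ.ne_zero hp.ne_zero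
  have hqp : h • (q ^ p) = q ^ p := by
    apply hh
    · intro n hn
      rw [smul_pow', hs.qN n hn]
    · rw [smul_pow', hs.zq, mul_pow, hζ.pow_eq_one, one_mul]
  obtain ⟨i, -, hi⟩ := hζ.eq_pow_of_pow_eq_one (ξ := (h • q) / q) (by
    rw [div_pow, ← smul_pow', hqp, div_self (pow_ne_zero _ hq0)])
  have hhq : h • q = ζ ^ i * q := by
    rw [hi, div_mul_cancel₀ _ hq0]
  have hζi : ∀ (g : H) (k : ℕ), g • (ζ ^ k) = ζ ^ k := fun g k => by rw [smul_pow', hζf]
  have hzi : ∀ k : ℕ, z ^ k • q = ζ ^ k * q := by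
    intro k
    induction k with
    | zero => simp
    | succ k ih => rw [pow_succ, mul_smul, hs.zq, smul_mul', hζf, ih]; ring
  refine ⟨i, (z ^ i)⁻¹ * h, ?_, by group⟩
  set h' := (z ^ i)⁻¹ * h with hh'
  have hq' : h' • q = q := by
    rw [hh', mul_smul, hhq, ← hzi i, inv_smul_smul]
  have hzs : ∀ (s : S), z • s = s → ∀ k : ℕ, z ^ k • s = s := by
    intro s hs k
    induction k with
    | zero => simp
    | succ k ih => rw [pow_succ, mul_smul, hs, ih]
  have h1' : ∀ s : S, (∀ n ∈ N, n • s = s) → z • s = s → h' • s = s := by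
    intro s h1 h2
    rw [hh', mul_smul, hh s h1 h2, inv_smul_eq_iff, hzs s h2]
  apply hs.galN
  intro s hsN
  have hw : IsPrimitiveRoot ζ⁻¹ p := hζ.inv
  have hwf : ∀ g : H, g • ζ⁻¹ = ζ⁻¹ := fun g => by rw [smul_inv₀', hζf]
  have hzN : ∀ t : ℕ, ∀ n ∈ N, n • (z ^ t • s) = z ^ t • s := by
    intro t n hn
    have h1 : (z ^ t)⁻¹ * n * z ^ t ∈ N := by
      have := hs.normal.conj_mem n hn (z ^ t)⁻¹
      rwa [inv_inv] at this
    have h2 : n * z ^ t = z ^ t * ((z ^ t)⁻¹ * n * z ^ t) := by group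
    rw [← mul_smul, h2, mul_smul, hsN _ h1]
  let f : ℕ → ℕ → S := fun k t => ζ⁻¹ ^ (k * t) * z ^ t • s
  have hfN : ∀ k, ∀ n ∈ N, n • (∑ t ∈ Finset.range p, f k t) = ∑ t ∈ Finset.range p, f k t := by
    intro k n hn
    rw [Finset.smul_sum]
    refine Finset.sum_congr rfl fun t _ => ?_
    change n • (ζ⁻¹ ^ (k * t) * z ^ t • s) = _
    rw [smul_mul', smul_pow', hwf, hzN t n hn]
  have hfz : ∀ k, z • (∑ t ∈ Finset.range p, f k t) = ζ ^ k * ∑ t ∈ Finset.range p, f k t := by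
    intro k
    have h1 : ∀ t, z • f k t = ζ ^ k * f k (t + 1) := by
      intro t
      change z • (ζ⁻¹ ^ (k * t) * z ^ t • s) = ζ ^ k * (ζ⁻¹ ^ (k * (t + 1)) * z ^ (t + 1) • s)
      rw [smul_mul', smul_pow', hwf, ← mul_smul, ← pow_succ', mul_add, mul_one,
        pow_add ζ⁻¹, ← mul_assoc, mul_left_comm, ← mul_pow, mul_inv_cancel₀ hζ0, one_pow, mul_one]
    rw [Finset.smul_sum, Finset.sum_congr rfl fun t _ => h1 t, ← Finset.mul_sum]
    congr 1
    have h2 : f k p = f k 0 := by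
      change ζ⁻¹ ^ (k * p) * z ^ p • s = ζ⁻¹ ^ (k * 0) * z ^ 0 • s
      rw [mul_comm k p, pow_mul, hw.pow_eq_one, one_pow, hsN _ hs.zp, mul_zero, pow_zero, pow_zero,
        one_smul]
    have h3 := Finset.sum_range_succ (f k) p
    rw [Finset.sum_range_succ' (f k) p, h2] at h3
    exact add_right_cancel h3
  have hfix : ∀ k, h' • (∑ t ∈ Finset.range p, f k t) = ∑ t ∈ Finset.range p, f k t := by
    intro k
    have h1 := h1' ((∑ t ∈ Finset.range p, f k t) / q ^ k) (fun n hn => by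
      rw [smul_div₀', hfN k n hn, smul_pow', hs.qN n hn]) (by
      rw [smul_div₀', hfz k, smul_pow', hs.zq, mul_pow, mul_div_mul_left _ _ (pow_ne_zero _ hζ0)])
    rw [smul_div₀', smul_pow', hq'] at h1
    exact (div_left_inj' (pow_ne_zero _ hq0)).1 h1
  have hsum : ∑ k ∈ Finset.range p, ∑ t ∈ Finset.range p, f k t = (p : S) * s := by
    rw [Finset.sum_comm, Finset.sum_eq_single 0]
    · simp [f]
    · intro t ht ht0
      change ∑ k ∈ Finset.range p, ζ⁻¹ ^ (k * t) * z ^ t • s = 0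
      rw [← Finset.sum_mul]
      have h1 : IsPrimitiveRoot (ζ⁻¹ ^ t) p := by
        apply hw.pow_of_coprime
        exact Nat.Coprime.symm ((Nat.Prime.coprime_iff_not_dvd hp).2
          (Nat.not_dvd_of_pos_of_lt (Nat.pos_of_ne_zero ht0) (Finset.mem_range.1 ht)))
      have h2 := h1.geom_sum_eq_zero hp.one_lt
      rw [← Finset.sum_congr rfl (fun k _ => (pow_mul _ t k).symm.trans (by rw [mul_comm])), h2]
      simp
    · intro h0
      exact absurd (Finset.mem_range.2 hp.pos) h0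
  have hp0 : (p : S) ≠ 0 := (hζ.neZero').ne
  have h2 : h' • ((p : S) * s) = (p : S) * s := by
    rw [← hsum, Finset.smul_sum]
    exact Finset.sum_congr rfl fun k _ => hfix k
  have h3 : h' • (p : S) = p := map_natCast (MulSemiringAction.toRingHom H S h') p
  rw [smul_mul', h3] at h2
  exact mul_left_cancel₀ hp0 h2

/-- TASK. If `|H| = p^3` and `N ≠ ⊥` then `H / N` is abelian.
Proof: `|H / N|` divides `p^3 / p = p^2`, so it is `1`, `p` or `p^2`; groups of such order are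
commutative (`IsPGroup.commutative_of_card_eq_prime_sq`, cyclic for prime order). -/
theorem comm_of_ne_bot (hcard : Nat.card H = p ^ 3) (hN : N.Normal) (hN1 : N ≠ ⊥) (a b : H) :
    a * b * (b * a)⁻¹ ∈ N := by
  have hp := (Fact.out : p.Prime)
  have h1 : Nat.card H = Nat.card (H ⧸ N) * Nat.card N :=
    Subgroup.card_eq_card_quotient_mul_card_subgroup N
  have h2 : Nat.card (H ⧸ N) ∣ p ^ 3 := by rw [← hcard, h1]; exact dvd_mul_right _ _
  obtain ⟨m, hm, hm2⟩ := (Nat.dvd_prime_pow hp).1 h2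
  have hm3 : m ≠ 3 := by
    rintro rfl
    apply hN1
    rw [← Subgroup.card_eq_one]
    rw [hcard, hm2] at h1
    exact (Nat.eq_of_mul_eq_mul_left (pow_pos hp.pos 3) (by rw [← h1, mul_one])).symm
  have key : ∀ a b : H ⧸ N, a * b = b * a := by
    have : m = 0 ∨ m = 1 ∨ m = 2 := by omega
    rcases this with rfl | rfl | rfl
    · rw [pow_zero] at hm2
      have := (Nat.card_eq_one_iff_unique.1 hm2).1
      intro a b
      exact Subsingleton.elim _ _
    · rw [pow_one] at hm2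
      have := isCyclic_of_prime_card hm2
      have := IsCyclic.isMulCommutative (α := H ⧸ N)
      intro a b
      exact mul_comm' a b
    · have := IsPGroup.isMulCommutative_of_card_eq_prime_sq hm2
      intro a b
      exact mul_comm' a b
  have h3 := key a b
  have h4 : ((a * b : H) : H ⧸ N) = ((b * a : H) : H ⧸ N) := h3
  rw [← div_eq_mul_inv]
  exact (QuotientGroup.eq_iff_div_mem).1 h4

end

end OddGp
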