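import Mathlib
import Pool.Agent.W_MP_bec7e1_h80.Grp
import Pool.Agent.W_MP_bec7e1_h80.KumAct

/-!
# The core relations of a Kummer step
-/

namespace OddGp

open Finset

variable {p : ℕ} [Fact p.Prime] {K : Type} [Field K] [CharZero K] [MulSemiringAction (GG p) K]

section KumRelAux

variable {S H : Type} [Field S] [Group H] [MulSemiringAction H S]

/-- fixed by `N` and `z'` -/
def KRFix (N : Subgroup H) (z' : H) (s : S) : Prop := (∀ n ∈ N, n • s = s) ∧ z' • s = s

omit [Fact p.Prime] in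
theorem krFix_smul {T : Subfield S} {ζ : S} {N : Subgroup H} {z' : H} {q : S}
    (hs : Sel p T ζ N z' q) {s : S} (h : KRFix N z' s) (g : H) : KRFix N z' (g • s) := by
  constructor
  · intro n hn
    have h1 : g⁻¹ * n * g ∈ N := by
      have := hs.normal.conj_mem n hn g⁻¹
      rwa [inv_inv] at this
    have h2 : n • g • s = g • (g⁻¹ * n * g) • s := by
      rw [smul_smul, smul_smul]
      congr 1
      group
    rw [h2, h.1 _ h1]
  · have h1 : g⁻¹ * z' * g * z'⁻¹ ∈ N := by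
      have := hs.zc g⁻¹
      rwa [inv_inv] at this
    have h2 : z' • g • s = g • (g⁻¹ * z' * g * z'⁻¹) • z' • s := by
      rw [smul_smul, smul_smul, smul_smul]
      congr 1
      group
    rw [h2, h.2, h.1 _ h1]

/-- the subfield of the elements fixed by `N` and `z'` -/
def krField (N : Subgroup H) (z' : H) : Subfield S where
  carrier := {s | KRFix N z' s}
  mul_mem' := by
    intro a b ha hb
    exact ⟨fun n hn => by rw [smul_mul', ha.1 n hn, hb.1 n hn], by rw [smul_mul', ha.2, hb.2]⟩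
  one_mem' := ⟨fun n _ => smul_one n, smul_one z'⟩
  add_mem' := by
    intro a b ha hb
    exact ⟨fun n hn => by rw [smul_add, ha.1 n hn, hb.1 n hn], by rw [smul_add, ha.2, hb.2]⟩
  zero_mem' := ⟨fun n _ => smul_zero n, smul_zero z'⟩
  neg_mem' := by
    intro a ha
    exact ⟨fun n hn => by rw [smul_neg, ha.1 n hn], by rw [smul_neg, ha.2]⟩
  inv_mem' := by
    intro a ha
    exact ⟨fun n hn => by rw [smul_inv'', ha.1 n hn], by rw [smul_inv'', ha.2]⟩

theorem mem_krField {N : Subgroup H} {z' : H} {s : S} : s ∈ krField N z' ↔ KRFix N z' s :=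
  Iff.rfl

/-- the action of `H` on `krField` -/
@[instance_reducible] def krAct {p : ℕ} {T : Subfield S} {ζ : S} {N : Subgroup H} {z' : H} {q : S}
    (hs : Sel p T ζ N z' q) : MulSemiringAction H (krField (S := S) N z') where
  smul g s := ⟨g • (s : S), krFix_smul hs s.2 g⟩
  one_smul s := Subtype.ext (one_smul H (s : S))
  mul_smul a b s := Subtype.ext (mul_smul a b (s : S))
  smul_zero a := Subtype.ext (smul_zero a)
  smul_add a s t := Subtype.ext (smul_add a (s : S) (t : S))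
  smul_one a := Subtype.ext (smul_one a)
  smul_mul a s t := Subtype.ext (smul_mul' a (s : S) (t : S))

/-- lifting of the action of `g` -/
theorem kr_lift [Finite H] (T : Subfield S) (τ : T →+* K)
    (hτ : ∀ t : T, (∀ h : H, h • (t : S) = t) → ∀ g : GG p, g • τ t = τ t) {ζ : S}
    {N : Subgroup H} {z' : H} {q : S} (hs : Sel p T ζ N z' q) (g : GG p) :
    ∃ h : H, ∀ t t' : T, KRFix N z' (t : S) → (t' : S) = h • (t : S) → τ t' = g • τ t := by
  let act : MulSemiringAction H (krField (S := S) N z') := krAct hs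
  have hle : (krField (S := S) N z') ≤ T := fun s h => hs.fix s h.1 h.2
  obtain ⟨h, hh⟩ := lift_aut (H := H) (τ.comp (Subfield.inclusion hle))
    ((MulSemiringAction.toRingHom (GG p) K g).comp (τ.comp (Subfield.inclusion hle))) (by
      intro s hsf
      have h1 : g • τ (Subfield.inclusion hle s) = τ (Subfield.inclusion hle s) := by
        refine hτ _ (fun h => ?_) g
        exact congrArg Subtype.val (hsf h)
      exact h1.symm)
  refine ⟨h, fun t t' ht ht' => ?_⟩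
  have h1 := hh ⟨t, ht⟩
  have h2 : t' = Subfield.inclusion hle (h • (⟨t, ht⟩ : krField (S := S) N z')) :=
    Subtype.ext ht'
  rw [h2]
  exact h1

omit [Fact p.Prime] in
theorem kr_zpow {T : Subfield S} {ζ : S} {N : Subgroup H} {z' : H} {q : S}
    (_hs : Sel p T ζ N z' q) (hζf : ∀ h : H, h • ζ = ζ) {w : S} (hw : z' • w = ζ * w) (a : ℕ) :
    z' ^ a • w = ζ ^ a * w := by
  induction a with
  | zero => simp
  | succ a ih =>
    rw [pow_succ', mul_smul, ih, smul_mul', smul_pow', hζf, hw]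
    ring

end KumRelAux

/-- TASK. The core relations, without crossed products. `T` is a subfield of `S`, `τ : T → K` has
values in `K^z`, and `τ` maps elements fixed by `H` to elements fixed by `GG p`.
Proof. Let `S1 = {s | N and z' fix s}`, a subfield of `S` contained in `T` (`hs.fix`); it is stable
under `H` (`N` normal, `[H, z'] ⊆ N`), so `H` acts on `S1` (`MulSemiringAction H S1`), the fixed
elements being those of `S`; let `τ1 : S1 → K` be the restriction of `τ`. For `g ∈ GG p` apply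
`lift_aut` to `τ1` and `g ∘ τ1` (they agree on the elements fixed by `H`, `hτ`): there is `h_g ∈ H`
with `τ1 (h_g • s) = g • τ1 s` for `s ∈ S1`.
`q ≠ 0` (`0 ∈ T`). For `h ∈ H`, `(h • q) / q ∈ S1` by `Sel.quot`; let `mx = τ1 (h_x q / q)`,
`my = τ1 (h_y q / q)`, `lam = τ1 (q^p)` (`q^p ∈ S1`: `z' q^p = ζ^p q^p`).
Then `x • lam = τ1 (h_x q^p) = mx^p lam`, same for `y`; `∏_{t<p} x^t mx = τ1 (∏ h_x^t (h_x q / q)) =
τ1 (h_x^p q / q)`.
`h_x^p` acts on `S1` as `x^p = z`, i.e. trivially (`z τ = τ`). By `Sel.triv`, `h_x^p = z'^αx n`,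
and `h_x^p q / q = ζ^αx`. Similarly `h_y^p = z'^αy n`. `x y` and `y x` act in the same way on `τ1 S1`
(`y x = z (x y)`), so `h_x h_y (h_y h_x)⁻¹` acts trivially on `S1`, so it is `z'^κ n'` and
`h_x h_y = z'^κ n' h_y h_x`; evaluating on `q`: `mx * x my = ζ^κ * (my * y mx)`
(`h_x h_y q = h_x ((h_y q / q) q) = h_x(h_y q / q) (h_x q)`). -/
theorem kummer_rel {S H : Type} [Field S] [Group H] [Finite H] [MulSemiringAction H S]
    (T : Subfield S) (τ : T →+* K) (hτz : ∀ t, (GG.z : GG p) • τ t = τ t)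
    (hτ : ∀ t : T, (∀ h : H, h • (t : S) = t) → ∀ g : GG p, g • τ t = τ t)
    (ζT : T) (hζ : IsPrimitiveRoot (ζT : S) p) (hζf : ∀ h : H, h • (ζT : S) = ζT)
    {N : Subgroup H} {z' : H} {q : S} (hs : Sel p T (ζT : S) N z' q) :
    ∃ (lam mx my : T) (hx hy : H) (αx αy κ : ℕ) (nx ny nk : H),
      q ^ p = lam ∧ mx ≠ 0 ∧ my ≠ 0 ∧
      (GG.x : GG p) • τ lam = τ mx ^ p * τ lam ∧ (GG.y : GG p) • τ lam = τ my ^ p * τ lam ∧
      ∏ t ∈ range p, ((GG.x : GG p) ^ t) • τ mx = τ ζT ^ αx ∧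
      ∏ t ∈ range p, ((GG.y : GG p) ^ t) • τ my = τ ζT ^ αy ∧
      τ mx * ((GG.x : GG p) • τ my) = τ ζT ^ κ * (τ my * ((GG.y : GG p) • τ mx)) ∧
      nx ∈ N ∧ ny ∈ N ∧ nk ∈ N ∧ hx ^ p = z' ^ αx * nx ∧ hy ^ p = z' ^ αy * ny ∧
      hx * hy * (hy * hx)⁻¹ = z' ^ κ * nk := by
  obtain ⟨hx, Hx⟩ := kr_lift T τ hτ hs (GG.x : GG p)
  obtain ⟨hy, Hy⟩ := kr_lift T τ hτ hs (GG.y : GG p)
  have hq0 : q ≠ 0 := fun h => hs.qT (h ▸ T.zero_mem)
  have hgq0 : ∀ g : H, g • q ≠ 0 := fun g h => hq0 (by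
    have h1 := congrArg (fun s => g⁻¹ • s) h
    simpa using h1)
  have hquot : ∀ h : H, KRFix N z' ((h • q) / q) := fun h => hs.quot hζf h
  have hmT : ∀ {s : S}, KRFix N z' s → s ∈ T := fun {s} h => hs.fix s h.1 h.2
  have hlam : KRFix N z' (q ^ p) := by
    refine ⟨fun n hn => by rw [smul_pow', hs.qN n hn], ?_⟩
    rw [smul_pow', hs.zq, mul_pow, hζ.pow_eq_one, one_mul]
  -- the iterated lifting
  have iter : ∀ (g : GG p) (h : H), (∀ t t' : T, KRFix N z' (t : S) → (t' : S) = h • (t : S) →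
      τ t' = g • τ t) → ∀ (n : ℕ) (t t' : T), KRFix N z' (t : S) → (t' : S) = h ^ n • (t : S) →
      τ t' = g ^ n • τ t := by
    intro g h Hg n
    induction n with
    | zero =>
      intro t t' _ h2
      rw [pow_zero, one_smul] at h2
      rw [pow_zero, one_smul, Subtype.ext h2]
    | succ n ih =>
      intro t t' h1 h2
      have h3 : KRFix N z' (h ^ n • (t : S)) := krFix_smul hs h1 _
      rw [pow_succ', mul_smul] at h2
      rw [pow_succ', mul_smul, Hg ⟨h ^ n • (t : S), hmT h3⟩ t' h3 h2,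
        ih t ⟨h ^ n • (t : S), hmT h3⟩ h1 rfl]
  -- powers acting trivially
  have trivp : ∀ (g : GG p) (h : H), (∀ t t' : T, KRFix N z' (t : S) → (t' : S) = h • (t : S) →
      τ t' = g • τ t) → (∀ t, g ^ p • τ t = τ t) →
      ∃ (a : ℕ) (n : H), n ∈ N ∧ h ^ p = z' ^ a * n := by
    intro g h Hg Hp
    refine hs.triv hζ hζf (h ^ p) ?_
    intro s h1 h2
    have h3 : KRFix N z' s := ⟨h1, h2⟩
    have h4 : KRFix N z' (h ^ p • s) := krFix_smul hs h3 _
    have h5 := iter g h Hg p ⟨s, hmT h3⟩ ⟨h ^ p • s, hmT h4⟩ h3 rfl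
    rw [Hp] at h5
    exact congrArg Subtype.val (τ.injective h5)
  obtain ⟨αx, nx, hnx, hαx⟩ := trivp (GG.x : GG p) hx Hx (by
    intro t
    rw [GG.x_pow_p]
    exact hτz t)
  obtain ⟨αy, ny, hny, hαy⟩ := trivp (GG.y : GG p) hy Hy (by
    intro t
    rw [GG.y_pow_p, one_smul])
  obtain ⟨κ, nk, hnk, hκ⟩ : ∃ (a : ℕ) (n : H), n ∈ N ∧ hx * hy * (hy * hx)⁻¹ = z' ^ a * n := by
    refine hs.triv hζ hζf _ ?_
    intro s h1 h2
    have h3 : KRFix N z' s := ⟨h1, h2⟩
    obtain ⟨s', hs'⟩ : ∃ s', s' = (hy * hx)⁻¹ • s := ⟨_, rfl⟩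
    have h4 : KRFix N z' s' := hs' ▸ krFix_smul hs h3 _
    have h5 : (hy * hx) • s' = s := by rw [hs', smul_inv_smul]
    have a1 : KRFix N z' (hy • s') := krFix_smul hs h4 _
    have a2 : KRFix N z' (hx • hy • s') := krFix_smul hs a1 _
    have b1 : KRFix N z' (hx • s') := krFix_smul hs h4 _
    have b2 : KRFix N z' (hy • hx • s') := krFix_smul hs b1 _
    have e1 : τ ⟨hx • hy • s', hmT a2⟩ = (GG.x : GG p) • (GG.y : GG p) • τ ⟨s', hmT h4⟩ := by
      rw [Hx ⟨hy • s', hmT a1⟩ ⟨hx • hy • s', hmT a2⟩ a1 rfl,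
        Hy ⟨s', hmT h4⟩ ⟨hy • s', hmT a1⟩ h4 rfl]
    have e2 : τ ⟨hy • hx • s', hmT b2⟩ = (GG.y : GG p) • (GG.x : GG p) • τ ⟨s', hmT h4⟩ := by
      rw [Hy ⟨hx • s', hmT b1⟩ ⟨hy • hx • s', hmT b2⟩ b1 rfl,
        Hx ⟨s', hmT h4⟩ ⟨hx • s', hmT b1⟩ h4 rfl]
    have e3 : τ ⟨hy • hx • s', hmT b2⟩ = τ ⟨hx • hy • s', hmT a2⟩ := by
      rw [e2, smul_smul, GG.y_mul_x, mul_smul, mul_smul, ← e1, hτz]
    have e4 : hy • hx • s' = hx • hy • s' := congrArg Subtype.val (τ.injective e3)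
    rw [mul_smul, ← hs', mul_smul, ← e4, ← mul_smul, h5]
  -- powers on q
  have hpq : ∀ (h : H) (a : ℕ) (n : H), n ∈ N → h = z' ^ a * n → h • q = (ζT : S) ^ a * q := by
    intro h a n hn hh
    rw [hh, mul_smul, hs.qN n hn]
    exact kr_zpow hs hζf hs.zq a
  have hprod : ∀ (g : GG p) (h : H) (Hg : ∀ t t' : T, KRFix N z' (t : S) →
      (t' : S) = h • (t : S) → τ t' = g • τ t) (a : ℕ) (n : H), n ∈ N → h ^ p = z' ^ a * n →
      ∏ t ∈ range p, (g ^ t) • τ ⟨(h • q) / q, hmT (hquot h)⟩ = τ ζT ^ a := by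
    intro g h Hg a n hn hh
    have h1 : ∀ k : ℕ, ∏ t ∈ range k, (g ^ t) • τ ⟨(h • q) / q, hmT (hquot h)⟩ =
        τ ⟨(h ^ k • q) / q, hmT (hquot _)⟩ := by
      intro k
      induction k with
      | zero =>
        rw [prod_range_zero]
        have h2 : (⟨(h ^ 0 • q) / q, hmT (hquot _)⟩ : T) = 1 := Subtype.ext (by
          show (h ^ 0 • q) / q = 1
          rw [pow_zero, one_smul, div_self hq0])
        rw [h2, map_one]
      | succ k ih =>
        have h3 : KRFix N z' (h ^ k • ((h • q) / q)) := krFix_smul hs (hquot h) _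
        rw [prod_range_succ, ih, ← iter g h Hg k ⟨(h • q) / q, hmT (hquot h)⟩
          ⟨h ^ k • ((h • q) / q), hmT h3⟩ (hquot h) rfl, ← map_mul]
        congr 1
        apply Subtype.ext
        show (h ^ k • q) / q * h ^ k • ((h • q) / q) = (h ^ (k + 1) • q) / q
        rw [pow_succ, mul_smul, smul_div₀']
        have h4 := hgq0 (h ^ k)
        field_simp
    rw [h1 p, ← map_pow]
    congr 1
    apply Subtype.ext
    show (h ^ p • q) / q = ((ζT ^ a : T) : S)
    rw [hpq _ a n hn hh, mul_div_assoc, div_self hq0, mul_one]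
    rfl
  have hrel1 : ∀ (g : GG p) (h : H), (∀ t t' : T, KRFix N z' (t : S) →
      (t' : S) = h • (t : S) → τ t' = g • τ t) →
      g • τ ⟨q ^ p, hmT hlam⟩ = τ ⟨(h • q) / q, hmT (hquot h)⟩ ^ p * τ ⟨q ^ p, hmT hlam⟩ := by
    intro g h Hg
    rw [← Hg ⟨q ^ p, hmT hlam⟩ ⟨h • q ^ p, hmT (krFix_smul hs hlam h)⟩ hlam rfl, ← map_pow,
      ← map_mul]
    congr 1
    apply Subtype.ext
    show h • q ^ p = ((h • q) / q) ^ p * q ^ p
    rw [smul_pow', ← mul_pow, div_mul_cancel₀ _ hq0]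
  refine ⟨⟨q ^ p, hmT hlam⟩, ⟨(hx • q) / q, hmT (hquot hx)⟩, ⟨(hy • q) / q, hmT (hquot hy)⟩,
    hx, hy, αx, αy, κ, nx, ny, nk, rfl, ?_, ?_, hrel1 _ hx Hx, hrel1 _ hy Hy,
    hprod _ hx Hx αx nx hnx hαx, hprod _ hy Hy αy ny hny hαy, ?_, hnx, hny, hnk, hαx, hαy, hκ⟩
  · intro h
    exact div_ne_zero (hgq0 hx) hq0 (congrArg Subtype.val h)
  · intro h
    exact div_ne_zero (hgq0 hy) hq0 (congrArg Subtype.val h)
  · have f1 : KRFix N z' (hx • ((hy • q) / q)) := krFix_smul hs (hquot hy) _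
    have f2 : KRFix N z' (hy • ((hx • q) / q)) := krFix_smul hs (hquot hx) _
    rw [← Hx ⟨(hy • q) / q, hmT (hquot hy)⟩ ⟨hx • ((hy • q) / q), hmT f1⟩ (hquot hy) rfl,
      ← Hy ⟨(hx • q) / q, hmT (hquot hx)⟩ ⟨hy • ((hx • q) / q), hmT f2⟩ (hquot hx) rfl,
      ← map_mul, ← map_mul, ← map_pow, ← map_mul]
    congr 1
    apply Subtype.ext
    show (hx • q) / q * hx • ((hy • q) / q) =
      (ζT : S) ^ κ * ((hy • q) / q * hy • ((hx • q) / q))
    have g1 : hx * hy = z' ^ κ * nk * (hy * hx) := by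
      rw [← hκ]
      group
    have g2 : nk • (hy * hx) • q = (hy * hx) • q := by
      have h1 : (hy * hx)⁻¹ * nk * (hy * hx) ∈ N := by
        have := hs.normal.conj_mem nk hnk (hy * hx)⁻¹
        rwa [inv_inv] at this
      have h2 : nk • (hy * hx) • q = (hy * hx) • ((hy * hx)⁻¹ * nk * (hy * hx)) • q := by
        rw [smul_smul, smul_smul]
        congr 1
        group
      rw [h2, hs.qN _ h1]
    have g3 : z' • (hy * hx) • q = (ζT : S) * (hy * hx) • q := by
      have h1 := (hquot (hy * hx)).2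
      rw [smul_div₀', hs.zq] at h1
      have hz0 : (ζT : S) ≠ 0 := hζ.ne_zero (Fact.out : p.Prime).ne_zero
      field_simp at h1
      rw [h1]
    have g4 : (hx * hy) • q = (ζT : S) ^ κ * (hy * hx) • q := by
      rw [g1, mul_smul, mul_smul, g2]
      exact kr_zpow hs hζf g3 κ
    have g5 : (hx • q) / q * hx • ((hy • q) / q) = ((hx * hy) • q) / q := by
      rw [smul_div₀', mul_smul]
      have := hgq0 hx
      field_simp
    have g6 : (hy • q) / q * hy • ((hx • q) / q) = ((hy * hx) • q) / q := by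
      rw [smul_div₀', mul_smul]
      have := hgq0 hy
      field_simp
    rw [g5, g6, g4, mul_div_assoc]

end OddGp
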