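import Mathlib
import Pool.Agent.W_MP_bec7e1_h80.KumDef

/-!
# Selection of a Kummer step not contained in a given subfield
-/

namespace OddGp

variable {p : ℕ} [Fact p.Prime]

/-- Galois correspondence for a finite group acting, perhaps not faithfully, on a field. -/
theorem kumSel_gal {S H : Type} [Field S] [Group H] [Finite H] [MulSemiringAction H S]
    (N : Subgroup H) (hI : ∀ h : H, (∀ s : S, h • s = s) → h ∈ N) (h : H)
    (hh : ∀ s : S, (∀ n ∈ N, n • s = s) → h • s = s) : h ∈ N := by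
  let F := FixedPoints.subfield H S
  let φ : H →* (S ≃ₐ[F] S) := MulSemiringAction.toAlgAut H F S
  have hφ : ∀ (g : H) (s : S), φ g s = g • s := fun g s => rfl
  have h1 : φ h ∈ (N.map φ) := by
    rw [← IntermediateField.fixingSubgroup_fixedField (N.map φ)]
    rw [IntermediateField.mem_fixingSubgroup_iff]
    intro x hx
    have hx' : ∀ g ∈ N.map φ, g x = x := by
      intro g hg
      exact hx ⟨g, hg⟩
    rw [hφ]
    refine hh x fun n hn => ?_
    rw [← hφ]
    exact hx' _ (Subgroup.mem_map_of_mem φ hn)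
  obtain ⟨n, hn, hnh⟩ := h1
  have h2 : n⁻¹ * h ∈ N := by
    refine hI _ fun s => ?_
    have h3 : n • s = h • s := by
      rw [← hφ, ← hφ, hnh]
    rw [mul_smul, ← h3, inv_smul_smul]
  have h4 := N.mul_mem hn h2
  rwa [mul_inv_cancel_left] at h4

/-- A maximal normal subgroup with fixed elements outside `T`. -/
theorem kumSel_max {S H : Type} [Field S] [Group H] [Finite H] [MulSemiringAction H S]
    (T : Subfield S) (hT : ∃ s, s ∉ T) :
    ∃ N : Subgroup H, N.Normal ∧ (∀ h : H, (∀ s : S, h • s = s) → h ∈ N) ∧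
      (∃ s, s ∉ T ∧ ∀ n ∈ N, n • s = s) ∧ ∀ N' : Subgroup H, N'.Normal → N ≤ N' → ¬ N' ≤ N →
        ∀ s : S, (∀ n ∈ N', n • s = s) → s ∈ T := by
  classical
  let P : Set (Subgroup H) := {N | N.Normal ∧ (∀ h : H, (∀ s : S, h • s = s) → h ∈ N) ∧
      ∃ s, s ∉ T ∧ ∀ n ∈ N, n • s = s}
  let I : Subgroup H :=
    { carrier := {h | ∀ s : S, h • s = s}
      mul_mem' := fun {a b} ha hb s => by
        have ha' : ∀ s : S, a • s = s := ha
        have hb' : ∀ s : S, b • s = s := hb
        rw [mul_smul, hb', ha']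
      one_mem' := fun s => one_smul _ _
      inv_mem' := fun {a} ha s => by
        have ha' : ∀ s : S, a • s = s := ha
        conv_lhs => rw [← ha' s]
        rw [inv_smul_smul] }
  have hIP : I ∈ P := by
    refine ⟨⟨fun n hn g s => ?_⟩, fun h hh => hh, ?_⟩
    · have hn' : ∀ s : S, n • s = s := hn
      rw [mul_smul, mul_smul, hn', smul_inv_smul]
    · obtain ⟨s, hs⟩ := hT
      exact ⟨s, hs, fun n hn => hn s⟩
  obtain ⟨N, -, hN⟩ := (Set.toFinite P).exists_le_maximal hIP
  obtain ⟨hN1, hN2, hN3⟩ := hN.1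
  refine ⟨N, hN1, hN2, hN3, ?_⟩
  intro N' hN' hle hnle s hs
  by_contra hsT
  exact hnle (hN.2 ⟨hN', fun h hh => hle (hN2 h hh), s, hsT, hs⟩ hle)

/-- Eigenvectors. -/
theorem kumSel_eigen {S H : Type} [Field S] [Group H] [MulSemiringAction H S]
    (T : Subfield S) (N : Subgroup H) (hN : N.Normal) (z : H) (ζ : S) (hζ : IsPrimitiveRoot ζ p)
    (hζz : z • ζ = ζ) (hζT : ζ ∈ T) (hζN : ∀ n ∈ N, n • ζ = ζ) (hzp : z ^ p ∈ N) (s : S)
    (hs : ∀ n ∈ N, n • s = s) (hsT : s ∉ T) :
    ∃ i < p, ∃ q, q ∉ T ∧ (∀ n ∈ N, n • q = q) ∧ z • q = ζ ^ i * q := by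
  have hp : p.Prime := Fact.out
  haveI : NeZero p := ⟨hp.ne_zero⟩
  have hζ0 : ζ ≠ 0 := hζ.ne_zero hp.ne_zero
  let q : ℕ → S := fun i => ∑ t ∈ Finset.range p, (ζ⁻¹) ^ (i * t) * (z ^ t • s)
  have hzinv : z • (ζ⁻¹) = ζ⁻¹ := by
    rw [smul_inv'', hζz]
  have hqN : ∀ i, ∀ n ∈ N, n • q i = q i := by
    intro i n hn
    show n • (∑ t ∈ Finset.range p, (ζ⁻¹) ^ (i * t) * (z ^ t • s)) = _
    rw [Finset.smul_sum]
    refine Finset.sum_congr rfl fun t _ => ?_
    have h1 : n • (z ^ t • s) = z ^ t • s := by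
      have h2 : (z ^ t)⁻¹ * n * z ^ t ∈ N := by
        have := hN.conj_mem n hn ((z ^ t)⁻¹)
        rwa [inv_inv] at this
      have h3 := hs _ h2
      rw [← mul_smul]
      conv_rhs => rw [← h3]
      rw [← mul_smul]
      congr 1
      group
    rw [smul_mul', smul_pow', smul_inv'', hζN n hn, h1]
  have hzq : ∀ i, z • q i = ζ ^ i * q i := by
    intro i
    have h1 : z • q i = ∑ t ∈ Finset.range p, (ζ⁻¹) ^ (i * t) * (z ^ (t + 1) • s) := by
      show z • (∑ t ∈ Finset.range p, (ζ⁻¹) ^ (i * t) * (z ^ t • s)) = _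
      rw [Finset.smul_sum]
      refine Finset.sum_congr rfl fun t _ => ?_
      rw [smul_mul', smul_pow', hzinv, ← mul_smul, ← pow_succ']
    have h2 : ∀ t, (ζ⁻¹) ^ (i * t) * (z ^ (t + 1) • s) =
        ζ ^ i * ((ζ⁻¹) ^ (i * (t + 1)) * (z ^ (t + 1) • s)) := by
      intro t
      have h3 : (ζ⁻¹) ^ (i * t) = ζ ^ i * (ζ⁻¹) ^ (i * (t + 1)) := by
        rw [mul_add, mul_one, pow_add]
        have h4 : ζ ^ i * (ζ⁻¹) ^ i = 1 := by
          rw [← mul_pow, mul_inv_cancel₀ hζ0, one_pow]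
        calc (ζ⁻¹) ^ (i * t) = (ζ⁻¹) ^ (i * t) * (ζ ^ i * (ζ⁻¹) ^ i) := by rw [h4, mul_one]
          _ = ζ ^ i * ((ζ⁻¹) ^ (i * t) * (ζ⁻¹) ^ i) := by ring
      rw [h3, mul_assoc]
    rw [h1, Finset.sum_congr rfl fun t _ => h2 t, ← Finset.mul_sum]
    congr 1
    show ∑ t ∈ Finset.range p, (ζ⁻¹) ^ (i * (t + 1)) * (z ^ (t + 1) • s) =
      ∑ t ∈ Finset.range p, (ζ⁻¹) ^ (i * t) * (z ^ t • s)
    have h5 := Finset.sum_range_succ' (fun t => (ζ⁻¹) ^ (i * t) * (z ^ t • s)) p
    have h6 := Finset.sum_range_succ (fun t => (ζ⁻¹) ^ (i * t) * (z ^ t • s)) p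
    have h7 : (ζ⁻¹) ^ (i * p) * (z ^ p • s) = (ζ⁻¹) ^ (i * 0) * (z ^ 0 • s) := by
      rw [hs _ hzp, mul_zero, pow_zero, pow_zero, one_smul, one_mul, mul_comm i p, pow_mul, inv_pow,
        hζ.pow_eq_one, inv_one, one_pow, one_mul]
    rw [h6, h7] at h5
    exact (add_right_cancel h5).symm
  have hsum : ∑ i ∈ Finset.range p, q i = (p : S) * s := by
    show ∑ i ∈ Finset.range p, ∑ t ∈ Finset.range p, (ζ⁻¹) ^ (i * t) * (z ^ t • s) = _
    rw [Finset.sum_comm]
    have h1 : ∀ t ∈ Finset.range p, ∑ i ∈ Finset.range p, (ζ⁻¹) ^ (i * t) * (z ^ t • s) =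
        if t = 0 then (p : S) * s else 0 := by
      intro t ht
      rw [← Finset.sum_mul]
      by_cases h0 : t = 0
      · subst h0
        simp
      · rw [if_neg h0]
        have h2 : ζ⁻¹ ^ t ≠ 1 := by
          intro h3
          rw [inv_pow, inv_eq_one] at h3
          have h4 := (hζ.pow_eq_one_iff_dvd t).1 h3
          exact absurd (Nat.le_of_dvd (Nat.pos_of_ne_zero h0) h4)
            (not_le.2 (Finset.mem_range.1 ht))
        have h3 : ∑ i ∈ Finset.range p, (ζ⁻¹) ^ (i * t) =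
            ∑ i ∈ Finset.range p, ((ζ⁻¹) ^ t) ^ i := by
          refine Finset.sum_congr rfl fun i _ => ?_
          rw [← pow_mul, mul_comm]
        have h4 := geom_sum_mul ((ζ⁻¹) ^ t) p
        have h5 : ((ζ⁻¹) ^ t) ^ p = 1 := by
          rw [← pow_mul, mul_comm, pow_mul, inv_pow, hζ.pow_eq_one, inv_one, one_pow]
        rw [h5, sub_self] at h4
        rw [h3, (mul_eq_zero.1 h4).resolve_right (sub_ne_zero.2 h2), zero_mul]
    rw [Finset.sum_congr rfl h1, Finset.sum_ite_eq' (Finset.range p) 0]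
    rw [if_pos (Finset.mem_range.2 hp.pos)]
  by_contra hcon
  push Not at hcon
  have hall : ∀ i ∈ Finset.range p, q i ∈ T := by
    intro i hi
    by_contra hq
    exact hcon i (Finset.mem_range.1 hi) (q i) hq (hqN i) (hzq i)
  have h1 : (p : S) * s ∈ T := by
    rw [← hsum]
    exact T.sum_mem hall
  have hp0 : (p : S) ≠ 0 := by
    haveI := hζ.neZero'
    exact NeZero.ne _
  apply hsT
  have h2 : s = (p : S)⁻¹ * ((p : S) * s) := by
    rw [inv_mul_cancel_left₀ hp0]
  rw [h2]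
  exact T.mul_mem (T.inv_mem (natCast_mem T p)) h1

/-- TASK. Selection of a Kummer step.
Proof. Let `I` be the kernel of the action of `H` on `S`. The normal subgroup `N = I` has the
property: `N ⊇ I`, and not all elements of `S` fixed by `N` lie in `T` (`hT`). The subgroup `⊤` does
not have it (`hfix`). Let `N ⊇ I` be a normal subgroup of maximal cardinality with `S^N ⊄ T`. `H / N`
is a nontrivial `p`-group, so it has a central element of order `p`; let `z ∈ H` be a lift: `z ∉ N`,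
`z^p ∈ N`, `h z h⁻¹ z⁻¹ ∈ N` for all `h`. The subgroup `N'` generated by `N` and `z` is normal and
strictly larger, so `S^{N'} ⊆ T`: every `s ∈ S` fixed by `N` and `z` lies in `T`. Now `z` acts on
the field `S^N` with `z^p = 1`, as an `S^{N'}`-linear map; `S^N = ⨁_{i<p} {s | z s = ζ^i s}` (for
`s ∈ S^N` the element `s_i = ∑_{t<p} ζ^{-i t} z^t s` satisfies `z s_i = ζ^i s_i` and
`∑_i s_i = p s`; `p ≠ 0` in `S` because `S` has a primitive `p`-th root of unity, `ζ` fixed by `H`).
If all the `s_i` were in `T` for all `s ∈ S^N`, then `S^N ⊆ T`, a contradiction; so there are `i` and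
`q' ∈ S^N`, `q' ∉ T`, `z q' = ζ^i q'`; `i ≠ 0` mod `p` as `q'` is not fixed by `z`. Replace `z` by
`z^e` with `e i = 1` modulo `p` (it has all the same properties: `z ∈ ⟨z^e, N⟩`): then
`z^e q' = ζ q'`. The property `galN` (Galois correspondence: if `h` fixes `S^N` pointwise then
`h ∈ N`, as `N ⊇ I`): apply Artin to the image of `H` in `Aut(S)`: the image of `h` fixes the fixed
field of the image of `N`, so it lies in the image of `N`
(for instance `IntermediateField.fixingSubgroup_fixedField`, or: the group generated by `N` and `h`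
has the same fixed field as `N`, and `[S : S^M] = |M / I|` for `M ⊇ I`). -/
theorem kummer_select {S H : Type} [Field S] [Group H] [Finite H] [MulSemiringAction H S]
    (hH : IsPGroup p H) (T : Subfield S) (hT : ∃ s, s ∉ T)
    (hfix : ∀ s : S, (∀ h : H, h • s = s) → s ∈ T) (ζ : S) (hζ : IsPrimitiveRoot ζ p)
    (hζf : ∀ h : H, h • ζ = ζ) :
    ∃ (N : Subgroup H) (z : H) (q : S), Sel p T ζ N z q := by
  have hp : p.Prime := Fact.out
  obtain ⟨N, hN, hI, ⟨s, hsT, hs⟩, hmax⟩ := kumSel_max (H := H) T hT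
  have hζT : ζ ∈ T := hfix ζ hζf
  -- the quotient is not trivial
  have hne : Nontrivial (H ⧸ N) := by
    by_contra hcon
    rw [not_nontrivial_iff_subsingleton] at hcon
    apply hsT
    refine hfix s fun h => hs h ?_
    have h1 : (QuotientGroup.mk h : H ⧸ N) = QuotientGroup.mk 1 := Subsingleton.elim _ _
    have h2 := QuotientGroup.eq.1 h1.symm
    simpa using h2
  have hq : IsPGroup p (H ⧸ N) := hH.to_quotient N
  haveI : Nontrivial (Subgroup.center (H ⧸ N)) := hq.center_nontrivial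
  have hqc : IsPGroup p (Subgroup.center (H ⧸ N)) := hq.to_subgroup _
  have hdvd : p ∣ Nat.card (Subgroup.center (H ⧸ N)) := by
    obtain ⟨n, hn0, hn⟩ := hqc.nontrivial_iff_card.mp inferInstance
    rw [hn]
    exact dvd_pow_self p hn0.ne'
  obtain ⟨c, hc⟩ := exists_prime_orderOf_dvd_card' p hdvd
  obtain ⟨z, hz⟩ := QuotientGroup.mk_surjective (c : H ⧸ N)
  have hcc : ∀ g : H ⧸ N, g * (c : H ⧸ N) = (c : H ⧸ N) * g := Subgroup.mem_center_iff.1 c.2
  have hc1 : (c : H ⧸ N) ≠ 1 := by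
    intro h
    have h1 : c = 1 := Subtype.ext h
    rw [h1, orderOf_one] at hc
    exact hp.one_lt.ne hc
  have hcp : (c : H ⧸ N) ^ p = 1 := by
    have h1 : c ^ p = 1 := by
      rw [← hc]
      exact pow_orderOf_eq_one c
    have h2 := congrArg Subtype.val h1
    simpa using h2
  have hmem : ∀ g : H, g ∈ N ↔ (QuotientGroup.mk g : H ⧸ N) = 1 := fun g =>
    (QuotientGroup.eq_one_iff g).symm
  have hzN : z ∉ N := by
    rw [hmem, hz]
    exact hc1
  have hzp : z ^ p ∈ N := by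
    rw [hmem, QuotientGroup.mk_pow, hz, hcp]
  have hzc : ∀ h : H, h * z * h⁻¹ * z⁻¹ ∈ N := by
    intro h
    rw [hmem]
    simp only [QuotientGroup.mk_mul, QuotientGroup.mk_inv, hz]
    rw [hcc, mul_inv_cancel_right, mul_inv_cancel]
  -- the elements fixed by N and z
  have hfixz : ∀ s : S, (∀ n ∈ N, n • s = s) → z • s = s → s ∈ T := by
    intro s hs hzs
    let N' : Subgroup H := (Subgroup.zpowers (c : H ⧸ N)).comap (QuotientGroup.mk' N)
    have hN'n : N'.Normal := by
      have h1 : (Subgroup.zpowers (c : H ⧸ N)).Normal := by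
        refine ⟨fun n hn g => ?_⟩
        obtain ⟨k, rfl⟩ := Subgroup.mem_zpowers_iff.1 hn
        have h2 : g * (c : H ⧸ N) ^ k = (c : H ⧸ N) ^ k * g := by
          have h3 : Commute g (c : H ⧸ N) := hcc g
          exact (h3.zpow_right k)
        rw [h2, mul_inv_cancel_right]
        exact hn
      exact h1.comap _
    have hle : N ≤ N' := by
      intro n hn
      rw [Subgroup.mem_comap]
      have h1 : (QuotientGroup.mk' N) n = 1 := (hmem n).1 hn
      rw [h1]
      exact one_mem _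
    have hzN' : z ∈ N' := by
      rw [Subgroup.mem_comap]
      have h1 : (QuotientGroup.mk' N) z = (c : H ⧸ N) := hz
      rw [h1]
      exact Subgroup.mem_zpowers _
    refine hmax N' hN'n hle (fun h => hzN (h hzN')) s ?_
    intro n hn
    rw [Subgroup.mem_comap] at hn
    obtain ⟨k, hk⟩ := Subgroup.mem_zpowers_iff.1 hn
    have h1 : (z ^ k)⁻¹ * n ∈ N := by
      rw [hmem]
      have h2 : (QuotientGroup.mk n : H ⧸ N) = (c : H ⧸ N) ^ k := hk.symm
      simp only [QuotientGroup.mk_mul, QuotientGroup.mk_inv, QuotientGroup.mk_zpow, hz]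
      rw [h2, inv_mul_cancel]
    have h2 := hs _ h1
    have h3 : ∀ k : ℤ, z ^ k • s = s := by
      have h4 : z ∈ MulAction.stabilizer H s := hzs
      intro k
      exact (MulAction.stabilizer H s).zpow_mem h4 k
    rw [mul_smul, inv_smul_eq_iff, h3] at h2
    exact h2
  obtain ⟨i, hip, q, hqT, hqN, hzq⟩ := kumSel_eigen T N hN z ζ hζ (hζf z) hζT
    (fun n _ => hζf n) hzp s hs hsT
  have hi0 : i ≠ 0 := by
    rintro rfl
    rw [pow_zero, one_mul] at hzq
    exact hqT (hfixz q hqN hzq)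
  have hcop : Nat.Coprime i p :=
    Nat.Coprime.symm ((Nat.Prime.coprime_iff_not_dvd hp).2 fun h =>
      absurd (Nat.le_of_dvd (Nat.pos_of_ne_zero hi0) h) (not_le.2 hip))
  obtain ⟨e, he⟩ := Nat.exists_mul_mod_eq_one_of_coprime hcop hp.one_lt
  have hie : i * e = 1 + p * (i * e / p) := by
    have h1 := Nat.mod_add_div (i * e) p
    omega
  have hζz : ∀ k : ℕ, ∀ j : ℕ, z ^ k • (ζ ^ j) = ζ ^ j := by
    intro k j
    rw [smul_pow', hζf]
  have hzk : ∀ k : ℕ, z ^ k • q = ζ ^ (i * k) * q := by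
    intro k
    induction k with
    | zero => simp
    | succ k ih =>
      rw [pow_succ, mul_smul, hzq, smul_mul', hζz, ih, ← mul_assoc, ← pow_add]
      congr 2
      ring
  refine ⟨N, z ^ e, q, ⟨hN, hqN, hqT, ?_, ?_, ?_, kumSel_gal N hI, ?_⟩⟩
  · rw [hzk, hie, pow_add, pow_one, pow_mul, hζ.pow_eq_one, one_pow, mul_one]
  · rw [← pow_mul, mul_comm e p, pow_mul]
    exact N.pow_mem hzp e
  · intro h
    rw [hmem]
    simp only [QuotientGroup.mk_mul, QuotientGroup.mk_inv, QuotientGroup.mk_pow, hz]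
    have h3 : Commute (QuotientGroup.mk h : H ⧸ N) (c : H ⧸ N) := hcc _
    have h4 : (QuotientGroup.mk h : H ⧸ N) * (c : H ⧸ N) ^ e =
        (c : H ⧸ N) ^ e * (QuotientGroup.mk h : H ⧸ N) := h3.pow_right e
    rw [h4, mul_inv_cancel_right, mul_inv_cancel]
  · intro s hs hzs
    refine hfixz s hs ?_
    have h1 : ∀ k : ℕ, (z ^ e) ^ k • s = s := by
      have h4 : z ^ e ∈ MulAction.stabilizer H s := hzs
      intro k
      exact (MulAction.stabilizer H s).pow_mem h4 k
    have h2 := h1 i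
    rw [← pow_mul, mul_comm e i, hie, pow_add, pow_one, mul_smul, pow_mul,
      hs _ (N.pow_mem hzp _)] at h2
    exact h2

end OddGp
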