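import Mathlib
import Pool.Agent.W_MP_bec7e1_h80.Abs
import Pool.Agent.W_MP_bec7e1_h80.GroupLem
import Pool.Agent.W_MP_bec7e1_h80.KumSel
import Pool.Agent.W_MP_bec7e1_h80.KumRel

/-!
# From the residue field to bad data
-/

namespace OddGp

open Finset

variable {p : ℕ} [Fact p.Prime] {K : Type} [Field K] [CharZero K] [MulSemiringAction (GG p) K]

section KumMainAux

variable {c : Coc (GG p) K} {S : Type} [Field S] (ρ : S →+* CP c)

omit [CharZero K] in
theorem km_inj : Function.Injective ρ := RingHom.injective ρ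

/-- the subfield of the elements with values in `K^z` -/
def kmT : Subfield S where
  carrier := {s | ∃ a : K, (GG.z : GG p) • a = a ∧ CP.of c a = ρ s}
  mul_mem' := by
    rintro s t ⟨a, ha, ha'⟩ ⟨b, hb, hb'⟩
    exact ⟨a * b, by rw [smul_mul', ha, hb], by rw [map_mul, map_mul, ha', hb']⟩
  one_mem' := ⟨1, smul_one _, by rw [map_one, map_one]⟩
  add_mem' := by
    rintro s t ⟨a, ha, ha'⟩ ⟨b, hb, hb'⟩
    exact ⟨a + b, by rw [smul_add, ha, hb], by rw [map_add, map_add, ha', hb']⟩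
  zero_mem' := ⟨0, smul_zero _, by rw [map_zero, map_zero]⟩
  neg_mem' := by
    rintro s ⟨a, ha, ha'⟩
    exact ⟨-a, by rw [smul_neg, ha], by rw [map_neg, map_neg, ha']⟩
  inv_mem' := by
    rintro s ⟨a, ha, ha'⟩
    refine ⟨a⁻¹, by rw [smul_inv'', ha], ?_⟩
    by_cases hs : s = 0
    · subst hs
      have h1 : a = 0 := by
        apply CP.of_injective (c := c)
        rw [ha', map_zero, map_zero]
      rw [h1, inv_zero, inv_zero, map_zero, map_zero]
    · have h0 : a ≠ 0 := by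
        rintro rfl
        apply hs
        apply km_inj ρ
        rw [← ha', map_zero, map_zero]
      have h1 : CP.of c a⁻¹ * ρ s = 1 := by
        rw [← ha', ← map_mul, inv_mul_cancel₀ h0, map_one]
      calc CP.of c a⁻¹ = CP.of c a⁻¹ * (ρ s * ρ s⁻¹) := by
            rw [← map_mul, mul_inv_cancel₀ hs, map_one, mul_one]
        _ = ρ s⁻¹ := by rw [← mul_assoc, h1, one_mul]

omit [CharZero K] in
theorem mem_kmT {s : S} : s ∈ kmT ρ ↔ ∃ a : K, (GG.z : GG p) • a = a ∧ CP.of c a = ρ s := Iff.rfl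

omit [CharZero K] in
theorem kmTau_exists : ∃ τ : kmT ρ →+* K, ∀ t : kmT ρ, (GG.z : GG p) • τ t = τ t ∧
    CP.of c (τ t) = ρ (t : S) := by
  choose f hf1 hf2 using fun t : kmT ρ => (mem_kmT ρ).1 t.2
  have hinj := CP.of_injective (c := c)
  refine ⟨{ toFun := f
            map_one' := hinj (by rw [hf2, map_one]; exact map_one ρ)
            map_mul' := fun a b => hinj (by
              rw [hf2, map_mul, hf2, hf2]
              exact map_mul ρ (a : S) (b : S))
            map_zero' := hinj (by rw [hf2, map_zero]; exact map_zero ρ)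
            map_add' := fun a b => hinj (by
              rw [hf2, map_add, hf2, hf2]
              exact map_add ρ (a : S) (b : S)) }, fun t => ⟨hf1 t, hf2 t⟩⟩

end KumMainAux

/-- TASK. From the residue field to bad data.
Proof. Let `T = {s | ∃ a, z a = a, of a = ρ s}`, a subfield of `S` (`ρ` is injective, `S` a field),
`τ : T → K` the corresponding ring hom (`of (τ t) = ρ t`), `z (τ t) = τ t`. `T` contains the elements
fixed by `H` (`hfix`), `T ≠ S` (`hne`), and `ζ_S ∈ S` with `ρ ζ_S = of ζ` is a primitive root, fixed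
by `H` (`hfix'`). `H` is a `p`-group. Apply `kummer_select` and `kummer_rel`.
`BadType c ζ αx αy κ` holds with `ρ q` for `q` (`(ρ q)^p = ρ (q^p) = of (τ lam)`, `q ∉ T`).
If `N ≠ ⊥`, `comm_of_ne_bot` gives `z'^κ ∈ N`, so `ζ^κ q = z'^κ q = q` and `p ∣ κ`.
If `N = ⊥`: `z'` is central in `H`, `z'^p = 1`, `z' ≠ 1` (`z' q = ζ q ≠ q`),
`h_x^p = z'^αx`, `h_y^p = z'^αy`, `h_x h_y = z'^κ h_y h_x`; if `p ∤ κ` and not both `αx`, `αy` are
divisible by `p`, `group_lemma` gives `H ≃* GG p`. -/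
theorem kummer_main (hp2 : p ≠ 2) [FaithfulSMul (GG p) K] (c : Coc (GG p) K) (ζ : K)
    (hζ : IsPrimitiveRoot ζ p) (hζf : ∀ g : GG p, g • ζ = ζ) {S H : Type} [Field S] [Group H]
    [Finite H] [MulSemiringAction H S] (ρ : S →+* CP c) (hcard : Nat.card H = p ^ 3)
    (hQ : ∀ s, ρ s ∈ QQ c)
    (hfix : ∀ s : S, (∀ h : H, h • s = s) → ∃ a : K, (∀ g : GG p, g • a = a) ∧ CP.of c a = ρ s)
    (hfix' : ∀ a : K, (∀ g : GG p, g • a = a) → ∃ s : S, (∀ h : H, h • s = s) ∧ CP.of c a = ρ s)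
    (hne : ∃ s : S, ∀ a : K, (GG.z : GG p) • a = a → CP.of c a ≠ ρ s) :
    Nonempty (H ≃* GG p) ∨ ∃ αx αy κ : ℤ, BadType c ζ αx αy κ ∧
      ((p : ℤ) ∣ κ ∨ ((p : ℤ) ∣ αx ∧ (p : ℤ) ∣ αy)) := by
  have hp : p.Prime := Fact.out
  have hH : IsPGroup p H := IsPGroup.of_card hcard
  have hinj := CP.of_injective (c := c)
  obtain ⟨τ, hτ⟩ := kmTau_exists ρ
  have hfixT : ∀ s : S, (∀ h : H, h • s = s) → s ∈ kmT ρ := by
    intro s hs
    obtain ⟨a, ha, ha'⟩ := hfix s hs
    exact ⟨a, ha _, ha'⟩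
  obtain ⟨ζS, hζS, hζS'⟩ := hfix' ζ hζf
  have hprim : IsPrimitiveRoot ζS p := by
    have h1 : ∀ l : ℕ, ζS ^ l = 1 ↔ ζ ^ l = 1 := by
      intro l
      rw [← (km_inj ρ).eq_iff, ← hinj.eq_iff, map_pow, map_one, map_pow, map_one, hζS']
    exact ⟨(h1 p).2 hζ.pow_eq_one, fun l hl => hζ.dvd_of_pow_eq_one l ((h1 l).1 hl)⟩
  have hTne : ∃ s, s ∉ kmT ρ := by
    obtain ⟨s, hs⟩ := hne
    refine ⟨s, ?_⟩
    rintro ⟨a, ha, ha'⟩
    exact hs a ha ha'
  obtain ⟨N, z', q, hs⟩ := kummer_select hH (kmT ρ) hTne hfixT ζS hprim hζS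
  have hτf : ∀ t : kmT ρ, (∀ h : H, h • (t : S) = t) → ∀ g : GG p, g • τ t = τ t := by
    intro t ht
    obtain ⟨a, ha, ha'⟩ := hfix t ht
    have h1 : τ t = a := hinj (by rw [(hτ t).2, ha'])
    rw [h1]
    exact ha
  have hτζ : τ ⟨ζS, hfixT ζS hζS⟩ = ζ := hinj (by rw [(hτ _).2, hζS'])
  obtain ⟨lam, mx, my, hx, hy, αx, αy, κ, nx, ny, nk, h1, h2, h3, h4, h5, h6, h7, h8, hnx, hny,
    hnk, h9, h10, h11⟩ := kummer_rel (kmT ρ) τ (fun t => (hτ t).1) hτf ⟨ζS, hfixT ζS hζS⟩ hprim hζS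
      hs
  rw [hτζ] at h6 h7 h8
  have hq0 : q ≠ 0 := fun h => hs.qT (h ▸ (kmT ρ).zero_mem)
  have hlam0 : τ lam ≠ 0 := by
    rw [map_ne_zero]
    intro h
    rw [h] at h1
    exact pow_ne_zero p hq0 h1
  have hbad : BadType c ζ (αx : ℤ) (αy : ℤ) (κ : ℤ) := by
    refine ⟨ρ q, τ lam, τ mx, τ my, hQ q, ?_, hlam0, by rwa [map_ne_zero], by rwa [map_ne_zero],
      (hτ _).1, (hτ _).1, (hτ _).1, ?_, h4, h5, ?_, ?_, ?_⟩
    · intro a ha ha'
      exact hs.qT ⟨a, ha, ha'⟩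
    · rw [(hτ lam).2, ← h1, map_pow]
    · rw [zpow_natCast]
      exact h6
    · rw [zpow_natCast]
      exact h7
    · rw [zpow_natCast]
      exact h8
  by_cases hN : N = ⊥
  · have hbot : ∀ n : H, n ∈ N → n = 1 := by
      intro n hn
      rw [hN] at hn
      exact Subgroup.mem_bot.1 hn
    by_cases hk : (p : ℤ) ∣ κ
    · exact Or.inr ⟨αx, αy, κ, hbad, Or.inl hk⟩
    by_cases hab : (p : ℤ) ∣ αx ∧ (p : ℤ) ∣ αy
    · exact Or.inr ⟨αx, αy, κ, hbad, Or.inr hab⟩
    left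
    refine group_lemma hp2 hcard z' hx hy ?_ ?_ (hbot _ hs.zp) αx αy κ ?_ ?_ ?_ hk hab
    · intro h
      have := hbot _ (hs.zc h)
      rw [mul_inv_eq_one, mul_inv_eq_iff_eq_mul] at this
      exact this.symm
    · intro h
      have hzq := hs.zq
      rw [h, one_smul] at hzq
      have h12 : ζS = 1 := by
        have h13 : (ζS - 1) * q = 0 := by
          rw [sub_mul, one_mul, sub_eq_zero]
          exact hzq.symm
        rcases mul_eq_zero.1 h13 with h14 | h14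
        · exact sub_eq_zero.1 h14
        · exact absurd h14 hq0
      exact hprim.ne_one hp.one_lt h12
    · rw [h9, hbot _ hnx, mul_one, zpow_natCast]
    · rw [h10, hbot _ hny, mul_one, zpow_natCast]
    · rw [hbot _ hnk, mul_one, mul_inv_eq_iff_eq_mul] at h11
      rw [zpow_natCast, h11]
  · refine Or.inr ⟨αx, αy, κ, hbad, Or.inl ?_⟩
    have h12 := comm_of_ne_bot hcard hs.normal hN hx hy
    rw [h11] at h12
    have h13 : z' ^ κ ∈ N := by
      have := N.mul_mem h12 (N.inv_mem hnk)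
      rwa [mul_inv_cancel_right] at this
    have h14 := kr_zpow hs hζS hs.zq κ
    rw [hs.qN _ h13] at h14
    have h15 : ζS ^ κ = 1 := by
      have h16 : (ζS ^ κ - 1) * q = 0 := by
        rw [sub_mul, one_mul, sub_eq_zero]
        exact h14.symm
      rcases mul_eq_zero.1 h16 with h17 | h17
      · exact sub_eq_zero.1 h17
      · exact absurd h17 hq0
    exact_mod_cast (hprim.pow_eq_one_iff_dvd κ).1 h15

end OddGp
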