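import Mathlib
import Pool.Agent.W_MP_bec7e1_h80.DDef

/-!
# The residue field is not contained in `K^z`
-/

namespace OddGp

variable {p : ℕ} [Fact p.Prime] {K : Type} [Field K] [MulSemiringAction (GG p) K]

/-- the elements of degree in `Δ1`: there are at least `p |Δ1|` of them -/
theorem ns_card (Δ1 : Subgroup (GA p)) :
    p * Nat.card Δ1 ≤ Nat.card (Δ1.comap (GG.barHom p)) := by
  classical
  have h1 : Nat.card (ZMod p × Δ1) = p * Nat.card Δ1 := by
    rw [Nat.card_prod, Nat.card_zmod]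
  rw [← h1]
  have : Finite (GG p) := Finite.of_equiv _ (GG.equivProd p).symm
  refine Nat.card_le_card_of_injective
    (fun w : ZMod p × Δ1 => (⟨⟨w.1, w.2.1.i, w.2.1.j⟩, w.2.2⟩ : Δ1.comap (GG.barHom p))) ?_
  intro a b hab
  have h2 : (⟨a.1, a.2.1.i, a.2.1.j⟩ : GG p) = ⟨b.1, b.2.1.i, b.2.1.j⟩ :=
    congrArg Subtype.val hab
  have h3 : a.1 = b.1 := congrArg GG.k h2
  have h4 : a.2.1.i = b.2.1.i := congrArg GG.i h2
  have h5 : a.2.1.j = b.2.1.j := congrArg GG.j h2
  exact Prod.ext h3 (Subtype.ext (GA.ext h4 h5))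

/-- the number of automorphisms induced by a group action is at most the degree -/
theorem ns_aut {k E H : Type} [Field k] [Field E] [Algebra k E] [FiniteDimensional k E] [Group H]
    [Finite H] [MulSemiringAction H E] (hk : ∀ (h : H) (a : k), h • algebraMap k E a = algebraMap k E a) :
    Nat.card H ≤ Nat.card {h : H // ∀ s : E, h • s = s} * Module.finrank k E := by
  classical
  have : SMulCommClass H k E := ⟨fun h a s => by
    rw [Algebra.smul_def, Algebra.smul_def, smul_mul', hk]⟩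
  let φ : H →* (E ≃ₐ[k] E) := MulSemiringAction.toAlgAut H k E
  have h1 : Nat.card H = Nat.card (H ⧸ φ.ker) * Nat.card φ.ker :=
    Subgroup.card_eq_card_quotient_mul_card_subgroup φ.ker
  have h2 : Nat.card (H ⧸ φ.ker) ≤ Module.finrank k E := by
    rw [Nat.card_congr (QuotientGroup.quotientKerEquivRange φ).toEquiv]
    have h3 : Nat.card φ.range ≤ Nat.card (E ≃ₐ[k] E) :=
      Nat.card_le_card_of_injective _ Subtype.val_injective
    rw [Nat.card_eq_fintype_card (α := E ≃ₐ[k] E)] at h3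
    exact h3.trans AlgEquiv.card_le
  have h4 : Nat.card φ.ker = Nat.card {h : H // ∀ s : E, h • s = s} := by
    refine Nat.card_congr (Equiv.subtypeEquivRight fun h => ?_)
    rw [MonoidHom.mem_ker]
    exact ⟨fun h5 s => congrArg (fun f : E ≃ₐ[k] E => f s) h5, fun h5 => AlgEquiv.ext h5⟩
  rw [h1, h4, mul_comm]
  exact Nat.mul_le_mul_left _ h2

/-- TASK. Counting: the residue field is not contained in `L = K^z`.
Proof. Suppose every `ρ s` is `of (τ s)` with `z • τ s = τ s`; `τ : S → K` is a ring hom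
(`CP.of_injective`). Let `G1 = {g : GG p | bar g ∈ Δ1}`; `|G1| = p |Δ1|` (the fibres of `bar` have
`p` elements). For `γ ∈ Δ1` take `b ∈ B_γ`, `b ≠ 0`, commuting with `ρ(S)`: for some `g` with
`bar g = γ`, `b.f g ≠ 0`, and comparing coefficients (`CP.of_mul_f`, `CP.mul_of_f`) of
`of (τ s) * b = b * of (τ s)` at `g`: `τ s * b.f g = b.f g * (g • τ s)`, so `g • τ s = τ s`; as `z`
fixes `τ s`, all `g` with `bar g = γ` fix `τ s` (`GG.ext_bar`). So `G1` fixes `τ(S)`:
`τ(S) ⊆ K^{G1}`. Artin: `[K : K^{G1}] = |G1| = p |Δ1|` and `[K : K^G] = p^3` (faithful action).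
`K^G ⊆ τ(S)` (`hfix'`), and `[τ(S) : K^G] = [S : S^H] = |H / I|` where `I` is the kernel of the
action on `S` (Artin for the image of `H` in `Aut(S)`, `hfix`, `hfix'`: `τ` maps `S^H` onto `K^G`).
So `p^3 = [K : τ(S)] [τ(S) : K^G] ≥ [K : K^{G1}] |H / I| = p |Δ1| |H / I| ≥ p |I| |H / I| = p |H| = p^4`,
a contradiction. (To avoid towers through `τ(S)` one may use: `[K^{G1} : K^G] = p^3 / (p |Δ1|)`,
and `τ(S) ⊆ K^{G1}` gives `|H / I| = [τ(S) : K^G] ≤ [K^{G1} : K^G] = p^2 / |Δ1|`.) -/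
theorem not_sub [FaithfulSMul (GG p) K] (c : Coc (GG p) K) {S H : Type} [Field S] [Group H]
    [Finite H] [MulSemiringAction H S] (ρ : S →+* CP c) (hcard : Nat.card H = p ^ 3)
    (hfix : ∀ s : S, (∀ h : H, h • s = s) → ∃ a : K, (∀ g : GG p, g • a = a) ∧ CP.of c a = ρ s)
    (hfix' : ∀ a : K, (∀ g : GG p, g • a = a) → ∃ s : S, (∀ h : H, h • s = s) ∧ CP.of c a = ρ s)
    (Δ1 : Subgroup (GA p)) (hΔ : Nat.card {h : H // ∀ s : S, h • s = s} ≤ Nat.card Δ1)
    (hb : ∀ γ ∈ Δ1, ∃ b : CP c, b ∈ (grB c).comp γ ∧ b ≠ 0 ∧ ∀ s, ρ s * b = b * ρ s) :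
    ∃ s : S, ∀ a : K, (GG.z : GG p) • a = a → CP.of c a ≠ ρ s := by
  classical
  have _ := hfix
  by_contra hcon
  push Not at hcon
  choose τ0 hz hτ0 using hcon
  have hinj : Function.Injective (CP.of c) := CP.of_injective
  let τ : S →+* K :=
    { toFun := τ0
      map_one' := hinj (by rw [hτ0, map_one, map_one])
      map_mul' := fun a b => hinj (by rw [hτ0, map_mul, map_mul, hτ0, hτ0])
      map_zero' := hinj (by rw [hτ0, map_zero, map_zero])
      map_add' := fun a b => hinj (by rw [hτ0, map_add, map_add, hτ0, hτ0]) }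
  have hτ : ∀ s, CP.of c (τ s) = ρ s := hτ0
  have hzτ : ∀ s, (GG.z : GG p) • τ s = τ s := hz
  -- the elements over `Δ1` fix the image of `τ`
  have hG1 : ∀ g : GG p, GG.bar g ∈ Δ1 → ∀ s, g • τ s = τ s := by
    intro g hg s
    obtain ⟨b, hb1, hb2, hb3⟩ := hb _ hg
    obtain ⟨g0, hg0⟩ : ∃ g0, b.f g0 ≠ 0 := by
      by_contra hall
      push Not at hall
      exact hb2 (CP.ext hall)
    have hbar : GG.bar g = GG.bar g0 := by
      by_contra hne
      exact hg0 (hb1 g0 fun h => hne h.symm)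
    have h1 := congrArg (fun x : CP c => x.f g0) (hb3 s)
    simp only [← hτ, CP.of_mul_f, CP.mul_of_f] at h1
    have h2 : g0 • τ s = τ s := by
      have h3 : b.f g0 * (g0 • τ s) = b.f g0 * τ s := by rw [← h1, mul_comm]
      exact mul_left_cancel₀ hg0 h3
    obtain ⟨n, hn⟩ := GG.ext_bar hbar
    have hpow : ∀ m : ℕ, (GG.z : GG p) ^ m • τ s = τ s := by
      intro m
      induction m with
      | zero => rw [pow_zero, one_smul]
      | succ m ih => rw [pow_succ, mul_smul, hzτ, ih]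
    rw [hn, mul_smul, h2, hpow]
  -- `K ^ G ⊆ S ⊆ K`
  have hσ : ∀ a : FixedPoints.subfield (GG p) K, ∃ s : S, (∀ h : H, h • s = s) ∧ τ s = a := by
    intro a
    obtain ⟨s, hs1, hs2⟩ := hfix' a a.2
    exact ⟨s, hs1, hinj (by rw [hτ, hs2])⟩
  choose σ0 hσ1 hσ2 using hσ
  have hτi : Function.Injective τ := τ.injective
  let σ : FixedPoints.subfield (GG p) K →+* S :=
    { toFun := σ0
      map_one' := hτi (by rw [hσ2, map_one]; rfl)
      map_mul' := fun a b => hτi (by rw [hσ2, map_mul, hσ2, hσ2]; rfl)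
      map_zero' := hτi (by rw [hσ2, map_zero]; rfl)
      map_add' := fun a b => hτi (by rw [hσ2, map_add, hσ2, hσ2]; rfl) }
  letI : Algebra (FixedPoints.subfield (GG p) K) S := σ.toAlgebra
  letI : Algebra S K := τ.toAlgebra
  have htow : IsScalarTower (FixedPoints.subfield (GG p) K) S K :=
    IsScalarTower.of_algebraMap_eq fun a => (hσ2 a).symm
  have hfinS : FiniteDimensional (FixedPoints.subfield (GG p) K) S :=
    FiniteDimensional.left _ S K
  have hfinK : FiniteDimensional S K := FiniteDimensional.right (FixedPoints.subfield (GG p) K) S K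
  have hmul := Module.finrank_mul_finrank (FixedPoints.subfield (GG p) K) S K
  rw [FixedPoints.finrank_eq_card (GG p) K, GG.card] at hmul
  have hS := ns_aut (k := FixedPoints.subfield (GG p) K) (E := S) (H := H) fun h a => hσ1 a h
  have hfinG : Finite (GG p) := Finite.of_equiv _ (GG.equivProd p).symm
  have hK := ns_aut (k := S) (E := K) (H := Δ1.comap (GG.barHom p)) fun g s => hG1 g.1 g.2 s
  have h1 : Nat.card {g : Δ1.comap (GG.barHom p) // ∀ x : K, g • x = x} ≤ 1 := by
    rw [Finite.card_le_one_iff_subsingleton]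
    refine ⟨fun g g' => Subtype.ext (Subtype.ext ?_)⟩
    refine FaithfulSMul.eq_of_smul_eq_smul (α := K) fun x => ?_
    have e1 : (g.1.1 : GG p) • x = x := g.2 x
    have e2 : (g'.1.1 : GG p) • x = x := g'.2 x
    rw [e1, e2]
  have h2 := ns_card Δ1
  have hp : 2 ≤ p := (Fact.out : p.Prime).two_le
  have hp3 : 0 < p ^ 3 := Nat.pow_pos (by omega)
  have hD1 : 1 ≤ Nat.card Δ1 := Nat.one_le_iff_ne_zero.2 (by
    have : Finite (GA p) := Finite.of_equiv _ (GA.equivProd p).symm
    exact Nat.card_pos.ne')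
  rw [hcard] at hS
  generalize Module.finrank (FixedPoints.subfield (GG p) K) S = n at hmul hS
  generalize Module.finrank S K = m at hmul hK
  generalize Nat.card {h : H // ∀ s : S, h • s = s} = I at hS hΔ
  have hK' : Nat.card (Δ1.comap (GG.barHom p)) ≤ m :=
    hK.trans ((Nat.mul_le_mul_right m h1).trans (by rw [one_mul]))
  have h3 : p ^ 3 * m ≤ p ^ 3 * I := by
    calc p ^ 3 * m ≤ I * n * m := Nat.mul_le_mul_right m hS
      _ = p ^ 3 * I := by rw [mul_assoc, hmul, mul_comm]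
  have h4 : m ≤ I := Nat.le_of_mul_le_mul_left h3 hp3
  have h5 : p * Nat.card Δ1 ≤ Nat.card Δ1 := h2.trans (hK'.trans (h4.trans hΔ))
  have h6 : 2 * Nat.card Δ1 ≤ p * Nat.card Δ1 := Nat.mul_le_mul_right _ hp
  omega

end OddGp
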