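import Mathlib
import Pool.Agent.W_MP_bec7e1_h80.HH

/-!
# The residue field of a commutative subfield of a Hahn series ring
-/

namespace OddGp

open HahnSeries

variable {V R K' H : Type} [AddCommGroup V] [LinearOrder V] [IsOrderedAddMonoid V] [Ring R]
  [Field K'] [Group H] [MulSemiringAction H K']

/-- `S` (through `ρ : S → R`) is the residue field of `K'`, with its action of `H`. (The order of
the zero series is `0` in Mathlib.) -/
structure ResOK (H : Type) [Group H] [MulSemiringAction H K'] (φ : K' →+* HahnSeries V R)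
    {S : Type} [Field S] [MulSemiringAction H S] (ρ : S →+* R) : Prop where
  lift : ∀ s, ∃ a, 0 ≤ (φ a).order ∧ (φ a).coeff 0 = ρ s
  red : ∀ a, 0 ≤ (φ a).order → ∃ s, (φ a).coeff 0 = ρ s
  act : ∀ (h : H) (a : K') (s : S), 0 ≤ (φ a).order → (φ a).coeff 0 = ρ s →
    (φ (h • a)).coeff 0 = ρ (h • s)

section Helpers

omit [IsOrderedAddMonoid V] in
theorem rf_le {x : HahnSeries V R} (hx : 0 ≤ x.order) (i : V) (hi : x.coeff i ≠ 0) : 0 ≤ i :=
  hx.trans (order_le_of_coeff_ne_zero hi)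

omit [IsOrderedAddMonoid V] in
theorem rf_order {x : HahnSeries V R} (h : ∀ i, x.coeff i ≠ 0 → 0 ≤ i) : 0 ≤ x.order := by
  by_cases hx : x = 0
  · rw [hx, order_zero]
  · exact h _ (coeff_order_eq_zero.not.2 hx)

theorem rf_coeff_mul {x y : HahnSeries V R} {m n : V} (hx : ∀ i, x.coeff i ≠ 0 → m ≤ i)
    (hy : ∀ i, y.coeff i ≠ 0 → n ≤ i) : (x * y).coeff (m + n) = x.coeff m * y.coeff n := by
  rw [coeff_mul]
  apply Finset.sum_eq_single (m, n)
  · rintro ⟨i, j⟩ hij hne
    exfalso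
    rw [Finset.mem_antidiagonal] at hij
    obtain ⟨h1, h2, h3⟩ := hij
    simp only at h3
    have hi := hx i h1
    have hj := hy j h2
    apply hne
    have hi' : i = m := by
      refine le_antisymm ?_ hi
      by_contra hc
      push Not at hc
      have := add_lt_add_of_lt_of_le hc hj
      exact absurd h3 this.ne'
    subst hi'
    rw [add_left_cancel h3]
  · intro h
    rw [Finset.mem_antidiagonal] at h
    by_contra hc
    apply h
    refine ⟨?_, ?_, rfl⟩
    · intro h0
      apply hc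
      change x.coeff m = 0 at h0
      change x.coeff m * y.coeff n = 0
      rw [h0, zero_mul]
    · intro h0
      apply hc
      change y.coeff n = 0 at h0
      change x.coeff m * y.coeff n = 0
      rw [h0, mul_zero]

theorem rf_coeff_mul0 {x y : HahnSeries V R} (hx : 0 ≤ x.order) (hy : 0 ≤ y.order) :
    (x * y).coeff 0 = x.coeff 0 * y.coeff 0 := by
  have := rf_coeff_mul (rf_le hx) (rf_le hy)
  rwa [add_zero] at this

variable (φ : K' →+* HahnSeries V R)

theorem rf_ne (hlc : ∀ a b, a ≠ 0 → b ≠ 0 → (φ a).leadingCoeff * (φ b).leadingCoeff ≠ 0)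
    {a : K'} (ha : a ≠ 0) : φ a ≠ 0 := by
  intro h
  apply hlc a a ha ha
  rw [h, leadingCoeff_zero, zero_mul]

theorem rf_nontrivial (hlc : ∀ a b, a ≠ 0 → b ≠ 0 → (φ a).leadingCoeff * (φ b).leadingCoeff ≠ 0) :
    Nontrivial R := ⟨_, _, hlc 1 1 one_ne_zero one_ne_zero⟩

theorem rf_order_mul (hlc : ∀ a b, a ≠ 0 → b ≠ 0 → (φ a).leadingCoeff * (φ b).leadingCoeff ≠ 0)
    {a b : K'} (ha : a ≠ 0) (hb : b ≠ 0) :
    (φ (a * b)).order = (φ a).order + (φ b).order := by
  rw [map_mul]
  exact order_mul_of_ne_zero (hlc a b ha hb)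

theorem rf_mul {a b : K'} (ha : 0 ≤ (φ a).order) (hb : 0 ≤ (φ b).order)
    (hlc : ∀ a b, a ≠ 0 → b ≠ 0 → (φ a).leadingCoeff * (φ b).leadingCoeff ≠ 0) :
    0 ≤ (φ (a * b)).order := by
  by_cases ha0 : a = 0
  · rw [ha0, zero_mul, map_zero, order_zero]
  by_cases hb0 : b = 0
  · rw [hb0, mul_zero, map_zero, order_zero]
  rw [rf_order_mul φ hlc ha0 hb0]
  exact add_nonneg ha hb

theorem rf_add {a b : K'} (ha : 0 ≤ (φ a).order) (hb : 0 ≤ (φ b).order) :
    0 ≤ (φ (a + b)).order := by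
  refine rf_order fun i hi => ?_
  rw [map_add, coeff_add] at hi
  by_cases h : (φ a).coeff i = 0
  · rw [h, zero_add] at hi
    exact rf_le hb i hi
  · exact rf_le ha i h

theorem rf_neg {a : K'} (ha : 0 ≤ (φ a).order) : 0 ≤ (φ (-a)).order := by
  refine rf_order fun i hi => ?_
  rw [map_neg, coeff_neg] at hi
  exact rf_le ha i (neg_ne_zero.1 hi)

theorem rf_act0 (hlc : ∀ a b, a ≠ 0 → b ≠ 0 → (φ a).leadingCoeff * (φ b).leadingCoeff ≠ 0)
    (hord : ∀ (h : H) (a : K'), (φ (h • a)).order = (φ a).order) (h : H) {a : K'}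
    (ha : 0 ≤ (φ a).order) (ha' : (φ a).coeff 0 = 0) : (φ (h • a)).coeff 0 = 0 := by
  by_cases ha0 : a = 0
  · rw [ha0, smul_zero, map_zero, coeff_zero]
  · apply coeff_eq_zero_of_lt_order
    rw [hord]
    refine lt_of_le_of_ne ha fun h0 => ?_
    rw [h0] at ha'
    exact rf_ne φ hlc ha0 (coeff_order_eq_zero.1 ha')

theorem rf_act (hlc : ∀ a b, a ≠ 0 → b ≠ 0 → (φ a).leadingCoeff * (φ b).leadingCoeff ≠ 0)
    (hord : ∀ (h : H) (a : K'), (φ (h • a)).order = (φ a).order) (h : H) {a b : K'}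
    (ha : 0 ≤ (φ a).order) (hb : 0 ≤ (φ b).order) (hab : (φ a).coeff 0 = (φ b).coeff 0) :
    (φ (h • a)).coeff 0 = (φ (h • b)).coeff 0 := by
  have h1 : 0 ≤ (φ (a + -b)).order := rf_add φ ha (rf_neg φ hb)
  have h2 : (φ (a + -b)).coeff 0 = 0 := by
    rw [map_add, map_neg, coeff_add, coeff_neg, hab, add_neg_cancel]
  have h3 := rf_act0 φ hlc hord h h1 h2
  rw [smul_add, smul_neg, map_add, map_neg, coeff_add, coeff_neg] at h3
  exact eq_of_sub_eq_zero (by rw [sub_eq_add_neg]; exact h3)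

/-- the ring of the residues -/
def rfT (hlc : ∀ a b, a ≠ 0 → b ≠ 0 → (φ a).leadingCoeff * (φ b).leadingCoeff ≠ 0) : Subring R where
  carrier := {r | ∃ a, 0 ≤ (φ a).order ∧ (φ a).coeff 0 = r}
  mul_mem' := by
    rintro _ _ ⟨a, ha, rfl⟩ ⟨b, hb, rfl⟩
    exact ⟨a * b, rf_mul φ ha hb hlc, by rw [map_mul, rf_coeff_mul0 ha hb]⟩
  one_mem' := by
    have := rf_nontrivial φ hlc
    exact ⟨1, by rw [map_one, order_one], by rw [map_one, coeff_one, if_pos rfl]⟩
  add_mem' := by
    rintro _ _ ⟨a, ha, rfl⟩ ⟨b, hb, rfl⟩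
    exact ⟨a + b, rf_add φ ha hb, by rw [map_add, coeff_add]⟩
  zero_mem' := ⟨0, by rw [map_zero, order_zero], by rw [map_zero, coeff_zero]⟩
  neg_mem' := by
    rintro _ ⟨a, ha, rfl⟩
    exact ⟨-a, rf_neg φ ha, by rw [map_neg, coeff_neg]⟩

theorem rfT_isField (hlc : ∀ a b, a ≠ 0 → b ≠ 0 → (φ a).leadingCoeff * (φ b).leadingCoeff ≠ 0) :
    IsField (rfT φ hlc) := by
  have hnt := rf_nontrivial φ hlc
  refine ⟨⟨0, 1, zero_ne_one⟩, ?_, ?_⟩
  · rintro ⟨_, a, ha, rfl⟩ ⟨_, b, hb, rfl⟩
    apply Subtype.ext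
    change (φ a).coeff 0 * (φ b).coeff 0 = (φ b).coeff 0 * (φ a).coeff 0
    rw [← rf_coeff_mul0 ha hb, ← rf_coeff_mul0 hb ha, ← map_mul, ← map_mul, mul_comm]
  · rintro ⟨_, a, ha, rfl⟩ hne
    have h0 : (φ a).coeff 0 ≠ 0 := fun h => hne (Subtype.ext h)
    have ha0 : a ≠ 0 := by
      rintro rfl
      rw [map_zero, coeff_zero] at h0
      exact h0 rfl
    have h1 : (φ a).order = 0 := le_antisymm (order_le_of_coeff_ne_zero h0) ha
    have h2 : (φ a⁻¹).order = 0 := by
      have h3 := rf_order_mul φ hlc ha0 (inv_ne_zero ha0)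
      rw [mul_inv_cancel₀ ha0, map_one, order_one, h1, zero_add] at h3
      exact h3.symm
    refine ⟨⟨_, a⁻¹, h2.ge, rfl⟩, ?_⟩
    apply Subtype.ext
    change (φ a).coeff 0 * (φ a⁻¹).coeff 0 = 1
    rw [← rf_coeff_mul0 ha h2.ge, ← map_mul, mul_inv_cancel₀ ha0, map_one, coeff_one, if_pos rfl]

end Helpers

/-- TASK. Existence of the residue field with its action.
Proof. Let `O = {a | 0 ≤ (φ a).order}`. Leading coefficients multiply on `φ(K')` (`hlc`), so
`order (φ (a b)) = order (φ a) + order (φ b)` for `a, b ≠ 0` (`order_mul_of_ne_zero`); `O` is a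
subring, and `a ↦ (φ a).coeff 0` is a ring hom `O → R` (for `x, y` of order `≥ 0`,
`(x * y).coeff 0 = x.coeff 0 * y.coeff 0`). Its range `S` is a commutative subring of `R`, and a
field: if `(φ a).coeff 0 ≠ 0` then `(φ a).order = 0`, so `(φ a⁻¹).order = 0` and
`(φ a⁻¹).coeff 0` is an inverse (`φ a * φ a⁻¹ = 1`); nontrivial because `1 = φ 1` has a nonzero
leading coefficient. The action: `h • ((φ a).coeff 0) = (φ (h • a)).coeff 0`, well defined: if
`(φ a).coeff 0 = (φ b).coeff 0`, then `a = b` or `(φ (a - b)).order > 0`, so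
`(φ (h • (a - b))).order > 0` by `hord` and the coefficient at `0` vanishes. -/
theorem res_field (φ : K' →+* HahnSeries V R)
    (hlc : ∀ a b, a ≠ 0 → b ≠ 0 → (φ a).leadingCoeff * (φ b).leadingCoeff ≠ 0)
    (hord : ∀ (h : H) (a : K'), (φ (h • a)).order = (φ a).order) :
    ∃ (S : Type) (_ : Field S) (_ : MulSemiringAction H S) (ρ : S →+* R), ResOK H φ ρ := by
  classical
  let T := rfT φ hlc
  let fT : Field T := (rfT_isField φ hlc).toField
  choose L hL1 hL2 using fun s : T => s.2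
  have hkey : ∀ (h : H) (s : T) (a : K'), 0 ≤ (φ a).order → (φ a).coeff 0 = s.1 →
      (φ (h • a)).coeff 0 = (φ (h • L s)).coeff 0 := fun h s a ha has =>
    rf_act φ hlc hord h ha (hL1 s) (has.trans (hL2 s).symm)
  let sm : H → T → T := fun h s => ⟨(φ (h • L s)).coeff 0, h • L s, by rw [hord]; exact hL1 s, rfl⟩
  have hsm : ∀ (h : H) (s : T) (a : K'), 0 ≤ (φ a).order → (φ a).coeff 0 = s.1 →
      (sm h s).1 = (φ (h • a)).coeff 0 := fun h s a ha has => (hkey h s a ha has).symm
  let act : MulSemiringAction H T :=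
    { smul := sm
      one_smul := by
        intro s
        apply Subtype.ext
        change (sm 1 s).1 = s.1
        rw [hsm 1 s (L s) (hL1 s) (hL2 s), one_smul, hL2]
      mul_smul := by
        intro g h s
        apply Subtype.ext
        change (sm (g * h) s).1 = (sm g (sm h s)).1
        rw [hsm (g * h) s (L s) (hL1 s) (hL2 s),
          hsm g (sm h s) (h • L s) (by rw [hord]; exact hL1 s) rfl, mul_smul]
      smul_zero := by
        intro g
        apply Subtype.ext
        change (sm g (0 : rfT φ hlc)).1 = 0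
        rw [hsm g (0 : rfT φ hlc) 0 (by rw [map_zero, order_zero]) (by rw [map_zero, coeff_zero]; rfl),
          smul_zero, map_zero, coeff_zero]
      smul_add := by
        intro g s t
        apply Subtype.ext
        change (sm g (s + t : rfT φ hlc)).1 = (sm g s).1 + (sm g t).1
        rw [hsm g (s + t : rfT φ hlc) (L s + L t) (rf_add φ (hL1 s) (hL1 t))
          (by rw [map_add, coeff_add, hL2, hL2]; rfl), smul_add, map_add, coeff_add]
      smul_one := by
        intro g
        apply Subtype.ext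
        have hnt := rf_nontrivial φ hlc
        change (sm g (1 : rfT φ hlc)).1 = 1
        rw [hsm g (1 : rfT φ hlc) 1 (by rw [map_one, order_one])
          (by rw [map_one, coeff_one, if_pos rfl]; rfl), smul_one, map_one, coeff_one, if_pos rfl]
      smul_mul := by
        intro g s t
        apply Subtype.ext
        change (sm g (s * t : rfT φ hlc)).1 = (sm g s).1 * (sm g t).1
        rw [hsm g (s * t : rfT φ hlc) (L s * L t) (rf_mul φ (hL1 s) (hL1 t) hlc)
          (by rw [map_mul, rf_coeff_mul0 (hL1 s) (hL1 t), hL2, hL2]; rfl), smul_mul', map_mul,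
          rf_coeff_mul0 (by rw [hord]; exact hL1 s) (by rw [hord]; exact hL1 t)] }
  refine ⟨T, fT, act, T.subtype, ?_, ?_, ?_⟩
  · intro s
    exact ⟨L s, hL1 s, hL2 s⟩
  · intro a ha
    exact ⟨⟨_, a, ha, rfl⟩, rfl⟩
  · intro h a s ha has
    exact (hsm h s a ha has).symm

/-- TASK. Every fixed residue lifts to a fixed element (characteristic `0`): average a lift.
Proof: let `(φ a).coeff 0 = ρ s`, `s` fixed by `H`. Put `b = (|H| : K')⁻¹ * ∑_h h • a`; it is fixed,
and `(φ b).coeff 0 = ρ s`: each `(φ (h • a)).coeff 0 = ρ (h • s) = ρ s`, the sum has coefficient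
`|H| • ρ s`, and if `b' = ∑_h h • a = |H| b` then `|H| • (φ b).coeff 0 = |H| • ρ s` and `R` has no
torsion (`hR`). The order of `φ b` is `≥ 0`, because the order of the sum is `≥ 0` (all terms have
order `≥ 0`) and `|H| • φ b` has the same order as `φ b` (`hR`). -/
theorem res_fixed [Finite H] [CharZero K'] (φ : K' →+* HahnSeries V R)
    (hlc : ∀ a b, a ≠ 0 → b ≠ 0 → (φ a).leadingCoeff * (φ b).leadingCoeff ≠ 0)
    (hord : ∀ (h : H) (a : K'), (φ (h • a)).order = (φ a).order)
    (hR : ∀ (n : ℕ) (r : R), n ≠ 0 → n • r = 0 → r = 0)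
    {S : Type} [Field S] [MulSemiringAction H S] {ρ : S →+* R} (hρ : ResOK H φ ρ)
    (s : S) (hs : ∀ h : H, h • s = s) :
    ∃ a, (∀ h : H, h • a = a) ∧ 0 ≤ (φ a).order ∧ (φ a).coeff 0 = ρ s := by
  classical
  have _ := Fintype.ofFinite H
  obtain ⟨a, ha, has⟩ := hρ.lift s
  have hn : Fintype.card H ≠ 0 := Fintype.card_ne_zero
  have hnK : (Fintype.card H : K') ≠ 0 := Nat.cast_ne_zero.2 hn
  let b' : K' := ∑ h : H, h • a
  let b : K' := (Fintype.card H : K')⁻¹ * b'
  have hb' : ∀ g : H, g • b' = b' := by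
    intro g
    change g • (∑ h : H, h • a) = ∑ h : H, h • a
    rw [Finset.smul_sum]
    refine Fintype.sum_equiv (Equiv.mulLeft g) _ _ fun h => ?_
    rw [Equiv.coe_mulLeft, mul_smul]
  have hb : ∀ g : H, g • b = b := by
    intro g
    have h1 : ∀ x : K', g • x = MulSemiringAction.toRingHom H K' g x := fun _ => rfl
    change g • ((Fintype.card H : K')⁻¹ * b') = (Fintype.card H : K')⁻¹ * b'
    rw [smul_mul', hb' g, h1, map_inv₀, map_natCast]
  have hbb : (Fintype.card H) • φ b = φ b' := by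
    rw [← map_nsmul]
    congr 1
    change (Fintype.card H) • ((Fintype.card H : K')⁻¹ * b') = b'
    rw [nsmul_eq_mul, ← mul_assoc, mul_inv_cancel₀ hnK, one_mul]
  have hco : ∀ i, (Fintype.card H) • (φ b).coeff i = ∑ h : H, (φ (h • a)).coeff i := by
    intro i
    have h1 : ((Fintype.card H) • φ b).coeff i = (Fintype.card H) • (φ b).coeff i := by
      exact map_nsmul (HahnSeries.coeff.addMonoidHom i) _ _
    rw [← h1, hbb]
    change (φ (∑ h : H, h • a)).coeff i = _
    rw [map_sum, coeff_sum]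
  refine ⟨b, hb, ?_, ?_⟩
  · refine rf_order fun i hi => ?_
    have h1 : (Fintype.card H) • (φ b).coeff i ≠ 0 := fun h0 => hi (hR _ _ hn h0)
    rw [hco i] at h1
    obtain ⟨h, _, h2⟩ := Finset.exists_ne_zero_of_sum_ne_zero h1
    exact rf_le (by rw [hord]; exact ha) i h2
  · have h1 : (Fintype.card H) • (φ b).coeff 0 = (Fintype.card H) • ρ s := by
      rw [hco 0, Finset.sum_congr rfl (fun h _ => (hρ.act h a s ha has).trans (by rw [hs h])),
        Finset.sum_const, Finset.card_univ]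
    have h2 : (Fintype.card H) • ((φ b).coeff 0 - ρ s) = 0 := by
      rw [nsmul_sub, h1, sub_self]
    exact eq_of_sub_eq_zero (hR _ _ hn h2)

/-- TASK. The leading coefficient of `φ a` commutes with the residues (compare the coefficients of
`φ b * φ a = φ a * φ b` at `(φ a).order`, where `b` is a lift of `s`, `0 ≤ (φ b).order`). -/
theorem res_comm (φ : K' →+* HahnSeries V R)
    {S : Type} [Field S] [MulSemiringAction H S] {ρ : S →+* R} (hρ : ResOK H φ ρ)
    (s : S) (a : K') : ρ s * (φ a).leadingCoeff = (φ a).leadingCoeff * ρ s := by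
  obtain ⟨b, hb, hbs⟩ := hρ.lift s
  have h1 := rf_coeff_mul (rf_le hb) (fun i (hi : (φ a).coeff i ≠ 0) => order_le_of_coeff_ne_zero hi)
  have h2 := rf_coeff_mul (fun i (hi : (φ a).coeff i ≠ 0) => order_le_of_coeff_ne_zero hi) (rf_le hb)
  rw [zero_add, hbs, ← map_mul] at h1
  rw [add_zero, hbs, ← map_mul] at h2
  rw [leadingCoeff_eq, ← h1, ← h2, mul_comm]

end OddGp
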