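import Mathlib
import Pool.Agent.W_MP_bec7e1_h80.ResField

/-!
# The kernel of the action on the residue field
-/

namespace OddGp

open HahnSeries

variable {V R K' H : Type} [AddCommGroup V] [LinearOrder V] [IsOrderedAddMonoid V] [Ring R]
  [Field K'] [Group H] [MulSemiringAction H K']

/-- Two elements with the same leading term keep this property under `H`. -/
theorem res_ker_sterm (φ : K' →+* HahnSeries V R)
    (hinj : ∀ a : K', a ≠ 0 → φ a ≠ 0)
    (hord : ∀ (h : H) (a : K'), (φ (h • a)).order = (φ a).order) (k : H) (x y : K')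
    (ho : (φ x).order = (φ y).order) (hl : (φ x).leadingCoeff = (φ y).leadingCoeff) :
    (φ (k • x)).leadingCoeff = (φ (k • y)).leadingCoeff := by
  by_cases hxy : x - y = 0
  · rw [sub_eq_zero.1 hxy]
  have hlt : (φ x).order < (φ (x - y)).order := by
    by_contra hcon
    have hle : (φ (x - y)).order ≤ (φ x).order := not_lt.1 hcon
    have hc : (φ (x - y)).coeff (φ (x - y)).order ≠ 0 := by
      intro h0
      exact hinj _ hxy (coeff_order_eq_zero.1 h0)
    rcases lt_or_eq_of_le hle with h | h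
    · apply hc
      have e : (φ (x - y)).coeff (φ (x - y)).order
          = (φ x).coeff (φ (x - y)).order - (φ y).coeff (φ (x - y)).order := by
        conv_lhs => rw [map_sub, coeff_sub]
        rw [map_sub]
      rw [e, coeff_eq_zero_of_lt_order h, coeff_eq_zero_of_lt_order (ho ▸ h), sub_zero]
    · apply hc
      have e : (φ (x - y)).coeff (φ x).order
          = (φ x).coeff (φ x).order - (φ y).coeff (φ x).order := by
        rw [map_sub, coeff_sub]
      rw [h, e, ← leadingCoeff_eq]
      rw [ho, ← leadingCoeff_eq, hl, sub_self]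
  have hlt2 : (φ (k • x)).order < (φ (k • x - k • y)).order := by
    rw [← smul_sub, hord, hord]
    exact hlt
  have h3 := coeff_eq_zero_of_lt_order hlt2
  rw [map_sub, coeff_sub, ← leadingCoeff_eq] at h3
  have h4 : (φ (k • x)).order = (φ (k • y)).order := by rw [hord, hord, ho]
  rw [h4, ← leadingCoeff_eq] at h3
  exact sub_eq_zero.1 h3

/-- An element that keeps all leading terms is trivial. -/
theorem res_ker_triv [Finite H] [FaithfulSMul H K'] (φ : K' →+* HahnSeries V R)
    (hinj : ∀ a : K', a ≠ 0 → φ a ≠ 0)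
    (hord : ∀ (h : H) (a : K'), (φ (h • a)).order = (φ a).order)
    (hR : ∀ (n : ℕ) (r : R), n ≠ 0 → n • r = 0 → r = 0)
    (g : H) (hg : ∀ a : K', a ≠ 0 → (φ (g • a)).leadingCoeff = (φ a).leadingCoeff) : g = 1 := by
  have hfin : IsOfFinOrder g := isOfFinOrder_of_finite g
  have hn : 0 < orderOf g := hfin.orderOf_pos
  apply FaithfulSMul.eq_of_smul_eq_smul (α := K')
  intro a
  rw [one_smul]
  by_contra hne
  have hb : g • a - a ≠ 0 := fun h => hne (sub_eq_zero.1 h)
  have hit : ∀ t : ℕ, g ^ t • (g • a - a) ≠ 0 := by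
    intro t h
    exact hb ((smul_eq_zero_iff_eq (g ^ t)).1 h)
  have hlt : ∀ t : ℕ, (φ (g ^ t • (g • a - a))).leadingCoeff
      = (φ (g • a - a)).leadingCoeff := by
    intro t
    induction t with
    | zero => rw [pow_zero, one_smul]
    | succ t ih =>
      rw [pow_succ', mul_smul, hg _ (hit t), ih]
  have hsum : ∀ m : ℕ, ∑ t ∈ Finset.range m, g ^ t • (g • a - a) = g ^ m • a - a := by
    intro m
    induction m with
    | zero => simp
    | succ m ih =>
      rw [Finset.sum_range_succ, ih, smul_sub, ← mul_smul, ← pow_succ]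
      abel
  have h0 := hsum (orderOf g)
  rw [pow_orderOf_eq_one, one_smul, sub_self] at h0
  have h1 : (φ (∑ t ∈ Finset.range (orderOf g), g ^ t • (g • a - a))).coeff
      (φ (g • a - a)).order = 0 := by
    rw [h0, map_zero, coeff_zero]
  have h2 : (φ (∑ t ∈ Finset.range (orderOf g), g ^ t • (g • a - a))).coeff
      (φ (g • a - a)).order = (orderOf g) • (φ (g • a - a)).leadingCoeff := by
    rw [map_sum, coeff_sum]
    rw [Finset.sum_congr rfl (g := fun _ => (φ (g • a - a)).leadingCoeff)]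
    · rw [Finset.sum_const, Finset.card_range]
    · intro t _
      have e := hlt t
      rw [leadingCoeff_eq, hord] at e
      exact e
  rw [h2] at h1
  have h3 := hR _ _ (Nat.pos_iff_ne_zero.1 hn) h1
  exact hinj _ hb (leadingCoeff_eq_zero.1 h3)

/-- TASK. The kernel `I` of `H → Aut(S)` has at most as many elements as the value group modulo the
values of the fixed elements.
Proof. Let `Δ1 = {dg (order (φ a)) | a ≠ 0}`, a subgroup of `Δ` (orders add, see `res_field`;
`order (φ a⁻¹) = - order (φ a)`). For `h ∈ I` (trivial on `S`) and `a ≠ 0` the element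
`(h • a) / a` has order `0`; let `χ_h(a) ∈ S`, nonzero, be its residue. `χ_h` is multiplicative in
`a`. If `(φ a).order = 0` then `χ_h(a) = 1` (as `h` fixes the residue of `a`), and `χ_h(a) = 1` if
`a` is fixed by `H`. If `dg (order (φ a)) = 1` there is a fixed `b ≠ 0` with the same order
(`hfix`), so `χ_h(a) = χ_h(a / b) χ_h(b) = 1`. So `χ_h` induces a hom `Δ1 →* S`. The map
`h ↦ χ_h` from `I` to `Δ1 →* S` is injective: `χ_{h h'} = χ_h χ_{h'}` (`h ∈ I` fixes residues and
`h'` preserves orders), so it is enough that `χ_h = 1` implies `h = 1`. If `χ_h = 1`, then `h • a`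
and `a` have the same leading term for all `a ≠ 0`. Suppose `h • a ≠ a`, put `b = h • a - a ≠ 0` and
let `n = orderOf h > 0`; then `∑_{t<n} h^t • b = h^n • a - a = 0`, but every `h^t • b` has the same
leading term as `b`, so the sum has the coefficient `n • lc(φ b) ≠ 0` (`hR`) at the order of `φ b`:
contradiction. So `h` acts trivially on `K'` and `h = 1` (`FaithfulSMul`). Finally the number of
homs `Δ1 →* S` is at most `|Δ1|`, because they are linearly independent functions on `Δ1`
(`linearIndependent_monoidHom`; `Δ1` is finite). -/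
theorem res_ker [Finite H] [FaithfulSMul H K'] (φ : K' →+* HahnSeries V R)
    (hlc : ∀ a b, a ≠ 0 → b ≠ 0 → (φ a).leadingCoeff * (φ b).leadingCoeff ≠ 0)
    (hord : ∀ (h : H) (a : K'), (φ (h • a)).order = (φ a).order)
    (hR : ∀ (n : ℕ) (r : R), n ≠ 0 → n • r = 0 → r = 0)
    {S : Type} [Field S] [MulSemiringAction H S] {ρ : S →+* R} (hρ : ResOK H φ ρ)
    {Δ : Type} [Group Δ] [Finite Δ] (dg : Multiplicative V →* Δ)
    (hfix : ∀ v, dg (Multiplicative.ofAdd v) = 1 →
      ∃ a : K', a ≠ 0 ∧ (∀ h : H, h • a = a) ∧ (φ a).order = v) :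
    ∃ Δ1 : Subgroup Δ, Nat.card {h : H // ∀ s : S, h • s = s} ≤ Nat.card Δ1 ∧
      ∀ γ ∈ Δ1, ∃ a : K', a ≠ 0 ∧ dg (Multiplicative.ofAdd (φ a).order) = γ := by
  classical
  have hne : ∀ a : K', a ≠ 0 → (φ a).leadingCoeff ≠ 0 := fun a ha h0 =>
    hlc a a ha ha (by rw [h0, zero_mul])
  have hinj : ∀ a : K', a ≠ 0 → φ a ≠ 0 := fun a ha h0 =>
    hne a ha (by rw [h0]; exact leadingCoeff_zero)
  have : Nontrivial R := ⟨(φ 1).leadingCoeff, 0, hne 1 one_ne_zero⟩
  have hρi : Function.Injective ρ := ρ.injective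
  have homul : ∀ a b : K', a ≠ 0 → b ≠ 0 →
      (φ (a * b)).order = (φ a).order + (φ b).order := by
    intro a b ha hb
    rw [map_mul]
    exact order_mul_of_ne_zero (hlc a b ha hb)
  have hlmul : ∀ a b : K', a ≠ 0 → b ≠ 0 →
      (φ (a * b)).leadingCoeff = (φ a).leadingCoeff * (φ b).leadingCoeff := by
    intro a b ha hb
    rw [map_mul]
    exact leadingCoeff_mul_of_ne_zero (hlc a b ha hb)
  have h1o : (φ 1).order = 0 := by rw [map_one]; exact order_one
  have h1l : (φ 1).leadingCoeff = 1 := by rw [map_one]; exact leadingCoeff_one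
  have hex : ∀ u : K', ∃ s : S, u ≠ 0 → (φ u).order = 0 → (φ u).leadingCoeff = ρ s := by
    intro u
    by_cases hu : (φ u).order = 0
    · obtain ⟨s, hs⟩ := hρ.red u hu.ge
      refine ⟨s, fun _ _ => ?_⟩
      rw [leadingCoeff_eq, hu, hs]
    · exact ⟨1, fun _ h => absurd h hu⟩
  choose r hr using hex
  have hsm : ∀ (h : H) (a : K'), a ≠ 0 → h • a ≠ 0 := by
    intro h a ha h0
    exact ha ((smul_eq_zero_iff_eq h).1 h0)
  have hq : ∀ (h : H) (a : K'), a ≠ 0 → (h • a) / a ≠ 0 := fun h a ha =>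
    div_ne_zero (hsm h a ha) ha
  have hqo : ∀ (h : H) (a : K'), a ≠ 0 → (φ ((h • a) / a)).order = 0 := by
    intro h a ha
    have e := homul _ _ (hq h a ha) ha
    rw [div_mul_cancel₀ _ ha, hord] at e
    exact left_eq_add.1 (by rw [add_comm]; exact e)
  have hql : ∀ (h : H) (a : K'), a ≠ 0 →
      (φ (h • a)).leadingCoeff = ρ (r ((h • a) / a)) * (φ a).leadingCoeff := by
    intro h a ha
    rw [← hr _ (hq h a ha) (hqo h a ha), ← hlmul _ _ (hq h a ha) ha, div_mul_cancel₀ _ ha]
  have hrmul : ∀ u v : K', u ≠ 0 → v ≠ 0 → (φ u).order = 0 → (φ v).order = 0 →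
      r (u * v) = r u * r v := by
    intro u v hu hv huo hvo
    apply hρi
    rw [map_mul, ← hr u hu huo, ← hr v hv hvo, ← hlmul u v hu hv]
    rw [hr _ (mul_ne_zero hu hv)]
    rw [homul u v hu hv, huo, hvo, add_zero]
  have hr1 : r 1 = 1 := by
    apply hρi
    rw [map_one, ← hr 1 one_ne_zero h1o, h1l]
  -- the characters
  let χ : H → K'ˣ →* S := fun h =>
    { toFun := fun a => r ((h • (a : K')) / a)
      map_one' := by
        rw [Units.val_one, smul_one, div_one, hr1]
      map_mul' := by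
        intro a b
        rw [Units.val_mul, smul_mul', mul_div_mul_comm]
        exact hrmul _ _ (hq h a a.ne_zero) (hq h b b.ne_zero) (hqo h a a.ne_zero)
          (hqo h b b.ne_zero) }
  have hχ : ∀ h (a : K'ˣ), χ h a = r ((h • (a : K')) / a) := fun _ _ => rfl
  have hχ0 : ∀ h : H, (∀ s : S, h • s = s) → ∀ a : K'ˣ, (φ a).order = 0 → χ h a = 1 := by
    intro h hh a ha
    obtain ⟨s, hs⟩ := hρ.red a ha.ge
    have h2 := hρ.act h a s ha.ge hs
    rw [hh s] at h2
    have h3 := hql h a a.ne_zero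
    have h4 : (φ (h • (a : K'))).leadingCoeff = ρ s := by
      rw [leadingCoeff_eq, hord, ha, h2]
    have h5 : (φ (a : K')).leadingCoeff = ρ s := by
      rw [leadingCoeff_eq, ha, hs]
    rw [h4, h5, ← map_mul] at h3
    have h6 := hρi h3
    have h7 : s ≠ 0 := by
      intro h0
      rw [h0, map_zero] at h5
      exact hne a a.ne_zero h5
    rw [hχ]
    exact (right_eq_mul₀ h7).1 h6
  have hχf : ∀ (h : H) (a : K'ˣ), h • (a : K') = a → χ h a = 1 := by
    intro h a ha
    rw [hχ, ha, div_self a.ne_zero, hr1]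
  -- the valuation hom
  let D : K'ˣ →* Δ :=
    { toFun := fun a => dg (Multiplicative.ofAdd (φ (a : K')).order)
      map_one' := by
        rw [Units.val_one, h1o, ofAdd_zero, map_one]
      map_mul' := by
        intro a b
        rw [Units.val_mul, homul _ _ a.ne_zero b.ne_zero, ofAdd_add, map_mul] }
  have hD : ∀ a : K'ˣ, D a = dg (Multiplicative.ofAdd (φ (a : K')).order) := fun _ => rfl
  have hker : ∀ h : H, (∀ s : S, h • s = s) → ∀ a : K'ˣ, D a = 1 → χ h a = 1 := by
    intro h hh a ha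
    obtain ⟨b, hb0, hbf, hbo⟩ := hfix _ ha
    have hbu : ((Units.mk0 b hb0 : K'ˣ) : K') = b := Units.val_mk0 hb0
    have e : a = (a * (Units.mk0 b hb0)⁻¹) * Units.mk0 b hb0 := by
      rw [inv_mul_cancel_right]
    rw [e, map_mul, hχf h (Units.mk0 b hb0) (by rw [hbu]; exact hbf h), mul_one]
    apply hχ0 h hh
    have e2 := homul ((a * (Units.mk0 b hb0)⁻¹ : K'ˣ) : K') ((Units.mk0 b hb0 : K'ˣ) : K')
      (Units.ne_zero _) (Units.ne_zero _)
    rw [← Units.val_mul, ← e, hbu, hbo] at e2
    exact left_eq_add.1 (by rw [add_comm]; exact e2)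
  have hfac : ∀ h : H, (∀ s : S, h • s = s) → ∀ a b : K'ˣ, D a = D b → χ h a = χ h b := by
    intro h hh a b hab
    have e : a = (a * b⁻¹) * b := by rw [inv_mul_cancel_right]
    rw [e, map_mul, hker h hh (a * b⁻¹) (by rw [map_mul, map_inv, hab, mul_inv_cancel]), one_mul]
  have hsec : ∀ γ : D.range, ∃ a : K'ˣ, D a = γ := fun γ => γ.2
  choose σ hσ using hsec
  let ψ : {h : H // ∀ s : S, h • s = s} → (D.range →* S) := fun h =>
    { toFun := fun γ => χ h.1 (σ γ)
      map_one' := by
        rw [hfac h.1 h.2 (σ 1) 1 (by rw [hσ, map_one]; rfl), map_one]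
      map_mul' := by
        intro γ δ
        rw [← map_mul]
        exact hfac h.1 h.2 _ _ (by rw [hσ, map_mul, hσ, hσ]; rfl) }
  have hψ : ∀ h γ, ψ h γ = χ h.1 (σ γ) := fun _ _ => rfl
  have hψinj : Function.Injective ψ := by
    intro h h' hh
    have e1 : ∀ a : K'ˣ, χ h.1 a = χ h'.1 a := by
      intro a
      have e2 : ψ h ⟨D a, a, rfl⟩ = ψ h' ⟨D a, a, rfl⟩ := by rw [hh]
      rw [hψ, hψ] at e2
      have e3 : D a = D (σ ⟨D a, a, rfl⟩) := (hσ ⟨D a, a, rfl⟩).symm
      rw [hfac h.1 h.2 a (σ ⟨D a, a, rfl⟩) e3, hfac h'.1 h'.2 a (σ ⟨D a, a, rfl⟩) e3, e2]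
    have e3 : ∀ a : K', a ≠ 0 → (φ (h.1 • a)).leadingCoeff = (φ (h'.1 • a)).leadingCoeff := by
      intro a ha
      have e4 := e1 (Units.mk0 a ha)
      rw [hχ, hχ, Units.val_mk0] at e4
      rw [hql h.1 a ha, hql h'.1 a ha, e4]
    have e5 : h'.1⁻¹ * h.1 = 1 := by
      apply res_ker_triv φ hinj hord hR
      intro a ha
      have e6 := res_ker_sterm φ hinj hord (h'.1⁻¹) (h.1 • a) (h'.1 • a)
        (by rw [hord, hord]) (e3 a ha)
      rw [inv_smul_smul, ← mul_smul] at e6
      exact e6
    apply Subtype.ext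
    have e7 := inv_mul_eq_one.1 e5
    exact e7.symm
  refine ⟨D.range, ?_, ?_⟩
  · have hli : LinearIndependent S (fun h : {h : H // ∀ s : S, h • s = s} =>
        ((ψ h : D.range →* S) : D.range → S)) :=
      (linearIndependent_monoidHom D.range S).comp ψ hψinj
    have : Fintype {h : H // ∀ s : S, h • s = s} := Fintype.ofFinite _
    have : Fintype D.range := Fintype.ofFinite _
    have h8 := hli.fintype_card_le_finrank
    rw [Module.finrank_fintype_fun_eq_card] at h8
    rw [Nat.card_eq_fintype_card, Nat.card_eq_fintype_card]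
    exact h8
  · rintro γ ⟨a, ha⟩
    exact ⟨a, a.ne_zero, ha⟩

end OddGp
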