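import Mathlib
import Pool.Agent.W_MP_bec7e1_h80.RigidDef
import Pool.Agent.W_MP_bec7e1_h80.DCenter
import Pool.Agent.W_MP_bec7e1_h80.DBasis
import Pool.Agent.W_MP_bec7e1_h80.AutVal
import Pool.Agent.W_MP_bec7e1_h80.ResKer
import Pool.Agent.W_MP_bec7e1_h80.NotSub
import Pool.Agent.W_MP_bec7e1_h80.KumMain

/-!
# Rigidity from the absence of bad data
-/

namespace OddGp

open HahnSeries

noncomputable section

variable {p : ℕ} [Fact p.Prime] {K : Type} [Field K] [CharZero K] [MulSemiringAction (GG p) K]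
  [FaithfulSMul (GG p) K]

omit [FaithfulSMul (GG p) K] in
theorem CP_torsion_free (c : Coc (GG p) K) (n : ℕ) (r : CP c) (hn : n ≠ 0) (h : n • r = 0) :
    r = 0 := by
  ext g
  have h1 := congrArg (fun s : CP c => s.f g) h
  change (n • r).f g = (0 : CP c).f g at h1
  rw [CP.nsmul_f, CP.zero_f, nsmul_eq_mul] at h1
  rcases mul_eq_zero.1 h1 with h2 | h2
  · exact absurd (Nat.cast_eq_zero.1 h2) hn
  · exact h2

omit [CharZero K] [FaithfulSMul (GG p) K] in
/-- constants of `F` -/
theorem C_mem_FF (a : K) (ha : ∀ g : GG p, g • a = a) :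
    (HahnSeries.C a : HahnSeries VV K) ∈ FixedPoints.subfield (GG p) (HahnSeries VV K) := by
  intro g
  ext v
  rw [act_coeff, HahnSeries.C_apply, coeff_single]
  split_ifs
  · exact ha g
  · exact smul_zero g

omit [CharZero K] [FaithfulSMul (GG p) K] in
theorem single_mem_FF (w : VV) :
    (single w 1 : HahnSeries VV K) ∈ FixedPoints.subfield (GG p) (HahnSeries VV K) := by
  intro g
  ext v
  rw [act_coeff, coeff_single]
  split_ifs
  · exact smul_one g
  · exact smul_zero g

theorem main_group (hp2 : p ≠ 2) (c : Coc (GG p) K) (ζ : K) (hζ : IsPrimitiveRoot ζ p)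
    (hζf : ∀ g : GG p, g • ζ = ζ)
    (hdom : ∀ a b, a ∈ QQ c → b ∈ QQ c → a ≠ 0 → b ≠ 0 → a * b ≠ 0)
    (hbad : ∀ αx αy κ : ℤ, BadType c ζ αx αy κ →
      ¬ ((p : ℤ) ∣ κ ∨ ((p : ℤ) ∣ αx ∧ (p : ℤ) ∣ αy)))
    {K' : Type} [Field K'] [Algebra (FF p K) K'] [FiniteDimensional (FF p K) K']
    [IsGalois (FF p K) K'] (f : K' →ₐ[FF p K] DD c)
    (hK' : Module.finrank (FF p K) K' = p ^ 3) : Nonempty ((K' ≃ₐ[FF p K] K') ≃* GG p) := by
  have hNZ := grB_NZ c hdom
  have hLCM : LCM (DD c) := HH_LCM hNZ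
  obtain ⟨hfd, hfr⟩ := finrank_D c
  have := hfd
  have := isCentral_D c
  let H := K' ≃ₐ[FF p K] K'
  let φ : K' →+* HahnSeries VV (CP c) := (DD c).subtype.comp (f : K' →+* DD c)
  have hφ : ∀ a, φ a = ((f a : DD c) : HahnSeries VV (CP c)) := fun a => rfl
  have hφmem : ∀ a, φ a ∈ DD c := fun a => (f a).2
  have hφinj : Function.Injective φ := RingHom.injective φ
  have hlc : ∀ a b, a ≠ 0 → b ≠ 0 → (φ a).leadingCoeff * (φ b).leadingCoeff ≠ 0 :=
    fun a b ha hb => hLCM (hφmem a) (hφmem b) ((map_ne_zero_iff φ hφinj).2 ha)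
      ((map_ne_zero_iff φ hφinj).2 hb)
  have hord : ∀ (h : H) (a : K'), (φ (h • a)).order = (φ a).order := fun h a =>
    order_aut c hNZ f h a
  have hR := CP_torsion_free c
  have : CharZero (HahnSeries VV K) :=
    charZero_of_injective_ringHom (f := (HahnSeries.C : K →+* HahnSeries VV K)) (RingHom.injective _)
  have : CharZero (FF p K) := inferInstance
  have : CharZero K' := charZero_of_injective_algebraMap (algebraMap (FF p K) K').injective
  have hcard : Nat.card H = p ^ 3 := by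
    rw [← hK']; exact IsGalois.card_aut_eq_finrank _ _
  have : Finite H := Nat.finite_of_card_ne_zero (by
    rw [hcard]; exact pow_ne_zero 3 (Fact.out : p.Prime).ne_zero)
  obtain ⟨S, iS, iA, ρ, hρ⟩ := res_field (H := H) φ hlc hord
  have hρinj : Function.Injective ρ := RingHom.injective ρ
  have hφalg : ∀ b : FF p K, φ (algebraMap (FF p K) K' b) = jK' c b := by
    intro b
    rw [hφ, AlgHom.commutes, algebraMap_D]
  have hco0 : ∀ b : FF p K, (jK' c (b : HahnSeries VV K)).coeff 0 =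
      CP.of c ((b : HahnSeries VV K).coeff 0) := by
    intro b
    have h := jK'_coeff_sc c (b : HahnSeries VV K) 0
    have h0 : p • (0 : VV) = 0 := smul_zero p
    rw [h0] at h
    exact h
  have hfixK' : ∀ a : K', (∀ h : H, h • a = a) → ∃ b : FF p K, algebraMap (FF p K) K' b = a := by
    intro a ha
    have h := (IsGalois.mem_bot_iff_fixed (F := FF p K) a).2 ha
    exact IntermediateField.mem_bot.1 h
  have hQ : ∀ s, ρ s ∈ QQ c := by
    intro s
    obtain ⟨a, ha, ha'⟩ := hρ.lift s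
    rw [← ha']
    have h := hφmem a 0
    rw [ofAdd_zero, map_one] at h
    exact h
  have hfix : ∀ s : S, (∀ h : H, h • s = s) →
      ∃ a : K, (∀ g : GG p, g • a = a) ∧ CP.of c a = ρ s := by
    intro s hs
    obtain ⟨a, ha1, ha2, ha3⟩ := res_fixed φ hlc hord hR hρ s hs
    obtain ⟨b, hb⟩ := hfixK' a ha1
    refine ⟨(b : HahnSeries VV K).coeff 0, fun g => FF_coeff b 0 g, ?_⟩
    rw [← ha3, ← hb, hφalg, hco0]
  have hfix' : ∀ a : K, (∀ g : GG p, g • a = a) →
      ∃ s : S, (∀ h : H, h • s = s) ∧ CP.of c a = ρ s := by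
    intro a ha
    let b : FF p K := ⟨HahnSeries.C a, C_mem_FF a ha⟩
    have hb : (φ (algebraMap (FF p K) K' b)).coeff 0 = CP.of c a := by
      rw [hφalg, hco0]
      congr 1
      change (HahnSeries.C a : HahnSeries VV K).coeff 0 = a
      rw [HahnSeries.C_apply, coeff_single, if_pos rfl]
    by_cases ha0 : a = 0
    · refine ⟨0, fun h => smul_zero h, ?_⟩
      rw [ha0, map_zero, map_zero]
    have hord0 : (φ (algebraMap (FF p K) K' b)).order = 0 := by
      apply le_antisymm
      · apply order_le_of_coeff_ne_zero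
        rw [hb]
        exact fun h => ha0 (CP.of_injective (by rw [h, map_zero]))
      · by_contra hlt
        push Not at hlt
        have hne : φ (algebraMap (FF p K) K' b) ≠ 0 := by
          intro h
          rw [h, coeff_zero] at hb
          exact ha0 (CP.of_injective (by rw [← hb, map_zero]))
        have h1 : (φ (algebraMap (FF p K) K' b)).coeff
            (φ (algebraMap (FF p K) K' b)).order ≠ 0 := fun h => hne (coeff_order_eq_zero.1 h)
        apply h1
        generalize (φ (algebraMap (FF p K) K' b)).order = v at hlt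
        rw [hφalg]
        by_cases hv : dgV p (Multiplicative.ofAdd v) = 1
        · obtain ⟨w, rfl⟩ := (dgV_eq_one p v).1 hv
          rw [jK'_coeff_sc]
          change CP.of c ((HahnSeries.C a : HahnSeries VV K).coeff w) = 0
          rw [HahnSeries.C_apply, coeff_single, if_neg, map_zero]
          rintro rfl
          have h0 : p • (0 : VV) = 0 := smul_zero p
          rw [h0] at hlt
          exact lt_irrefl _ hlt
        · exact jK'_coeff_ne c _ v hv
    obtain ⟨s, hs⟩ := hρ.red _ (le_of_eq hord0.symm)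
    refine ⟨s, fun h => ?_, hb.symm.trans hs⟩
    apply hρinj
    rw [← hρ.act h _ s (le_of_eq hord0.symm) hs, ← hs]
    congr 2
    exact h.commutes b
  have hfixv : ∀ v : VV, dgV p (Multiplicative.ofAdd v) = 1 →
      ∃ a : K', a ≠ 0 ∧ (∀ h : H, h • a = a) ∧ (φ a).order = v := by
    intro v hv
    obtain ⟨w, rfl⟩ := (dgV_eq_one p v).1 hv
    let b : FF p K := ⟨single w 1, single_mem_FF w⟩
    have hb0 : b ≠ 0 := by
      intro h
      have h1 : (single w 1 : HahnSeries VV K) = 0 := congrArg Subtype.val h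
      exact one_ne_zero (single_eq_zero_iff.1 h1)
    refine ⟨algebraMap (FF p K) K' b, (map_ne_zero _).2 hb0, fun h => h.commutes b, ?_⟩
    rw [hφalg]
    have h1 : jK' c (b : HahnSeries VV K) = single (p • w) (CP.of c 1) := by
      ext1
      funext v
      by_cases hv' : dgV p (Multiplicative.ofAdd v) = 1
      · obtain ⟨u, rfl⟩ := (dgV_eq_one p v).1 hv'
        rw [jK'_coeff_sc]
        change CP.of c ((single w 1 : HahnSeries VV K).coeff u) = _
        rw [coeff_single, coeff_single]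
        by_cases hu : u = w
        · rw [if_pos hu, if_pos (by rw [hu])]
        · have hu' : p • u ≠ p • w := fun h => hu (sc_injective p h)
          rw [if_neg hu, if_neg hu', map_zero]
      · rw [jK'_coeff_ne c _ v hv', coeff_single, if_neg]
        rintro rfl
        exact hv' hv
    rw [h1, map_one]
    exact order_single one_ne_zero
  obtain ⟨Δ1, hΔ, hΔ'⟩ := res_ker φ hlc hord hR hρ (dgV p) hfixv
  have hne := not_sub c ρ hcard hfix hfix' Δ1 hΔ (by
    intro γ hγ
    obtain ⟨a, ha, ha'⟩ := hΔ' γ hγ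
    refine ⟨(φ a).leadingCoeff, ?_, ?_, fun s => res_comm φ hρ s a⟩
    · rw [← ha']
      exact lc_mem (hφmem a)
    · exact leadingCoeff_ne_zero.2 ((map_ne_zero_iff φ hφinj).2 ha))
  rcases kummer_main hp2 c ζ hζ hζf ρ hcard hQ hfix hfix' hne with h | ⟨αx, αy, κ, h1, h2⟩
  · exact h
  · exact absurd h2 (hbad αx αy κ h1)

theorem rigid_of_noBad (hp2 : p ≠ 2) (c : Coc (GG p) K) (ζ : K) (hζ : IsPrimitiveRoot ζ p)
    (hζf : ∀ g : GG p, g • ζ = ζ)
    (hdom : ∀ a b, a ∈ QQ c → b ∈ QQ c → a ≠ 0 → b ≠ 0 → a * b ≠ 0)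
    (hbad : ∀ αx αy κ : ℤ, BadType c ζ αx αy κ →
      ¬ ((p : ℤ) ∣ κ ∨ ((p : ℤ) ∣ αx ∧ (p : ℤ) ∣ αy))) : IsRigid (FF p K) (GG p) := by
  obtain ⟨hfd, hfr⟩ := finrank_D c
  have := hfd
  have hNZ := grB_NZ c hdom
  have hLCM : LCM (DD c) := HH_LCM hNZ
  have : NoZeroDivisors (DD c) := hLCM.noZeroDivisors
  have : IsDomain (DD c) := NoZeroDivisors.to_isDomain _
  have hsimple : IsSimpleRing (DD c) := by
    let _ := divisionRingOfFiniteDimensional (FF p K) (DD c)
    infer_instance
  obtain ⟨h1, h2, h3, h4⟩ := KV_galois p K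
  refine ⟨DD c, inferInstance, inferInstance, isCentral_D c, hsimple, hfd,
    ⟨HahnSeries VV K, inferInstance, inferInstance, jKalg c, h1, h2, by rw [hfr, h3], h4⟩, ?_⟩
  rintro H _ ⟨K', iK, aK, f, g1, g2, g3, ⟨g4⟩⟩
  have g5 : Module.finrank (FF p K) K' = p ^ 3 := by
    rw [hfr] at g3
    exact (Nat.pow_left_injective (n := 2) (by norm_num) g3).symm
  obtain ⟨g6⟩ := main_group hp2 c ζ hζ hζf hdom hbad f g5
  exact ⟨g4.symm.trans g6⟩

end

end OddGp
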