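import Mathlib
import Pool.Agent.W_MP_bec7e1_h80.Grp
import Pool.Agent.W_bec7e1.GroupGp
import Pool.Agent.W_MP_bec7e1_h9.GGHom

/-!
# `GG p` is `G_p`
-/

namespace OddGp

variable {p : ℕ} [Fact p.Prime]

/-- every element is `z ^ k x ^ i y ^ j` -/
theorem GGHom.fn_self (a : GG p) : GGHom.fn (GG.x : GG p) GG.y GG.z a = a := by
  have h0 : a.i.val / p = 0 := Nat.div_eq_of_lt (ZMod.val_lt a.i)
  rw [GGHom.fn, GG.z_pow, GG.x_pow, GG.y_pow, h0]
  ext <;> simp [ff, GG.bar]

namespace GpIsoAux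

open W_bec7e1

/-- `x` -/
def gx (p : ℕ) : Gp p := PresentedGroup.of false
/-- `y` -/
def gy (p : ℕ) : Gp p := PresentedGroup.of true

theorem gx_pow : gx p ^ (p ^ 2) = 1 := by
  have h : (PresentedGroup.mk (relGp p)) (FreeGroup.of false ^ (p ^ 2)) = 1 :=
    PresentedGroup.one_of_mem (by simp [relGp])
  rw [map_pow] at h
  exact h

theorem gy_pow : gy p ^ p = 1 := by
  have h : (PresentedGroup.mk (relGp p)) (FreeGroup.of true ^ p) = 1 :=
    PresentedGroup.one_of_mem (by simp [relGp])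
  rw [map_pow] at h
  exact h

theorem gyx : gy p * gx p * (gy p)⁻¹ = gx p ^ (p + 1) := by
  have h : (PresentedGroup.mk (relGp p)) (FreeGroup.of true * FreeGroup.of false *
      (FreeGroup.of true)⁻¹ * (FreeGroup.of false ^ (p + 1))⁻¹) = 1 :=
    PresentedGroup.one_of_mem (by simp [relGp])
  rw [map_mul, map_inv _ (_ ^ _), map_pow, mul_inv_eq_one, map_mul, map_mul, map_inv] at h
  exact h

theorem gz_gx : Commute (gx p ^ p) (gx p) := (Commute.refl _).pow_left p

theorem gz_gy : Commute (gx p ^ p) (gy p) := by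
  have h1 : gy p * gx p ^ p * (gy p)⁻¹ = gx p ^ p := by
    have h2 : gy p * gx p ^ p * (gy p)⁻¹ = (gy p * gx p * (gy p)⁻¹) ^ p := by
      rw [conj_pow]
    rw [h2, gyx, ← pow_mul, add_mul, one_mul, ← sq, pow_add, gx_pow, one_mul]
  have h3 : gy p * gx p ^ p = gx p ^ p * gy p := mul_inv_eq_iff_eq_mul.1 h1
  exact h3.symm

theorem gy_mul_gx : gy p * gx p = gx p ^ p * (gx p * gy p) := by
  rw [mul_inv_eq_iff_eq_mul.1 (gyx (p := p)), pow_succ, mul_assoc]

theorem gz_pow : (gx p ^ p) ^ p = 1 := by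
  rw [← pow_mul, ← sq, gx_pow]

/-- `GG p → G_p` -/
def toG (p : ℕ) [Fact p.Prime] : GG p →* Gp p :=
  GGHom.hom (gz_gx (p := p)) gz_gy gy_mul_gx rfl gy_pow gz_pow

/-- the map on generators -/
def genMap (p : ℕ) : Bool → GG p := fun b => cond b GG.y GG.x

theorem genMap_rel : ∀ w ∈ relGp p, FreeGroup.lift (genMap p) w = 1 := by
  intro w hw
  simp only [relGp, Set.mem_insert_iff, Set.mem_singleton_iff] at hw
  rcases hw with rfl | rfl | rfl
  · simp only [map_pow, FreeGroup.lift_apply_of, genMap, cond_false]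
    rw [sq, pow_mul, GG.x_pow_p, GG.z_pow_p]
  · simp only [map_pow, FreeGroup.lift_apply_of, genMap, cond_true]
    exact GG.y_pow_p
  · simp only [map_pow, map_mul, map_inv, FreeGroup.lift_apply_of, genMap, cond_true, cond_false]
    rw [mul_inv_eq_one, GG.y_mul_x, pow_succ, GG.x_pow_p]
    group

/-- `G_p → GG p` -/
def ofG (p : ℕ) [Fact p.Prime] : Gp p →* GG p := PresentedGroup.toGroup (genMap_rel (p := p))

theorem ofG_gx : ofG p (gx p) = GG.x := by
  simp [ofG, gx, genMap]

theorem ofG_gy : ofG p (gy p) = GG.y := by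
  simp [ofG, gy, genMap]

theorem ofG_toG (a : GG p) : ofG p (toG p a) = a := by
  have h : toG p a = GGHom.fn (gx p) (gy p) (gx p ^ p) a := rfl
  rw [h, GGHom.fn, map_mul, map_mul, map_pow, map_pow, map_pow, map_pow, ofG_gx, ofG_gy,
    GG.x_pow_p]
  exact GGHom.fn_self a

theorem toG_surj : Function.Surjective (toG p) := by
  have h : (toG p).range = ⊤ := by
    rw [eq_top_iff, ← PresentedGroup.closure_range_of (relGp p), Subgroup.closure_le]
    rintro _ ⟨b, rfl⟩
    cases b with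
    | false => exact ⟨GG.x, GGHom.fn_x⟩
    | true => exact ⟨GG.y, GGHom.fn_y⟩
  intro g
  have h2 : g ∈ (toG p).range := by rw [h]; exact Subgroup.mem_top g
  exact h2

end GpIsoAux

/-- TASK. `GG p` is the group `G_p = ⟨x, y | x^(p²) = y^p = 1, y x y⁻¹ = x^(p+1)⟩`.
Proof: the relations hold in `GG p` (`GG.x_pow_p`, `GG.y_pow_p`, `GG.z_pow_p`, `GG.y_mul_x`), so
there is a hom `Gp p → GG p` (`PresentedGroup.toGroup`), surjective since `x`, `y` generate.
Conversely every element of `Gp p` is `x^i y^j` with `i < p^2`, `j < p` (the set of these elements is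
closed under right multiplication by `y` and `x`, since `y^j x = x^{(p+1)^j} y^j`), so `Gp p` is
finite with at most `p^3` elements, hence the map is bijective. (For `p = 2` see `Gp_two` in
`W_bec7e1/GroupGp.lean` for the style.) -/
theorem GG_equiv_Gp : Nonempty (GG p ≃* W_bec7e1.Gp p) := by
  refine ⟨MulEquiv.ofBijective (GpIsoAux.toG p) ⟨?_, GpIsoAux.toG_surj⟩⟩
  exact Function.LeftInverse.injective (g := GpIsoAux.ofG p) GpIsoAux.ofG_toG

end OddGp
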