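import Mathlib
import Pool.Agent.W_MP_bec7e1_h80.Lat

/-!
# An equivariant embedding of the lattice of circulations into `L((φ))`
-/

namespace OddGp

open HahnSeries Finset

noncomputable section

theorem Ell_prod_single {G L : Type} [Field L] (t : Finset G) (e : G → L) :
    ∏ g ∈ t, (single (1 : ℤ) (e g) : LaurentSeries L) = single (t.card : ℤ) (∏ g ∈ t, e g) := by
  classical
  induction t using Finset.induction_on with
  | empty => simp
  | insert a t ha ih =>
    rw [prod_insert ha, prod_insert ha, ih, single_mul_single, card_insert_of_notMem ha]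
    congr 1
    push_cast
    rw [add_comm]

/-- the number `a * n + j` with `j < n` determines `a` and `j` -/
theorem Ell_inj {n a j b k : ℕ} (hj : j < n) (hk : k < n)
    (h : (a : ℤ) * n + j = (b : ℤ) * n + k) : a = b ∧ j = k := by
  have h' : a * n + j = b * n + k := by exact_mod_cast h
  have h1 : (a * n + j) / n = a := by
    rw [mul_comm, Nat.mul_add_div (by omega), Nat.div_eq_of_lt hj, add_zero]
  have h2 : (b * n + k) / n = b := by
    rw [mul_comm, Nat.mul_add_div (by omega), Nat.div_eq_of_lt hk, add_zero]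
  have h3 : a = b := by rw [← h1, ← h2, h']
  subst h3
  exact ⟨rfl, by omega⟩

/-- TASK. Equivariant embedding of `Circ G` into `L((φ))`.
Proof. Put `ε g = single 1 (e g)`, `W = ∏_g ε g` (a nonzero monomial: `single |G| (∏ e g)`), and let
`idx : G ≃ Fin |G|`. Put `E g h = W^{idx h} * ∑_{n < |G|} (ε g)^n` and
`ℓ m = ∑_g ∑_h (m g h) • E g h`. If `s (ε g) = ε (a g)` for all `g`, then `s W = W` and
`s (E g h) = E (a g) h`, so `s (ℓ m) = ∑ m g h • E (a g) h = ℓ (a • m)` (reindex; `Circ.smul_val`).
Injectivity: suppose `ℓ m = 0`. For `h ∈ G`, `n < |G|` the coefficient of `φ^{|G| idx h + n}` in `ℓ m`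
is `(∏ e g)^{idx h} ∑_g m g h (e g)^n` (the exponents `|G| idx(h) + n` are distinct), so
`∑_g m g h (e g)^n = 0` for all `n < |G|`, `h ∈ G`. The `e g` are distinct, so by Vandermonde
(`Matrix.eq_zero_of_forall_pow_sum_mul_pow_eq_zero`) `(m g h : L) = 0`, so `m g h = 0`. -/
theorem exists_ell {G L : Type} [Group G] [Fintype G] [DecidableEq G] [Field L] [CharZero L]
    (e : G → L) (he : Function.Injective e) (he0 : ∀ g, e g ≠ 0) :
    ∃ ℓ : Circ G →+ LaurentSeries L, Function.Injective ℓ ∧
      ∀ (a : G) (s : LaurentSeries L →+* LaurentSeries L),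
        (∀ g, s (single 1 (e g)) = single 1 (e (a * g))) → ∀ m, s (ℓ m) = ℓ (a • m) := by
  classical
  obtain ⟨n, hn⟩ : ∃ n, n = Fintype.card G := ⟨_, rfl⟩
  let idx : G ≃ Fin n := (Fintype.equivFin G).trans (finCongr hn.symm)
  let P : L := ∏ g, e g
  have hP : P ≠ 0 := prod_ne_zero_iff.2 fun g _ => he0 g
  let W : LaurentSeries L := ∏ g, single (1 : ℤ) (e g)
  have hW : W = single (n : ℤ) P := by
    have h := Ell_prod_single (univ : Finset G) e
    rw [card_univ, ← hn] at h
    exact h
  let E : G → G → LaurentSeries L := fun g h =>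
    W ^ (idx h : ℕ) * ∑ j ∈ range n, (single (1 : ℤ) (e g)) ^ j
  have hE : ∀ g h, E g h = ∑ j ∈ range n, single (((idx h : ℕ) : ℤ) * n + j)
      (P ^ (idx h : ℕ) * e g ^ j) := by
    intro g h
    simp only [E, hW, single_pow, mul_sum, single_mul_single]
    refine sum_congr rfl fun j _ => ?_
    congr 1
    simp
  let ℓ : Circ G →+ LaurentSeries L :=
    { toFun := fun m => ∑ g, ∑ h, m.1 g h • E g h
      map_zero' := by
        refine sum_eq_zero fun g _ => sum_eq_zero fun h _ => ?_
        exact zero_smul ℤ (E g h)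
      map_add' := fun m m' => by
        rw [← sum_add_distrib]
        refine sum_congr rfl fun g _ => ?_
        rw [← sum_add_distrib]
        refine sum_congr rfl fun h _ => ?_
        exact add_smul (m.1 g h) (m'.1 g h) (E g h) }
  have hℓ : ∀ m, ℓ m = ∑ g, ∑ h, m.1 g h • E g h := fun _ => rfl
  refine ⟨ℓ, ?_, ?_⟩
  · rw [injective_iff_map_eq_zero]
    intro m hm
    have hcoef : ∀ (h0 : G) (k : Fin n), ∑ g, (m.1 g h0 : L) * e g ^ (k : ℕ) = 0 := by
      intro h0 k
      have h1 : (ℓ m).coeff (((idx h0 : ℕ) : ℤ) * n + (k : ℕ)) = 0 := by rw [hm]; rfl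
      have h2 : ∀ g h, (m.1 g h • E g h).coeff (((idx h0 : ℕ) : ℤ) * n + (k : ℕ)) =
          if h = h0 then (m.1 g h0 : L) * (P ^ (idx h0 : ℕ) * e g ^ (k : ℕ)) else 0 := by
        intro g h
        rw [coeff_smul, hE, coeff_sum, zsmul_eq_mul]
        split_ifs with hh
        · subst hh
          rw [sum_eq_single (k : ℕ)]
          · rw [coeff_single_same]
          · intro j hj hjk
            rw [coeff_single_of_ne]
            intro h3
            exact hjk (Ell_inj k.2 (mem_range.1 hj) h3).2.symm
          · intro h3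
            exact absurd (mem_range.2 k.2) h3
        · rw [sum_eq_zero, mul_zero]
          intro j hj
          rw [coeff_single_of_ne]
          intro h3
          refine hh (idx.injective (Fin.ext ?_))
          exact (Ell_inj k.2 (mem_range.1 hj) h3).1.symm
      rw [hℓ, coeff_sum] at h1
      have h3 : ∀ g, (∑ h, m.1 g h • E g h).coeff (((idx h0 : ℕ) : ℤ) * n + (k : ℕ)) =
          P ^ (idx h0 : ℕ) * ((m.1 g h0 : L) * e g ^ (k : ℕ)) := by
        intro g
        rw [coeff_sum, sum_congr rfl fun h _ => h2 g h, sum_ite_eq' univ h0]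
        rw [if_pos (mem_univ _)]
        ring
      rw [sum_congr rfl fun g _ => h3 g, ← mul_sum] at h1
      exact (mul_eq_zero.1 h1).resolve_left (pow_ne_zero _ hP)
    apply Subtype.ext
    funext g h
    have hv := Matrix.eq_zero_of_forall_pow_sum_mul_pow_eq_zero (R := L) (n := n)
      (f := fun i => e (idx.symm i)) (v := fun i => (m.1 (idx.symm i) h : L))
      (he.comp idx.symm.injective) (fun k => by
        rw [← hcoef h k]
        exact Fintype.sum_equiv idx.symm _ _ fun i => rfl)
    have h4 := congrFun hv (idx g)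
    simp only [Equiv.symm_apply_apply, Pi.zero_apply, Int.cast_eq_zero] at h4
    exact h4
  · intro a s hs m
    have hsW : s W = W := by
      change s (∏ g, single (1 : ℤ) (e g)) = ∏ g, single (1 : ℤ) (e g)
      rw [map_prod]
      simp only [hs]
      exact Fintype.prod_equiv (Equiv.mulLeft a) _ _ fun g => rfl
    have hsE : ∀ g h, s (E g h) = E (a * g) h := by
      intro g h
      change s (W ^ (idx h : ℕ) * ∑ j ∈ range n, (single (1 : ℤ) (e g)) ^ j) =
        W ^ (idx h : ℕ) * ∑ j ∈ range n, (single (1 : ℤ) (e (a * g))) ^ j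
      rw [map_mul, map_pow, hsW, map_sum]
      simp only [map_pow, hs]
    rw [hℓ, hℓ, map_sum]
    refine Fintype.sum_equiv (Equiv.mulLeft a) _ _ fun g => ?_
    rw [map_sum]
    refine sum_congr rfl fun h _ => ?_
    rw [map_zsmul, hsE, Circ.smul_val, Equiv.coe_mulLeft, inv_mul_cancel_left]

end

end OddGp
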