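import Mathlib
import Pool.Agent.W_MP_bec7e1_h80.Conc

/-!
# The `GG p`-equivariant family `ε_g`
-/

namespace OddGp

open HahnSeries Finset

noncomputable section

variable {C : Type} [Field C] {p : ℕ} [Fact p.Prime] (η : Cˣ)

/-- exponent of `η` in `ε_g`: `p (k - i j) + i` -/
def epx (g : GG p) : ℤ := p * ((g.k.val : ℤ) - g.i.val * g.j.val) + g.i.val

/-- the coefficient of `ε_g = η^{p (k - i j) + i} T^{δ_j - δ_0} φ` -/
def eps (g : GG p) : fL C p := mon (((η ^ (epx g) : Cˣ) : C)) ((dlt g.j, 0) : LL p)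

/-- TASK. -/
theorem eps_ne_zero (g : GG p) : eps (C := C) η g ≠ 0 :=
  mon_ne_zero (Units.ne_zero _) _

theorem Eps_mon_inj {A : Type} [AddCommGroup A] [TwoUniqueSums A] {c d : C} {a b : A}
    (hc : c ≠ 0) (h : (mon c a : MF C A) = mon d b) : a = b ∧ c = d := by
  have h1 := mon_injective h
  rcases AddMonoidAlgebra.single_inj.1 h1 with h2 | h2
  · exact h2
  · exact absurd h2.1 hc

theorem Eps_zmod {a b : ℤ} (h : ((a : ℤ) : ZMod p) = ((b : ℤ) : ZMod p)) : ∃ t : ℤ, a = b + p * t := by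
  obtain ⟨t, ht⟩ := (ZMod.intCast_eq_intCast_iff_dvd_sub b a p).1 h.symm
  exact ⟨t, by linarith⟩

theorem Eps_val_eq {a b : ZMod p} (h : ∃ t : ℤ, (a.val : ℤ) - b.val = p * t) : a = b := by
  obtain ⟨t, ht⟩ := h
  have h1 : (((a.val : ℤ) - b.val : ℤ) : ZMod p) = 0 := by
    rw [ht]
    push_cast
    simp
  push_cast at h1
  rw [ZMod.natCast_zmod_val, ZMod.natCast_zmod_val] at h1
  exact sub_eq_zero.1 h1

/-- powers of `η` only depend on the exponent modulo `p ^ 2` -/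
theorem Eps_pow (hη : (η : C) ^ (p ^ 2) = 1) {a b : ℤ} (t : ℤ) (h : a = b + (p : ℤ) ^ 2 * t) :
    (η ^ a : Cˣ) = η ^ b := by
  have h1 : η ^ (p ^ 2) = 1 := Units.ext (by rw [Units.val_pow_eq_pow_val, hη, Units.val_one])
  have h2 : η ^ ((p : ℤ) ^ 2) = 1 := by
    have h3 : ((p : ℤ) ^ 2) = ((p ^ 2 : ℕ) : ℤ) := by push_cast; ring
    rw [h3, zpow_natCast, h1]
  rw [h, zpow_add, zpow_mul, h2, one_zpow, mul_one]

theorem Eps_one_val : (1 : ZMod p).val = 1 := by
  have h1 : (1 : ZMod p).val = 1 % p := by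
    have := ZMod.val_natCast p 1
    simpa using this
  rw [h1, Nat.mod_eq_of_lt (Fact.out : p.Prime).one_lt]

/-- TASK. The `ε_g` are distinct.
Proof: if `eps g = eps h` then the exponents of `T` agree (`mon`, `single_inj`), so
`dlt g.j = dlt h.j`, hence `g.j = h.j` (evaluate at `g.j` and at `h.j`; `dlt 0 = 0`), and
`η^{epx g} = η^{epx h}`, so `p^2 ∣ epx g - epx h`: modulo `p` this gives `g.i.val = h.i.val`
(both `< p`), then `p ∣ g.k.val - h.k.val`. -/
theorem eps_injective (hη : IsPrimitiveRoot (η : C) (p ^ 2)) :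
    Function.Injective (eps (C := C) (p := p) η) := by
  intro g h hgh
  have hp0 : (p : ℤ) ≠ 0 := by exact_mod_cast (Fact.out : p.Prime).ne_zero
  obtain ⟨h1, h2⟩ := Eps_mon_inj (Units.ne_zero _) hgh
  have hj : g.j = h.j := by
    have h3 := congrArg (fun v : LL p => v.1.1 g.j) h1
    change (if g.j = g.j then (1 : ℤ) else 0) - (if g.j = 0 then 1 else 0) =
      (if g.j = h.j then 1 else 0) - (if g.j = 0 then 1 else 0) at h3
    rw [if_pos rfl, sub_left_inj] at h3
    by_contra hne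
    rw [if_neg hne] at h3
    exact one_ne_zero h3
  have hpow : (η : C) ^ (epx g - epx h) = 1 := by
    have h3 : (η ^ epx g : Cˣ) = η ^ epx h := Units.ext h2
    have h4 : (η ^ (epx g - epx h) : Cˣ) = 1 := by rw [zpow_sub, h3, mul_inv_cancel]
    have h5 := congrArg (fun u : Cˣ => (u : C)) h4
    simpa using h5
  obtain ⟨t, ht⟩ := (hη.zpow_eq_one_iff_dvd _).1 hpow
  rw [epx, epx, hj] at ht
  push_cast at ht
  have hi : g.i = h.i := by
    refine Eps_val_eq ⟨p * t - (((g.k.val : ℤ) - h.k.val) -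
      ((g.i.val : ℤ) - h.i.val) * h.j.val), ?_⟩
    linear_combination ht
  rw [hi] at ht
  have hk : g.k = h.k := by
    refine Eps_val_eq ⟨t, ?_⟩
    have h3 : (p : ℤ) * ((g.k.val : ℤ) - h.k.val) = p * (p * t) := by linear_combination ht
    exact mul_left_cancel₀ hp0 h3
  exact GG.ext hk hi hj

theorem Eps_mom (j : ZMod p) : mom p (dlt j) = j.val := by
  change ∑ s : ZMod p, (s.val : ℤ) * ((if s = j then 1 else 0) - (if s = 0 then 1 else 0)) = _
  have h : ∀ s : ZMod p, (s.val : ℤ) * ((if s = j then 1 else 0) - (if s = 0 then 1 else 0)) =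
      if s = j then (s.val : ℤ) else 0 := by
    intro s
    by_cases h1 : s = j
    · by_cases h2 : s = 0
      · simp [h2, ZMod.val_zero]
      · simp [h1, h1 ▸ h2]
    · by_cases h2 : s = 0
      · simp [h2, ZMod.val_zero]
      · simp [h1, h2]
  rw [sum_congr rfl fun s _ => h s, sum_ite_eq' univ j, if_pos (mem_univ _)]

theorem Eps_eX (d : ℤ) (j : ZMod p) : eX p d ((dlt j, 0) : LL p) = -(p * j.val) := by
  rw [eX_apply]
  change -(p * mom p (dlt j)) + d * (exXL p 0 - vL p 0) = _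
  rw [Eps_mom, map_zero, map_zero]
  ring

theorem Eps_sgX (j : ZMod p) : sgX p ((dlt j, 0) : LL p) = (dlt j, 0) := by
  rw [sgX_apply]
  exact Prod.ext rfl (smul_zero _)

/-- TASK. `X_d` maps `ε_g` to `ε_{xg}`.
Proof: `tw_single`, `zHom_mon`; `tw X μ_x (single 1 (eps g)) = single 1 (X_d (eps g) * μ_x)`;
`X_d (mon c (dlt j, 0)) = mon (c η^{-p mom (dlt j)}) (dlt j, 0)`, `mom (dlt j) = j.val`. So the
exponent of `η` becomes `p (k - i j) + i - p j + 1`. `x g = (k + [i = -1], i + 1, j)` (`GG.mul_k`,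
`ff`, `cy 1 i`): if `i.val + 1 < p` the exponents agree; if `i.val = p - 1`, `(i + 1).val = 0` and
`p (k - (p-1) j) + (p - 1) - p j + 1 = p (k + 1) - p^2 j`, congruent to `p (k+1).val` modulo
`p^2`. -/
theorem tw_X_eps (hη : (η : C) ^ (p ^ 2) = 1) (d : ℤ) (g : GG p) :
    tw (XC p η d) (muX p η) (single 1 (eps η g)) = single 1 (eps (C := C) η (GG.x * g)) := by
  rw [tw_single, zpow_one, muX_val, eps, XC, zHom_mon, Eps_eX, Eps_sgX, mul_comm, cst_mul_mon,
    eps]
  have hj : (GG.x * g).j = g.j := by simp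
  rw [hj]
  congr 2
  have hc := cy_add_val (1 : ZMod p) g.i
  rw [Eps_one_val] at hc
  have hc' : (p : ℤ) * (cy (1 : ZMod p) g.i : ℕ) + ((1 + g.i).val : ℤ) = 1 + g.i.val := by
    exact_mod_cast hc
  obtain ⟨t, ht⟩ := Eps_zmod (p := p) (a := ((GG.x * g).k.val : ℤ))
    (b := (g.k.val : ℤ) + (cy (1 : ZMod p) g.i : ℕ)) (by
      push_cast
      rw [ZMod.natCast_zmod_val, ZMod.natCast_zmod_val, GG.mul_k]
      simp [ff])
  have hi : (GG.x * g).i = 1 + g.i := by simp
  rw [← Units.val_mul, ← Units.val_mul]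
  congr 1
  rw [← zpow_add, ← zpow_one_add]
  symm
  refine Eps_pow η hη (t + (cy (1 : ZMod p) g.i : ℕ) * g.j.val) ?_
  rw [epx, epx, hj, hi, ht]
  linear_combination (1 - (p : ℤ) * g.j.val) * hc'

theorem Eps_sgY (d : ℤ) (j : ZMod p) :
    (sgY p d ((dlt j, 0) : LL p)) + ((dlt 1, 0) : LL p) = (dlt (1 + j), 0) := by
  rw [sgY_apply]
  have h0 : vL p (0 : Lam p) = 0 := map_zero _
  refine Prod.ext ?_ ?_
  · change shA p (dlt j) - (d * vL p 0) • dlt 1 + dlt 1 = dlt (1 + j)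
    rw [h0, mul_zero, zero_smul, sub_zero]
    apply Subtype.ext
    funext s
    change ((if s - 1 = j then (1 : ℤ) else 0) - (if s - 1 = 0 then 1 else 0)) +
      ((if s = 1 then 1 else 0) - (if s = 0 then 1 else 0)) =
      (if s = 1 + j then 1 else 0) - (if s = 0 then 1 else 0)
    simp only [sub_eq_iff_eq_add', zero_add, add_zero]
    ring
  · change (GA.y : GA p) • (0 : Lam p) + 0 = 0
    rw [smul_zero, add_zero]

/-- TASK. `Y_d` maps `ε_g` to `ε_{yg}`.
Proof: `Y_d (mon c (dlt j, 0)) = mon c (shA (dlt j), 0)`, `shA (dlt j) = dlt (j+1) - dlt 1`, times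
`μ_y = T^{(dlt 1, 0)}` gives `T^{(dlt (j+1), 0)}`. `y g = (k + i, i, j + 1)`; the exponent
`p ((k+i).val - i.val (j+1).val) + i.val` is congruent to `p (k.val - i.val j.val) + i.val`
modulo `p^2`. -/
theorem tw_Y_eps (hη : (η : C) ^ (p ^ 2) = 1) (d : ℤ) (g : GG p) :
    tw (YC p η d) (muY C p) (single 1 (eps η g)) = single 1 (eps (C := C) η (GG.y * g)) := by
  have h0 : eY p d ((dlt g.j, 0) : LL p) = 0 := by
    rw [eY_apply]
    change d * exYL p 0 = 0
    rw [map_zero, mul_zero]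
  rw [tw_single, zpow_one, muY_val, eps, YC, zHom_mon, h0, zpow_zero, Units.val_one, mul_one,
    mon_mul, mul_one, Eps_sgY, eps]
  have hj : (GG.y * g).j = 1 + g.j := by simp
  have hi : (GG.y * g).i = g.i := by simp
  rw [hj]
  congr 3
  obtain ⟨t, ht⟩ := Eps_zmod (p := p) (a := ((GG.y * g).k.val : ℤ))
    (b := (g.k.val : ℤ) + g.i.val) (by
      push_cast
      rw [ZMod.natCast_zmod_val, ZMod.natCast_zmod_val, ZMod.natCast_zmod_val, GG.mul_k]
      simp [ff])
  obtain ⟨t', ht'⟩ := Eps_zmod (p := p) (a := ((1 + g.j).val : ℤ)) (b := 1 + (g.j.val : ℤ)) (by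
      push_cast
      rw [ZMod.natCast_zmod_val, ZMod.natCast_zmod_val])
  symm
  refine Eps_pow η hη (t - g.i.val * t') ?_
  rw [epx, epx, hj, hi, ht, ht']
  ring

/-- TASK. `φ ↦ ζ φ` maps `ε_g` to `ε_{zg}`, `z g = (k + 1, i, j)`. -/
theorem tw_Z_eps (hη : (η : C) ^ (p ^ 2) = 1) (g : GG p) :
    tw (RingHom.id (fL C p)) (zeC p η) (single 1 (eps η g)) =
      single 1 (eps (C := C) η (GG.z * g)) := by
  rw [tw_single, zpow_one, zeC_val, RingHom.id_apply, eps, mul_comm, cst_mul_mon, eps, GG.z_mul]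
  congr 2
  obtain ⟨t, ht⟩ := Eps_zmod (p := p) (a := ((g.k + 1).val : ℤ))
    (b := (g.k.val : ℤ) + 1) (by
      push_cast
      rw [ZMod.natCast_zmod_val, ZMod.natCast_zmod_val])
  rw [← Units.val_pow_eq_pow_val, ← Units.val_mul]
  congr 1
  rw [← zpow_natCast, ← zpow_add]
  symm
  refine Eps_pow η hη t ?_
  rw [epx, epx]
  simp only
  rw [ht]
  ring

end

end OddGp
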