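import Mathlib
import Pool.Agent.W_MP_bec7e1_h80.Mon
import Pool.Agent.W_MP_bec7e1_h80.DDef

/-!
# Exponentials: embeddings `Frac C[A] → 𝔽((ε))`
-/

namespace OddGp

open HahnSeries Finset

noncomputable section

variable {𝔽 : Type} [Field 𝔽] [CharZero 𝔽]

/-- `exp(ε a)` -/
def ex (a : 𝔽) : LaurentSeries 𝔽 :=
  HahnSeries.ofPowerSeries ℤ 𝔽 (PowerSeries.rescale a (PowerSeries.exp 𝔽))

/-- TASK. -/
theorem ex_zero : ex (0 : 𝔽) = 1 := by
  unfold ex
  rw [PowerSeries.rescale_zero_apply, PowerSeries.constantCoeff_exp, map_one, map_one]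

/-- TASK. (`PowerSeries.exp_mul_exp_eq_exp_add`.) -/
theorem ex_add (a b : 𝔽) : ex (a + b) = ex a * ex b := by
  unfold ex
  rw [← map_mul, PowerSeries.exp_mul_exp_eq_exp_add]

theorem ex_coeff (a : 𝔽) (i : ℤ) : (ex a).coeff i =
    if i < 0 then 0 else a ^ i.natAbs * (algebraMap ℚ 𝔽) (1 / (i.natAbs.factorial : ℚ)) := by
  unfold ex
  rw [PowerSeries.coeff_coe]
  split_ifs
  · rfl
  · rw [PowerSeries.coeff_rescale, PowerSeries.coeff_exp]

theorem ex_coeff_nat (a : 𝔽) (n : ℕ) : (ex a).coeff (n : ℤ) =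
    a ^ n * (algebraMap ℚ 𝔽) (1 / (n.factorial : ℚ)) := by
  rw [ex_coeff, if_neg (by omega), Int.natAbs_natCast]

/-- TASK. Compare coefficients `a^n / n!`. -/
theorem hmap_ex (s : 𝔽 →+* 𝔽) (a : 𝔽) : hmap s (ex a) = ex (s a) := by
  ext i
  rw [hmap_coeff, ex_coeff, ex_coeff]
  split_ifs
  · exact map_zero s
  · rw [map_mul, map_pow]
    congr 1
    exact DFunLike.congr_fun (RingHom.ext_rat (s.comp (algebraMap ℚ 𝔽)) (algebraMap ℚ 𝔽)) _

/-- TASK. -/
theorem ex_ne_zero (a : 𝔽) : ex a ≠ 0 := by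
  intro h
  have h1 : ex (a + -a) = 1 := by rw [add_neg_cancel, ex_zero]
  rw [ex_add, h, zero_mul] at h1
  exact zero_ne_one h1

/-- TASK. Linear independence of exponentials.
Proof: the coefficient of `ε^n` is `(1/n!) ∑ b x * x^n = 0` for all `n : ℕ`; Vandermonde
(`Matrix.eq_zero_of_forall_pow_sum_mul_pow_eq_zero`). -/
theorem ex_indep (F : Finset 𝔽) (b : 𝔽 → 𝔽) (h : ∑ x ∈ F, HahnSeries.C (b x) * ex x = 0) :
    ∀ x ∈ F, b x = 0 := by
  classical
  -- the power sums vanish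
  have h1 : ∀ n : ℕ, ∑ x ∈ F, b x * x ^ n = 0 := by
    intro n
    have h2 := congrArg (fun s : LaurentSeries 𝔽 => s.coeff (n : ℤ)) h
    simp only [HahnSeries.coeff_sum, HahnSeries.C_mul_eq_smul, HahnSeries.coeff_smul, smul_eq_mul,
      ex_coeff_nat, HahnSeries.coeff_zero] at h2
    have h3 : ∑ x ∈ F, b x * (x ^ n * (algebraMap ℚ 𝔽) (1 / (n.factorial : ℚ))) =
        (∑ x ∈ F, b x * x ^ n) * (algebraMap ℚ 𝔽) (1 / (n.factorial : ℚ)) := by
      rw [Finset.sum_mul]
      exact Finset.sum_congr rfl fun x _ => by ring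
    rw [h3] at h2
    refine (mul_eq_zero.1 h2).resolve_right ((map_ne_zero _).2 ?_)
    positivity
  -- hence so do the sums with a polynomial
  have h2 : ∀ P : Polynomial 𝔽, ∑ x ∈ F, b x * P.eval x = 0 := by
    intro P
    simp only [Polynomial.eval_eq_sum_range, Finset.mul_sum]
    rw [Finset.sum_comm]
    refine Finset.sum_eq_zero fun n _ => ?_
    have h3 : ∑ x ∈ F, b x * (P.coeff n * x ^ n) = P.coeff n * ∑ x ∈ F, b x * x ^ n := by
      rw [Finset.mul_sum]
      exact Finset.sum_congr rfl fun x _ => by ring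
    rw [h3, h1, mul_zero]
  intro x hx
  have h3 := h2 (∏ y ∈ F.erase x, (Polynomial.X - Polynomial.C y))
  rw [Finset.sum_eq_single x] at h3
  · refine (mul_eq_zero.1 h3).resolve_right ?_
    rw [Polynomial.eval_prod]
    refine Finset.prod_ne_zero_iff.2 ?_
    intro y hy
    rw [Polynomial.eval_sub, Polynomial.eval_X, Polynomial.eval_C, sub_ne_zero]
    exact (Finset.ne_of_mem_erase hy).symm
  · intro y hy hyx
    rw [Polynomial.eval_prod, Finset.prod_eq_zero (Finset.mem_erase.2 ⟨hyx, hy⟩), mul_zero]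
    simp
  · intro h4
    exact absurd hx h4

/-- TASK. The embedding `c T^a ↦ φ(c) b(a) exp(ε ℓ(a))` of `Frac C[A]`, `ℓ` injective.
Proof: `MFlift` with the character `a ↦ C (b a) * ex (ℓ a)` (`ex_add`) and
`φ' = HahnSeries.C ∘ φ`. Injectivity of `mLift`: by `mLift_apply`, an element
`f` of the kernel satisfies `∑_{a ∈ supp f} C (φ (f a) b(a)) * ex (ℓ a) = 0`; `ℓ` is injective, so
`ex_indep` gives `φ (f a) b(a) = 0` for all `a`, and `b(a) ≠ 0` (a unit). -/
theorem exists_iota {C A : Type} [Field C] [AddCommGroup A] [TwoUniqueSums A] (φ : C →+* 𝔽)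
    (b : Multiplicative A →* 𝔽) (ℓ : A →+ 𝔽) (hℓ : Function.Injective ℓ) :
    ∃ ι : MF C A →+* LaurentSeries 𝔽, ∀ (c : C) (a : A),
      ι (mon c a) = HahnSeries.C (φ c * b (Multiplicative.ofAdd a)) * ex (ℓ a) := by
  classical
  obtain ⟨χ, hχ⟩ : ∃ χ : Multiplicative A →* LaurentSeries 𝔽, ∀ a : A,
      χ (Multiplicative.ofAdd a) = HahnSeries.C (b (Multiplicative.ofAdd a)) * ex (ℓ a) := by
    refine ⟨{ toFun := fun a => HahnSeries.C (b a) * ex (ℓ (Multiplicative.toAdd a))
              map_one' := ?_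
              map_mul' := ?_ }, fun a => rfl⟩
    · rw [map_one, map_one, toAdd_one, map_zero, ex_zero, mul_one]
    · intro x y
      rw [map_mul, map_mul, toAdd_mul, map_add, ex_add]
      ring
  have hb : ∀ a : Multiplicative A, b a ≠ 0 := by
    intro a h
    have h1 : b (a * a⁻¹) = 1 := by rw [mul_inv_cancel, map_one]
    rw [map_mul, h, zero_mul] at h1
    exact zero_ne_one h1
  have hinj : Function.Injective (mLift (HahnSeries.C.comp φ) χ) := by
    rw [injective_iff_map_eq_zero]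
    intro f hf
    rw [mLift_apply, Finsupp.sum] at hf
    -- write the sum as a sum over the image of the support
    obtain ⟨g, hg⟩ : ∃ g : 𝔽 → 𝔽, ∀ a, g (ℓ a) = φ (f.coeff a) * b (Multiplicative.ofAdd a) := by
      refine ⟨Function.extend ℓ (fun a => φ (f.coeff a) * b (Multiplicative.ofAdd a)) 0, ?_⟩
      intro a
      exact hℓ.extend_apply _ _ a
    have h1 : ∑ x ∈ f.coeff.support.image ℓ, HahnSeries.C (g x) * ex x = 0 := by
      rw [Finset.sum_image (fun x _ y _ h => hℓ h), ← hf]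
      refine Finset.sum_congr rfl fun a _ => ?_
      rw [hg, hχ, map_mul, RingHom.comp_apply]
      ring
    have h2 := ex_indep _ g h1
    ext a
    by_contra hne
    have h3 : a ∈ f.coeff.support := Finsupp.mem_support_iff.2 hne
    have h4 := h2 (ℓ a) (Finset.mem_image_of_mem ℓ h3)
    rw [hg] at h4
    rcases mul_eq_zero.1 h4 with h5 | h5
    · exact hne (by simpa using h5)
    · exact hb _ h5
  refine ⟨MFlift (HahnSeries.C.comp φ) χ hinj, fun c a => ?_⟩
  rw [MFlift_mon, hχ, RingHom.comp_apply, map_mul]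
  ring

end

end OddGp
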