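import Mathlib
import Pool.Agent.W_MP_bec7e1_h80.Lat3

/-!
# Transformation of `ω_1` under `x`, `y`, `z`
-/

namespace OddGp

open Finset

section gen

variable {G : Type} [Group G] [Fintype G]

theorem esum_add_fun (F F' : G → G → ℤ) (m : Circ G) :
    esum (fun g h => F g h + F' g h) m = esum F m + esum F' m := by
  rw [esum_apply, esum_apply, esum_apply, ← Finset.sum_add_distrib]
  apply Finset.sum_congr rfl
  intro g _
  rw [← Finset.sum_add_distrib]
  apply Finset.sum_congr rfl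
  intro h _
  ring

theorem esum_sub_fun (F F' : G → G → ℤ) (m : Circ G) :
    esum (fun g h => F g h - F' g h) m = esum F m - esum F' m := by
  rw [esum_apply, esum_apply, esum_apply, ← Finset.sum_sub_distrib]
  apply Finset.sum_congr rfl
  intro g _
  rw [← Finset.sum_sub_distrib]
  apply Finset.sum_congr rfl
  intro h _
  ring

theorem esum_mul_fun (c : ℤ) (F : G → G → ℤ) (m : Circ G) :
    esum (fun g h => c * F g h) m = c * esum F m := by
  rw [esum_apply, esum_apply, Finset.mul_sum]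
  apply Finset.sum_congr rfl
  intro g _
  rw [Finset.mul_sum]
  apply Finset.sum_congr rfl
  intro h _
  ring

theorem dvd_esum (n : ℤ) (F : G → G → ℤ) (hF : ∀ g h, n ∣ F g h) (m : Circ G) :
    n ∣ esum F m := by
  rw [esum_apply]
  apply Finset.dvd_sum
  intro g _
  apply Finset.dvd_sum
  intro h _
  exact Dvd.dvd.mul_left (hF g h) _

end gen

variable {p : ℕ} [Fact p.Prime]

theorem val_add_dvd (a b : ZMod p) : (p : ℤ) ∣ ((a + b).val : ℤ) - a.val - b.val := by
  have h1 := cy_add_val a b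
  refine ⟨-(cy a b : ℤ), ?_⟩
  have h2 : ((p * cy a b + (a + b).val : ℕ) : ℤ) = ((a.val + b.val : ℕ) : ℤ) := by rw [h1]
  push_cast at h2
  linear_combination h2

theorem val_add_one_eq (a : ZMod p) :
    ((a + 1).val : ℤ) = a.val + 1 + p * (if a = -1 then -1 else 0) := by
  have hp : 1 < p := (Fact.out : p.Prime).one_lt
  have _hf : Fact (1 < p) := ⟨hp⟩
  by_cases ha : a = -1
  · subst ha
    rw [if_pos rfl, neg_add_cancel, ZMod.val_zero]
    have h1 : ((-1 : ZMod p)).val = p - 1 := by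
      rw [ZMod.neg_val, if_neg one_ne_zero, ZMod.val_one]
    rw [h1, Nat.cast_sub hp.le]
    push_cast
    ring
  · rw [if_neg ha, mul_zero, add_zero]
    have h1 : (a + 1).val = a.val + 1 := by
      rw [ZMod.val_add_of_lt, ZMod.val_one]
      rw [ZMod.val_one]
      have h2 : a.val < p := ZMod.val_lt a
      by_contra h3
      have h4 : a.val + 1 = p := by omega
      apply ha
      have h5 : ((a.val + 1 : ℕ) : ZMod p) = 0 := by rw [h4, ZMod.natCast_self]
      push_cast at h5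
      rw [ZMod.natCast_zmod_val] at h5
      exact eq_neg_of_add_eq_zero_left h5
    rw [h1]
    push_cast
    ring

theorem cy_one_left (a : ZMod p) : (cy 1 a : ℤ) = if a = -1 then 1 else 0 := by
  have hp : 1 < p := (Fact.out : p.Prime).one_lt
  have _hf : Fact (1 < p) := ⟨hp⟩
  have h1 := cy_add_val 1 a
  have h2 := val_add_one_eq a
  rw [add_comm a 1] at h2
  have h3 : ((p * cy 1 a + (1 + a).val : ℕ) : ℤ) = (((1 : ZMod p).val + a.val : ℕ) : ℤ) := by
    rw [h1]
  push_cast at h3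
  rw [h2, ZMod.val_one] at h3
  have hp0 : (p : ℤ) ≠ 0 := by
    have := (Fact.out : p.Prime).ne_zero
    exact_mod_cast this
  apply mul_left_cancel₀ hp0
  split_ifs at h3 ⊢ <;> push_cast at h3 <;> linear_combination h3

/-- the wrap-around of `j ↦ j + 1` -/
theorem cy_add_one (a b : ZMod p) : (cy (a + 1) b : ℤ) =
    cy a b + (if a = -1 then -1 else 0) - (if a + b = -1 then -1 else 0) := by
  have h1 := cy_add_val a b
  have h2 := cy_add_val (a + 1) b
  have h3 : ((p * cy a b + (a + b).val : ℕ) : ℤ) = ((a.val + b.val : ℕ) : ℤ) := by rw [h1]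
  have h4 : ((p * cy (a + 1) b + (a + 1 + b).val : ℕ) : ℤ) =
      (((a + 1).val + b.val : ℕ) : ℤ) := by rw [h2]
  push_cast at h3 h4
  have h5 : a + 1 + b = a + b + 1 := by ring
  rw [h5, val_add_one_eq, val_add_one_eq] at h4
  have hp0 : (p : ℤ) ≠ 0 := by
    have := (Fact.out : p.Prime).ne_zero
    exact_mod_cast this
  apply mul_left_cancel₀ hp0
  linear_combination h4 - h3

/-- TASK. Recall `om m = ∑ m(g,h) (p k(g) cy(j(g), j(h)) - k(h) (j(g) + j(h)))` (values in
`0, ..., p - 1`, as integers). By `esum_smul`, `om (z • m) = ∑ m(g,h) (p k(zg) cy(..) - k(h) (..))`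
with `k(zg) = k(g) + 1` in `ZMod p`, `j(zg) = j(g)` (`GG.z_mul`), so `p k(zg)` is congruent to
`p k(g) + p` modulo `p ^ 2`. -/
theorem om_z (m : Circ (GG p)) :
    ((p : ℤ) ^ 2) ∣ om p ((GG.z : GG p) • m) - om p m - p * vG p m := by
  rw [om, vG, esum_smul, ← esum_mul_fun, ← esum_sub_fun, ← esum_sub_fun]
  apply dvd_esum
  intro g h
  simp only [GG.z_mul]
  have h1 := val_add_dvd g.k 1
  have _hf : Fact (1 < p) := ⟨(Fact.out : p.Prime).one_lt⟩
  rw [ZMod.val_one] at h1
  obtain ⟨c, hc⟩ := h1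
  refine ⟨c * cy g.j h.j, ?_⟩
  push_cast at hc
  linear_combination (p * cy g.j h.j : ℤ) * hc

/-- TASK. By `esum_smul`, with `k(xg) = k(g) + cy(1, i(g))`, `j(xg) = j(g)`, and
`cy(1, i) = [i = -1]` (`p >= 2`); so `om (x • m) - om m = p ∑ m(g,h) [i(g) = -1] cy(j(g), j(h))`
modulo `p ^ 2`, which is `p * exX (push m)` by `esum_push` (`cy a 0 = 0`). -/
theorem om_x (m : Circ (GG p)) :
    ((p : ℤ) ^ 2) ∣ om p ((GG.x : GG p) • m) - om p m - exXL p (Psi p m) := by
  rw [exXL_apply, Psi_fst, exX, esum_push _ (fun a => by simp), om, esum_smul, ← esum_mul_fun,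
    ← esum_sub_fun, ← esum_sub_fun]
  apply dvd_esum
  intro g h
  have hk : (GG.x * g : GG p).k = g.k + (cy 1 g.i : ℕ) := by
    rw [GG.mul_k, GG.x_k, zero_add, ff, GG.bar_j, GG.x_j, zero_mul, zero_add]
    rfl
  have hj : (GG.x * g : GG p).j = g.j := by
    rw [GG.mul_j, GG.x_j, zero_add]
  rw [hk, hj, GG.bar_i, GG.bar_j, GG.bar_j]
  have h1 := cy_one_left g.i
  by_cases hi : g.i = -1
  · rw [if_pos hi] at h1 ⊢
    have h2 : cy 1 g.i = 1 := by exact_mod_cast h1
    rw [h2, Nat.cast_one]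
    have h3 := val_add_dvd g.k 1
    have _hf : Fact (1 < p) := ⟨(Fact.out : p.Prime).one_lt⟩
    rw [ZMod.val_one] at h3
    obtain ⟨c, hc⟩ := h3
    refine ⟨c * cy g.j h.j, ?_⟩
    push_cast at hc
    linear_combination (p * cy g.j h.j : ℤ) * hc
  · rw [if_neg hi] at h1 ⊢
    have h2 : cy 1 g.i = 0 := by exact_mod_cast h1
    rw [h2, Nat.cast_zero, add_zero]
    refine ⟨0, ?_⟩
    ring

/-- TASK. Here `k(yg) = k(g) + i(g)`, `j(yg) = j(g) + 1`. Put `q(j) = - [j = -1]`. Then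
`(j+1).val = j.val + 1 + p q(j)` and `cy(j + 1, j') = cy(j, j') + q(j) - q(j + j')`
(multiply by `p`, use `cy_add_val`). Modulo `p ^ 2`:
`om (y • m) - om m = p ∑ m (k(g) + i(g)) cy(j(g)+1, j(h)) - p ∑ m k(g) cy(j(g), j(h))
   - ∑ m k(h) (1 + p q(j(gh)))`
`= p ∑ m i(g) cy(j(g)+1, j(h)) + p ∑ m k(g) (q(j(g)) - q(j(gh))) - kG m - p ∑ m k(h) q(j(gh))`.
In `ZMod p`: `k(g) + k(h) = k(gh) - ff(g,h)`, and `∑ m (k(g) q(j(g)) - k(gh) q(j(gh))) = 0`
(`Circ.sum_eq`), so the total is `p ∑ m (i(g) cy(j(g)+1, j(h)) + ff(g,h) q(j(gh))) - kG m`,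
which is `exYL (Psi m)` by `esum_push`. (Checked numerically.) -/
theorem om_y (m : Circ (GG p)) :
    ((p : ℤ) ^ 2) ∣ om p ((GG.y : GG p) • m) - om p m - exYL p (Psi p m) := by
  have hpot := esum_pot (G := GG p) (fun g => (p : ℤ) * (g.k.val * (if g.j = -1 then -1 else 0))) m
  have key : ((p : ℤ) ^ 2) ∣ om p ((GG.y : GG p) • m) - om p m - exYL p (Psi p m) +
      esum (G := GG p) (fun g h => (fun g : GG p => (p : ℤ) *
        (g.k.val * (if g.j = -1 then -1 else 0))) (g * h) -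
        (fun g : GG p => (p : ℤ) * (g.k.val * (if g.j = -1 then -1 else 0))) g) m := by
    rw [exYL_apply, Psi_fst, Psi_snd, exY, esum_push _ (fun a => by simp), om, kG, esum_smul,
      ← esum_mul_fun, ← esum_sub_fun, ← esum_sub_fun, ← esum_sub_fun, ← esum_add_fun]
    apply dvd_esum
    intro g h
    have hk : (GG.y * g : GG p).k = g.k + g.i := by
      rw [GG.mul_k, GG.y_k, zero_add, ff, GG.bar_j, GG.y_j, one_mul, GG.bar_i, GG.bar_i, GG.y_i,
        cy_zero_left, Nat.cast_zero, add_zero]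
    have hj : (GG.y * g : GG p).j = g.j + 1 := by
      rw [GG.mul_j, GG.y_j, add_comm]
    simp only [hk, hj, GG.bar_i, GG.bar_j, GG.mul_j]
    have e1 : g.j + 1 + h.j = g.j + h.j + 1 := by ring
    rw [e1, val_add_one_eq (g.j + h.j)]
    have e2 := cy_add_one g.j h.j
    -- k(gh) = k(g) + k(h) + ff
    obtain ⟨c1, hc1⟩ := val_add_dvd g.k g.i
    have h3 : (p : ℤ) ∣ ((g * h).k.val : ℤ) - g.k.val - h.k.val -
        (ff (GG.bar g) (GG.bar h)).val := by
      rw [GG.mul_k]
      obtain ⟨a1, ha1⟩ := val_add_dvd (g.k + h.k) (ff (GG.bar g) (GG.bar h))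
      obtain ⟨a2, ha2⟩ := val_add_dvd g.k h.k
      exact ⟨a1 + a2, by linear_combination ha1 + ha2⟩
    obtain ⟨c2, hc2⟩ := h3
    generalize (if g.j = -1 then (-1 : ℤ) else 0) = q1 at *
    by_cases hj2 : g.j + h.j = -1
    · rw [if_pos hj2] at e2
      simp only [if_pos hj2]
      have e5 : ∀ (D : Decidable (g.j + h.j = -1)), @ite ℤ (g.j + h.j = -1) D (-1) 0 = -1 :=
        fun D => if_pos hj2
      refine ⟨c1 * cy (g.j + 1) h.j + c2 * (-1), ?_⟩
      try erw [e5]
      linear_combination (p * cy (g.j + 1) h.j : ℤ) * hc1 + (p * (-1) : ℤ) * hc2 +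
        (p * g.k.val : ℤ) * e2
    · rw [if_neg hj2] at e2
      simp only [if_neg hj2]
      have e5 : ∀ (D : Decidable (g.j + h.j = -1)), @ite ℤ (g.j + h.j = -1) D (-1) 0 = 0 :=
        fun D => if_neg hj2
      refine ⟨c1 * cy (g.j + 1) h.j, ?_⟩
      try erw [e5]
      linear_combination (p * cy (g.j + 1) h.j : ℤ) * hc1 + (p * g.k.val : ℤ) * e2
  rw [hpot, add_zero] at key
  exact key

end OddGp
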