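import Mathlib
import Pool.Agent.W_MP_bec7e1_h80.Lat3

/-!
# The cycle `yG` of the `z`-edges
-/

namespace OddGp

open Finset

variable {p : ℕ} [Fact p.Prime]

theorem yG_val_aux (n : ℕ) : (∑ t ∈ range n, cc ((GG.z : GG p) ^ t) GG.z).1 =
    ∑ t ∈ range n, edge ((GG.z : GG p) ^ t) GG.z - edge 1 ((GG.z : GG p) ^ n) := by
  induction n with
  | zero =>
    rw [Finset.sum_range_zero, Finset.sum_range_zero, pow_zero, edge_loop, sub_zero]
    rfl
  | succ n ih =>
    rw [Finset.sum_range_succ, Finset.sum_range_succ]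
    change (∑ t ∈ range n, cc ((GG.z : GG p) ^ t) GG.z).1 + (cc ((GG.z : GG p) ^ n) GG.z).1 = _
    rw [ih, cc_val, ← pow_succ]
    abel

/-- TASK. `yG = ∑_{t<p} (z^t → z^{t+1})`: the sum of the `cc (z^t) z` telescopes
(`cc_val`, `Finset.sum_range_sub`-like, `edge_loop`, `z ^ p = 1`). -/
theorem yG_val : (yG p).1 = ∑ t ∈ range p, edge ((GG.z : GG p) ^ t) GG.z := by
  have h := yG_val_aux (p := p) p
  rw [GG.z_pow_p, edge_loop, sub_zero] at h
  exact h

theorem z_ne_one : (GG.z : GG p) ≠ 1 := by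
  intro h
  have h1 : (GG.z : GG p).k = (1 : GG p).k := by rw [h]
  rw [GG.z_k, GG.one_k] at h1
  exact one_ne_zero h1

theorem sum_edge_mul (g h : GG p) (hh : h ≠ 1) (F : GG p → GG p → ℤ) :
    ∑ a, ∑ b, edge g h a b * F a b = F g h := by
  rw [Finset.sum_eq_single g, Finset.sum_eq_single h]
  · simp [edge, hh]
  · intro b _ hb
    simp [edge, hb]
  · intro h'; exact absurd (Finset.mem_univ _) h'
  · intro a _ ha
    apply Finset.sum_eq_zero
    intro b _
    simp [edge, ha]
  · intro h'; exact absurd (Finset.mem_univ _) h'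

/-- TASK. A linear functional evaluated at `yG` (use `yG_val`; `z ≠ 1`). -/
theorem esum_yG (F : GG p → GG p → ℤ) :
    esum F (yG p) = ∑ t ∈ range p, F ((GG.z : GG p) ^ t) GG.z := by
  rw [esum_apply, yG_val]
  simp only [Finset.sum_apply, Finset.sum_mul]
  rw [← Finset.sum_congr rfl (fun t _ => sum_edge_mul ((GG.z : GG p) ^ t) GG.z z_ne_one F)]
  conv_rhs => rw [Finset.sum_comm]
  apply Finset.sum_congr rfl
  intro a _
  rw [Finset.sum_comm]

/-- TASK. (`bar z = 1`, so `yG` consists of edges which become loops: evaluate `push_val`,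
`pushFun` with `yG_val`: an edge `(g,h)` with `h = z` contributes only for `b = bar z = 1`.) -/
theorem push_yG : push p (yG p) = 0 := by
  apply Subtype.ext
  funext a b
  rw [push_val, pushFun]
  change _ = (0 : ℤ)
  split_ifs with hb
  · rfl
  · apply Finset.sum_eq_zero
    intro g _
    apply Finset.sum_eq_zero
    intro h _
    split_ifs with hc
    · rw [yG_val]
      simp only [Finset.sum_apply]
      apply Finset.sum_eq_zero
      intro t _
      rw [edge, if_neg]
      rintro ⟨_, h2, _⟩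
      apply hb
      rw [← hc.2, h2, GG.bar_z]
    · rfl

/-- TASK. (`esum_yG`; `z.k.val = 1` since `p >= 2`.) -/
theorem kG_yG : kG p (yG p) = p := by
  rw [kG, esum_yG]
  have h1 : (GG.z : GG p).k.val = 1 := by
    rw [GG.z_k]
    exact ZMod.val_one p
  simp only [h1, Nat.cast_one, Finset.sum_const, Finset.card_range, nsmul_eq_mul, mul_one]

/-- TASK. -/
theorem vG_yG : vG p (yG p) = 0 := by
  rw [vG, esum_yG]
  apply Finset.sum_eq_zero
  intro t _
  rw [GG.z_j, cy_zero_right]
  rfl

/-- TASK. -/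
theorem om_yG : om p (yG p) = 0 := by
  rw [om, esum_yG]
  apply Finset.sum_eq_zero
  intro t _
  have h1 : ((GG.z : GG p) ^ t).j = 0 := by rw [GG.z_pow]
  rw [GG.z_j, cy_zero_right, h1, add_zero, ZMod.val_zero]
  simp

/-- TASK. `z • yG = yG` (`smul_edge`, shift of the index, `z ^ p = 1`). -/
theorem z_yG : (GG.z : GG p) • yG p = yG p := by
  apply Subtype.ext
  funext a b
  rw [Circ.smul_val, yG_val]
  simp only [Finset.sum_apply]
  simp only [smul_edge, ← pow_succ']
  have h1 := Finset.sum_range_succ (fun t => edge ((GG.z : GG p) ^ t) GG.z a b) p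
  have h2 := Finset.sum_range_succ' (fun t => edge ((GG.z : GG p) ^ t) GG.z a b) p
  rw [h1, GG.z_pow_p] at h2
  simp only [pow_zero] at h2
  exact (add_right_cancel h2).symm

/-- TASK. Immediate from the above. -/
theorem Psi_yG : Psi p (yG p) = nL p := by
  apply Subtype.ext
  apply Prod.ext
  · rw [Psi_fst, push_yG, nL_fst]
  · rw [Psi_snd, kG_yG, nL_snd]

end OddGp
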