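import Mathlib
import Pool.Agent.W_MP_bec7e1_h80.Eps
import Pool.Agent.W_MP_bec7e1_h80.Ell
import Pool.Agent.W_MP_bec7e1_h80.Expo
import Pool.Agent.W_MP_bec7e1_h80.OmFacts
import Pool.Agent.W_MP_bec7e1_h80.YG

/-!
# The concrete local embeddings
-/

namespace OddGp

open HahnSeries Finset

noncomputable section

variable {C : Type} [Field C] {p : ℕ} [Fact p.Prime] (η : Cˣ)

/-- the character `m ↦ ω_d(m) T^{(0, Ψ m)} φ^{d v(m)}` -/
def bC (d : ℤ) : Multiplicative (Circ (GG p)) →* LaurentSeries (fL C p) where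
  toFun m := single (d * vG p (Multiplicative.toAdd m))
    (mon (((η ^ (d * om p (Multiplicative.toAdd m)) : Cˣ) : C))
      ((0, Psi p (Multiplicative.toAdd m)) : LL p))
  map_one' := by
    rw [toAdd_one, map_zero, map_zero, map_zero, mul_zero, zpow_zero, Units.val_one]
    exact congrArg (single (0 : ℤ)) mon_zero_one
  map_mul' a b := by
    rw [toAdd_mul, map_add, map_add, map_add, mul_add, mul_add, zpow_add, Units.val_mul,
      single_mul_single, mon_mul]
    rfl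

theorem bC_apply (d : ℤ) (m : Circ (GG p)) : bC (C := C) η d (Multiplicative.ofAdd m) =
    single (d * vG p m) (mon (((η ^ (d * om p m) : Cˣ) : C)) ((0, Psi p m) : LL p)) := rfl

/-- powers of a root of unity of order dividing `p ^ 2` -/
theorem lec_pow_congr {η : Cˣ} (hη : (η : C) ^ (p ^ 2) = 1) {a b : ℤ}
    (h : ((p : ℤ) ^ 2) ∣ a - b) : η ^ a = η ^ b := by
  obtain ⟨k, hk⟩ := h
  have h1 : η ^ (p ^ 2) = 1 := Units.ext (by rw [Units.val_pow_eq_pow_val, hη, Units.val_one])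
  have h2 : a = b + (((p ^ 2 : ℕ) : ℤ)) * k := by
    push_cast
    linarith
  rw [h2, zpow_add, zpow_mul, zpow_natCast, h1, one_zpow, mul_one]

theorem lec_congr {η : Cˣ} (hη : (η : C) ^ (p ^ 2) = 1) {a b : ℤ}
    (h : ((p : ℤ) ^ 2) ∣ a - b) : ((η ^ a : Cˣ) : C) = ((η ^ b : Cˣ) : C) := by
  rw [lec_pow_congr hη h]

theorem lec_map_zpow (u : Cˣ) (n : ℤ) :
    (((Units.map (cst : C →+* fL C p).toMonoidHom u) ^ n : (fL C p)ˣ) : fL C p) =
      cst ((u ^ n : Cˣ) : C) := by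
  rw [← map_zpow]
  rfl

theorem lec_mon_cst (c d : C) (a : LL p) :
    (mon c a * cst d : fL C p) = mon (c * d) a := by
  rw [mul_comm, cst_mul_mon, mul_comm]

/-- TASK. Equivariance of the character under `x`.
Proof: `tw_single`; `X_d (mon (η^{d om m}) (0, Ψ m)) =
mon (η^{d om m + d (exXL (Ψ m) - vL (Ψ m))}) (0, x Ψ m)`, times `μ_x^{d v(m)} = η^{d v(m)}`;
`vL (Ψ m) = vG m`, so the exponent is `d (om m + exXL (Ψ m)) = d om (x m)` modulo `p^2` (`om_x`);
`Psi_smul`, `vG_smul`. -/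
theorem tw_X_bC (hη : (η : C) ^ (p ^ 2) = 1) (d : ℤ) (m : Circ (GG p)) :
    tw (XC p η d) (muX p η) (bC η d (Multiplicative.ofAdd m)) =
      bC (C := C) η d (Multiplicative.ofAdd ((GG.x : GG p) • m)) := by
  rw [bC_apply, bC_apply, tw_single, vG_smul, Psi_smul, GG.bar_x]
  congr 1
  have h1 : XC p η d (mon (((η ^ (d * om p m) : Cˣ) : C)) ((0, Psi p m) : LL p)) =
      mon (((η ^ (d * om p m) : Cˣ) : C) * ((η ^ (eX p d ((0, Psi p m) : LL p)) : Cˣ) : C))
        ((0, (GA.x : GA p) • Psi p m) : LL p) := zHom_mon _ _ _ _ _ _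
  have h2 : (((muX p η : (fL C p)ˣ) ^ (d * vG p m) : (fL C p)ˣ) : fL C p) =
      cst ((η ^ (d * vG p m) : Cˣ) : C) := lec_map_zpow η _
  rw [h1, h2, lec_mon_cst, ← Units.val_mul, ← Units.val_mul, ← zpow_add, ← zpow_add]
  congr 1
  refine lec_congr hη ?_
  have h3 : eX p d ((0, Psi p m) : LL p) = d * (exXL p (Psi p m) - vG p m) := by
    rw [eX_apply, map_zero, vL_Psi]
    ring
  rw [h3]
  obtain ⟨k, hk⟩ := om_x m
  refine ⟨-(d * k), ?_⟩
  linear_combination (-d) * hk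

/-- TASK. Equivariance under `y`: `sgY (0, Ψ m) = (- d v(m) (dlt 1), y Ψ m)` and
`μ_y^{d v(m)} = T^{(d v(m) (dlt 1), 0)}`; `om_y`. -/
theorem tw_Y_bC (hη : (η : C) ^ (p ^ 2) = 1) (d : ℤ) (m : Circ (GG p)) :
    tw (YC p η d) (muY C p) (bC η d (Multiplicative.ofAdd m)) =
      bC (C := C) η d (Multiplicative.ofAdd ((GG.y : GG p) • m)) := by
  rw [bC_apply, bC_apply, tw_single, vG_smul, Psi_smul, GG.bar_y]
  congr 1
  have h1 : YC p η d (mon (((η ^ (d * om p m) : Cˣ) : C)) ((0, Psi p m) : LL p)) =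
      mon (((η ^ (d * om p m) : Cˣ) : C) * ((η ^ (eY p d ((0, Psi p m) : LL p)) : Cˣ) : C))
        (sgY p d ((0, Psi p m) : LL p)) := zHom_mon _ _ _ _ _ _
  have h2 : ∀ n : ℤ, (((muY C p : (fL C p)ˣ) ^ n : (fL C p)ˣ) : fL C p) =
      mon (1 : C) ((n • dlt 1, 0) : LL p) := by
    intro n
    have h3 : ∀ k : ℕ, (((muY C p : (fL C p)ˣ) ^ k : (fL C p)ˣ) : fL C p) =
        mon (1 : C) (k • ((dlt 1, 0) : LL p)) := by
      intro k
      rw [Units.val_pow_eq_pow_val, muY_val, mon_pow, one_pow]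
    have h4 : ∀ k : ℕ, (k • ((dlt 1, 0) : LL p)) = (((k : ℤ) • dlt 1, 0) : LL p) := by
      intro k
      apply Prod.ext
      · rw [Prod.smul_fst, natCast_zsmul]
      · rw [Prod.smul_snd, smul_zero]
    obtain ⟨k, rfl | rfl⟩ := n.eq_nat_or_neg
    · rw [zpow_natCast, h3, h4]
    · rw [zpow_neg, zpow_natCast, Units.val_inv_eq_inv_val, h3, h4]
      refine inv_eq_of_mul_eq_one_right ?_
      rw [mon_mul, mul_one, ← mon_zero_one (C := C) (A := LL p)]
      congr 1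
      apply Prod.ext
      · change (k : ℤ) • dlt 1 + (-(k : ℤ)) • dlt 1 = (0 : AZ p)
        rw [neg_smul, add_neg_cancel]
      · change (0 : Lam p) + 0 = 0
        rw [add_zero]
  rw [h1, h2, mon_mul, mul_one, ← Units.val_mul, ← zpow_add]
  have h5 : sgY p d ((0, Psi p m) : LL p) + (((d * vG p m) • dlt 1, 0) : LL p) =
      ((0, (GA.y : GA p) • Psi p m) : LL p) := by
    apply Prod.ext
    · change (shA p 0 - (d * vL p (Psi p m)) • dlt 1) + (d * vG p m) • dlt 1 = 0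
      rw [map_zero, vL_Psi, zero_sub, neg_add_cancel]
    · change (GA.y : GA p) • Psi p m + 0 = _
      rw [add_zero]
  rw [h5]
  congr 1
  refine lec_congr hη ?_
  rw [eY_apply]
  obtain ⟨k, hk⟩ := om_y m
  refine ⟨-(d * k), ?_⟩
  change d * om p m + d * exYL p (Psi p m) - d * om p ((GG.y : GG p) • m) = _
  linear_combination (-d) * hk

/-- TASK. Equivariance under `z`: `ζ^{d v(m)} = η^{p d v(m)}`, `om_z`, `bar z = 1`. -/
theorem tw_Z_bC (hη : (η : C) ^ (p ^ 2) = 1) (d : ℤ) (m : Circ (GG p)) :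
    tw (RingHom.id (fL C p)) (zeC p η) (bC η d (Multiplicative.ofAdd m)) =
      bC (C := C) η d (Multiplicative.ofAdd ((GG.z : GG p) • m)) := by
  rw [bC_apply, bC_apply, tw_single, vG_smul, Psi_smul, GG.bar_z, one_smul, RingHom.id_apply]
  congr 1
  have h2 : (((zeC p η : (fL C p)ˣ) ^ (d * vG p m) : (fL C p)ˣ) : fL C p) =
      cst (((η ^ p) ^ (d * vG p m) : Cˣ) : C) := lec_map_zpow (η ^ p) _
  rw [h2, lec_mon_cst, ← Units.val_mul, ← zpow_natCast, ← zpow_mul, ← zpow_add]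
  congr 1
  refine lec_congr hη ?_
  obtain ⟨k, hk⟩ := om_z m
  refine ⟨-(d * k), ?_⟩
  linear_combination (-d) * hk

theorem lec_hmap_C {R R' : Type} [Ring R] [Ring R'] (s : R →+* R') (x : R) :
    hmap s (HahnSeries.C x : LaurentSeries R) = HahnSeries.C (s x) := by
  ext n
  change s ((HahnSeries.single (0 : ℤ) x).coeff n) = (HahnSeries.single (0 : ℤ) (s x)).coeff n
  rw [coeff_single, coeff_single]
  split_ifs
  · rfl
  · exact map_zero s

/-- TASK. The concrete local embedding.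
Proof. `ℓ` from `exists_ell` for `e = eps η`; `s ∘ ℓ = ℓ ∘ (a •)` for `s = tw X_d μ_x`, `a = x`, etc. by
`tw_X_eps`, `tw_Y_eps`, `tw_Z_eps`. `ι` from `exists_iota` with `φ = HahnSeries.C ∘ cst`, `b = bC η d`.
`hx`, `hy`, `hz`: both sides are ring homs in `a`; compare on monomials (`MF_hom_ext`, `smul_mon`,
`hmap_ex`, `hmap` of a constant series; `tw` fixes the constants `C (cst c)`).
`E = ex ((p : 𝔽)⁻¹ * ℓ (yG p))`; `hE` by `hmap_ex` and `z_yG`. `hY`: `YY_cK`, and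
`ι (mon 1 (yG p)) = C (bC (yG)) * ex (ℓ (yG))` where `bC (yG) = single 0 (mon 1 (0, nL)) = C nn`
(`vG_yG`, `om_yG`, `Psi_yG`), `ex (ℓ yG) = E^p` (`ex_add`). `hζ`: `ι (cst (η^p)) = C (C (cst (η^p)))`
(`cst c = mon c 0`, `ex_zero`). -/
theorem exists_locEmb [CharZero C] (hη : IsPrimitiveRoot (η : C) (p ^ 2)) (d : ℤ) :
    Nonempty (LocEmb (cK C p) (cst ((η : C) ^ p)) (zeC p η) (nnC p) (XC p η d) (YC p η d)
      (muX p η) (muY C p)) := by
  have hη' : (η : C) ^ (p ^ 2) = 1 := hη.pow_eq_one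
  have : CharZero (LaurentSeries (fL C p)) := charZero_of_injective_ringHom
    (f := (HahnSeries.C : fL C p →+* LaurentSeries (fL C p))) (RingHom.injective _)
  obtain ⟨ℓ, hℓ, hℓs⟩ := exists_ell (eps (C := C) η) (eps_injective η hη) (eps_ne_zero η)
  obtain ⟨ι, hι⟩ := exists_iota (𝔽 := LaurentSeries (fL C p))
    ((HahnSeries.C : fL C p →+* LaurentSeries (fL C p)).comp (cst : C →+* fL C p))
    (bC (C := C) (p := p) η d) ℓ hℓ
  have hX := hℓs (GG.x : GG p) (tw (XC p η d) (muX p η)) (tw_X_eps η hη' d)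
  have hY := hℓs (GG.y : GG p) (tw (YC p η d) (muY C p)) (tw_Y_eps η hη' d)
  have hZ := hℓs (GG.z : GG p) (tw (RingHom.id (fL C p)) (zeC p η)) (tw_Z_eps η hη')
  -- constants
  have hcst : ∀ (X : fL C p →+* fL C p) (μ : (fL C p)ˣ) (hX : ∀ c : C, X (cst c) = cst c) (c : C),
      tw X μ (HahnSeries.C (cst c)) = HahnSeries.C (cst c) := by
    intro X μ hX c
    rw [HahnSeries.C_apply, tw_single, hX, zpow_zero, Units.val_one, mul_one]
  -- the equivariance
  have key : ∀ (a : GG p) (s : LaurentSeries (fL C p) →+* LaurentSeries (fL C p)),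
      (∀ c : C, s (HahnSeries.C (cst c)) = HahnSeries.C (cst c)) →
      (∀ m, s (bC η d (Multiplicative.ofAdd m)) = bC (C := C) η d (Multiplicative.ofAdd (a • m))) →
      (∀ m, s (ℓ m) = ℓ (a • m)) → ∀ f : fK C p, ι (a • f) = hmap s (ι f) := by
    intro a s h1 h2 h3 f
    have h4 : ι.comp (MulSemiringAction.toRingHom (GG p) (fK C p) a) = (hmap s).comp ι := by
      apply MF_hom_ext
      intro c m
      rw [RingHom.comp_apply, RingHom.comp_apply, MulSemiringAction.toRingHom_apply, smul_mon,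
        hι, hι, map_mul (hmap s), hmap_ex, h3]
      congr 1
      rw [← h2, RingHom.comp_apply, lec_hmap_C, map_mul s, h1]
    exact DFunLike.congr_fun h4 f
  refine ⟨⟨ι, ex ((p : LaurentSeries (fL C p))⁻¹ * ℓ (yG p)), ?_, ?_, ?_, ?_, ?_, ?_⟩⟩
  · -- `hζ`
    rw [cst_apply, hι, ofAdd_zero, map_one, mul_one, map_zero, ex_zero, mul_one, zeC_val]
    rfl
  · exact key GG.x _ (hcst _ _ fun c => zHom_cst _ _ _ _ _) (tw_X_bC η hη' d) hX
  · exact key GG.y _ (hcst _ _ fun c => zHom_cst _ _ _ _ _) (tw_Y_bC η hη' d) hY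
  · exact key GG.z _ (hcst _ _ fun c => rfl) (tw_Z_bC η hη' d) hZ
  · -- `hE`
    rw [hmap_ex, map_mul, map_inv₀, map_natCast, hZ, z_yG]
  · -- `hY`
    rw [YY_cK, hι, map_one, one_mul, bC_apply, vG_yG, om_yG, Psi_yG, mul_zero, zpow_zero,
      Units.val_one]
    have h5 : ∀ (n : ℕ) (a : LaurentSeries (fL C p)), ex a ^ n = ex (n * a) := by
      intro n a
      induction n with
      | zero => rw [pow_zero, Nat.cast_zero, zero_mul, ex_zero]
      | succ n ih => rw [pow_succ, ih, ← ex_add, Nat.cast_succ]; ring_nf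
    have hp : (p : LaurentSeries (fL C p)) ≠ 0 :=
      Nat.cast_ne_zero.2 (Fact.out : p.Prime).ne_zero
    rw [h5, ← mul_assoc, mul_inv_cancel₀ hp, one_mul]
    rfl

end

end OddGp
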