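import Mathlib
import Pool.Agent.W_MP_bec7e1_h80.HH

/-!
# The centrality lemma
-/

namespace OddGp

open HahnSeries

variable {V : Type} [AddCommGroup V] [LinearOrder V] [IsOrderedAddMonoid V]
  {R : Type} [Ring R] [Nontrivial R] {H : Subring (HahnSeries V R)}

/-- The commutator of a power is the sum of the conjugates of the commutator. -/
theorem pow_comm_sum {A : Type} [Ring A] (q w : A) (n : ℕ) :
    q ^ n * w - w * q ^ n
      = ∑ i ∈ Finset.range n, q ^ i * (q * w - w * q) * q ^ (n - 1 - i) := by
  induction n with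
  | zero => simp
  | succ n ih =>
    rw [Finset.sum_range_succ]
    have h1 : ∑ i ∈ Finset.range n, q ^ i * (q * w - w * q) * q ^ (n + 1 - 1 - i)
        = (∑ i ∈ Finset.range n, q ^ i * (q * w - w * q) * q ^ (n - 1 - i)) * q := by
      rw [Finset.sum_mul]
      refine Finset.sum_congr rfl fun i hi => ?_
      have hi' : i < n := Finset.mem_range.1 hi
      rw [show n + 1 - 1 - i = (n - 1 - i) + 1 by omega, pow_succ, mul_assoc, mul_assoc, mul_assoc]
    rw [h1, ← ih]
    rw [show n + 1 - 1 - n = 0 by omega, pow_zero, mul_one]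
    rw [pow_succ]
    noncomm_ring

/-- TASK. The centrality lemma: if `q^n` commutes with `w` and the leading coefficient of `q`
commutes with all leading coefficients of elements of `H`, then `q` commutes with `w`
(characteristic zero).
Proof: suppose `e = q w - w q ≠ 0`. Then `0 = q^n w - w q^n = ∑_{i<n} q^i e q^{n-1-i}`. By
`LCM.order_mul`, `LCM.leadingCoeff_mul`, every term has the same order `v = (n-1) q.order + e.order`,
and coefficient `lc(q)^i lc(e) lc(q)^{n-1-i} = lc(q)^{n-1} lc(e) =: r` at `v` (`hlc`), `r ≠ 0` because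
it is the leading coefficient of a nonzero product. So the coefficient of the sum at `v` is
`n • r ≠ 0`, contradiction. -/
theorem LCM.comm_of_pow (h : LCM H) (hR : ∀ (n : ℕ) (r : R), n ≠ 0 → n • r = 0 → r = 0)
    {q w : HahnSeries V R} (hq : q ∈ H) (hw : w ∈ H) (hq0 : q ≠ 0) (n : ℕ) (hn : n ≠ 0)
    (hc : q ^ n * w = w * q ^ n)
    (hlc : ∀ b ∈ H, q.leadingCoeff * b.leadingCoeff = b.leadingCoeff * q.leadingCoeff) :
    q * w = w * q := by
  by_contra hne
  set e := q * w - w * q with he
  have he0 : e ≠ 0 := sub_ne_zero.2 hne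
  have heH : e ∈ H := sub_mem (mul_mem hq hw) (mul_mem hw hq)
  have hsum := pow_comm_sum q w n
  rw [← he, sub_eq_zero.2 hc] at hsum
  have hce : Commute q.leadingCoeff e.leadingCoeff := hlc e heH
  have hterm : ∀ i ∈ Finset.range n, (q ^ i * e * q ^ (n - 1 - i)).coeff
      ((n - 1) • q.order + e.order) = q.leadingCoeff ^ (n - 1) * e.leadingCoeff := by
    intro i hi
    have hi' : i < n := Finset.mem_range.1 hi
    have hqi := pow_mem hq i
    have hqi0 := h.pow_ne_zero hq hq0 i
    have hqj := pow_mem hq (n - 1 - i)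
    have hqj0 := h.pow_ne_zero hq hq0 (n - 1 - i)
    have hA := h.mul_ne_zero hqi heH hqi0 he0
    have hAH : q ^ i * e ∈ H := mul_mem hqi heH
    have hord : (q ^ i * e * q ^ (n - 1 - i)).order = (n - 1) • q.order + e.order := by
      rw [h.order_mul hAH hqj hA hqj0, h.order_mul hqi heH hqi0 he0, h.order_pow hq hq0,
        h.order_pow hq hq0, add_right_comm, ← add_nsmul]
      congr 2
      omega
    rw [← hord, ← leadingCoeff_eq, h.leadingCoeff_mul hAH hqj, h.leadingCoeff_mul hqi heH,
      h.leadingCoeff_pow hq, h.leadingCoeff_pow hq, mul_assoc, ← (hce.pow_left (n - 1 - i)).eq,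
      ← mul_assoc, ← _root_.pow_add]
    congr 2
    omega
  have hcoef : (0 : R) = n • (q.leadingCoeff ^ (n - 1) * e.leadingCoeff) := by
    have h1 := congrArg (fun f : HahnSeries V R => f.coeff ((n - 1) • q.order + e.order)) hsum
    simp only [coeff_zero, coeff_sum] at h1
    rw [Finset.sum_congr rfl hterm, Finset.sum_const, Finset.card_range] at h1
    exact h1
  have hr : q.leadingCoeff ^ (n - 1) * e.leadingCoeff ≠ 0 := by
    rw [← h.leadingCoeff_pow hq]
    exact h (pow_mem hq _) heH (h.pow_ne_zero hq hq0 _) he0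
  exact hr (hR n _ hn hcoef.symm)

end OddGp
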