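import Mathlib
import Pool.Agent.W_MP_bec7e1_h80.Abs

/-!
# The local ring `A = N((φ; δ))((ε))`
-/

namespace OddGp

open HahnSeries Finset

noncomputable section

/-- the cyclic group of order `p`, multiplicatively -/
abbrev Zp (p : ℕ) : Type := Multiplicative (ZMod p)

/-- the trivial cocycle -/
def trivC (G K : Type) [Group G] [Field K] [MulSemiringAction G K] : Coc G K where
  c _ _ := 1
  ne _ _ := one_ne_zero
  one_left _ := rfl
  one_right _ := rfl
  coc g h l := by simp

section

variable {p : ℕ} [Fact p.Prime] {N : Type} [Field N] [MulSemiringAction (Zp p) N]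

variable (p N) in
/-- the skew group ring `N[Z/p; δ]` -/
abbrev SG : Type := CP (trivC (Zp p) N)

variable (p N) in
/-- its grading -/
def grδ : Grad (Zp p) (SG p N) where
  comp γ :=
    { carrier := {a | ∀ g, g ≠ γ → a.f g = 0}
      add_mem' := fun {a b} ha hb g hg => by rw [CP.add_f, ha g hg, hb g hg, add_zero]
      zero_mem' := fun g _ => rfl
      neg_mem' := fun {a} ha g hg => by rw [CP.neg_f, ha g hg, neg_zero] }
  one_mem := fun g hg => by
    rw [CP.one_def, CP.sg_f_ne hg]
  mul_mem := fun {i j a b} ha hb g hg => by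
    rw [CP.mul_f]
    apply Finset.sum_eq_zero
    intro h _
    by_cases h1 : h = i
    · have h2 : h⁻¹ * g ≠ j := by
        rintro rfl
        apply hg
        rw [← h1]; group
      rw [hb _ h2, smul_zero, mul_zero, zero_mul]
    · rw [ha _ h1, zero_mul, zero_mul]

theorem mem_grδ {γ : Zp p} {a : SG p N} :
    a ∈ (grδ p N).comp γ ↔ ∀ g, g ≠ γ → a.f g = 0 := Iff.rfl

theorem mem_grδ_iff {γ : Zp p} {a : SG p N} :
    a ∈ (grδ p N).comp γ ↔ a = CP.sg _ γ (a.f γ) := by
  rw [mem_grδ]
  constructor
  · intro h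
    ext g
    by_cases hg : g = γ
    · rw [hg, CP.sg_f_self]
    · rw [h g hg, CP.sg_f_ne hg]
  · intro h g hg
    rw [h, CP.sg_f_ne hg]

theorem sg_mul_sg' (g h : Zp p) (a b : N) :
    (CP.sg (trivC (Zp p) N) g a) * CP.sg _ h b = CP.sg _ (g * h) (a * (g • b)) := by
  rw [CP.sg_mul_sg]
  change CP.sg _ (g * h) (a * (g • b) * 1) = _
  rw [mul_one]

theorem grδ_NZ : (grδ p N).NZ := by
  intro i j a b ha hb ha0 hb0 hab
  rw [mem_grδ_iff] at ha hb
  rw [ha, hb, sg_mul_sg', ← CP.sg_zero (c := trivC (Zp p) N) (i * j)] at hab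
  have h1 := CP.sg_injective _ hab
  rcases mul_eq_zero.1 h1 with h | h
  · apply ha0; rw [ha, h, CP.sg_zero]
  · apply hb0
    have h2 : b.f j = 0 := by
      have := congrArg (fun s => i⁻¹ • s) h
      simpa using this
    rw [hb, h2, CP.sg_zero]

/-- reduction mod `p` -/
def dgZ (p : ℕ) : Multiplicative ℤ →* Zp p :=
  AddMonoidHom.toMultiplicative (Int.castAddHom (ZMod p))

theorem dgZ_apply (p : ℕ) (n : ℤ) :
    dgZ p (Multiplicative.ofAdd n) = Multiplicative.ofAdd (n : ZMod p) := rfl

variable (p N) in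
/-- The skew Laurent series ring `N((φ; δ))`. -/
def HD : Subring (HahnSeries ℤ (SG p N)) := HH (grδ p N) (dgZ p)

theorem HD_LCM : LCM (HD p N) := HH_LCM grδ_NZ

instance : NoZeroDivisors (HD p N) := HD_LCM.noZeroDivisors

instance : Nontrivial (HD p N) := inferInstance

/-- `e1`, underlying series -/
def e1Fun {L : Type} [Field L] (em : L →+* N) (f : LaurentSeries L) : HahnSeries ℤ (SG p N) where
  coeff n := CP.sg _ (Multiplicative.ofAdd (n : ZMod p)) (em (f.coeff n))
  isPWO_support' := by
    apply f.isPWO_support.mono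
    intro n hn
    rw [Function.mem_support] at hn
    rw [mem_support]
    intro h
    apply hn
    rw [h, map_zero, CP.sg_zero]

theorem e1Fun_support {L : Type} [Field L] (em : L →+* N) (f : LaurentSeries L) :
    (e1Fun (p := p) em f).support = f.support := by
  ext n
  rw [mem_support, mem_support]
  change CP.sg _ (Multiplicative.ofAdd (n : ZMod p)) (em (f.coeff n)) ≠ 0 ↔ _
  constructor
  · intro h h'
    apply h
    rw [h', map_zero, CP.sg_zero]
  · intro h h'
    apply h
    rw [← CP.sg_zero (c := trivC (Zp p) N) (Multiplicative.ofAdd (n : ZMod p))] at h'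
    have := CP.sg_injective _ h'
    exact (map_eq_zero em).1 this

/-- the embedding `L((φ)) → N((φ; δ))` -/
def e1 {L : Type} [Field L] (em : L →+* N) (hem : ∀ (g : Zp p) (b : L), g • em b = em b) :
    LaurentSeries L →+* HD p N where
  toFun f := ⟨e1Fun em f, fun n => by
    rw [mem_grδ_iff]
    change CP.sg _ (Multiplicative.ofAdd (n : ZMod p)) (em (f.coeff n)) = _
    rw [dgZ_apply]
    congr 1
    exact (CP.sg_f_self _ _).symm⟩
  map_one' := by
    apply Subtype.ext
    ext1
    funext n
    change CP.sg _ (Multiplicative.ofAdd (n : ZMod p)) (em ((1 : LaurentSeries L).coeff n)) =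
      (1 : HahnSeries ℤ (SG p N)).coeff n
    rw [coeff_one, coeff_one]
    split_ifs with h
    · rw [h, map_one, Int.cast_zero]; rfl
    · rw [map_zero, CP.sg_zero]
  map_zero' := by
    apply Subtype.ext
    ext1
    funext n
    change CP.sg _ (Multiplicative.ofAdd (n : ZMod p)) (em ((0 : LaurentSeries L).coeff n)) =
      (0 : HahnSeries ℤ (SG p N)).coeff n
    rw [coeff_zero, coeff_zero, map_zero, CP.sg_zero]
  map_add' f g := by
    apply Subtype.ext
    ext1
    funext n
    change CP.sg _ (Multiplicative.ofAdd (n : ZMod p)) (em ((f + g).coeff n)) =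
      CP.sg _ (Multiplicative.ofAdd (n : ZMod p)) (em (f.coeff n)) +
      CP.sg _ (Multiplicative.ofAdd (n : ZMod p)) (em (g.coeff n))
    rw [coeff_add, map_add, CP.sg_add]
  map_mul' f g := by
    apply Subtype.ext
    ext1
    funext n
    change CP.sg _ (Multiplicative.ofAdd (n : ZMod p)) (em ((f * g).coeff n)) =
      ((e1Fun em f : HahnSeries ℤ (SG p N)) * e1Fun em g).coeff n
    rw [coeff_mul, coeff_mul, map_sum]
    have hs : ∀ (s t : Set ℤ) (hs : s.IsPWO) (ht : t.IsPWO) (s' t' : Set ℤ) (hs' : s'.IsPWO)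
        (ht' : t'.IsPWO), s = s' → t = t' →
        Finset.antidiagonal hs ht n = Finset.antidiagonal hs' ht' n := by
      intro s t hs ht s' t' hs' ht' h1 h2
      subst h1; subst h2; rfl
    rw [hs _ _ (e1Fun em f).isPWO_support (e1Fun em g).isPWO_support _ _ f.isPWO_support
      g.isPWO_support (e1Fun_support em f) (e1Fun_support em g)]
    have h5 : ∀ (s : Finset (ℤ × ℤ)) (F : ℤ × ℤ → N), CP.sg (trivC (Zp p) N)
        (Multiplicative.ofAdd (n : ZMod p)) (∑ i ∈ s, F i) =
        ∑ i ∈ s, CP.sg _ (Multiplicative.ofAdd (n : ZMod p)) (F i) := by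
      intro s F
      induction s using Finset.induction_on with
      | empty => rw [Finset.sum_empty, Finset.sum_empty, CP.sg_zero]
      | insert a s ha ih => rw [Finset.sum_insert ha, Finset.sum_insert ha, CP.sg_add, ih]
    rw [h5]
    apply Finset.sum_congr rfl
    rintro ⟨i, j⟩ hij
    rw [Finset.mem_antidiagonal] at hij
    obtain ⟨_, _, h3⟩ := hij
    simp only at h3
    change CP.sg _ _ (em (f.coeff i * g.coeff j)) =
      CP.sg _ (Multiplicative.ofAdd (i : ZMod p)) (em (f.coeff i)) *
      CP.sg _ (Multiplicative.ofAdd (j : ZMod p)) (em (g.coeff j))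
    rw [sg_mul_sg', ← h3, map_mul, hem, Int.cast_add]
    rfl

theorem e1_coeff {L : Type} [Field L] (em : L →+* N) (hem : ∀ (g : Zp p) (b : L), g • em b = em b)
    (f : LaurentSeries L) (n : ℤ) : ((e1 em hem f : HD p N) : HahnSeries ℤ (SG p N)).coeff n =
      CP.sg _ (Multiplicative.ofAdd (n : ZMod p)) (em (f.coeff n)) := rfl

variable (p N) in
/-- The ring `A = N((φ; δ))((ε))`. -/
abbrev AA : Type := HahnSeries ℤ (HD p N)

/-- the embedding `L((φ))((ε)) → A` -/
def eA {L : Type} [Field L] (em : L →+* N) (hem : ∀ (g : Zp p) (b : L), g • em b = em b) :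
    LaurentSeries (LaurentSeries L) →+* AA p N := hmap (e1 em hem)

/-- constants `N → N((φ; δ))` -/
def nH : N →+* HD p N where
  toFun a := ⟨HahnSeries.C (CP.of _ a), fun n => by
    rw [HahnSeries.C_apply, coeff_single]
    split_ifs with h
    · rw [h, ofAdd_zero, map_one, mem_grδ_iff, CP.of_apply]
      congr 1
      exact (CP.sg_f_self _ _).symm
    · exact AddSubgroup.zero_mem _⟩
  map_one' := by
    apply Subtype.ext
    change HahnSeries.C (CP.of _ 1) = 1
    rw [map_one, map_one]
  map_mul' a b := by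
    apply Subtype.ext
    change HahnSeries.C (CP.of _ (a * b)) = HahnSeries.C (CP.of _ a) * HahnSeries.C (CP.of _ b)
    rw [map_mul, map_mul]
  map_zero' := by
    apply Subtype.ext
    change HahnSeries.C (CP.of _ 0) = 0
    rw [map_zero, map_zero]
  map_add' a b := by
    apply Subtype.ext
    change HahnSeries.C (CP.of _ (a + b)) = HahnSeries.C (CP.of _ a) + HahnSeries.C (CP.of _ b)
    rw [map_add, map_add]

/-- constants `N → A` -/
def nA : N →+* AA p N := (HahnSeries.C : HD p N →+* AA p N).comp nH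

/-- `A` is a domain -/
theorem AA_LCM : LCM (⊤ : Subring (AA p N)) := by
  intro a b _ _ ha hb
  exact mul_ne_zero (leadingCoeff_ne_zero.2 ha) (leadingCoeff_ne_zero.2 hb)

theorem AA_mul_ne_zero {a b : AA p N} (ha : a ≠ 0) (hb : b ≠ 0) : a * b ≠ 0 :=
  AA_LCM.mul_ne_zero (Subring.mem_top a) (Subring.mem_top b) ha hb

end

end

end OddGp
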