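import Mathlib
import Pool.Agent.W_MP_bec7e1_h80.LocRing
import Pool.Agent.W_MP_bec7e1_h80.HHcent

/-!
# The core of the local analysis
-/

namespace OddGp

open HahnSeries Finset

noncomputable section

variable {p : ℕ} [Fact p.Prime] {L N : Type} [Field L] [Field N] [MulSemiringAction (Zp p) N]
  [CharZero N] (em : L →+* N) (hem : ∀ (g : Zp p) (b : L), g • em b = em b) {ζ : Lˣ}

/-- TASK. An element of `N((φ; δ))` all of whose coefficients are in `L` and in degrees divisible by
`p` is central: `e1 f` is central in `HD p N` if `tw id ζ f = f`, `ζ` of order `p`.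
Proof: `tw id ζ f = f` says `f_n ζ^n = f_n`, so `f_n = 0` unless `p ∣ n`. The coefficient of `e1 f`
at `n` is `sg (ofAdd n) (em f_n)`, which is `0` or `CP.of (em f_n)`, and this commutes with every
element `sg g b` of `SG p N` (`hem`). Use `hahn_comm`. -/
theorem e1_central (hζ : IsPrimitiveRoot (ζ : L) p) (f : LaurentSeries L)
    (hf : tw (RingHom.id L) ζ f = f) (w : HD p N) : e1 em hem f * w = w * e1 em hem f := by
  apply Subtype.ext
  change ((e1 em hem f : HD p N) : HahnSeries ℤ (SG p N)) * (w : HahnSeries ℤ (SG p N)) =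
    (w : HahnSeries ℤ (SG p N)) * ((e1 em hem f : HD p N) : HahnSeries ℤ (SG p N))
  apply hahn_comm
  intro v v'
  rw [e1_coeff]
  by_cases h0 : f.coeff v = 0
  · rw [h0, map_zero, CP.sg_zero, zero_mul, mul_zero]
  · have h1 : f.coeff v * ((ζ ^ v : Lˣ) : L) = f.coeff v := by
      have h2 := congrArg (fun s : LaurentSeries L => s.coeff v) hf
      rw [tw_coeff] at h2
      exact h2
    have h3 : ((ζ ^ v : Lˣ) : L) = 1 := by
      have h4 : f.coeff v * (((ζ ^ v : Lˣ) : L) - 1) = 0 := by
        rw [mul_sub, h1, mul_one, sub_self]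
      exact sub_eq_zero.1 ((mul_eq_zero.1 h4).resolve_left h0)
    have h5 : (ζ : L) ^ v = 1 := by
      rw [← Units.val_zpow_eq_zpow_val]
      exact h3
    have h6 : (p : ℤ) ∣ v := (hζ.zpow_eq_one_iff_dvd v).1 h5
    have h7 : (v : ZMod p) = 0 := (ZMod.intCast_zmod_eq_zero_iff_dvd v p).2 h6
    rw [h7, ofAdd_zero]
    change CP.of (trivC (Zp p) N) (em (f.coeff v)) * _ = _ * CP.of (trivC (Zp p) N) (em (f.coeff v))
    ext g
    rw [CP.of_mul_f, CP.mul_of_f, hem, mul_comm]

theorem lc_prod_range (F : ZMod p → N) : ∏ t ∈ range p, F (t : ZMod p) = ∏ x : ZMod p, F x := by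
  refine Finset.prod_nbij' (fun t => (t : ZMod p)) ZMod.val ?_ ?_ ?_ ?_ ?_
  · intro t _
    exact Finset.mem_univ _
  · intro x _
    exact Finset.mem_range.2 (ZMod.val_lt x)
  · intro t ht
    exact ZMod.val_natCast_of_lt (Finset.mem_range.1 ht)
  · intro x _
    exact ZMod.natCast_zmod_val x
  · intro t _
    rfl

theorem lc_sg_pow (g : Zp p) (a : N) (n : ℕ) :
    (CP.sg (trivC (Zp p) N) g a) ^ n = CP.sg _ (g ^ n) (∏ t ∈ range n, (g ^ t) • a) := by
  induction n with
  | zero => rw [pow_zero, pow_zero, Finset.range_zero, Finset.prod_empty, CP.one_def]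
  | succ n ih => rw [pow_succ, ih, sg_mul_sg', pow_succ, Finset.prod_range_succ]

theorem lc_e1_order (f : LaurentSeries L) :
    ((e1 em hem f : HD p N) : HahnSeries ℤ (SG p N)).order = f.order := by
  have hc : ∀ n, ((e1 em hem f : HD p N) : HahnSeries ℤ (SG p N)).coeff n ≠ 0 ↔
      f.coeff n ≠ 0 := by
    intro n
    have h1 := e1Fun_support (p := p) em f
    have h2 : n ∈ (e1Fun (p := p) em f).support ↔ n ∈ f.support := by rw [h1]
    rw [mem_support, mem_support] at h2
    exact h2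
  by_cases hf : f = 0
  · rw [hf, map_zero]
    change (0 : HahnSeries ℤ (SG p N)).order = _
    rw [order_zero, order_zero]
  · have h0 : f.coeff f.order ≠ 0 := fun h => hf (coeff_order_eq_zero.1 h)
    apply le_antisymm
    · exact order_le_of_coeff_ne_zero ((hc _).2 h0)
    · apply order_le_of_coeff_ne_zero
      rw [← hc]
      intro h
      have h1 := coeff_order_eq_zero.1 h
      have h2 := (hc f.order).2 h0
      rw [h1, coeff_zero] at h2
      exact h2 rfl

theorem lc_torsion (n : ℕ) (r : SG p N) (hn : n ≠ 0) (h : n • r = 0) : r = 0 := by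
  ext g
  have h1 := congrArg (fun s : SG p N => s.f g) h
  rw [CP.zero_f] at h1
  have h2 : n • r.f g = 0 := by
    rw [← CP.nsmul_f]
    exact h1
  exact (smul_eq_zero.1 h2).resolve_left hn

theorem lc_torsion' (n : ℕ) (r : HD p N) (hn : n ≠ 0) (h : n • r = 0) : r = 0 := by
  apply Subtype.ext
  ext1
  funext v
  apply lc_torsion n _ hn
  have h1 : ((n • r : HD p N) : HahnSeries ℤ (SG p N)) = 0 := by
    rw [h]
    rfl
  have h2 : (n • (r : HahnSeries ℤ (SG p N))) = 0 := h1
  have h4 : ∀ m : ℕ, (m • (r : HahnSeries ℤ (SG p N))).coeff v =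
      m • (r : HahnSeries ℤ (SG p N)).coeff v := by
    intro m
    induction m with
    | zero => rw [zero_nsmul, zero_nsmul, coeff_zero]
    | succ m ih => rw [succ_nsmul, succ_nsmul, coeff_add, ih]
  rw [← h4, h2, coeff_zero]

/-- TASK. The core of the local analysis. Let `q ∈ A` with `q^p = eA lam`, `lam ≠ 0` invariant under
`φ ↦ ζ φ`.
Proof. `q ≠ 0`. Let `q1 = q.leadingCoeff ∈ HD`, `q1 ≠ 0`. Leading coefficients multiply in `A`
(`AA_LCM`, `LCM.leadingCoeff_pow`), and `(eA lam).leadingCoeff = e1 lam.leadingCoeff`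
(`hmap_leadingCoeff`), so `q1^p = e1 l1`, `l1 = lam.leadingCoeff ≠ 0`.
Let `j = (q1 : HahnSeries ℤ (SG p N)).order`; its leading coefficient is homogeneous of degree
`ofAdd j`, so it is `sg (ofAdd j) q0`, `q0 ≠ 0` (`lc_mem`, `mem_grδ_iff`). Powers
(`HD_LCM`, `LCM.order_pow`, `LCM.leadingCoeff_pow`): `l1.order = p * j` (the order of `e1 l1` is the
order of `l1`) and `sg (ofAdd j) q0 ^ p = sg (ofAdd (p j)) (em l1.leadingCoeff)`; by `sg_mul_sg'`,
`(sg g q0)^p = sg (g^p) (∏_{t<p} g^t • q0)` with `g = ofAdd j`. So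
`em l1.leadingCoeff = ∏_{t<p} (ofAdd j)^t • q0`.
If `p ∤ j`, `t ↦ t j` permutes `ZMod p`, so the product is `∏_{t<p} (ofAdd 1)^t • q0`.
If `p ∣ j`, `ofAdd j = 1` and the product is `q0^p`. Suppose moreover `q0 = em b`. Then the leading
coefficient `sg 1 (em b)` of `q1` commutes with every element of `SG p N`; `q1^p = e1 l1` is central
in `HD` (`e1_central`; `tw id ζ l1 = l1` because `hmap (tw id ζ) lam = lam`, `hmap_leadingCoeff`).
By `LCM.comm_of_pow` (file HHcent) for `HD`, `q1` commutes with every element of `HD`. Apply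
`LCM.comm_of_pow` again for `A` (`AA_LCM`): `q^p = eA lam` is central in `A` (all its coefficients
are central in `HD` by `e1_central`; `hahn_comm`) and the leading coefficient `q1` is central, so
`q w = w q`. (Torsion-freeness of `SG p N`, `HD p N` from `CharZero N`.) -/
theorem core (hζ : IsPrimitiveRoot (ζ : L) p) (lam : LaurentSeries (LaurentSeries L))
    (hlam : lam ≠ 0) (q : AA p N) (hq : q ^ p = eA em hem lam)
    (hz : hmap (tw (RingHom.id L) ζ) lam = lam) :
    ∃ (j : ℤ) (q0 : N), q0 ≠ 0 ∧ lam.leadingCoeff.order = p * j ∧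
      ((¬ (p : ℤ) ∣ j ∧ em lam.leadingCoeff.leadingCoeff =
          ∏ t ∈ range p, ((Multiplicative.ofAdd (1 : ZMod p) : Zp p) ^ t) • q0) ∨
        ((p : ℤ) ∣ j ∧ em lam.leadingCoeff.leadingCoeff = q0 ^ p ∧
          ((∃ b, em b = q0) → ∀ w : AA p N, q * w = w * q))) := by
  have hp0 : p ≠ 0 := (Fact.out : p.Prime).ne_zero
  have hinj1 : Function.Injective (e1 (p := p) em hem) := (e1 em hem).injective
  have hinjA : Function.Injective (eA (p := p) em hem) := (eA em hem).injective
  have hq0 : q ≠ 0 := by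
    intro h
    apply hlam
    apply hinjA
    rw [← hq, h, map_zero]
    have h9 : (0 : AA p N) ^ p = 0 := by
      have h10 : ∀ m : ℕ, (0 : AA p N) ^ (m + 1) = 0 := fun m => by
        rw [pow_succ]
        exact mul_zero (M₀ := AA p N) _
      have h11 := h10 (p - 1)
      rwa [Nat.sub_add_cancel (Nat.one_le_iff_ne_zero.2 hp0)] at h11
    exact h9
  -- the first leading coefficient
  have h1 : q.leadingCoeff ^ p = e1 em hem lam.leadingCoeff := by
    rw [← AA_LCM.leadingCoeff_pow (Subring.mem_top q), hq]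
    exact hmap_leadingCoeff _ hinj1 lam
  have hl1 : tw (RingHom.id L) ζ lam.leadingCoeff = lam.leadingCoeff := by
    have h2 := hmap_leadingCoeff (tw (RingHom.id L) ζ) (tw (RingHom.id L) ζ).injective lam
    rw [hz] at h2
    exact h2.symm
  obtain ⟨q1, hq1⟩ : ∃ q1, q1 = q.leadingCoeff := ⟨_, rfl⟩
  rw [← hq1] at h1
  have hq10 : (q1 : HahnSeries ℤ (SG p N)) ≠ 0 := by
    intro h
    apply leadingCoeff_ne_zero.2 hq0
    rw [← hq1]
    exact Subtype.ext h
  have h1' : (q1 : HahnSeries ℤ (SG p N)) ^ p =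
      ((e1 em hem lam.leadingCoeff : HD p N) : HahnSeries ℤ (SG p N)) := by
    rw [← h1]
    rfl
  -- the second leading coefficient
  obtain ⟨j, hj⟩ : ∃ j, j = (q1 : HahnSeries ℤ (SG p N)).order := ⟨_, rfl⟩
  have h2 : (q1 : HahnSeries ℤ (SG p N)).leadingCoeff =
      CP.sg _ (Multiplicative.ofAdd (j : ZMod p))
        ((q1 : HahnSeries ℤ (SG p N)).leadingCoeff.f (Multiplicative.ofAdd (j : ZMod p))) := by
    have h3 := lc_mem (f := (q1 : HahnSeries ℤ (SG p N))) q1.2
    rw [dgZ_apply, mem_grδ_iff, ← hj] at h3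
    exact h3
  obtain ⟨q0, hq0'⟩ : ∃ q0, q0 = (q1 : HahnSeries ℤ (SG p N)).leadingCoeff.f
    (Multiplicative.ofAdd (j : ZMod p)) := ⟨_, rfl⟩
  rw [← hq0'] at h2
  have hq00 : q0 ≠ 0 := by
    intro h
    rw [h, CP.sg_zero] at h2
    exact leadingCoeff_ne_zero.2 hq10 h2
  have hord : lam.leadingCoeff.order = p * j := by
    have h3 := HD_LCM.order_pow q1.2 hq10 p
    rw [h1', lc_e1_order, ← hj] at h3
    rw [h3, nsmul_eq_mul]
  have hord' : ((lam.leadingCoeff.order : ℤ) : ZMod p) = 0 := by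
    rw [hord]
    simp
  have hgp : (Multiplicative.ofAdd (j : ZMod p) : Zp p) ^ p = 1 := by
    rw [← ofAdd_nsmul]
    simp
  have h4 : em lam.leadingCoeff.leadingCoeff =
      ∏ t ∈ range p, ((Multiplicative.ofAdd (j : ZMod p) : Zp p) ^ t) • q0 := by
    have h3 := HD_LCM.leadingCoeff_pow q1.2 p
    rw [h1', h2, lc_sg_pow, hgp, leadingCoeff_eq, lc_e1_order, e1_coeff, hord', ofAdd_zero] at h3
    have h5 := CP.sg_injective _ h3
    rw [← h5, leadingCoeff_eq]
  refine ⟨j, q0, hq00, hord, ?_⟩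
  by_cases hpj : (p : ℤ) ∣ j
  · right
    have hj0 : (j : ZMod p) = 0 := (ZMod.intCast_zmod_eq_zero_iff_dvd j p).2 hpj
    refine ⟨hpj, ?_, ?_⟩
    · rw [h4, hj0, ofAdd_zero]
      simp only [one_pow, one_smul, Finset.prod_const, Finset.card_range]
    · rintro ⟨b, hb⟩ w
      -- `q1` is central
      have hc1 : ∀ w' : HD p N, q1 * w' = w' * q1 := by
        intro w'
        apply Subtype.ext
        change (q1 : HahnSeries ℤ (SG p N)) * (w' : HahnSeries ℤ (SG p N)) =
          (w' : HahnSeries ℤ (SG p N)) * (q1 : HahnSeries ℤ (SG p N))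
        refine HD_LCM.comm_of_pow lc_torsion q1.2 w'.2 hq10 p hp0 ?_ ?_
        · rw [h1']
          exact congrArg Subtype.val (e1_central em hem hζ _ hl1 w')
        · intro b' _
          rw [h2, hj0, ofAdd_zero, ← hb]
          change CP.of (trivC (Zp p) N) (em b) * _ = _ * CP.of (trivC (Zp p) N) (em b)
          ext g
          rw [CP.of_mul_f, CP.mul_of_f, hem, mul_comm]
      refine AA_LCM.comm_of_pow lc_torsion' (Subring.mem_top q) (Subring.mem_top w) hq0 p hp0 ?_ ?_
      · rw [hq]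
        apply hahn_comm
        intro v v'
        have h6 : tw (RingHom.id L) ζ (lam.coeff v) = lam.coeff v := by
          have h7 := congrArg (fun s : LaurentSeries (LaurentSeries L) => s.coeff v) hz
          exact h7
        exact e1_central em hem hζ _ h6 _
      · intro b' _
        rw [← hq1]
        exact hc1 _
  · left
    have hj0 : (j : ZMod p) ≠ 0 := fun h => hpj ((ZMod.intCast_zmod_eq_zero_iff_dvd j p).1 h)
    refine ⟨hpj, ?_⟩
    rw [h4]
    have e1' : ∀ k : ZMod p, ∏ t ∈ range p, ((Multiplicative.ofAdd k : Zp p) ^ t) • q0 =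
        ∏ x : ZMod p, (Multiplicative.ofAdd (x * k) : Zp p) • q0 := by
      intro k
      rw [← lc_prod_range (fun x : ZMod p => (Multiplicative.ofAdd (x * k) : Zp p) • q0)]
      refine Finset.prod_congr rfl fun t _ => ?_
      rw [← ofAdd_nsmul, nsmul_eq_mul]
    rw [e1', e1']
    refine Fintype.prod_equiv (Equiv.mulRight₀ _ hj0) _ _ fun x => ?_
    simp

end

end OddGp
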