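import Mathlib
import Pool.Agent.W_MP_bec7e1_h80.Tw

/-!
# Leading terms in `L((φ))((ε))`
-/

namespace OddGp

open HahnSeries Finset

noncomputable section

variable {L : Type} [Field L]

/-- the leading coefficient of the leading coefficient -/
def l2 (f : LaurentSeries (LaurentSeries L)) : L := f.leadingCoeff.leadingCoeff

/-- order in `φ` of the leading coefficient -/
def o2 (f : LaurentSeries (LaurentSeries L)) : ℤ := f.leadingCoeff.order

/-- the twisted substitution on `L((φ))((ε))` -/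
def TT (X : L →+* L) (μ : Lˣ) : LaurentSeries (LaurentSeries L) →+* LaurentSeries (LaurentSeries L) :=
  hmap (tw X μ)

/-- TASK. (`leadingCoeff_mul`, `order_mul` in fields.) -/
theorem l2_mul (f g : LaurentSeries (LaurentSeries L)) : l2 (f * g) = l2 f * l2 g := by
  unfold l2
  rw [leadingCoeff_mul, leadingCoeff_mul]

/-- TASK. -/
theorem l2_pow (f : LaurentSeries (LaurentSeries L)) (n : ℕ) : l2 (f ^ n) = l2 f ^ n := by
  induction n with
  | zero =>
    rw [pow_zero, pow_zero]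
    unfold l2
    rw [leadingCoeff_one, leadingCoeff_one]
  | succ n ih => rw [pow_succ, pow_succ, l2_mul, ih]

/-- TASK. -/
theorem l2_ne_zero {f : LaurentSeries (LaurentSeries L)} (hf : f ≠ 0) : l2 f ≠ 0 := by
  unfold l2
  exact leadingCoeff_ne_zero.2 (leadingCoeff_ne_zero.2 hf)

/-- TASK. `l2 (C (C a)) = a`. -/
theorem l2_CC (a : L) : l2 (HahnSeries.C (HahnSeries.C a)) = a := by
  unfold l2
  rw [HahnSeries.C_apply, HahnSeries.C_apply, leadingCoeff_of_single, leadingCoeff_of_single]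

private theorem loclt_inj (X : L →+* L) (μ : Lˣ) : Function.Injective (tw X μ) :=
  (tw X μ).injective

/-- TASK. (`hmap_leadingCoeff`, `tw_leadingCoeff`.) -/
theorem l2_TT (X : L →+* L) (μ : Lˣ) (f : LaurentSeries (LaurentSeries L)) :
    l2 (TT X μ f) = X (l2 f) * ((μ ^ o2 f : Lˣ) : L) := by
  unfold l2 o2 TT
  rw [hmap_leadingCoeff _ (loclt_inj X μ), tw_leadingCoeff]

/-- TASK. (`tw_order`.) -/
theorem o2_TT (X : L →+* L) (μ : Lˣ) (f : LaurentSeries (LaurentSeries L)) :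
    o2 (TT X μ f) = o2 f := by
  unfold o2 TT
  rw [hmap_leadingCoeff _ (loclt_inj X μ), tw_order]

/-- TASK. `o2` is multiplicative on nonzero elements. -/
theorem o2_mul {f g : LaurentSeries (LaurentSeries L)} (hf : f ≠ 0) (hg : g ≠ 0) :
    o2 (f * g) = o2 f + o2 g := by
  unfold o2
  rw [leadingCoeff_mul, order_mul (leadingCoeff_ne_zero.2 hf) (leadingCoeff_ne_zero.2 hg)]

private theorem loclt_o2_pow {f : LaurentSeries (LaurentSeries L)} (hf : f ≠ 0) (n : ℕ) :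
    o2 (f ^ n) = n * o2 f := by
  induction n with
  | zero =>
    rw [pow_zero]
    unfold o2
    rw [leadingCoeff_one, order_one]
    simp
  | succ n ih =>
    rw [pow_succ, o2_mul (pow_ne_zero n hf) hf, ih]
    push_cast
    ring

/-- TASK. If `T lam = m ^ p lam` then `o2 m = 0` (`p ≠ 0`; compare `o2`). -/
theorem o2_eq_zero {p : ℕ} (hp : p ≠ 0) (X : L →+* L) (μ : Lˣ)
    {lam m : LaurentSeries (LaurentSeries L)} (hlam : lam ≠ 0) (hm : m ≠ 0)
    (h : TT X μ lam = m ^ p * lam) : o2 m = 0 := by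
  have h1 := congrArg o2 h
  rw [o2_TT, o2_mul (pow_ne_zero p hm) hlam, loclt_o2_pow hm] at h1
  have h2 : (p : ℤ) * o2 m = 0 := by omega
  rcases mul_eq_zero.1 h2 with h3 | h3
  · exact absurd (by exact_mod_cast h3) hp
  · exact h3

/-- TASK. Iterates: if `o2 m = 0` then `l2 (T^t m) = X^t (l2 m)` and `o2 (T^t m) = 0`. -/
theorem l2_TT_iterate (X : L →+* L) (μ : Lˣ) {m : LaurentSeries (LaurentSeries L)}
    (hm : o2 m = 0) (t : ℕ) : l2 ((TT X μ)^[t] m) = X^[t] (l2 m) := by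
  have ho : ∀ t : ℕ, o2 ((TT X μ)^[t] m) = 0 := by
    intro t
    induction t with
    | zero => exact hm
    | succ t ih => rw [Function.iterate_succ_apply', o2_TT, ih]
  induction t with
  | zero => rfl
  | succ t ih =>
    rw [Function.iterate_succ_apply', Function.iterate_succ_apply', l2_TT, ho t, ih, zpow_zero,
      Units.val_one, mul_one]

/-- TASK. Products. -/
theorem l2_prod {n : ℕ} (F : ℕ → LaurentSeries (LaurentSeries L)) :
    l2 (∏ t ∈ range n, F t) = ∏ t ∈ range n, l2 (F t) := by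
  induction n with
  | zero =>
    rw [range_zero, prod_empty, prod_empty]
    unfold l2
    rw [leadingCoeff_one, leadingCoeff_one]
  | succ n ih => rw [prod_range_succ, prod_range_succ, l2_mul, ih]

private theorem loclt_iter_mul_zpow (X : L →+* L) (a : L) (μ : Lˣ) (j : ℤ) (n : ℕ) :
    ∏ t ∈ range n, X^[t] (a * (μ : L) ^ (-j)) =
      (∏ t ∈ range n, X^[t] a) * (∏ t ∈ range n, X^[t] (μ : L)) ^ (-j) := by
  rw [← Finset.prod_zpow, ← Finset.prod_mul_distrib]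
  refine Finset.prod_congr rfl fun t _ => ?_
  rw [← RingHom.coe_pow, map_mul, map_zpow₀]

/-- TASK. The local output relations. With `lam`, `mx`, `my` as in bad data (transported by `ι`),
`o2 lam = p j`, put `l = l2 lam`, `mx' = l2 mx * μx^{-j}`, `my' = l2 my * μy^{-j}`.
Proof: `o2 mx = o2 my = 0` (`o2_eq_zero`). Apply `l2` to the relations:
`X l * μx^{p j} = (l2 mx)^p l` gives the first two; `∏ X^t (l2 mx) = ζ^αx` (`l2_TT_iterate`,
`l2_prod`) and `∏ X^t (μx^{-j}) = ζ^{-j}` (`hNx`) give the third; similarly the fourth with `hNy`;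
`l2 mx * X (l2 my) = ζ^κ (l2 my) (Y (l2 mx))` and `hμ` (`(μx X μy)^{-j} = (ζ⁻¹ μy Y μx)^{-j}`)
give the fifth. -/
theorem loc_relations {p : ℕ} (hp : p ≠ 0) (ζ : Lˣ) (X Y : L →+* L) (μx μy : Lˣ)
    (hNx : ∏ t ∈ range p, X^[t] (μx : L) = ζ) (hNy : ∏ t ∈ range p, Y^[t] (μy : L) = 1)
    (hμ : (ζ : L) * ((μx : L) * X μy) = μy * Y μx)
    (lam mx my : LaurentSeries (LaurentSeries L)) (αx αy κ j : ℤ)
    (hlam : lam ≠ 0) (hmx : mx ≠ 0) (hmy : my ≠ 0) (hj : o2 lam = p * j)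
    (h1 : TT X μx lam = mx ^ p * lam) (h2 : TT Y μy lam = my ^ p * lam)
    (h3 : ∏ t ∈ range p, (TT X μx)^[t] mx = HahnSeries.C (HahnSeries.C ((ζ : L) ^ αx)))
    (h4 : ∏ t ∈ range p, (TT Y μy)^[t] my = HahnSeries.C (HahnSeries.C ((ζ : L) ^ αy)))
    (h5 : mx * TT X μx my = HahnSeries.C (HahnSeries.C ((ζ : L) ^ κ)) * (my * TT Y μy mx)) :
    ∃ mx' my' : L, mx' ≠ 0 ∧ my' ≠ 0 ∧ X (l2 lam) = mx' ^ p * l2 lam ∧
      Y (l2 lam) = my' ^ p * l2 lam ∧
      ∏ t ∈ range p, X^[t] mx' = (ζ : L) ^ (αx - j) ∧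
      ∏ t ∈ range p, Y^[t] my' = (ζ : L) ^ αy ∧
      mx' * X my' = (ζ : L) ^ (κ + j) * (my' * Y mx') := by
  have ox : o2 mx = 0 := o2_eq_zero hp X μx hlam hmx h1
  have oy : o2 my = 0 := o2_eq_zero hp Y μy hlam hmy h2
  have nζ : (ζ : L) ≠ 0 := ζ.ne_zero
  have nx : (μx : L) ≠ 0 := μx.ne_zero
  have ny : (μy : L) ≠ 0 := μy.ne_zero
  have nYx : Y (μx : L) ≠ 0 := (map_ne_zero Y).2 nx
  have nXy : X (μy : L) ≠ 0 := (map_ne_zero X).2 ny
  have e1 : X (l2 lam) * (μx : L) ^ ((p : ℤ) * j) = l2 mx ^ p * l2 lam := by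
    have := congrArg l2 h1
    rw [l2_TT, l2_mul, l2_pow, hj, Units.val_zpow_eq_zpow_val] at this
    exact this
  have e2 : Y (l2 lam) * (μy : L) ^ ((p : ℤ) * j) = l2 my ^ p * l2 lam := by
    have := congrArg l2 h2
    rw [l2_TT, l2_mul, l2_pow, hj, Units.val_zpow_eq_zpow_val] at this
    exact this
  have e3 : ∏ t ∈ range p, X^[t] (l2 mx) = (ζ : L) ^ αx := by
    have := congrArg l2 h3
    rw [l2_prod, l2_CC] at this
    rw [← this]
    exact Finset.prod_congr rfl fun t _ => (l2_TT_iterate X μx ox t).symm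
  have e4 : ∏ t ∈ range p, Y^[t] (l2 my) = (ζ : L) ^ αy := by
    have := congrArg l2 h4
    rw [l2_prod, l2_CC] at this
    rw [← this]
    exact Finset.prod_congr rfl fun t _ => (l2_TT_iterate Y μy oy t).symm
  have e5 : l2 mx * X (l2 my) = (ζ : L) ^ κ * (l2 my * Y (l2 mx)) := by
    have := congrArg l2 h5
    rw [l2_mul, l2_mul, l2_mul, l2_CC, l2_TT, l2_TT, ox, oy, zpow_zero, zpow_zero,
      Units.val_one, mul_one, mul_one] at this
    exact this
  refine ⟨l2 mx * (μx : L) ^ (-j), l2 my * (μy : L) ^ (-j),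
    mul_ne_zero (l2_ne_zero hmx) (zpow_ne_zero _ nx),
    mul_ne_zero (l2_ne_zero hmy) (zpow_ne_zero _ ny), ?_, ?_, ?_, ?_, ?_⟩
  · have h6 : ((μx : L) ^ (-j)) ^ p = ((μx : L) ^ ((p : ℤ) * j))⁻¹ := by
      rw [← zpow_natCast, ← zpow_mul, ← zpow_neg]
      congr 1
      ring
    rw [mul_pow, h6, mul_assoc, mul_comm _ (l2 lam), ← mul_assoc, ← e1, mul_assoc,
      mul_inv_cancel₀ (zpow_ne_zero _ nx), mul_one]
  · have h6 : ((μy : L) ^ (-j)) ^ p = ((μy : L) ^ ((p : ℤ) * j))⁻¹ := by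
      rw [← zpow_natCast, ← zpow_mul, ← zpow_neg]
      congr 1
      ring
    rw [mul_pow, h6, mul_assoc, mul_comm _ (l2 lam), ← mul_assoc, ← e2, mul_assoc,
      mul_inv_cancel₀ (zpow_ne_zero _ ny), mul_one]
  · rw [loclt_iter_mul_zpow, e3, hNx, ← zpow_add₀ nζ]
    rfl
  · rw [loclt_iter_mul_zpow, e4, hNy, one_zpow, mul_one]
  · rw [map_mul, map_mul, map_zpow₀, map_zpow₀]
    have h7 : (μx : L) ^ (-j) * X (μy : L) ^ (-j) =
        (ζ : L) ^ j * ((μy : L) ^ (-j) * Y (μx : L) ^ (-j)) := by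
      rw [← mul_zpow, ← mul_zpow, ← hμ, mul_zpow (ζ : L), ← mul_assoc, ← zpow_add₀ nζ]
      simp
    calc l2 mx * (μx : L) ^ (-j) * (X (l2 my) * X (μy : L) ^ (-j))
        = (l2 mx * X (l2 my)) * ((μx : L) ^ (-j) * X (μy : L) ^ (-j)) := by ring
      _ = ((ζ : L) ^ κ * (l2 my * Y (l2 mx))) *
          ((ζ : L) ^ j * ((μy : L) ^ (-j) * Y (μx : L) ^ (-j))) := by rw [e5, h7]
      _ = ((ζ : L) ^ κ * (ζ : L) ^ j) *
          (l2 my * (μy : L) ^ (-j) * (Y (l2 mx) * Y (μx : L) ^ (-j))) := by ring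
      _ = _ := by rw [← zpow_add₀ nζ]

end

end OddGp
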