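import Mathlib
import Pool.Agent.W_MP_bec7e1_h80.LocRing

/-!
# The action of `Z/p` defined by a ring endomorphism of order `p`
-/

namespace OddGp

noncomputable section

variable {p : ℕ} [Fact p.Prime] {N : Type} [Field N]

theorem iter_mod (δ : N →+* N) (h : ∀ a, δ^[p] a = a) (n : ℕ) (a : N) :
    δ^[n % p] a = δ^[n] a := by
  conv_rhs => rw [← Nat.div_add_mod n p, add_comm, Function.iterate_add_apply]
  congr 1
  induction n / p with
  | zero => simp
  | succ k ih => rw [mul_add, mul_one, Function.iterate_add_apply, h]; exact ih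

theorem iter_map_mul (δ : N →+* N) (n : ℕ) (a b : N) : δ^[n] (a * b) = δ^[n] a * δ^[n] b := by
  induction n generalizing a b with
  | zero => rfl
  | succ n ih => rw [Function.iterate_succ_apply, Function.iterate_succ_apply,
      Function.iterate_succ_apply, map_mul, ih]

theorem iter_map_add (δ : N →+* N) (n : ℕ) (a b : N) : δ^[n] (a + b) = δ^[n] a + δ^[n] b := by
  induction n generalizing a b with
  | zero => rfl
  | succ n ih => rw [Function.iterate_succ_apply, Function.iterate_succ_apply,
      Function.iterate_succ_apply, map_add, ih]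

theorem iter_map_one (δ : N →+* N) (n : ℕ) : δ^[n] (1 : N) = 1 := by
  induction n with
  | zero => rfl
  | succ n ih => rw [Function.iterate_succ_apply, map_one, ih]

theorem iter_map_zero (δ : N →+* N) (n : ℕ) : δ^[n] (0 : N) = 0 := by
  induction n with
  | zero => rfl
  | succ n ih => rw [Function.iterate_succ_apply, map_zero, ih]

/-- `ofAdd n` acts by `δ ^ n`. -/
@[reducible] def actOrd (δ : N →+* N) (h : ∀ a, δ^[p] a = a) : MulSemiringAction (Zp p) N where
  smul g a := δ^[(Multiplicative.toAdd g).val] a
  one_smul a := by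
    change δ^[(0 : ZMod p).val] a = a
    rw [ZMod.val_zero]; rfl
  mul_smul g g' a := by
    change δ^[(Multiplicative.toAdd g + Multiplicative.toAdd g').val] a =
      δ^[(Multiplicative.toAdd g).val] (δ^[(Multiplicative.toAdd g').val] a)
    rw [ZMod.val_add, iter_mod δ h, Function.iterate_add_apply]
  smul_zero g := iter_map_zero δ _
  smul_add g := iter_map_add δ _
  smul_one g := iter_map_one δ _
  smul_mul g := iter_map_mul δ _

theorem actOrd_natCast (δ : N →+* N) (h : ∀ a, δ^[p] a = a) (n : ℕ) (a : N) :
    letI := actOrd δ h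
    (Multiplicative.ofAdd (n : ZMod p)) • a = δ^[n] a := by
  change δ^[(n : ZMod p).val] a = δ^[n] a
  rw [ZMod.val_natCast, iter_mod δ h]

theorem actOrd_one (δ : N →+* N) (h : ∀ a, δ^[p] a = a) (a : N) :
    letI := actOrd δ h
    (Multiplicative.ofAdd (1 : ZMod p)) • a = δ a := by
  have := actOrd_natCast δ h 1 a
  simpa using this

end

end OddGp
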