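import Mathlib
import Pool.Agent.W_MP_bec7e1_h80.LocRing

/-!
# Relations in the local ring `A`
-/

namespace OddGp

open HahnSeries Finset

noncomputable section

variable {p : ℕ} [Fact p.Prime] {L N : Type} [Field L] [Field N] [MulSemiringAction (Zp p) N]
  (em : L →+* N) (hem : ∀ (g : Zp p) (b : L), g • em b = em b)
  {ζ : Lˣ} {nn : L} {ν : N}

theorem e1_eq_zero {f : LaurentSeries L} (h : e1 em hem f = (0 : HD p N)) : f = 0 := by
  apply HahnSeries.ext
  funext n
  have h3 : CP.sg (trivC (Zp p) N) (Multiplicative.ofAdd (n : ZMod p)) (em (f.coeff n)) = 0 :=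
    congrArg (fun s : HD p N => (s : HahnSeries ℤ (SG p N)).coeff n) h
  rw [← CP.sg_zero (c := trivC (Zp p) N) (Multiplicative.ofAdd (n : ZMod p))] at h3
  exact (map_eq_zero em).1 (CP.sg_injective _ h3)

/-- TASK. `eA` is injective (`e1_coeff`, `CP.sg_injective`, `em` injective). -/
theorem eA_injective : Function.Injective (eA em hem) := by
  rw [injective_iff_map_eq_zero]
  intro f hf
  apply HahnSeries.ext
  funext a
  have h1 : e1 em hem (f.coeff a) = 0 := congrArg (fun s : AA p N => s.coeff a) hf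
  exact e1_eq_zero em hem h1

include hem in
/-- TASK. `ofAdd n • ν = ζ^{-n} ν`, in the form `em (ζ ^ n) * (ofAdd n • ν) = ν` (`n : ℤ`).
Proof: let `g = ofAdd 1`. From `em ζ * (g • ν) = ν` and `g • em ζ = em ζ` get
`em (ζ^n) * (g^n • ν) = ν` for `n : ℕ` by induction; then for negative `n` apply `g^{-n}`;
`ofAdd (n : ZMod p) = g ^ n`. -/
theorem smul_nu (hν : em ζ * ((Multiplicative.ofAdd (1 : ZMod p) : Zp p) • ν) = ν) (n : ℤ) :
    em ((ζ ^ n : Lˣ) : L) * ((Multiplicative.ofAdd (n : ZMod p) : Zp p) • ν) = ν := by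
  have hg : ∀ n : ℤ, (Multiplicative.ofAdd (n : ZMod p) : Zp p) =
      (Multiplicative.ofAdd (1 : ZMod p) : Zp p) ^ n := by
    intro n
    rw [← ofAdd_zsmul, zsmul_one]
  rw [hg]
  generalize (Multiplicative.ofAdd (1 : ZMod p) : Zp p) = g at hν
  induction n using Int.induction_on with
  | zero => rw [zpow_zero, zpow_zero, one_smul, Units.val_one, map_one, one_mul]
  | succ i ih =>
    have h1 := congrArg (fun s => g • s) ih
    simp only [smul_mul', hem] at h1
    rw [← mul_smul, ← zpow_one_add, add_comm] at h1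
    rw [zpow_add, zpow_one, mul_comm (ζ ^ (i : ℤ)), Units.val_mul, map_mul, mul_assoc, h1, hν]
  | pred i ih =>
    have h1 := congrArg (fun s => g⁻¹ • s) ih
    have h2 := congrArg (fun s => g⁻¹ • s) hν
    simp only [smul_mul', hem] at h1 h2
    rw [← mul_smul, ← zpow_neg_one, ← zpow_add, add_comm, ← sub_eq_add_neg] at h1
    rw [inv_smul_smul] at h2
    have h3 : em (ζ : L) ≠ 0 := (map_ne_zero em).2 ζ.ne_zero
    refine mul_left_cancel₀ h3 ?_
    rw [h2, ← zpow_neg_one, ← h1, ← mul_assoc, ← map_mul, ← Units.val_mul]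
    congr 4
    rw [zpow_sub_one, mul_comm, inv_mul_cancel_right]

/-- TASK. Conjugation by `ν` is `φ ↦ ζ φ`.
Proof: `eA = hmap e1`, `nA ν = C (nH ν)`; compare the coefficients at `ε^a`
(`HahnSeries.C_mul`-type lemmas / `coeff_single_mul_add`, `coeff_mul_single_add` with `0`), reducing
to `nH ν * e1 f = e1 (tw id ζ f) * nH ν` in `HD`; compare the coefficients at `φ^n`:
`of ν * sg n (em f_n) = sg n (ν * em f_n)` (`CP.of_mul_sg`) and
`sg n (em (f_n ζ^n)) * of ν = sg n (em f_n * em ζ^n * (ofAdd n • ν))` (`CP.sg_mul_of`), use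
`smul_nu`. -/
theorem nA_mul_eA (hν : em ζ * ((Multiplicative.ofAdd (1 : ZMod p) : Zp p) • ν) = ν)
    (f : LaurentSeries (LaurentSeries L)) :
    nA ν * eA em hem f = eA em hem (hmap (tw (RingHom.id L) ζ) f) * nA ν := by
  have key : ∀ g : LaurentSeries L, nH ν * e1 em hem g = e1 em hem (tw (RingHom.id L) ζ g) * nH ν := by
    intro g
    apply Subtype.ext
    apply HahnSeries.ext
    funext n
    change (HahnSeries.single 0 (CP.of _ ν) * ((e1 em hem g : HD p N) : HahnSeries ℤ (SG p N))).coeff n =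
      (((e1 em hem (tw (RingHom.id L) ζ g) : HD p N) : HahnSeries ℤ (SG p N)) *
        HahnSeries.single 0 (CP.of _ ν)).coeff n
    rw [coeff_single_zero_mul, coeff_mul_single_zero, e1_coeff, e1_coeff, CP.of_mul_sg, CP.sg_mul_of,
      tw_coeff, RingHom.id_apply, map_mul, mul_assoc, smul_nu em hem hν n, mul_comm]
  apply HahnSeries.ext
  funext a
  change (HahnSeries.single 0 (nH ν) * eA em hem f).coeff a =
    (eA em hem (hmap (tw (RingHom.id L) ζ) f) * HahnSeries.single 0 (nH ν)).coeff a
  rw [coeff_single_zero_mul, coeff_mul_single_zero]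
  exact key (f.coeff a)

/-- TASK. Constants: `nA (em b) = eA (C (C b))`. -/
theorem nA_em (b : L) :
    (nA (em b) : AA p N) = eA em hem (HahnSeries.C (HahnSeries.C b)) := by
  have key : nH (em b) = e1 em hem (HahnSeries.C b) := by
    apply Subtype.ext
    apply HahnSeries.ext
    funext n
    rw [e1_coeff]
    change (HahnSeries.single (0 : ℤ) (CP.of (trivC (Zp p) N) (em b))).coeff n =
      CP.sg _ _ (em ((HahnSeries.single (0 : ℤ) b).coeff n))
    rw [coeff_single, coeff_single]
    split_ifs with h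
    · rw [h, Int.cast_zero]
      rfl
    · rw [map_zero, CP.sg_zero]
  apply HahnSeries.ext
  funext a
  change (HahnSeries.single (0 : ℤ) (nH (em b))).coeff a =
    e1 em hem ((HahnSeries.single (0 : ℤ) (HahnSeries.C b)).coeff a)
  rw [coeff_single, coeff_single]
  split_ifs with h
  · exact key
  · rw [map_zero]

/-- TASK. The powers `ν ^ k`, `k < p`, are left independent over `eA (L((φ))((ε)))`.
Proof: take the coefficient at `ε^a`, then at `φ^n`: it is
`∑_k sg n (em (f k).coeff a .coeff n) * of (ν ^ k) = sg n (∑_k em(..) * (ofAdd n • ν) ^ k)`,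
and `(ofAdd n • ν)^k = em (ζ^{-nk}) ν^k` by `smul_nu`. So `∑_k em (b_k) ν^k = 0` with
`b_k = (f k).coeff a .coeff n * ζ^{-nk}`. Apply the automorphisms `ofAdd t`, `t < p`:
`∑_k em (b_k ζ^{-tk}) ν^k = 0`; the `ζ^{-k}` are distinct (`IsPrimitiveRoot`), so by Vandermonde
(`Matrix.eq_zero_of_forall_pow_sum_mul_pow_eq_zero`) all `em (b_k) ν^k = 0`, so `b_k = 0`. -/
theorem eA_indep (hζ : IsPrimitiveRoot (ζ : L) p) (hν0 : ν ≠ 0)
    (hν : em ζ * ((Multiplicative.ofAdd (1 : ZMod p) : Zp p) • ν) = ν)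
    (f : ℕ → LaurentSeries (LaurentSeries L))
    (h : ∑ k ∈ range p, eA em hem (f k) * (nA ν : AA p N) ^ k = 0) (k : ℕ) (hk : k < p) :
    f k = 0 := by
  apply HahnSeries.ext
  funext a
  apply HahnSeries.ext
  funext n
  change ((f k).coeff a).coeff n = 0
  -- the coefficient at `ε^a`
  have h1 : ∑ k ∈ range p, e1 em hem ((f k).coeff a) * nH (ν ^ k) = (0 : HD p N) := by
    have h2 := congrArg (fun s : AA p N => s.coeff a) h
    simp only [← map_pow] at h2
    rw [HahnSeries.coeff_sum] at h2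
    rw [HahnSeries.coeff_zero] at h2
    rw [← h2]
    refine Finset.sum_congr rfl fun k _ => ?_
    change _ = (eA em hem (f k) * HahnSeries.single 0 (nH (ν ^ k))).coeff a
    rw [coeff_mul_single_zero]
    rfl
  -- the coefficient at `φ^n`
  have h3 : ∑ k ∈ range p, CP.sg (trivC (Zp p) N) (Multiplicative.ofAdd (n : ZMod p))
      (em (((f k).coeff a).coeff n) * ((Multiplicative.ofAdd (n : ZMod p) : Zp p) • ν ^ k)) = 0 := by
    have h2 := congrArg (fun s : HD p N => (s : HahnSeries ℤ (SG p N)).coeff n) h1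
    simp only [AddSubmonoidClass.coe_finsetSum] at h2
    rw [HahnSeries.coeff_sum] at h2
    refine Eq.trans ?_ h2
    refine Finset.sum_congr rfl fun k _ => ?_
    change _ = (((e1 em hem ((f k).coeff a) : HD p N) : HahnSeries ℤ (SG p N)) *
      HahnSeries.single 0 (CP.of _ (ν ^ k))).coeff n
    rw [coeff_mul_single_zero, e1_coeff, CP.sg_mul_of]
  have h4 : ∑ k ∈ range p, em (((f k).coeff a).coeff n) *
      ((Multiplicative.ofAdd (n : ZMod p) : Zp p) • ν ^ k) = 0 := by
    have h5 : ∀ (s : Finset ℕ) (F : ℕ → N), CP.sg (trivC (Zp p) N)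
        (Multiplicative.ofAdd (n : ZMod p)) (∑ i ∈ s, F i) =
        ∑ i ∈ s, CP.sg _ (Multiplicative.ofAdd (n : ZMod p)) (F i) := by
      intro s F
      induction s using Finset.induction_on with
      | empty => rw [Finset.sum_empty, Finset.sum_empty, CP.sg_zero]
      | insert a s ha ih => rw [Finset.sum_insert ha, Finset.sum_insert ha, CP.sg_add, ih]
    rw [← h5, ← CP.sg_zero (c := trivC (Zp p) N) (Multiplicative.ofAdd (n : ZMod p))] at h3
    exact CP.sg_injective _ h3
  have h5 : ∀ t : ℕ, ∑ k ∈ range p, em (((f k).coeff a).coeff n) *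
      (((Multiplicative.ofAdd ((t : ℤ) : ZMod p) : Zp p) • ν) ^ k) = 0 := by
    intro t
    have h6 := congrArg (fun s => ((Multiplicative.ofAdd ((t : ℤ) : ZMod p) : Zp p) *
      (Multiplicative.ofAdd (n : ZMod p) : Zp p)⁻¹) • s) h4
    simp only [smul_zero, Finset.smul_sum, smul_mul', hem] at h6
    rw [← h6]
    refine Finset.sum_congr rfl fun k _ => ?_
    rw [mul_smul, inv_smul_smul, smul_pow']
  -- distinct values
  have h6 : ∀ t : ℕ, ((Multiplicative.ofAdd ((t : ℤ) : ZMod p) : Zp p) • ν) =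
      (em ((ζ : L) ^ t))⁻¹ * ν := by
    intro t
    have h7 := smul_nu em hem hν (t : ℤ)
    have h8 : em ((ζ : L) ^ t) ≠ 0 := (map_ne_zero em).2 (pow_ne_zero t ζ.ne_zero)
    rw [eq_inv_mul_iff_mul_eq₀ h8]
    rw [zpow_natCast, Units.val_pow_eq_pow_val] at h7
    exact h7
  have hinj : Function.Injective fun t : Fin p =>
      ((Multiplicative.ofAdd (((t : ℕ) : ℤ) : ZMod p) : Zp p) • ν) := by
    intro s t hst
    simp only [h6] at hst
    have h7 := mul_right_cancel₀ hν0 hst
    rw [inv_inj] at h7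
    exact Fin.ext (hζ.pow_inj s.2 t.2 (em.injective h7))
  let P : Polynomial N := ∑ k ∈ range p, Polynomial.monomial k (em (((f k).coeff a).coeff n))
  have hP : ∀ m, P.coeff m = if m ∈ range p then em (((f m).coeff a).coeff n) else 0 := by
    intro m
    simp only [P, Polynomial.finsetSum_coeff, Polynomial.coeff_monomial]
    rw [Finset.sum_ite_eq']
  have hp : 0 < p := (Fact.out : p.Prime).pos
  have hdeg : P.natDegree < p := by
    by_contra hc
    have h7 := hP P.natDegree
    rw [if_neg (by rw [Finset.mem_range]; exact hc), Polynomial.coeff_natDegree,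
      Polynomial.leadingCoeff_eq_zero] at h7
    rw [h7, Polynomial.natDegree_zero] at hc
    exact hc hp
  have hP0 : P = 0 := by
    refine Polynomial.eq_zero_of_natDegree_lt_card_of_eval_eq_zero P hinj (fun t => ?_) (by
      rw [Fintype.card_fin]; exact hdeg)
    simp only [P, Polynomial.eval_finsetSum, Polynomial.eval_monomial]
    exact h5 t
  have h7 := hP k
  rw [hP0, Polynomial.coeff_zero, if_pos (Finset.mem_range.2 hk)] at h7
  exact (map_eq_zero em).1 h7.symm

end

end OddGp
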