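import Mathlib
import Pool.Agent.W_MP_bec7e1_h80.Abs

/-!
# The universal property of `Q`
-/

namespace OddGp

open Finset

variable {p : ℕ} [Fact p.Prime] {K : Type} [Field K] [MulSemiringAction (GG p) K]

theorem of_mem_QQ (c : Coc (GG p) K) (a : K) : CP.of c a ∈ QQ c := by
  rw [mem_QQ]
  intro g hg
  rw [CP.of_apply, CP.sg_f_ne]
  rintro rfl
  exact hg rfl

theorem uz_mem_QQ (c : Coc (GG p) K) : CP.u c GG.z ∈ QQ c := by
  rw [mem_QQ]
  intro g hg
  rw [CP.u_def, CP.sg_f_ne]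
  rintro rfl
  exact hg rfl

/-- product of cocycle values -/
def ql_pc (c : Coc (GG p) K) (n : ℕ) : K := ∏ t ∈ range n, c.c (GG.z ^ t) GG.z

theorem ql_pc_ne (c : Coc (GG p) K) (n : ℕ) : ql_pc c n ≠ 0 :=
  Finset.prod_ne_zero_iff.2 fun _ _ => c.ne _ _

/-- TASK. `u_z ^ n = of (∏_{t<n} c(z^t, z)) * u_{z^n}` (induction: `CP.u_mul_u`, and
`of` is multiplicative; `u c 1 = 1`). -/
theorem uz_pow (c : Coc (GG p) K) (n : ℕ) :
    (CP.u c GG.z) ^ n = CP.of c (∏ t ∈ range n, c.c (GG.z ^ t) GG.z) * CP.u c (GG.z ^ n) := by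
  induction n with
  | zero => rw [pow_zero, range_zero, prod_empty, map_one, one_mul, pow_zero, CP.u_one]
  | succ n ih =>
    rw [pow_succ, ih, mul_assoc, CP.u_mul_u, ← mul_assoc, ← map_mul, prod_range_succ, ← pow_succ]

theorem ql_term (c : Coc (GG p) K) (a : K) (n : ℕ) :
    CP.of c a * (CP.u c GG.z) ^ n = CP.sg c (GG.z ^ n) (a * ql_pc c n) := by
  rw [uz_pow, ← mul_assoc, ← map_mul, CP.of_mul_u]
  rfl

theorem ql_z_inj {m n : ℕ} (hm : m < p) (hn : n < p) (h : (GG.z : GG p) ^ m = GG.z ^ n) :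
    m = n := by
  rw [GG.z_pow, GG.z_pow] at h
  have h1 : (m : ZMod p) = (n : ZMod p) := congrArg GG.k h
  have h2 := congrArg ZMod.val h1
  rwa [ZMod.val_natCast_of_lt hm, ZMod.val_natCast_of_lt hn] at h2

theorem ql_bar_one {g : GG p} (h : GG.bar g = 1) : g = GG.z ^ (g.k.val) := by
  rw [GG.z_pow]
  ext
  · simp
  · exact congrArg GA.i h
  · exact congrArg GA.j h

theorem ql_bar_pow (n : ℕ) : GG.bar ((GG.z : GG p) ^ n) = 1 := by
  rw [GG.z_pow]
  rfl

theorem ql_coeff (c : Coc (GG p) K) (a : ℕ → K) {m : ℕ} (hm : m < p) :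
    (∑ k ∈ range p, CP.of c (a k) * (CP.u c GG.z) ^ k).f (GG.z ^ m) = a m * ql_pc c m := by
  rw [CP.sum_f, Finset.sum_eq_single m]
  · rw [ql_term, CP.sg_f_self]
  · intro k hk hkm
    rw [ql_term, CP.sg_f_ne]
    intro h
    exact hkm (ql_z_inj hm (mem_range.1 hk) h).symm
  · intro h
    exact absurd (mem_range.2 hm) h

/-- TASK. -/
theorem uz_pow_p (c : Coc (GG p) K) : (CP.u c GG.z) ^ p = CP.of c (YY c) := by
  rw [uz_pow, GG.z_pow_p, CP.u_one, mul_one]
  rfl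

/-- TASK. Every element of `Q` is `∑_{k<p} of (a k) * u_z ^ k`, uniquely.
Proof: an element of `Q` is supported on `{g | bar g = 1} = {z^k | k < p}` (`GG.z_pow`), and
`u_{z^k} = of (∏_{t<k} c(z^t,z))⁻¹ u_z^k` by `uz_pow` (`Coc.ne`). -/
theorem QQ_repr (c : Coc (GG p) K) (q : CP c) (hq : q ∈ QQ c) :
    ∃ a : ℕ → K, q = ∑ k ∈ range p, CP.of c (a k) * (CP.u c GG.z) ^ k := by
  refine ⟨fun k => q.f (GG.z ^ k) * (ql_pc c k)⁻¹, ?_⟩
  ext g
  by_cases hg : GG.bar g = 1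
  · rw [ql_bar_one hg, ql_coeff c _ (ZMod.val_lt _), inv_mul_cancel_right₀ (ql_pc_ne c _)]
  · rw [hq g hg, CP.sum_f]
    symm
    refine Finset.sum_eq_zero fun k _ => ?_
    rw [ql_term, CP.sg_f_ne]
    rintro rfl
    exact hg (ql_bar_pow k)

/-- TASK. -/
theorem QQ_indep (c : Coc (GG p) K) (a : ℕ → K)
    (h : ∑ k ∈ range p, CP.of c (a k) * (CP.u c GG.z) ^ k = 0) (k : ℕ) (hk : k < p) : a k = 0 := by
  have h1 := ql_coeff c a hk
  rw [h, CP.zero_f] at h1
  exact (mul_eq_zero.1 h1.symm).resolve_right (ql_pc_ne c k)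

theorem ql_upow_of (c : Coc (GG p) K) (b : K) (n : ℕ) :
    (CP.u c GG.z) ^ n * CP.of c b = CP.of c ((GG.z : GG p) ^ n • b) * (CP.u c GG.z) ^ n := by
  induction n with
  | zero => rw [pow_zero, pow_zero, one_smul, one_mul, mul_one]
  | succ n ih =>
    rw [pow_succ' (CP.u c GG.z), mul_assoc, ih, ← mul_assoc, CP.u_mul_of, smul_smul, mul_assoc,
      ← pow_succ']

theorem ql_wpow {A : Type} [Ring A] (φ : K →+* A) (w : A)
    (hw : ∀ a, w * φ a = φ ((GG.z : GG p) • a) * w) (b : K) (n : ℕ) :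
    w ^ n * φ b = φ ((GG.z : GG p) ^ n • b) * w ^ n := by
  induction n with
  | zero => rw [pow_zero, pow_zero, one_smul, one_mul, mul_one]
  | succ n ih =>
    rw [pow_succ' w, mul_assoc, ih, ← mul_assoc, hw, smul_smul, mul_assoc, ← pow_succ']

/-- the additive map -/
noncomputable def ql_Phi (c : Coc (GG p) K) {A : Type} [Ring A] (φ : K →+* A) (w : A)
    (q : CP c) : A :=
  ∑ k ∈ range p, φ (q.f (GG.z ^ k) * (ql_pc c k)⁻¹) * w ^ k

theorem ql_Phi_add (c : Coc (GG p) K) {A : Type} [Ring A] (φ : K →+* A) (w : A) (q q' : CP c) :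
    ql_Phi c φ w (q + q') = ql_Phi c φ w q + ql_Phi c φ w q' := by
  unfold ql_Phi
  rw [← Finset.sum_add_distrib]
  refine Finset.sum_congr rfl fun k _ => ?_
  rw [CP.add_f, add_mul, map_add, add_mul]

theorem ql_Phi_zero (c : Coc (GG p) K) {A : Type} [Ring A] (φ : K →+* A) (w : A) :
    ql_Phi c φ w 0 = 0 := by
  unfold ql_Phi
  refine Finset.sum_eq_zero fun k _ => ?_
  rw [CP.zero_f, zero_mul, map_zero, zero_mul]

theorem ql_Phi_sum (c : Coc (GG p) K) {A : Type} [Ring A] (φ : K →+* A) (w : A) (s : Finset ℕ)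
    (F : ℕ → CP c) : ql_Phi c φ w (∑ k ∈ s, F k) = ∑ k ∈ s, ql_Phi c φ w (F k) := by
  induction s using Finset.induction_on with
  | empty => rw [sum_empty, sum_empty, ql_Phi_zero]
  | insert a s ha ih => rw [Finset.sum_insert ha, Finset.sum_insert ha, ql_Phi_add, ih]

theorem ql_Phi_term_lt (c : Coc (GG p) K) {A : Type} [Ring A] (φ : K →+* A) (w : A) (a : K)
    {n : ℕ} (hn : n < p) : ql_Phi c φ w (CP.of c a * (CP.u c GG.z) ^ n) = φ a * w ^ n := by
  unfold ql_Phi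
  rw [Finset.sum_eq_single n]
  · rw [ql_term, CP.sg_f_self, mul_inv_cancel_right₀ (ql_pc_ne c n)]
  · intro k hk hkn
    rw [ql_term, CP.sg_f_ne, zero_mul, map_zero, zero_mul]
    intro h
    exact hkn (ql_z_inj (mem_range.1 hk) hn h)
  · intro h
    exact absurd (mem_range.2 hn) h

theorem ql_Phi_term (c : Coc (GG p) K) {A : Type} [Ring A] (φ : K →+* A) (w : A)
    (hp : w ^ p = φ (YY c)) (n : ℕ) (a : K) :
    ql_Phi c φ w (CP.of c a * (CP.u c GG.z) ^ n) = φ a * w ^ n := by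
  induction n using Nat.strong_induction_on generalizing a with
  | _ n ih =>
    rcases lt_or_ge n p with hn | hn
    · exact ql_Phi_term_lt c φ w a hn
    · obtain ⟨m, rfl⟩ := Nat.exists_eq_add_of_le hn
      have hpos : 0 < p := (Fact.out : p.Prime).pos
      rw [pow_add (CP.u c GG.z), uz_pow_p, ← mul_assoc, ← map_mul, ih m (by omega), map_mul,
        pow_add w, hp, mul_assoc]

/-- TASK. The universal property of `Q = ⨁_{k<p} K u_z^k`: a ring hom `φ : K → A` and `w ∈ A` with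
`w φ(a) = φ(z a) w`, `w^p = φ(YY c)` define a ring hom `Q → A`.
Proof: define `Φ(q) = ∑_{k<p} φ(a k) w^k` where `q = ∑ of (a k) u_z^k` (`QQ_repr`, `QQ_indep`; a
convenient explicit choice is `a k = q.f (z^k) * (∏_{t<k} c(z^t,z))⁻¹`). Additivity is clear.
Multiplicativity: by additivity it is enough to treat `of a u_z^k` and `of b u_z^l`, `k, l < p`:
`of a u_z^k of b u_z^l = of (a (z^k b)) u_z^{k+l}`, and `φ(a) w^k φ(b) w^l = φ(a (z^k b)) w^{k+l}`.
If `k + l < p` we are done; otherwise `u_z^{k+l} = of (YY c) u_z^{k+l-p}` (`uz_pow_p`) and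
`w^{k+l} = φ(YY c) w^{k+l-p}` (note that `YY c` commutes with `u_z`, i.e. `z (YY c) = YY c`). -/
theorem exists_lift (c : Coc (GG p) K) {A : Type} [Ring A] (φ : K →+* A) (w : A)
    (hw : ∀ a, w * φ a = φ ((GG.z : GG p) • a) * w) (hp : w ^ p = φ (YY c)) :
    ∃ Φ : QQ c →+* A, (∀ (a : K), Φ ⟨CP.of c a, of_mem_QQ c a⟩ = φ a) ∧
      Φ ⟨CP.u c GG.z, uz_mem_QQ c⟩ = w := by
  have hof : ∀ a, ql_Phi c φ w (CP.of c a) = φ a := by
    intro a
    have h1 := ql_Phi_term c φ w hp 0 a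
    rwa [pow_zero, pow_zero, mul_one, mul_one] at h1
  have hmul : ∀ q ∈ QQ c, ∀ q' ∈ QQ c,
      ql_Phi c φ w (q * q') = ql_Phi c φ w q * ql_Phi c φ w q' := by
    intro q hq q' hq'
    obtain ⟨a, ha⟩ := QQ_repr c q hq
    obtain ⟨b, hb⟩ := QQ_repr c q' hq'
    rw [ha, hb, Finset.sum_mul, ql_Phi_sum, ql_Phi_sum, ql_Phi_sum, Finset.sum_mul]
    refine Finset.sum_congr rfl fun k _ => ?_
    rw [Finset.mul_sum, Finset.mul_sum, ql_Phi_sum]
    refine Finset.sum_congr rfl fun l _ => ?_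
    have h1 : CP.of c (a k) * (CP.u c GG.z) ^ k * (CP.of c (b l) * (CP.u c GG.z) ^ l) =
        CP.of c (a k * ((GG.z : GG p) ^ k • b l)) * (CP.u c GG.z) ^ (k + l) := by
      rw [map_mul, pow_add, mul_assoc, ← mul_assoc ((CP.u c GG.z) ^ k), ql_upow_of]
      simp only [mul_assoc]
    rw [h1, ql_Phi_term c φ w hp, ql_Phi_term c φ w hp, ql_Phi_term c φ w hp, map_mul, pow_add,
      mul_assoc (φ (a k)) (w ^ k), ← mul_assoc (w ^ k) (φ (b l)), ql_wpow φ w hw]
    simp only [mul_assoc]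
  refine ⟨{ toFun := fun q => ql_Phi c φ w q.1
            map_one' := ?_
            map_mul' := fun q q' => hmul q.1 q.2 q'.1 q'.2
            map_zero' := ql_Phi_zero c φ w
            map_add' := fun q q' => ql_Phi_add c φ w q.1 q'.1 }, hof, ?_⟩
  · have h1 := hof 1
    rw [map_one, map_one] at h1
    exact h1
  · have h1 := ql_Phi_term c φ w hp 1 1
    rw [map_one, map_one, one_mul, one_mul, pow_one, pow_one] at h1
    exact h1

/-- TASK. Injectivity criterion: `Φ(∑ of (a k) u_z^k) = ∑ φ(a k) w^k`. -/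
theorem lift_injective (c : Coc (GG p) K) {A : Type} [Ring A] (φ : K →+* A) (w : A)
    (Φ : QQ c →+* A) (h1 : ∀ (a : K), Φ ⟨CP.of c a, of_mem_QQ c a⟩ = φ a)
    (h2 : Φ ⟨CP.u c GG.z, uz_mem_QQ c⟩ = w)
    (hind : ∀ a : ℕ → K, ∑ k ∈ range p, φ (a k) * w ^ k = 0 → ∀ k < p, a k = 0) :
    Function.Injective Φ := by
  rw [injective_iff_map_eq_zero]
  intro q hq
  obtain ⟨a, ha⟩ := QQ_repr c q.1 q.2
  have h3 : q = ∑ k ∈ range p, (⟨CP.of c (a k), of_mem_QQ c (a k)⟩ : QQ c) *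
      (⟨CP.u c GG.z, uz_mem_QQ c⟩ : QQ c) ^ k := by
    apply Subtype.ext
    rw [ha]
    simp only [AddSubmonoidClass.coe_finset_sum, Subring.coe_mul, SubmonoidClass.coe_pow]
  rw [h3, map_sum] at hq
  simp only [map_mul, map_pow, h1, h2] at hq
  have h4 := hind a hq
  apply Subtype.ext
  rw [ha]
  refine Finset.sum_eq_zero fun k hk => ?_
  rw [h4 k (mem_range.1 hk), map_zero, zero_mul]

end OddGp
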