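import Mathlib
import Pool.Agent.W_MP_bec7e1_h80.QLift
import Pool.Agent.W_MP_bec7e1_h80.LocRel
import Pool.Agent.W_MP_bec7e1_h80.ActOrd

/-!
# The embedding `Q → A`; `Q` is a domain
-/

namespace OddGp

open HahnSeries Finset

noncomputable section

variable {p : ℕ} [Fact p.Prime] {K : Type} [Field K] [MulSemiringAction (GG p) K]
  {c : Coc (GG p) K} {ζK : K} {L N : Type} [Field L] [Field N]

theorem AA_assoc [MulSemiringAction (Zp p) N] (a b d : AA p N) : a * b * d = a * (b * d) :=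
  mul_assoc a b d

theorem AA_one_mul [MulSemiringAction (Zp p) N] (a : AA p N) : 1 * a = a := one_mul a

theorem AA_mul_one [MulSemiringAction (Zp p) N] (a : AA p N) : a * 1 = a := mul_one a

theorem AA_pow_zero [MulSemiringAction (Zp p) N] (a : AA p N) : a ^ 0 = 1 := pow_zero a

theorem AA_pow_succ [MulSemiringAction (Zp p) N] (a : AA p N) (k : ℕ) : a ^ (k + 1) = a ^ k * a :=
  pow_succ a k

theorem eA_mul [MulSemiringAction (Zp p) N] (em : L →+* N)
    (hem : ∀ (g : Zp p) (b : L), g • em b = em b) (f g : LaurentSeries (LaurentSeries L)) :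
    eA em hem (f * g) = eA em hem f * eA em hem g := map_mul (eA em hem) f g

theorem AA_swap [MulSemiringAction (Zp p) N] {n e : AA p N} (h : n * e = e * n) (k : ℕ) :
    e * n ^ k = n ^ k * e := by
  induction k with
  | zero => rw [AA_pow_zero, AA_mul_one, AA_one_mul]
  | succ k ih => rw [AA_pow_succ, ← AA_assoc, ih, AA_assoc, ← h, AA_assoc]

theorem eA_calc1 [MulSemiringAction (Zp p) N] (em : L →+* N)
    (hem : ∀ (g : Zp p) (b : L), g • em b = em b) {ζ : Lˣ} {ν : N}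
    (hν : em ζ * ((Multiplicative.ofAdd (1 : ZMod p) : Zp p) • ν) = ν)
    (E x y : LaurentSeries (LaurentSeries L))
    (hE : hmap (tw (RingHom.id L) ζ) E = E) (hxy : y = hmap (tw (RingHom.id L) ζ) x) 
    (hc : (nA ν : AA p N) * eA em hem E = eA em hem E * nA ν) :
    (nA ν * eA em hem E) * eA em hem x = eA em hem y * (nA ν * eA em hem E) := by
  rw [AA_assoc, ← eA_mul, nA_mul_eA em hem hν, hc, ← AA_assoc, ← eA_mul, hxy, map_mul, hE, mul_comm E]

theorem eA_calc2 [MulSemiringAction (Zp p) N] (em : L →+* N)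
    (hem : ∀ (g : Zp p) (b : L), g • em b = em b) {ν : N}
    (E x : LaurentSeries (LaurentSeries L))
    (hc : (nA ν : AA p N) * eA em hem E = eA em hem E * nA ν) (k : ℕ) :
    eA em hem (x * E ^ k) * (nA ν : AA p N) ^ k = eA em hem x * (nA ν * eA em hem E) ^ k := by
  induction k with
  | zero => rw [AA_pow_zero, AA_pow_zero, pow_zero, mul_one]
  | succ k ih =>
    rw [AA_pow_succ, AA_pow_succ, pow_succ, ← mul_assoc x, eA_mul, AA_assoc, ← AA_assoc (eA em hem E),
      AA_swap hc, AA_assoc, ← AA_assoc, ih, ← hc, AA_assoc]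
theorem eA_calc3 [MulSemiringAction (Zp p) N] (em : L →+* N)
    (hem : ∀ (g : Zp p) (b : L), g • em b = em b) {ν : N} {nn : L}
    (E x : LaurentSeries (LaurentSeries L))
    (hc : (nA ν : AA p N) * eA em hem E = eA em hem E * nA ν) (hνp : ν ^ p = em nn)
    (hx : x = HahnSeries.C (HahnSeries.C nn) * E ^ p) :
    (nA ν * eA em hem E) ^ p = eA em hem x := by
  have h1 := eA_calc2 em hem E 1 hc p
  have h2 : eA em hem 1 = (1 : AA p N) := map_one (eA em hem)
  have h3 : (nA ν : AA p N) ^ p = nA (ν ^ p) := (map_pow (nA : N →+* AA p N) ν p).symm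
  rw [h2, AA_one_mul, one_mul, h3, hνp, nA_em em hem, ← eA_mul] at h1
  rw [← h1, hx, mul_comm]

/-- TASK. The embedding `Q → A`, `a ↦ eA (ι a)`, `u_z ↦ nA ν * eA E`.
Proof: `exists_lift` with `φ = (eA em hem).comp le.ι`, `w = nA ν * eA E`. By `nA_mul_eA` and
`le.hE`, `nA ν` commutes with `eA E`; `w * φ a = nA ν * eA (E * ι a) =
eA (tw (E * ι a)) * nA ν = eA (ι (z a)) * eA E * nA ν = φ (z a) * w` by `le.hE`, `le.hz`;
`w ^ p = (nA ν)^p * (eA E)^p = nA (em nn) * eA (E^p) = eA (C (C nn) * E^p) = φ (YY c)` by `nA_em`,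
`le.hY`. Injectivity by `lift_injective`, `eA_indep`: `∑ φ(a k) w^k = ∑ eA (ι (a k) * E^k) (nA ν)^k`,
so `ι (a k) * E^k = 0`; `E ≠ 0` because `ι (YY c) ≠ 0` (`YY c ≠ 0` by `Coc.ne`). -/
theorem exists_Phi [MulSemiringAction (Zp p) N] (em : L →+* N)
    (hem : ∀ (g : Zp p) (b : L), g • em b = em b) {ζ : Lˣ} {nn : L} {ν : N}
    (hζ : IsPrimitiveRoot (ζ : L) p) (hν0 : ν ≠ 0)
    (hν : em ζ * ((Multiplicative.ofAdd (1 : ZMod p) : Zp p) • ν) = ν) (hνp : ν ^ p = em nn)
    {X Y : L →+* L} {μx μy : Lˣ} (le : LocEmb c ζK ζ nn X Y μx μy) :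
    ∃ Φ : QQ c →+* AA p N, Function.Injective Φ ∧
      ∀ a : K, Φ ⟨CP.of c a, of_mem_QQ c a⟩ = eA em hem (le.ι a) := by
  have hc : (nA ν : AA p N) * eA em hem le.E = eA em hem le.E * nA ν := by
    rw [nA_mul_eA em hem hν, le.hE]
  have hw : ∀ a, (nA ν * eA em hem le.E) * ((eA em hem).comp le.ι) a =
      ((eA em hem).comp le.ι) ((GG.z : GG p) • a) * (nA ν * eA em hem le.E) := by
    intro a
    rw [RingHom.comp_apply, RingHom.comp_apply]
    exact eA_calc1 em hem hν le.E (le.ι a) (le.ι ((GG.z : GG p) • a)) le.hE (le.hz a) hc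
  have hp : (nA ν * eA em hem le.E) ^ p = ((eA em hem).comp le.ι) (YY c) := by
    exact eA_calc3 em hem le.E _ hc hνp le.hY
  obtain ⟨Φ, h1, h2⟩ := exists_lift c ((eA em hem).comp le.ι) (nA ν * eA em hem le.E) hw hp
  refine ⟨Φ, ?_, h1⟩
  apply lift_injective c ((eA em hem).comp le.ι) (nA ν * eA em hem le.E) Φ h1 h2
  intro a ha k hk
  have hE : le.E ≠ 0 := by
    intro h
    have h3 := le.hY
    rw [h, zero_pow (Fact.out : p.Prime).ne_zero, mul_zero, map_eq_zero, YY,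
      Finset.prod_eq_zero_iff] at h3
    obtain ⟨t, _, ht⟩ := h3
    exact c.ne _ _ ht
  have h4 : ∑ k ∈ range p, eA em hem (le.ι (a k) * le.E ^ k) * (nA ν : AA p N) ^ k = 0 := by
    rw [← ha]
    apply Finset.sum_congr rfl
    intro k _
    exact eA_calc2 em hem le.E (le.ι (a k)) hc k
  have h5 := eA_indep em hem hζ hν0 hν _ h4 k hk
  rcases mul_eq_zero.1 h5 with h | h
  · exact (map_eq_zero le.ι).1 h
  · exact absurd h (pow_ne_zero _ hE)

/-- TASK. `Q` is a domain: use `actOrd`, `exists_Phi` and `AA_mul_ne_zero`. -/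
theorem QQ_domain {em : L →+* N} {δ : N →+* N} {ζ : Lˣ} {nn : L} {ν : N}
    (hK : Kum p em δ (ζ : L) nn ν) {X Y : L →+* L} {μx μy : Lˣ}
    (le : LocEmb c ζK ζ nn X Y μx μy) (a b : CP c) (ha : a ∈ QQ c) (hb : b ∈ QQ c)
    (ha0 : a ≠ 0) (hb0 : b ≠ 0) : a * b ≠ 0 := by
  let _ : MulSemiringAction (Zp p) N := actOrd δ hK.ord
  have hem : ∀ (g : Zp p) (b : L), g • em b = em b := by
    intro g b
    change δ^[(Multiplicative.toAdd g).val] (em b) = em b
    exact Function.iterate_fixed (hK.em_fix b) _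
  have hν : em ζ * ((Multiplicative.ofAdd (1 : ZMod p) : Zp p) • ν) = ν := by
    rw [actOrd_one δ hK.ord ν]
    exact hK.δν
  obtain ⟨Φ, hΦ, _⟩ := exists_Phi em hem hK.prim hK.ν0 hν hK.νp le
  intro hab
  have h1 : (⟨a, ha⟩ : QQ c) * ⟨b, hb⟩ = 0 := Subtype.ext hab
  have h2 : Φ ⟨a, ha⟩ * Φ ⟨b, hb⟩ = 0 := by rw [← map_mul, h1, map_zero]
  refine AA_mul_ne_zero ?_ ?_ h2
  · intro h
    apply ha0
    have := hΦ (h.trans (map_zero Φ).symm)
    exact congrArg Subtype.val this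
  · intro h
    apply hb0
    have := hΦ (h.trans (map_zero Φ).symm)
    exact congrArg Subtype.val this

end

end OddGp
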