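import Mathlib
import Pool.Agent.W_MP_bec7e1_h80.LocPhi
import Pool.Agent.W_MP_bec7e1_h80.LocCore
import Pool.Agent.W_MP_bec7e1_h80.LocLT

/-!
# The local analysis
-/

namespace OddGp

open HahnSeries Finset

noncomputable section

variable {p : ℕ} [Fact p.Prime] {K : Type} [Field K] [MulSemiringAction (GG p) K]
  {c : Coc (GG p) K} {ζK : K} {L N : Type} [Field L] [Field N]

/-- TASK. The centre of `Q` is `K^z`.
Proof: `q * of a = of a * q` gives `q.f g * (g • a) = a * q.f g` (`CP.mul_of_f`, `CP.of_mul_f`); if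
`q.f g ≠ 0` then `g • a = a` for all `a`, so `g = 1` (`FaithfulSMul`). So `q = of (q.f 1)`; and
`q * u_z = u_z * q` gives `z • q.f 1 = q.f 1` (`CP.u_mul_of`). -/
theorem QQ_center [FaithfulSMul (GG p) K] (q : CP c) (hq : ∀ b ∈ QQ c, q * b = b * q) :
    ∃ a : K, (GG.z : GG p) • a = a ∧ CP.of c a = q := by
  have h1 : ∀ g, q.f g ≠ 0 → g = 1 := by
    intro g hg
    have h2 : ∀ a : K, g • a = a := by
      intro a
      have h3 := congrArg (fun s : CP c => s.f g) (hq _ (of_mem_QQ c a))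
      simp only [CP.mul_of_f, CP.of_mul_f] at h3
      rw [mul_comm a] at h3
      exact mul_left_cancel₀ hg h3
    apply FaithfulSMul.eq_of_smul_eq_smul (M := GG p) (α := K)
    intro a
    rw [h2, one_smul]
  obtain ⟨a, rfl⟩ : ∃ a : K, CP.of c a = q := by
    refine ⟨q.f 1, ?_⟩
    ext g
    rw [CP.of_apply]
    by_cases hg : g = 1
    · rw [hg, CP.sg_f_self]
    · rw [CP.sg_f_ne hg]
      by_contra h3
      exact hg (h1 g (fun h4 => h3 h4.symm))
  refine ⟨a, ?_, rfl⟩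
  have h3 := hq _ (uz_mem_QQ c)
  rw [CP.u_mul_of, CP.of_mul_u, CP.of_mul_u] at h3
  exact (CP.sg_injective _ h3).symm

/-- TASK. The local analysis of bad data.
Proof: let `letI := actOrd δ hK.ord`, `hem` from `hK.em_fix`, and `Φ : Q → A` from `exists_Phi`
(`ν`-hypotheses from `hK`, `actOrd_one`). Let `(q, lam, mx, my)` be the bad data. Then
`Φ(q)^p = Φ(of lam) = eA (ι lam)`; apply `core` to `ι lam` and `Φ q` (`hmap (tw id ζ) (ι lam) =
ι (z lam) = ι lam` by `le.hz`): get `j`, `q0`. Apply `loc_relations` to `ι lam, ι mx, ι my`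
(hypotheses: apply `ι` to the relations of the bad data and use `le.hx`, `le.hy`, `le.hζ`;
`(TT X μx)^[t] (ι m) = ι (x^t m)` by induction). If `p ∣ j` and `q0 = em b`, then `Φ q` is central
in `A`, so `q` commutes with all of `Q` (`Φ` injective), so `q = of a` with `z a = a` (`QQ_center`),
contradicting the bad data. `l = l2 (ι lam)`; `∏ (ofAdd 1)^t • q0 = ∏ δ^[t] q0`. -/
theorem loc_out [FaithfulSMul (GG p) K] [CharZero N] {em : L →+* N} {δ : N →+* N} {ζ : Lˣ}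
    {nn : L} {ν : N} (hK : Kum p em δ (ζ : L) nn ν) {X Y : L →+* L} {μx μy : Lˣ}
    (hNx : ∏ t ∈ range p, X^[t] (μx : L) = ζ) (hNy : ∏ t ∈ range p, Y^[t] (μy : L) = 1)
    (hμ : (ζ : L) * ((μx : L) * X μy) = μy * Y μx)
    (le : LocEmb c ζK ζ nn X Y μx μy) (αx αy κ : ℤ) (hbad : BadType c ζK αx αy κ) :
    LocOut p em δ (ζ : L) X Y αx αy κ := by
  letI := actOrd δ hK.ord
  have hem : ∀ (g : Zp p) (b : L), g • em b = em b := fun g b =>
    Function.iterate_fixed (hK.em_fix b) _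
  have hone : ∀ a : N, (Multiplicative.ofAdd (1 : ZMod p) : Zp p) • a = δ a :=
    actOrd_one δ hK.ord
  obtain ⟨Φ, hΦinj, hΦ⟩ := exists_Phi em hem hK.prim hK.ν0 (by rw [hone]; exact hK.δν) hK.νp le
  obtain ⟨q, lam, mx, my, hqQ, hqc, hlam, hmx, hmy, hzl, hzmx, hzmy, hqp, hxl, hyl, hpx, hpy,
    hxy⟩ := hbad
  have hp0 : p ≠ 0 := (Fact.out : p.Prime).ne_zero
  have hιl : le.ι lam ≠ 0 := (map_ne_zero le.ι).2 hlam
  have hιmx : le.ι mx ≠ 0 := (map_ne_zero le.ι).2 hmx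
  have hιmy : le.ι my ≠ 0 := (map_ne_zero le.ι).2 hmy
  have hΦq : (Φ ⟨q, hqQ⟩) ^ p = eA em hem (le.ι lam) := by
    rw [← map_pow, ← hΦ]
    congr 1
    apply Subtype.ext
    exact hqp
  have hz : hmap (tw (RingHom.id L) ζ) (le.ι lam) = le.ι lam := by
    rw [← le.hz, hzl]
  obtain ⟨j, q0, hq0, hj, hcase⟩ := core em hem hK.prim (le.ι lam) hιl (Φ ⟨q, hqQ⟩) hΦq hz
  have hιx : ∀ (m : K) (t : ℕ), le.ι (((GG.x : GG p) ^ t) • m) = (TT X μx)^[t] (le.ι m) := by
    intro m t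
    induction t with
    | zero => rw [pow_zero, one_smul]; rfl
    | succ t ih => rw [pow_succ', mul_smul, le.hx, ih, Function.iterate_succ_apply']; rfl
  have hιy : ∀ (m : K) (t : ℕ), le.ι (((GG.y : GG p) ^ t) • m) = (TT Y μy)^[t] (le.ι m) := by
    intro m t
    induction t with
    | zero => rw [pow_zero, one_smul]; rfl
    | succ t ih => rw [pow_succ', mul_smul, le.hy, ih, Function.iterate_succ_apply']; rfl
  have hιζ : ∀ n : ℤ, le.ι (ζK ^ n) = HahnSeries.C (HahnSeries.C ((ζ : L) ^ n)) := by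
    intro n
    rw [map_zpow₀, le.hζ, map_zpow₀, map_zpow₀]
  have r1 : TT X μx (le.ι lam) = (le.ι mx) ^ p * le.ι lam := by
    rw [← map_pow, ← map_mul, ← hxl, le.hx]; rfl
  have r2 : TT Y μy (le.ι lam) = (le.ι my) ^ p * le.ι lam := by
    rw [← map_pow, ← map_mul, ← hyl, le.hy]; rfl
  have r3 : ∏ t ∈ range p, (TT X μx)^[t] (le.ι mx) =
      HahnSeries.C (HahnSeries.C ((ζ : L) ^ αx)) := by
    rw [← hιζ, ← hpx, map_prod]
    exact Finset.prod_congr rfl fun t _ => (hιx mx t).symm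
  have r4 : ∏ t ∈ range p, (TT Y μy)^[t] (le.ι my) =
      HahnSeries.C (HahnSeries.C ((ζ : L) ^ αy)) := by
    rw [← hιζ, ← hpy, map_prod]
    exact Finset.prod_congr rfl fun t _ => (hιy my t).symm
  have r5 : le.ι mx * TT X μx (le.ι my) =
      HahnSeries.C (HahnSeries.C ((ζ : L) ^ κ)) * (le.ι my * TT Y μy (le.ι mx)) := by
    have hx1 : TT X μx (le.ι my) = le.ι ((GG.x : GG p) • my) := (le.hx my).symm
    have hy1 : TT Y μy (le.ι mx) = le.ι ((GG.y : GG p) • mx) := (le.hy mx).symm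
    rw [← hιζ, hx1, hy1, ← map_mul, ← map_mul, ← map_mul, hxy]
  obtain ⟨mx', my', hmx', hmy', e1, e2, e3, e4, e5⟩ := loc_relations hp0 ζ X Y μx μy hNx hNy hμ
    (le.ι lam) (le.ι mx) (le.ι my) αx αy κ j hιl hιmx hιmy hj r1 r2 r3 r4 r5
  refine ⟨j, l2 (le.ι lam), mx', my', q0, l2_ne_zero hιl, hmx', hmy', hq0, e1, e2, e3, e4, e5, ?_⟩
  rcases hcase with ⟨hpj, hc⟩ | ⟨hpj, hc, hcen⟩
  · left
    refine ⟨hpj, ?_⟩
    have hpw : ∀ (t : ℕ) (a : N),
        ((Multiplicative.ofAdd (1 : ZMod p) : Zp p) ^ t) • a = δ^[t] a := by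
      intro t a
      induction t with
      | zero => rw [pow_zero, one_smul]; rfl
      | succ t ih => rw [pow_succ', mul_smul, ih, hone, Function.iterate_succ_apply']
    exact hc.trans (Finset.prod_congr rfl fun t _ => hpw t q0)
  · right
    refine ⟨hpj, hc, ?_⟩
    intro b hb
    have hc1 := hcen ⟨b, hb⟩
    obtain ⟨a, ha1, ha2⟩ := QQ_center q (fun b' hb' => by
      have h1 : (⟨q, hqQ⟩ : QQ c) * ⟨b', hb'⟩ = ⟨b', hb'⟩ * ⟨q, hqQ⟩ := by
        apply hΦinj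
        rw [map_mul, map_mul, hc1]
      exact congrArg Subtype.val h1)
    exact hqc a ha1 ha2

end

end OddGp
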