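import Mathlib
import Pool.Agent.W_MP_bec7e1_h80.ClaimAC
import Pool.Agent.W_MP_bec7e1_h80.ClaimBC
import Pool.Agent.W_MP_bec7e1_h80.DMain
import Pool.Agent.W_MP_bec7e1_h80.LocEmbC
import Pool.Agent.W_MP_bec7e1_h80.LocOutThm
import Pool.Agent.W_MP_bec7e1_h80.Concl
import Pool.Agent.W_MP_bec7e1_h80.GpIso

/-!
# `G_p` is rigid for odd `p`
-/

namespace OddGp

open HahnSeries

noncomputable section

section faithful

variable {p : ℕ} [Fact p.Prime]

theorem Circ_faithful (g : GG p) (h : ∀ m : Circ (GG p), g • m = m) : g = 1 := by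
  by_contra hg
  have hp : Fact (1 < p) := ⟨(Fact.out : p.Prime).one_lt⟩
  have h1 := h (cc GG.x GG.y)
  have h2 := congrArg (fun m : Circ (GG p) => m.1 1 GG.x) h1
  change (cc (GG.x : GG p) GG.y).1 (g⁻¹ * 1) GG.x = (cc (GG.x : GG p) GG.y).1 1 GG.x at h2
  have hx1 : (GG.x : GG p) ≠ 1 := fun h => one_ne_zero (congrArg GG.i h)
  have hxy : (GG.x : GG p) ≠ GG.y := fun h => one_ne_zero (congrArg GG.i h)
  have hxxy : (GG.x : GG p) ≠ GG.x * GG.y := fun h => by
    have h3 := congrArg GG.j h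
    simp at h3
  have hg' : g⁻¹ * 1 ≠ 1 := by
    rw [mul_one]; exact inv_ne_one.2 hg
  rw [cc_val] at h2
  simp only [Pi.sub_apply, Pi.add_apply, edge, hx1, hxy, hxxy, hg', ne_eq, not_false_eq_true,
    and_true, and_false, false_and, if_false, if_true, true_and, add_zero, sub_zero] at h2
  exact zero_ne_one h2

instance (C : Type) [Field C] : FaithfulSMul (GG p) (fK C p) := by
  constructor
  intro g g' h
  have h1 : ∀ m : Circ (GG p), (g'⁻¹ * g) • m = m := by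
    intro m
    have h2 := h (mon (1 : C) m)
    rw [smul_mon, smul_mon] at h2
    have h3 := mon_injective h2
    rw [AddMonoidAlgebra.single_left_inj one_ne_zero] at h3
    rw [mul_smul, h3, inv_smul_smul]
  have h2 := Circ_faithful _ h1
  exact (inv_mul_eq_one.1 h2).symm

end faithful

section main

variable {C : Type} [Field C] [CharZero C] {p : ℕ} [Fact p.Prime] (η : Cˣ)

theorem rigid_GG (hp2 : p ≠ 2) (hη : IsPrimitiveRoot (η : C) (p ^ 2)) :
    IsRigid (FF p (fK C p)) (GG p) := by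
  have hη1 : (η : C) ^ (p ^ 2) = 1 := hη.pow_eq_one
  have hp0 : 0 < p := (Fact.out : p.Prime).pos
  have hζC : IsPrimitiveRoot ((η : C) ^ p) p := hη.pow (by positivity) (by rw [sq])
  have hK := kumC (p := p) η hη
  obtain ⟨le0⟩ := exists_locEmb (p := p) η hη 0
  obtain ⟨le1⟩ := exists_locEmb (p := p) η hη 1
  have hXζ : ∀ d, XC p η d (zeC p η : fL C p) = zeC p η := fun d => by
    rw [zeC_val, XC, zHom_cst]
  have hYζ : ∀ d, YC p η d (zeC p η : fL C p) = zeC p η := fun d => by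
    rw [zeC_val, YC, zHom_cst]
  refine rigid_of_noBad hp2 (cK C p) (cst ((η : C) ^ p)) (cst_root hζC)
    (fun g => smul_cst g _) (fun a b ha hb ha0 hb0 => QQ_domain hK le0 a b ha hb ha0 hb0) ?_
  intro αx αy κ hbad hdiv
  have o0 := loc_out hK (NX_mu η 0) (NY_mu η 0) (mu_comm η 0) le0 αx αy κ hbad
  have o1 := loc_out hK (NX_mu η 1) (NY_mu η 1) (mu_comm η 1) le1 αx αy κ hbad
  have hYn : YC p η 0 (nnC p) = nnC p := by
    have h := YC_nn (p := p) η 0
    rw [mul_zero, neg_zero, zpow_zero, Units.val_one, map_one, one_mul] at h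
    exact h
  have hY1n : (zeC p η : fL C p) * YC p η 1 (nnC p) = nnC p := by
    rw [YC_nn, ← mul_assoc, zeC_val, ← map_mul, mul_one]
    have h : (η : C) ^ p * (((η ^ (-(p : ℤ)) : Cˣ)) : C) = 1 := by
      rw [← Units.val_pow_eq_pow_val, ← Units.val_mul, ← zpow_natCast, ← zpow_add,
        add_neg_cancel, zpow_zero, Units.val_one]
    rw [h, map_one, one_mul]
  have hηp : (cst (η : C) : fL C p) ^ p = zeC p η := by
    rw [zeC_val, map_pow]
  have hY1η : YC p η 1 (cst (η : C) : fL C p) = cst (η : C) := by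
    rw [YC, zHom_cst]
  exact conclusion hK hηp (XC p η 0) (YC p η 0) (XC p η 1) (YC p η 1) (XC_ord η hη1 0)
    (YC_ord η hη1 0) (YC_ord η hη1 1) (XC_nn η 0) hYn hY1n (hXζ 0) (hYζ 0) hY1η
    (XY_comm η hη1) (claimA_X η hp2 hη 0) (claimA_Y η hp2 hη) (claimB_0 η hp2 hη)
    (claimA_X η hp2 hη 1) αx αy κ hdiv o0 o1

/-- The constants `C → F`. -/
def constFF (C : Type) [Field C] (p : ℕ) [Fact p.Prime] : C →+* FF p (fK C p) :=
  ((HahnSeries.C : fK C p →+* HahnSeries VV (fK C p)).comp cst).codRestrict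
    (FixedPoints.subfield (GG p) (HahnSeries VV (fK C p)))
    (fun a => C_mem_FF (cst a) (fun g => smul_cst g a))

end main

/-- isomorphic groups are rigid over the same fields -/
theorem IsRigid.of_equiv {F G G' : Type} [Field F] [Group G] [Group G'] (e : G ≃* G')
    (h : IsRigid F G) : IsRigid F G' := by
  obtain ⟨A, iA, aA, h1, h2, h3, ⟨K, iK, aK, f, g1, g2, g3, ⟨g4⟩⟩, h5⟩ := h
  refine ⟨A, iA, aA, h1, h2, h3, ⟨K, iK, aK, f, g1, g2, g3, ⟨g4.trans e⟩⟩, ?_⟩
  intro H _ hH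
  obtain ⟨g⟩ := h5 H hH
  exact ⟨g.trans e⟩

/-- The odd case. -/
theorem rigid_odd (p : ℕ) (hp : p.Prime) (hp2 : p ≠ 2) (C₀ : Type) [Field C₀] [CharZero C₀]
    (ζ : C₀) (hζ : IsPrimitiveRoot ζ (p ^ 2)) :
    ∃ (F : Type) (_ : Field F) (_ : Algebra C₀ F),
      IsPrimitiveRoot (algebraMap C₀ F ζ) (p ^ 2) ∧ IsRigid F (W_bec7e1.Gp p) := by
  have : Fact p.Prime := ⟨hp⟩
  have hpp : p ^ 2 ≠ 0 := pow_ne_zero 2 hp.ne_zero
  let η : C₀ˣ := Units.mk0 ζ (hζ.ne_zero hpp)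
  have hη : IsPrimitiveRoot (η : C₀) (p ^ 2) := hζ
  obtain ⟨e⟩ := GG_equiv_Gp (p := p)
  let a : Algebra C₀ (FF p (fK C₀ p)) := (constFF C₀ p).toAlgebra
  refine ⟨FF p (fK C₀ p), inferInstance, a, ?_, (rigid_GG η hp2 hη).of_equiv e⟩
  exact hζ.map_of_injective (RingHom.injective (algebraMap C₀ (FF p (fK C₀ p))))

end

end OddGp
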